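import Pool.Agent.H23.TF.Defs

/-! Module A1: integrals of radial functions on `ℝ³` (helper55).

Use `integral_fun_norm_addHaar`, `integrableOn_fun_norm_addHaar`, `integrable_fun_norm_addHaar` (Mathlib, HaarToSphere),
`finrank_euclideanSpace`, `EuclideanSpace.volume_ball`, translation invariance. For `lintegral_radial` one can redo the
proof of `integral_fun_norm_addHaar` with `measurePreserving_homeomorphUnitSphereProd` (lintegral version) or use
`lintegral` layer cake. -/

open MeasureTheory Set Filter Topology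
open scoped ENNReal NNReal

namespace Pool.Agent.H23.TF

theorem lintegral_radial (f : ℝ → ℝ≥0∞) (hf : Measurable f) :
    ∫⁻ x : E3, f ‖x‖ = ∫⁻ r in Ioi (0 : ℝ), ENNReal.ofReal (4 * Real.pi * r ^ 2) * f r := by
  have hdim : Module.finrank ℝ E3 = 3 := by simp
  have hvol : (volume : Measure E3).toSphere univ = ENNReal.ofReal (4 * Real.pi) := by
    rw [Measure.toSphere_apply_univ, EuclideanSpace.volume_ball_fin_three, hdim]
    rw [ENNReal.ofReal_one, one_pow, one_mul, show ((3 : ℕ) : ℝ≥0∞) = ENNReal.ofReal 3 by norm_num,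
      ← ENNReal.ofReal_mul (by norm_num)]
    congr 1
    ring
  calc
    ∫⁻ x : E3, f ‖x‖ = ∫⁻ x : ({(0 : E3)}ᶜ : Set E3), f (‖x.1‖) ∂((volume : Measure E3).comap (↑)) := by
      rw [lintegral_subtype_comap (measurableSet_singleton _).compl (fun x : E3 ↦ f (‖x‖)),
        restrict_compl_singleton]
    _ = ∫⁻ x, f x.2 ∂(volume : Measure E3).toSphere.prod (.volumeIoiPow (Module.finrank ℝ E3 - 1)) := by
      have := (volume : Measure E3).measurePreserving_homeomorphUnitSphereProd.lintegral_comp_emb
        (Homeomorph.measurableEmbedding _) (fun p => f p.2.1)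
      rw [← this]
      refine lintegral_congr fun x => ?_
      simp
    _ = (volume : Measure E3).toSphere univ *
          ∫⁻ x : Ioi (0 : ℝ), f x ∂.volumeIoiPow (Module.finrank ℝ E3 - 1) := by
      rw [lintegral_prod _ (by fun_prop)]
      simp only [lintegral_const]
      rw [mul_comm]
    _ = _ := by
      rw [hvol, hdim]
      simp only [Measure.volumeIoiPow]
      rw [lintegral_withDensity_eq_lintegral_mul _ (by fun_prop) (by fun_prop)]
      simp only [Pi.mul_apply]
      rw [lintegral_subtype_comap measurableSet_Ioi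
        (fun a : ℝ ↦ ENNReal.ofReal (a ^ (3 - 1)) * f a), ← lintegral_const_mul _ (by fun_prop)]
      refine lintegral_congr fun r => ?_
      rw [← mul_assoc, ← ENNReal.ofReal_mul (by positivity)]

theorem volume_ball_real (c : E3) {r : ℝ} (hr : 0 ≤ r) :
    volume (Metric.ball c r) = ENNReal.ofReal (4 / 3 * Real.pi * r ^ 3) := by
  rw [EuclideanSpace.volume_ball_fin_three, ← ENNReal.ofReal_pow hr,
    ← ENNReal.ofReal_mul (by positivity)]
  congr 1
  ring

theorem integrableOn_ball {p : ℝ} (hp0 : 0 ≤ p) (hp : p < 3) (c : E3) (r : ℝ) :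
    IntegrableOn (fun x : E3 => (‖x - c‖ ^ p)⁻¹) (Metric.ball c r) := by
  have hdim : Module.finrank ℝ E3 = 3 := by simp
  have h0 : IntegrableOn (fun x : E3 => (‖x‖ ^ p)⁻¹) (Metric.ball (0 : E3) r) := by
    rw [integrableOn_fun_norm_addHaar (volume : Measure E3) (f := fun s : ℝ => (s ^ p)⁻¹), hdim]
    have h1 : IntegrableOn (fun y : ℝ => y ^ (2 - p)) (Ioo 0 r) := by
      rcases le_or_gt r 0 with hr | hr
      · rw [Ioo_eq_empty (by linarith)]
        exact integrableOn_empty
      · rw [← integrableOn_Ioc_iff_integrableOn_Ioo,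
          ← intervalIntegrable_iff_integrableOn_Ioc_of_le hr.le]
        exact intervalIntegral.intervalIntegrable_rpow' (by linarith)
    refine h1.congr_fun (fun y hy => ?_) measurableSet_Ioo
    have hy0 : 0 < y := hy.1
    simp only [smul_eq_mul]
    rw [Real.rpow_sub hy0, div_eq_mul_inv]
    norm_num
  have h2 := (measurePreserving_sub_right (volume : Measure E3) c).integrableOn_comp_preimage
    (MeasurableEquiv.subRight c).measurableEmbedding (f := fun x : E3 => (‖x‖ ^ p)⁻¹)
    (s := Metric.ball (0 : E3) r)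
  have h3 : (fun x => x - c) ⁻¹' Metric.ball (0 : E3) r = Metric.ball c r := by
    ext x; simp [dist_eq_norm]
  have h4 := h2.2 h0
  rw [h3] at h4
  exact h4

theorem integrableOn_compl {p : ℝ} (hp : 3 < p) (c : E3) {r : ℝ} (hr : 0 < r) :
    IntegrableOn (fun x : E3 => (‖x - c‖ ^ p)⁻¹) (Metric.ball c r)ᶜ := by
  have hdim : Module.finrank ℝ E3 = 3 := by simp
  have h0 : Integrable (fun x : E3 => (Ici r).indicator (fun s : ℝ => (s ^ p)⁻¹) ‖x‖) := by
    rw [integrable_fun_norm_addHaar (volume : Measure E3)
      (f := (Ici r).indicator (fun s : ℝ => (s ^ p)⁻¹)), hdim]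
    have h1 : IntegrableOn (fun y : ℝ => y ^ (2 - p)) (Ici r) := by
      rw [integrableOn_Ici_iff_integrableOn_Ioi]
      exact integrableOn_Ioi_rpow_of_lt (by linarith) hr
    have h2 : Integrable ((Ici r).indicator (fun y : ℝ => y ^ (2 - p))) :=
      (integrable_indicator_iff measurableSet_Ici).2 h1
    refine h2.integrableOn.congr_fun (fun y hy => ?_) measurableSet_Ioi
    have hy0 : 0 < y := hy
    by_cases hyr : r ≤ y
    · rw [indicator_of_mem (by exact hyr), indicator_of_mem (by exact hyr)]
      simp only [smul_eq_mul]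
      rw [Real.rpow_sub hy0, div_eq_mul_inv]
      norm_num
    · rw [indicator_of_notMem (by exact hyr), indicator_of_notMem (by exact hyr)]
      simp
  have h1 : IntegrableOn (fun x : E3 => (‖x‖ ^ p)⁻¹) (Metric.ball (0 : E3) r)ᶜ := by
    rw [← integrable_indicator_iff measurableSet_ball.compl]
    refine h0.congr (Eventually.of_forall fun x => ?_)
    by_cases hx : r ≤ ‖x‖
    · rw [indicator_of_mem (by simpa using hx)]
      simp only
      rw [indicator_of_mem (by exact hx)]
    · rw [indicator_of_notMem (by simpa using hx)]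
      simp only
      rw [indicator_of_notMem (by exact hx)]
  have h2 := (measurePreserving_sub_right (volume : Measure E3) c).integrableOn_comp_preimage
    (MeasurableEquiv.subRight c).measurableEmbedding (f := fun x : E3 => (‖x‖ ^ p)⁻¹)
    (s := (Metric.ball (0 : E3) r)ᶜ)
  have h3 : (fun x => x - c) ⁻¹' (Metric.ball (0 : E3) r)ᶜ = (Metric.ball c r)ᶜ := by
    ext x; simp [dist_eq_norm]
  have h4 := h2.2 h1
  rw [h3] at h4
  exact h4

end Pool.Agent.H23.TF
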