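import Pool.Agent.H23.TF.A1_Rad

/-! Module A2: the class `Ld = {f : f ∈ L¹, |f|^(5/3) ∈ L¹}` is a vector space, closed under domination.
(`|a+b|^(5/3) ≤ 2^(2/3) (|a|^(5/3)+|b|^(5/3)) `, or `≤ (2 max)^(5/3) ≤ 2^(5/3)(|a|^(5/3)+|b|^(5/3))`.) -/

open MeasureTheory Set Filter Topology
open scoped ENNReal NNReal

namespace Pool.Agent.H23.TF

variable {f g : E3 → ℝ}

theorem aesm_pow53 (hg : AEStronglyMeasurable g volume) :
    AEStronglyMeasurable (fun x => |g x| ^ (5 / 3 : ℝ)) volume :=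
  (hg.norm.aemeasurable.pow_const _).aestronglyMeasurable

theorem Ld.mono (hf : Ld f) (hg : AEStronglyMeasurable g volume) (h : ∀ᵐ x, |g x| ≤ |f x|) :
    Ld g := by
  refine ⟨hf.i1.mono hg ?_, hf.i2.mono' (aesm_pow53 hg) ?_⟩
  · filter_upwards [h] with x hx
    rwa [Real.norm_eq_abs, Real.norm_eq_abs]
  · filter_upwards [h] with x hx
    rw [Real.norm_eq_abs, abs_of_nonneg (Real.rpow_nonneg (abs_nonneg _) _)]
    exact Real.rpow_le_rpow (abs_nonneg _) hx (by norm_num)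

theorem Ld.congr (hf : Ld f) (h : f =ᵐ[volume] g) : Ld g := by
  refine hf.mono (hf.i1.1.congr h) ?_
  filter_upwards [h] with x hx
  rw [hx]

theorem Ld.zero : Ld (fun _ => 0) := by
  refine ⟨integrable_zero _ _ _, ?_⟩
  have : (fun _ : E3 => |(0:ℝ)| ^ (5 / 3 : ℝ)) = fun _ => 0 := by
    funext x
    rw [abs_zero, Real.zero_rpow (by norm_num)]
  rw [this]
  exact integrable_zero _ _ _

theorem Ld.add (hf : Ld f) (hg : Ld g) : Ld (fun x => f x + g x) := by
  refine ⟨hf.i1.add hg.i1, ?_⟩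
  have hb : Integrable (fun x => (2:ℝ) ^ (5 / 3 : ℝ) *
      (|f x| ^ (5 / 3 : ℝ) + |g x| ^ (5 / 3 : ℝ))) := (hf.i2.add hg.i2).const_mul _
  refine hb.mono' (aesm_pow53 (hf.i1.1.add hg.i1.1)) (Eventually.of_forall fun x => ?_)
  have h0 : (0:ℝ) ≤ |f x + g x| := abs_nonneg _
  rw [Real.norm_eq_abs, abs_of_nonneg (Real.rpow_nonneg h0 _)]
  have h1 : |f x + g x| ≤ 2 * max |f x| |g x| := by
    refine (abs_add_le _ _).trans ?_
    have e1 := le_max_left |f x| |g x|
    have e2 := le_max_right |f x| |g x|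
    linarith
  have hm : 0 ≤ max |f x| |g x| := le_max_of_le_left (abs_nonneg _)
  refine (Real.rpow_le_rpow h0 h1 (by norm_num)).trans ?_
  rw [Real.mul_rpow (by norm_num) hm]
  apply mul_le_mul_of_nonneg_left _ (by positivity)
  have p1 : 0 ≤ |f x| ^ (5 / 3 : ℝ) := by positivity
  have p2 : 0 ≤ |g x| ^ (5 / 3 : ℝ) := by positivity
  rcases max_choice |f x| |g x| with h | h <;> rw [h] <;> linarith

theorem Ld.const_mul (hf : Ld f) (c : ℝ) : Ld (fun x => c * f x) := by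
  refine ⟨hf.i1.const_mul c, ?_⟩
  have : (fun x => |c * f x| ^ (5 / 3 : ℝ)) = fun x => |c| ^ (5 / 3 : ℝ) * |f x| ^ (5 / 3 : ℝ) := by
    funext x
    rw [abs_mul, Real.mul_rpow (abs_nonneg _) (abs_nonneg _)]
  rw [this]
  exact hf.i2.const_mul _

theorem Ld.sub (hf : Ld f) (hg : Ld g) : Ld (fun x => f x - g x) := by
  have h := hf.add (hg.const_mul (-1))
  have e : (fun x => f x + -1 * g x) = fun x => f x - g x := by
    funext x
    ring
  rwa [e] at h

theorem Ld.indicator (hf : Ld f) {s : Set E3} (hs : MeasurableSet s) : Ld (s.indicator f) := by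
  refine hf.mono (hf.i1.1.indicator hs) (Eventually.of_forall fun x => ?_)
  have := norm_indicator_le_norm_self (s := s) f x
  rwa [Real.norm_eq_abs, Real.norm_eq_abs] at this

/-- for nonnegative functions -/
theorem Ld.of_nonneg (h0 : ∀ x, 0 ≤ f x) (h1 : Integrable f)
    (h2 : Integrable (fun x => f x ^ (5 / 3 : ℝ))) : Ld f := by
  refine ⟨h1, ?_⟩
  have : (fun x => |f x| ^ (5 / 3 : ℝ)) = fun x => f x ^ (5 / 3 : ℝ) := by
    funext x
    rw [abs_of_nonneg (h0 x)]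
  rwa [this]

/-- the density of a solution is in `Ld` -/
theorem Sol.ld {W φ : E3 → ℝ} (h : Sol W φ) : Ld (fun x => φ x ^ (3 / 2 : ℝ)) := by
  refine Ld.of_nonneg (fun x => Real.rpow_nonneg (h.nonneg x) _) h.i1 ?_
  have : (fun x => (φ x ^ (3 / 2 : ℝ)) ^ (5 / 3 : ℝ)) = fun x => φ x ^ (5 / 2 : ℝ) := by
    funext x
    rw [← Real.rpow_mul (h.nonneg x)]
    norm_num
  rw [this]
  exact h.i2

/-- bounded integrable functions are in `Ld` -/
theorem Ld.of_bdd (h1 : Integrable f) {C : ℝ} (hC : ∀ x, |f x| ≤ C) : Ld f := by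
  refine ⟨h1, ?_⟩
  have hb : Integrable (fun x => C ^ (2 / 3 : ℝ) * ‖f x‖) := h1.norm.const_mul _
  refine hb.mono' (aesm_pow53 h1.1) (Eventually.of_forall fun x => ?_)
  have h0 : (0:ℝ) ≤ |f x| := abs_nonneg _
  rw [Real.norm_eq_abs, abs_of_nonneg (Real.rpow_nonneg h0 _), Real.norm_eq_abs]
  have e : (5 / 3 : ℝ) = 2 / 3 + 1 := by norm_num
  rw [e, Real.rpow_add_one' h0 (by norm_num)]
  exact mul_le_mul_of_nonneg_right (Real.rpow_le_rpow h0 (hC x) (by norm_num)) h0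

/-- `|x-c|^(-6)` outside a ball is in `Ld` -/
theorem Ld.pow6 (c : E3) {r : ℝ} (hr : 0 < r) :
    Ld ((Metric.ball c r)ᶜ.indicator (fun x => (‖x - c‖ ^ (6 : ℝ))⁻¹)) := by
  refine Ld.of_bdd (C := (r ^ (6 : ℝ))⁻¹) ?_ ?_
  · rw [integrable_indicator_iff Metric.isOpen_ball.measurableSet.compl]
    exact integrableOn_compl (by norm_num) c hr
  · intro x
    by_cases hx : x ∈ (Metric.ball c r)ᶜ
    · rw [Set.indicator_of_mem hx]
      have hx' : r ≤ ‖x - c‖ := by
        rw [Set.mem_compl_iff, Metric.mem_ball, not_lt, dist_eq_norm] at hx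
        exact hx
      have h1 : r ^ (6 : ℝ) ≤ ‖x - c‖ ^ (6 : ℝ) := Real.rpow_le_rpow hr.le hx' (by norm_num)
      have h2 : 0 < r ^ (6 : ℝ) := Real.rpow_pos_of_pos hr _
      rw [abs_of_nonneg (by positivity)]
      exact inv_anti₀ h2 h1
    · rw [Set.indicator_of_notMem hx, abs_zero]
      positivity

end Pool.Agent.H23.TF
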