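import Pool.Agent.H23.TF.A2_Ld

/-! Module A3: the Coulomb potential `G f` of `f ∈ Ld`.

Bound: for `‖x-y‖ < 1`: `|f y|/‖x-y‖ ≤ |f y|^(5/3) + ‖x-y‖^(-5/2)` (Young, exponents 5/3 and 5/2), and `∫_{B(x,1)} ‖x-y‖^(-5/2) = C0`
does not depend on `x`; for `‖x-y‖ ≥ 1`: `≤ |f y|`. Everything else: Fubini (`integrable_prod_iff`, `integral_integral_swap`). -/

open MeasureTheory Set Filter Topology
open scoped ENNReal NNReal

namespace Pool.Agent.H23.TF

variable {f g : E3 → ℝ}

/-- the pointwise bound -/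
lemma div_bound (t : ℝ) (x y : E3) : |t| / ‖x - y‖ ≤ |t| + |t| ^ (5 / 3 : ℝ) +
    (Metric.ball x 1).indicator (fun y => (‖y - x‖ ^ (5 / 2 : ℝ))⁻¹) y := by
  have h1 : 0 ≤ |t| := abs_nonneg t
  have h2 : 0 ≤ |t| ^ (5 / 3 : ℝ) := by positivity
  have h3 : 0 ≤ (Metric.ball x 1).indicator (fun y => (‖y - x‖ ^ (5 / 2 : ℝ))⁻¹) y :=
    indicator_nonneg (fun y _ => by positivity) y
  rcases le_or_gt 1 ‖x - y‖ with h | h
  · have : |t| / ‖x - y‖ ≤ |t| := div_le_self h1 h
    linarith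
  · have hm : y ∈ Metric.ball x 1 := by rw [mem_ball_iff_norm, norm_sub_rev]; exact h
    rw [indicator_of_mem hm]
    have hy : |t| * ‖x - y‖⁻¹ ≤ |t| ^ (5 / 3 : ℝ) / (5 / 3) + (‖x - y‖⁻¹) ^ (5 / 2 : ℝ) / (5 / 2) :=
      Real.young_inequality_of_nonneg h1 (by positivity) ⟨by norm_num, by norm_num, by norm_num⟩
    rw [Real.inv_rpow (norm_nonneg _)] at hy
    have h4 : 0 ≤ (‖x - y‖ ^ (5 / 2 : ℝ))⁻¹ := by positivity
    rw [norm_sub_rev y x, div_eq_mul_inv]
    have : (‖x - y‖ ^ (5 / 2 : ℝ))⁻¹ / (5 / 2) ≤ (‖x - y‖ ^ (5 / 2 : ℝ))⁻¹ :=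
      div_le_self h4 (by norm_num)
    have : |t| ^ (5 / 3 : ℝ) / (5 / 3) ≤ |t| ^ (5 / 3 : ℝ) := div_le_self h2 (by norm_num)
    linarith

lemma int_indic (x : E3) :
    Integrable ((Metric.ball x 1).indicator (fun y : E3 => (‖y - x‖ ^ (5 / 2 : ℝ))⁻¹)) :=
  (integrable_indicator_iff Metric.isOpen_ball.measurableSet).mpr
    (integrableOn_ball (by norm_num) (by norm_num) x 1)

lemma int_indic_eq (x : E3) :
    ∫ y, (Metric.ball x 1).indicator (fun y : E3 => (‖y - x‖ ^ (5 / 2 : ℝ))⁻¹) y =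
    ∫ y, (Metric.ball (0 : E3) 1).indicator (fun y : E3 => (‖y‖ ^ (5 / 2 : ℝ))⁻¹) y := by
  rw [← integral_sub_right_eq_self (μ := (volume : Measure E3))
    ((Metric.ball (0 : E3) 1).indicator (fun y : E3 => (‖y‖ ^ (5 / 2 : ℝ))⁻¹)) x]
  congr 1
  ext y
  simp only [indicator, mem_ball_iff_norm, sub_zero]

lemma Ld.int_bound (hf : Ld f) (x : E3) : Integrable (fun y => |f y| + |f y| ^ (5 / 3 : ℝ) +
    (Metric.ball x 1).indicator (fun y => (‖y - x‖ ^ (5 / 2 : ℝ))⁻¹) y) :=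
  (hf.i1.abs.add hf.i2).add (int_indic x)

lemma aesm_div (hf : AEStronglyMeasurable f volume) (x : E3) :
    AEStronglyMeasurable (fun y => f y / ‖x - y‖) volume := by
  have : Measurable (fun y : E3 => ‖x - y‖⁻¹) := by fun_prop
  simp only [div_eq_mul_inv]
  exact hf.mul this.aestronglyMeasurable

theorem Ld.int_div (hf : Ld f) (x : E3) : Integrable (fun y => f y / ‖x - y‖) := by
  refine (hf.int_bound x).mono' (aesm_div hf.i1.aestronglyMeasurable x) (Eventually.of_forall fun y => ?_)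
  rw [Real.norm_eq_abs, abs_div, abs_norm]
  exact div_bound (f y) x y

lemma Ld.int_abs_div (hf : Ld f) (x : E3) : Integrable (fun y => |f y| / ‖x - y‖) := by
  have := (hf.int_div x).abs
  refine this.congr (Eventually.of_forall fun y => ?_)
  simp only [abs_div, abs_norm]

theorem exists_G_le : ∃ C0 : ℝ, 0 ≤ C0 ∧ ∀ f : E3 → ℝ, Ld f → ∀ x,
    ∫ y, |f y| / ‖x - y‖ ≤ C0 + (∫ y, |f y|) + ∫ y, |f y| ^ (5 / 3 : ℝ) := by
  refine ⟨∫ y, (Metric.ball (0 : E3) 1).indicator (fun y : E3 => (‖y‖ ^ (5 / 2 : ℝ))⁻¹) y,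
    integral_nonneg (fun y => indicator_nonneg (fun y _ => by positivity) y), fun f hf x => ?_⟩
  calc ∫ y, |f y| / ‖x - y‖ ≤ ∫ y, (|f y| + |f y| ^ (5 / 3 : ℝ) +
      (Metric.ball x 1).indicator (fun y => (‖y - x‖ ^ (5 / 2 : ℝ))⁻¹) y) :=
        integral_mono (hf.int_abs_div x) (hf.int_bound x) (fun y => div_bound (f y) x y)
    _ = (∫ y, |f y|) + (∫ y, |f y| ^ (5 / 3 : ℝ)) +
        ∫ y, (Metric.ball x 1).indicator (fun y => (‖y - x‖ ^ (5 / 2 : ℝ))⁻¹) y := by
        have h12 : Integrable (fun y => |f y| + |f y| ^ (5 / 3 : ℝ)) := hf.i1.abs.add hf.i2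
        rw [integral_add h12 (int_indic x), integral_add hf.i1.abs hf.i2]
    _ = _ := by rw [int_indic_eq x]; ring

theorem Ld.G_bdd (hf : Ld f) : ∃ C, ∀ x, |G f x| ≤ C := by
  obtain ⟨C0, _, h⟩ := exists_G_le
  refine ⟨_, fun x => le_trans ?_ (h f hf x)⟩
  unfold G
  calc |∫ y, f y / ‖x - y‖| ≤ ∫ y, |f y / ‖x - y‖| := abs_integral_le_integral_abs
    _ = _ := by simp only [abs_div, abs_norm]

theorem measurable_G (hf : Measurable f) : Measurable (G f) := by
  have h : StronglyMeasurable (Function.uncurry fun x y : E3 => f y / ‖x - y‖) := by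
    apply Measurable.stronglyMeasurable
    unfold Function.uncurry
    fun_prop
  exact (h.integral_prod_right (ν := (volume : Measure E3))).measurable

theorem G_congr (h : f =ᵐ[volume] g) : G f = G g := by
  funext x
  apply integral_congr_ae
  filter_upwards [h] with y hy
  rw [hy]

theorem aesm_G (hf : AEStronglyMeasurable f volume) : AEStronglyMeasurable (G f) volume := by
  rw [G_congr hf.ae_eq_mk]
  exact (measurable_G hf.stronglyMeasurable_mk.measurable).aestronglyMeasurable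

theorem G_add (hf : Ld f) (hg : Ld g) (x : E3) : G (fun y => f y + g y) x = G f x + G g x := by
  unfold G
  rw [← integral_add (hf.int_div x) (hg.int_div x)]
  simp only [add_div]

theorem G_sub (hf : Ld f) (hg : Ld g) (x : E3) : G (fun y => f y - g y) x = G f x - G g x := by
  unfold G
  rw [← integral_sub (hf.int_div x) (hg.int_div x)]
  simp only [sub_div]

theorem G_const_mul (c : ℝ) (f : E3 → ℝ) (x : E3) : G (fun y => c * f y) x = c * G f x := by
  unfold G
  rw [← integral_const_mul]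
  simp only [mul_div_assoc]

theorem G_mono (hf : Ld f) (hg : Ld g) (h : ∀ᵐ x, f x ≤ g x) (x : E3) : G f x ≤ G g x := by
  apply integral_mono_ae (hf.int_div x) (hg.int_div x)
  filter_upwards [h] with y hy
  exact div_le_div_of_nonneg_right hy (norm_nonneg _)

theorem G_nonneg (h : ∀ᵐ x, 0 ≤ f x) (x : E3) : 0 ≤ G f x := by
  apply integral_nonneg_of_ae
  filter_upwards [h] with y hy
  exact div_nonneg hy (norm_nonneg _)

theorem V_add {k : ℕ} (R : Fin k → E3) (z w : Fin k → ℝ) (x : E3) :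
    V R (z + w) x = V R z x + V R w x := by
  simp only [V, Pi.add_apply, add_div, Finset.sum_add_distrib]

theorem V_smul {k : ℕ} (R : Fin k → E3) (c : ℝ) (z : Fin k → ℝ) (x : E3) :
    V R (c • z) x = c * V R z x := by
  simp only [V, Pi.smul_apply, smul_eq_mul, mul_div_assoc, Finset.mul_sum]

theorem measurable_V {k : ℕ} (R : Fin k → E3) (z : Fin k → ℝ) : Measurable (V R z) := by
  unfold V
  fun_prop

/-- `G f` is lower semicontinuous for `f ≥ 0` (Fatou) -/
theorem G_le_of_tendsto (hf : Ld f) (h0 : ∀ᵐ x, 0 ≤ f x) (a : E3) (u : ℕ → E3)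
    (hu : Tendsto u atTop (𝓝 a)) (m : ℕ → ℝ) (m0 : ℝ) (hm : Tendsto m atTop (𝓝 m0))
    (h : ∀ n, G f (u n) ≤ m n) : G f a ≤ m0 := by
  have hm0 : 0 ≤ m0 := ge_of_tendsto' hm fun n => (G_nonneg h0 (u n)).trans (h n)
  have key : ∀ x, ENNReal.ofReal (G f x) = ∫⁻ y, ENNReal.ofReal (f y / ‖x - y‖) := by
    intro x
    apply ofReal_integral_eq_lintegral_ofReal (hf.int_div x)
    filter_upwards [h0] with y hy
    exact div_nonneg hy (norm_nonneg _)
  rw [← ENNReal.ofReal_le_ofReal_iff hm0, key a]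
  have hne : ∀ᵐ y : E3, y ≠ a := by
    rw [ae_iff]; simp
  calc ∫⁻ y, ENNReal.ofReal (f y / ‖a - y‖)
      = ∫⁻ y, liminf (fun n => ENNReal.ofReal (f y / ‖u n - y‖)) atTop := by
        apply lintegral_congr_ae
        filter_upwards [hne] with y hy
        symm
        apply Tendsto.liminf_eq
        apply ENNReal.tendsto_ofReal
        apply Tendsto.div tendsto_const_nhds
        · exact (hu.sub tendsto_const_nhds).norm
        · rw [norm_ne_zero_iff, sub_ne_zero]; exact hy.symm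
    _ ≤ liminf (fun n => ∫⁻ y, ENNReal.ofReal (f y / ‖u n - y‖)) atTop :=
        lintegral_liminf_le' fun n => (hf.int_div (u n)).aestronglyMeasurable.aemeasurable.ennreal_ofReal
    _ = liminf (fun n => ENNReal.ofReal (G f (u n))) atTop := by simp only [key]
    _ ≤ liminf (fun n => ENNReal.ofReal (m n)) atTop :=
        liminf_le_liminf (Eventually.of_forall fun n => ENNReal.ofReal_le_ofReal (h n))
    _ = ENNReal.ofReal m0 := (ENNReal.tendsto_ofReal hm).liminf_eq

end Pool.Agent.H23.TF
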