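import Pool.Agent.H23.TF.A3_G

/-! Module A3b: Fubini for the Coulomb energy. `int_prod`: `integrable_prod_iff` with `exists_G_le` (inner integrals bounded).
`V R z x * f x` is a finite sum of `z_j * (f x / ‖x - R_j‖)`; `Ld.int_div` with `‖x - R_j‖ = ‖R_j - x‖`. -/

open MeasureTheory Set Filter Topology
open scoped ENNReal NNReal

namespace Pool.Agent.H23.TF

variable {f g : E3 → ℝ}

theorem Ld.int_prod (hf : Ld f) (hg : Ld g) :
    Integrable (fun p : E3 × E3 => f p.1 * g p.2 / ‖p.1 - p.2‖) (volume.prod volume) := by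
  have hm : AEStronglyMeasurable (fun p : E3 × E3 => f p.1 * g p.2 / ‖p.1 - p.2‖)
      (volume.prod volume) := by
    have h1 : Measurable (fun p : E3 × E3 => ‖p.1 - p.2‖⁻¹) := by fun_prop
    simp only [div_eq_mul_inv]
    exact (hf.i1.aestronglyMeasurable.comp_fst.mul hg.i1.aestronglyMeasurable.comp_snd).mul
      h1.aestronglyMeasurable
  rw [integrable_prod_iff hm]
  constructor
  · refine Eventually.of_forall fun x => ?_
    have := (hg.int_div x).const_mul (f x)
    refine this.congr (Eventually.of_forall fun y => ?_)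
    simp only [mul_div_assoc]
  · obtain ⟨C0, hC0, hC⟩ := exists_G_le
    refine (hf.i1.abs.const_mul (C0 + (∫ y, |g y|) + ∫ y, |g y| ^ (5 / 3 : ℝ))).mono'
      hm.norm.integral_prod_right' (Eventually.of_forall fun x => ?_)
    have e : ∫ y, ‖f x * g y / ‖x - y‖‖ = |f x| * ∫ y, |g y| / ‖x - y‖ := by
      rw [← integral_const_mul]
      congr 1
      ext y
      rw [Real.norm_eq_abs, abs_div, abs_mul, abs_norm, mul_div_assoc]
    have e0 : 0 ≤ ∫ y, |g y| / ‖x - y‖ := integral_nonneg fun y => by positivity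
    rw [Real.norm_eq_abs]
    change |∫ y, ‖f x * g y / ‖x - y‖‖| ≤ _
    rw [e, abs_of_nonneg (mul_nonneg (abs_nonneg _) e0), mul_comm]
    exact mul_le_mul_of_nonneg_right (hC g hg x) (abs_nonneg _)

theorem Ld.int_mul_G (hf : Ld f) (hg : Ld g) : Integrable (fun x => f x * G g x) := by
  obtain ⟨C, hC⟩ := hg.G_bdd
  exact hf.i1.mul_bdd (c := C) (aesm_G hg.i1.aestronglyMeasurable)
    (Eventually.of_forall fun x => hC x)

theorem G_symm (hf : Ld f) (hg : Ld g) : ∫ x, f x * G g x = ∫ x, g x * G f x := by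
  have h := integral_integral_swap (f := fun x y : E3 => f x * g y / ‖x - y‖)
    (hf.int_prod hg)
  have e1 : ∀ x, ∫ y, f x * g y / ‖x - y‖ = f x * G g x := fun x => by
    unfold G
    rw [← integral_const_mul]
    simp only [mul_div_assoc]
  have e2 : ∀ y, ∫ x, f x * g y / ‖x - y‖ = g y * G f y := fun y => by
    unfold G
    rw [← integral_const_mul]
    congr 1
    ext x
    rw [norm_sub_rev x y]
    ring
  simp only [e1, e2] at h
  exact h

lemma V_mul_eq {k : ℕ} (f : E3 → ℝ) (R : Fin k → E3) (z : Fin k → ℝ) (x : E3) :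
    V R z x * f x = ∑ j, z j * (f x / ‖R j - x‖) := by
  unfold V
  rw [Finset.sum_mul]
  refine Finset.sum_congr rfl fun j _ => ?_
  rw [norm_sub_rev x (R j)]
  ring

theorem Ld.int_V (hf : Ld f) {k : ℕ} (R : Fin k → E3) (z : Fin k → ℝ) :
    Integrable (fun x => V R z x * f x) := by
  simp only [V_mul_eq]
  exact integrable_finsetSum _ fun j _ => (hf.int_div (R j)).const_mul _

theorem int_V_mul (hf : Ld f) {k : ℕ} (R : Fin k → E3) (z : Fin k → ℝ) :
    ∫ x, V R z x * f x = ∑ j, z j * G f (R j) := by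
  simp only [V_mul_eq]
  rw [integral_finsetSum _ fun j _ => (hf.int_div (R j)).const_mul _]
  simp only [integral_const_mul]
  rfl

end Pool.Agent.H23.TF
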