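import Pool.Agent.H23.TF.A3b_Fub

/-! Module A4: the Coulomb kernel is positive definite.

`1/‖x-y‖ = (2/√π) ∫_{s>0} exp(-s²‖x-y‖²) ds` (`integral_gaussian_Ioi`), and
`exp(-s²‖x-y‖²) = (4s²/π)^(3/2) ∫ exp(-2s²‖x-u‖²) exp(-2s²‖y-u‖²) du`
(parallelogram law: `2s²(‖x-u‖²+‖y-u‖²) = 4s²‖u-m‖² + s²‖x-y‖²`, `m = (x+y)/2`; Gaussian integral
`GaussianFourier.integral_rexp_neg_mul_sq_norm`).
So `1/‖x-y‖ = ∫_ω Φ(ω,x) Φ(ω,y) dω` with `Φ ≥ 0`, `ω = (s,u)`; since `∫∫ |η(x)| |η(y)| / ‖x-y‖ < ∞` (A3) Fubini gives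
`∫ η G η = ∫_ω (∫ η(x) Φ(ω,x) dx)² dω ≥ 0`. -/

open MeasureTheory Set Filter Topology
open scoped ENNReal NNReal

namespace Pool.Agent.H23.TF



namespace Pos

/-- the coefficient `(2/√π) (4s²/π)^(3/2)` -/
noncomputable def B (s : ℝ) : ℝ := 2 / √Real.pi * (4 * s ^ 2 / Real.pi) ^ (3 / 2 : ℝ)

theorem B_nonneg (s : ℝ) : 0 ≤ B s := by
  unfold B; positivity

theorem measurable_B : Measurable B := by
  unfold B; fun_prop

/-- the Gaussian factor -/
noncomputable def Ph (w : ℝ × E3) (x : E3) : ℝ :=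
  √(B w.1) * Real.exp (-(2 * w.1 ^ 2) * ‖x - w.2‖ ^ 2)

theorem Ph_nonneg (w : ℝ × E3) (x : E3) : 0 ≤ Ph w x := by
  unfold Ph; positivity

theorem measurable_Ph : Measurable (fun q : (ℝ × E3) × E3 => Ph q.1 q.2) := by
  have := measurable_B
  unfold Ph; fun_prop

theorem measurable_Pl (x : E3) : Measurable (fun w : ℝ × E3 => Ph w x) :=
  Measurable.comp (g := fun q : (ℝ × E3) × E3 => Ph q.1 q.2)
    (f := fun w : ℝ × E3 => (w, x)) measurable_Ph (by fun_prop)

theorem Ph_mul (s : ℝ) (u x y : E3) : Ph (s, u) x * Ph (s, u) y =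
    B s * (Real.exp (-(s ^ 2) * ‖x - y‖ ^ 2) *
      Real.exp (-(4 * s ^ 2) * ‖u - (1 / 2 : ℝ) • (x + y)‖ ^ 2)) := by
  have h1 : ‖x - u‖ ^ 2 + ‖y - u‖ ^ 2 =
      2 * ‖u - (1 / 2 : ℝ) • (x + y)‖ ^ 2 + 1 / 2 * ‖x - y‖ ^ 2 := by
    have h := parallelogram_law_with_norm ℝ (x - u) (y - u)
    have e1 : (x - u) + (y - u) = (-2 : ℝ) • (u - (1 / 2 : ℝ) • (x + y)) := by
      module
    have e2 : (x - u) - (y - u) = x - y := by abel
    rw [e1, e2, norm_smul] at h
    have e3 : ‖(-2 : ℝ)‖ = 2 := by norm_num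
    rw [e3] at h
    nlinarith [h]
  unfold Ph
  simp only
  have h2 : √(B s) * √(B s) = B s := Real.mul_self_sqrt (B_nonneg s)
  calc √(B s) * Real.exp (-(2 * s ^ 2) * ‖x - u‖ ^ 2) * (√(B s) * Real.exp (-(2 * s ^ 2) * ‖y - u‖ ^ 2))
      = (√(B s) * √(B s)) * (Real.exp (-(2 * s ^ 2) * ‖x - u‖ ^ 2) * Real.exp (-(2 * s ^ 2) * ‖y - u‖ ^ 2)) := by ring
    _ = B s * Real.exp (-(2 * s ^ 2) * (‖x - u‖ ^ 2 + ‖y - u‖ ^ 2)) := by
        rw [h2, ← Real.exp_add]; ring_nf
    _ = _ := by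
        rw [h1, ← Real.exp_add]; ring_nf

theorem lint_u {s : ℝ} (hs : 0 < s) (x y : E3) :
    ∫⁻ u : E3, ENNReal.ofReal (Ph (s, u) x * Ph (s, u) y) =
      ENNReal.ofReal (2 / √Real.pi * Real.exp (-(‖x - y‖ ^ 2) * s ^ 2)) := by
  have hb : 0 < 4 * s ^ 2 := by positivity
  have hI : ∫ u : E3, Real.exp (-(4 * s ^ 2) * ‖u‖ ^ 2) = (Real.pi / (4 * s ^ 2)) ^ (3 / 2 : ℝ) := by
    rw [GaussianFourier.integral_rexp_neg_mul_sq_norm hb, finrank_euclideanSpace]
    norm_num
  have hpos : 0 < (Real.pi / (4 * s ^ 2)) ^ (3 / 2 : ℝ) := by positivity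
  have hint0 : Integrable (fun u : E3 => Real.exp (-(4 * s ^ 2) * ‖u‖ ^ 2)) := by
    apply Integrable.of_integral_ne_zero
    rw [hI]; exact hpos.ne'
  have hint : Integrable (fun u : E3 =>
      Real.exp (-(4 * s ^ 2) * ‖u - (1 / 2 : ℝ) • (x + y)‖ ^ 2)) :=
    hint0.comp_sub_right ((1 / 2 : ℝ) • (x + y))
  simp only [Ph_mul]
  rw [← ofReal_integral_eq_lintegral_ofReal]
  · congr 1
    rw [integral_const_mul, integral_const_mul]
    rw [integral_sub_right_eq_self (fun u : E3 => Real.exp (-(4 * s ^ 2) * ‖u‖ ^ 2))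
      ((1 / 2 : ℝ) • (x + y)), hI]
    unfold B
    have h3 : (4 * s ^ 2 / Real.pi) ^ (3 / 2 : ℝ) * (Real.pi / (4 * s ^ 2)) ^ (3 / 2 : ℝ) = 1 := by
      rw [← Real.mul_rpow (by positivity) (by positivity)]
      have : 4 * s ^ 2 / Real.pi * (Real.pi / (4 * s ^ 2)) = 1 := by
        field_simp
      rw [this, Real.one_rpow]
    have h4 : Real.exp (-(s ^ 2) * ‖x - y‖ ^ 2) = Real.exp (-(‖x - y‖ ^ 2) * s ^ 2) := by
      ring_nf
    rw [h4]
    calc _ = 2 / √Real.pi * Real.exp (-(‖x - y‖ ^ 2) * s ^ 2) *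
          ((4 * s ^ 2 / Real.pi) ^ (3 / 2 : ℝ) * (Real.pi / (4 * s ^ 2)) ^ (3 / 2 : ℝ)) := by ring
      _ = _ := by rw [h3, mul_one]
  · exact (hint.const_mul _).const_mul _
  · exact Eventually.of_forall fun u => mul_nonneg (B_nonneg s) (by positivity)

/-- the measure on the parameter space -/
noncomputable def mu : Measure (ℝ × E3) := (volume.restrict (Ioi (0 : ℝ))).prod volume

theorem lint_w {x y : E3} (hxy : x ≠ y) :
    ∫⁻ w, ENNReal.ofReal (Ph w x * Ph w y) ∂mu = ENNReal.ofReal (1 / ‖x - y‖) := by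
  have hr : 0 < ‖x - y‖ := norm_pos_iff.2 (sub_ne_zero.2 hxy)
  have hm : Measurable (fun w : ℝ × E3 => ENNReal.ofReal (Ph w x * Ph w y)) := by
    apply Measurable.ennreal_ofReal
    exact (measurable_Pl x).mul (measurable_Pl y)
  unfold mu
  rw [lintegral_prod _ hm.aemeasurable]
  have hI : ∫ s in Ioi (0 : ℝ), Real.exp (-(‖x - y‖ ^ 2) * s ^ 2) = √Real.pi / 2 / ‖x - y‖ := by
    rw [integral_gaussian_Ioi, Real.sqrt_div Real.pi_pos.le, Real.sqrt_sq hr.le]
    ring
  have hint0 : IntegrableOn (fun s : ℝ => Real.exp (-(‖x - y‖ ^ 2) * s ^ 2)) (Ioi 0) := by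
    apply Integrable.of_integral_ne_zero
    rw [hI]
    have := Real.pi_pos
    positivity
  calc ∫⁻ s in Ioi (0 : ℝ), ∫⁻ u : E3, ENNReal.ofReal (Ph (s, u) x * Ph (s, u) y)
      = ∫⁻ s in Ioi (0 : ℝ), ENNReal.ofReal (2 / √Real.pi * Real.exp (-(‖x - y‖ ^ 2) * s ^ 2)) := by
        apply setLIntegral_congr_fun measurableSet_Ioi
        intro s hs
        exact lint_u hs x y
    _ = ENNReal.ofReal (∫ s in Ioi (0 : ℝ), 2 / √Real.pi * Real.exp (-(‖x - y‖ ^ 2) * s ^ 2)) := by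
        rw [ofReal_integral_eq_lintegral_ofReal (hint0.const_mul _)]
        exact Eventually.of_forall fun s => by positivity
    _ = _ := by
        congr 1
        rw [integral_const_mul, hI]
        have := Real.sqrt_pos.2 Real.pi_pos
        field_simp

theorem int_w {x y : E3} (hxy : x ≠ y) :
    Integrable (fun w => Ph w x * Ph w y) mu ∧ ∫ w, Ph w x * Ph w y ∂mu = 1 / ‖x - y‖ := by
  have hm : Measurable (fun w : ℝ × E3 => Ph w x * Ph w y) :=
    (measurable_Pl x).mul (measurable_Pl y)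
  have h0 : ∀ w, 0 ≤ Ph w x * Ph w y := fun w => mul_nonneg (Ph_nonneg w x) (Ph_nonneg w y)
  refine ⟨⟨hm.aestronglyMeasurable, ?_⟩, ?_⟩
  · rw [hasFiniteIntegral_iff_ofReal (Eventually.of_forall h0), lint_w hxy]
    exact ENNReal.ofReal_lt_top
  · rw [integral_eq_lintegral_of_nonneg_ae (Eventually.of_forall h0) hm.aestronglyMeasurable,
      lint_w hxy, ENNReal.toReal_ofReal (by positivity)]

theorem ae_ne : ∀ᵐ p : E3 × E3 ∂((volume : Measure E3).prod volume), p.1 ≠ p.2 := by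
  rw [ae_iff]
  have : {p : E3 × E3 | ¬ p.1 ≠ p.2} = diagonal E3 := by
    ext p; simp [diagonal]
  rw [this, Measure.measure_prod_null measurableSet_diagonal]
  refine Eventually.of_forall fun x => ?_
  have h2 : Prod.mk x ⁻¹' diagonal E3 = {x} := by
    ext y; simp [diagonal, eq_comm]
  simp only [h2]
  exact measure_singleton x

/-- the four-fold integrand -/
noncomputable def FF (η : E3 → ℝ) (q : (ℝ × E3) × (E3 × E3)) : ℝ :=
  (η q.2.1 * Ph q.1 q.2.1) * (η q.2.2 * Ph q.1 q.2.2)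

theorem measurable_P1 : Measurable (fun q : (ℝ × E3) × (E3 × E3) => Ph q.1 q.2.1) :=
  Measurable.comp (g := fun q : (ℝ × E3) × E3 => Ph q.1 q.2)
    (f := fun q : (ℝ × E3) × (E3 × E3) => (q.1, q.2.1)) measurable_Ph (by fun_prop)

theorem measurable_P2 : Measurable (fun q : (ℝ × E3) × (E3 × E3) => Ph q.1 q.2.2) :=
  Measurable.comp (g := fun q : (ℝ × E3) × E3 => Ph q.1 q.2)
    (f := fun q : (ℝ × E3) × (E3 × E3) => (q.1, q.2.2)) measurable_Ph (by fun_prop)

theorem measurable_FF {η : E3 → ℝ} (hmeas : Measurable η) : Measurable (FF η) := by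
  have h1 := measurable_P1
  have h2 := measurable_P2
  have h3 : Measurable (fun q : (ℝ × E3) × (E3 × E3) => η q.2.1) :=
    hmeas.comp (measurable_fst.comp measurable_snd)
  have h4 : Measurable (fun q : (ℝ × E3) × (E3 × E3) => η q.2.2) :=
    hmeas.comp (measurable_snd.comp measurable_snd)
  unfold FF
  exact (h3.mul h1).mul (h4.mul h2)

theorem pos_meas {η : E3 → ℝ} (hη : Ld η) (hmeas : Measurable η) : 0 ≤ ∫ x, η x * G η x := by
  have hFm := measurable_FF hmeas
  set F := FF η with hF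
  have hFe : ∀ w p, F (w, p) = (η p.1 * η p.2) * (Ph w p.1 * Ph w p.2) := by
    intro w p; simp only [hF, FF]; ring
  have hFint : Integrable F (mu.prod ((volume : Measure E3).prod volume)) := by
    have : SFinite mu := by unfold mu; infer_instance
    rw [integrable_prod_iff' hFm.aestronglyMeasurable]
    constructor
    · filter_upwards [ae_ne] with p hp
      simp only [hFe]
      exact (int_w hp).1.const_mul _
    · have hA : Integrable (fun p : E3 × E3 => ‖η p.1 * η p.2 / ‖p.1 - p.2‖‖)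
          ((volume : Measure E3).prod volume) := (hη.int_prod hη).norm
      refine hA.congr ?_
      filter_upwards [ae_ne] with p hp
      have hr : 0 < ‖p.1 - p.2‖ := norm_pos_iff.2 (sub_ne_zero.2 hp)
      have : ∀ w, ‖F (w, p)‖ = |η p.1 * η p.2| * (Ph w p.1 * Ph w p.2) := by
        intro w
        rw [hFe, Real.norm_eq_abs, abs_mul,
          abs_of_nonneg (mul_nonneg (Ph_nonneg w p.1) (Ph_nonneg w p.2))]
      simp only [this]
      rw [integral_const_mul, (int_w hp).2, Real.norm_eq_abs, abs_div, abs_of_pos hr]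
      ring
  have : SFinite mu := by unfold mu; infer_instance
  have h1 : ∫ x, η x * G η x = ∫ p : E3 × E3, η p.1 * η p.2 / ‖p.1 - p.2‖
      ∂((volume : Measure E3).prod volume) := by
    rw [integral_prod _ (hη.int_prod hη)]
    apply integral_congr_ae
    refine Eventually.of_forall fun x => ?_
    simp only [G]
    rw [← integral_const_mul]
    apply integral_congr_ae
    refine Eventually.of_forall fun y => ?_
    simp only; ring
  have h2 : ∫ p : E3 × E3, η p.1 * η p.2 / ‖p.1 - p.2‖ ∂((volume : Measure E3).prod volume)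
      = ∫ p : E3 × E3, (∫ w, F (w, p) ∂mu) ∂((volume : Measure E3).prod volume) := by
    apply integral_congr_ae
    filter_upwards [ae_ne] with p hp
    simp only [hFe]
    rw [integral_const_mul, (int_w hp).2]
    ring
  have h3 : ∫ p : E3 × E3, (∫ w, F (w, p) ∂mu) ∂((volume : Measure E3).prod volume)
      = ∫ w, (∫ p : E3 × E3, F (w, p) ∂((volume : Measure E3).prod volume)) ∂mu :=
    (integral_integral_swap (f := fun w p => F (w, p)) hFint).symm
  rw [h1, h2, h3]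
  apply integral_nonneg
  intro w
  have h4 : ∫ p : E3 × E3, F (w, p) ∂((volume : Measure E3).prod volume)
      = (∫ x, η x * Ph w x) * (∫ x, η x * Ph w x) :=
    integral_prod_mul (fun x => η x * Ph w x) (fun x => η x * Ph w x)
  simp only [Pi.zero_apply]
  rw [h4]
  exact mul_self_nonneg _

end Pos

theorem pos {η : E3 → ℝ} (hη : Ld η) : 0 ≤ ∫ x, η x * G η x := by
  obtain ⟨f, hf, he⟩ := hη.i1.aestronglyMeasurable.aemeasurable
  have h1 := Pos.pos_meas (hη.congr he) hf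
  have h2 : ∫ x, η x * G η x = ∫ x, f x * G f x := by
    rw [G_congr he]
    apply integral_congr_ae
    filter_upwards [he] with x hx
    rw [hx]
  rw [h2]; exact h1

end Pool.Agent.H23.TF
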