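import Pool.Agent.H23.TF.K0_Kv

/-! Module D1: the functions `Ψ`, `f₁`, `g = G f₁` (section 6a, 6b).

`cmp1`, `cmp2`: from `sub_le` (for `cmp1` upper bound use `ψ = φ'/(1+ε)`, `s = φ'^(3/2)/(1+ε)` for the charges `(z+h)/(1+ε) ≤ z`).
`exists_g`: `φ_n = sol R ((1+1/n) z)`, `Ψ_n = n (φ_n - φ)`; `φ ≤ φ_n ≤ (1+1/n) φ`; `Ψ_n` increasing in `n` a.e. by concavity
(`sub_le` with `ψ = (1-θ)φ + θφ_n`, `s = (1-θ)φ^(3/2) + θφ_n^(3/2)`, `θ = n/m`), `Ψ = lim Ψ_n ≤ φ`,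
`k_n = n (φ_n^(3/2) - φ^(3/2)) → (3/2) φ^(1/2) Ψ`, `0 ≤ k_n ≤ 3 φ^(3/2)`, `Ψ_n = V - G k_n`, dominated convergence: `Ψ = V - G((3/2)φ^(1/2)Ψ)` a.e.
`f₁ = (9/2) φ^(1/2) Ψ - 3 φ^(3/2)`, `g = G f₁ = 3(φ-Ψ)` a.e. -/

open MeasureTheory Set Filter Topology
open scoped ENNReal NNReal

namespace Pool.Agent.H23.TF

variable {k : ℕ} {R : Fin k → E3} {z : Fin k → ℝ}

/-! pointwise facts -/

theorem D1_rpow32 {x : ℝ} (hx : 0 ≤ x) : x ^ (3 / 2 : ℝ) = √x ^ 3 := by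
  rw [Real.sqrt_eq_rpow, ← Real.rpow_natCast, ← Real.rpow_mul hx]
  norm_num

theorem D1_lo {a b : ℝ} (ha : 0 ≤ a) (hab : a ≤ b) :
    3 / 2 * a ^ (1 / 2 : ℝ) * (b - a) ≤ b ^ (3 / 2 : ℝ) - a ^ (3 / 2 : ℝ) := by
  have hb : 0 ≤ b := ha.trans hab
  rw [D1_rpow32 ha, D1_rpow32 hb, ← Real.sqrt_eq_rpow]
  have h1 := Real.sq_sqrt ha
  have h2 := Real.sq_sqrt hb
  have h3 := Real.sqrt_nonneg a
  have h4 := Real.sqrt_nonneg b
  have h5 : √a ≤ √b := Real.sqrt_le_sqrt hab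
  set u := √a
  set v := √b
  rw [← h1, ← h2]
  have : 0 ≤ (v - u) ^ 2 * (v + u / 2) := by positivity
  nlinarith

theorem D1_hi {a b : ℝ} (ha : 0 ≤ a) (hab : a ≤ b) :
    b ^ (3 / 2 : ℝ) - a ^ (3 / 2 : ℝ) ≤ 3 / 2 * b ^ (1 / 2 : ℝ) * (b - a) := by
  have hb : 0 ≤ b := ha.trans hab
  rw [D1_rpow32 ha, D1_rpow32 hb, ← Real.sqrt_eq_rpow]
  have h1 := Real.sq_sqrt ha
  have h2 := Real.sq_sqrt hb
  have h3 := Real.sqrt_nonneg a
  have h4 := Real.sqrt_nonneg b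
  have h5 : √a ≤ √b := Real.sqrt_le_sqrt hab
  set u := √a
  set v := √b
  rw [← h1, ← h2]
  have : 0 ≤ (v - u) ^ 2 * (v / 2 + u) := by positivity
  nlinarith

/-- `(c a)^(3/2) ≤ c a^(3/2)` for `0 ≤ c ≤ 1` -/
theorem D1_scale {a c : ℝ} (ha : 0 ≤ a) (hc0 : 0 ≤ c) (hc1 : c ≤ 1) :
    (c * a) ^ (3 / 2 : ℝ) ≤ c * a ^ (3 / 2 : ℝ) := by
  rw [Real.mul_rpow hc0 ha]
  apply mul_le_mul_of_nonneg_right _ (Real.rpow_nonneg ha _)
  calc c ^ (3 / 2 : ℝ) ≤ c ^ (1 : ℝ) :=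
        Real.rpow_le_rpow_of_exponent_ge_of_imp hc0 hc1 (by norm_num) (by norm_num)
    _ = c := Real.rpow_one c

theorem D1_convex {a b θ : ℝ} (ha : 0 ≤ a) (hb : 0 ≤ b) (h0 : 0 ≤ θ) (h1 : θ ≤ 1) :
    ((1 - θ) * a + θ * b) ^ (3 / 2 : ℝ) ≤ (1 - θ) * a ^ (3 / 2 : ℝ) + θ * b ^ (3 / 2 : ℝ) := by
  have h := (convexOn_rpow (p := (3 / 2 : ℝ)) (by norm_num)).2 (Set.mem_Ici.2 ha)
    (Set.mem_Ici.2 hb) (by linarith : (0 : ℝ) ≤ 1 - θ) h0 (by ring)
  simpa only [smul_eq_mul] using h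

theorem D1_upper {a b t : ℝ} (ha : 0 ≤ a) (ht0 : 0 ≤ t) (ht1 : t ≤ 1) (hab : a ≤ b)
    (hb : b ≤ (1 + t) * a) :
    b ^ (3 / 2 : ℝ) - a ^ (3 / 2 : ℝ) ≤ 3 * t * a ^ (3 / 2 : ℝ) := by
  have h1 : b ^ (3 / 2 : ℝ) ≤ ((1 + t) * a) ^ (3 / 2 : ℝ) :=
    Real.rpow_le_rpow (ha.trans hab) hb (by norm_num)
  rw [Real.mul_rpow (by linarith) ha] at h1
  have h2 : (1 + t) ^ (3 / 2 : ℝ) ≤ (1 + t) ^ (2 : ℝ) :=
    Real.rpow_le_rpow_of_exponent_le (by linarith) (by norm_num)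
  rw [Real.rpow_two] at h2
  have h3 : (1 + t) ^ 2 ≤ 1 + 3 * t := by nlinarith
  have h4 : 0 ≤ a ^ (3 / 2 : ℝ) := Real.rpow_nonneg ha _
  nlinarith

/-- scaled comparison -/
theorem D1_sub_scale {z z' : Fin k → ℝ} (hz' : ∀ i, 0 ≤ z' i) (hz : ∀ i, 0 ≤ z i) {c : ℝ}
    (hc0 : 0 ≤ c) (hc1 : c ≤ 1) (hcz : ∀ i, c * z' i ≤ z i) :
    ∀ᵐ x, c * sol R z' x ≤ sol R z x := by
  have S' := sol_spec R hz'
  have S := sol_spec R hz
  refine sub_le (z' := c • z') (s := fun x => c * sol R z' x ^ (3 / 2 : ℝ))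
    (fun i => by simpa using mul_nonneg hc0 (hz' i)) (fun i => by simpa using hcz i) S
    (S'.meas.const_mul c) (fun x => mul_nonneg hc0 (S'.nonneg x)) (S'.ld.const_mul c) ?_ ?_
  · exact Filter.Eventually.of_forall fun x => D1_scale (S'.nonneg x) hc0 hc1
  · filter_upwards [S'.eq] with x hx
    rw [V_smul, G_const_mul, ← mul_sub, ← hx]

/-- concavity -/
theorem D1_concave {z z' z'' : Fin k → ℝ} (hz : ∀ i, 0 ≤ z i) (hz' : ∀ i, 0 ≤ z' i)
    {θ : ℝ} (h0 : 0 ≤ θ) (h1 : θ ≤ 1) (hzz : z'' = (1 - θ) • z + θ • z') :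
    ∀ᵐ x, (1 - θ) * sol R z x + θ * sol R z' x ≤ sol R z'' x := by
  have S' := sol_spec R hz'
  have S := sol_spec R hz
  have hz'' : ∀ i, 0 ≤ z'' i := by
    intro i
    rw [hzz]
    have := hz i
    have := hz' i
    have : 0 ≤ 1 - θ := by linarith
    simp only [Pi.add_apply, Pi.smul_apply, smul_eq_mul]
    positivity
  have S'' := sol_spec R hz''
  have h1' : 0 ≤ 1 - θ := by linarith
  refine sub_le (z' := z'') (z := z'')
    (s := fun x => (1 - θ) * sol R z x ^ (3 / 2 : ℝ) + θ * sol R z' x ^ (3 / 2 : ℝ))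
    hz'' (fun i => le_refl _) S''
    ((S.meas.const_mul _).add (S'.meas.const_mul _))
    (fun x => add_nonneg (mul_nonneg h1' (S.nonneg x)) (mul_nonneg h0 (S'.nonneg x)))
    ((S.ld.const_mul _).add (S'.ld.const_mul _)) ?_ ?_
  · exact Filter.Eventually.of_forall fun x => D1_convex (S.nonneg x) (S'.nonneg x) h0 h1
  · filter_upwards [S.eq, S'.eq] with x hx hx'
    rw [hzz, V_add, V_smul, V_smul, G_add (S.ld.const_mul _) (S'.ld.const_mul _), G_const_mul,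
      G_const_mul]
    rw [hx, hx']
    ring

/-- monotonicity -/
theorem sol_mono {z' : Fin k → ℝ} (hz : ∀ i, 0 ≤ z i) (hzz : ∀ i, z i ≤ z' i) :
    ∀ᵐ x, sol R z x ≤ sol R z' x := by
  have := D1_sub_scale (R := R) hz (fun i => (hz i).trans (hzz i)) (c := 1) zero_le_one le_rfl
    (fun i => by simpa using hzz i)
  filter_upwards [this] with x hx
  simpa using hx

/-- two sided multiplicative comparison -/
theorem sol_cmp {h : Fin k → ℝ} (hz : ∀ i, 0 ≤ z i) {ε : ℝ} (hε0 : 0 ≤ ε) (hε : ε ≤ 1 / 2)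
    (hh : ∀ i, |h i| ≤ ε * z i) :
    ∀ᵐ x, (1 - ε) * sol R z x ≤ sol R (z + h) x ∧ sol R (z + h) x ≤ (1 + ε) * sol R z x := by
  have hzh : ∀ i, 0 ≤ (z + h) i := by
    intro i
    have h1 := (abs_le.1 (hh i)).1
    have h2 := hz i
    simp only [Pi.add_apply]
    nlinarith
  have A := D1_sub_scale (R := R) hz hzh (c := 1 - ε) (by linarith) (by linarith) (by
    intro i
    have h1 := (abs_le.1 (hh i)).1
    simp only [Pi.add_apply]
    linarith)
  have hpos : 0 < 1 + ε := by linarith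
  have B := D1_sub_scale (R := R) hzh hz (c := 1 / (1 + ε)) (by positivity)
    (by rw [div_le_one hpos]; linarith) (by
    intro i
    have h1 := (abs_le.1 (hh i)).2
    simp only [Pi.add_apply]
    rw [div_mul_eq_mul_div, one_mul, div_le_iff₀ hpos]
    linarith)
  filter_upwards [A, B] with x hA hB
  refine ⟨hA, ?_⟩
  rw [div_mul_eq_mul_div, one_mul, div_le_iff₀ hpos] at hB
  linarith

theorem exists_g (hz : ∀ i, 0 ≤ z i) :
    ∃ f1 : E3 → ℝ, Ld f1 ∧ (∀ᵐ x, |G f1 x| ≤ 3 * sol R z x) ∧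
      ∀ᵐ x, f1 x = 3 / 2 * sol R z x ^ (1 / 2 : ℝ) * (sol R z x - G f1 x) := by
  set t : ℕ → ℝ := fun n => 1 / ((n : ℝ) + 1) with ht
  have ht0 : ∀ n, 0 < t n := fun n => by rw [ht]; positivity
  have ht1 : ∀ n, t n ≤ 1 := by
    intro n
    rw [ht]
    simp only
    rw [div_le_one (by positivity)]
    have : (0:ℝ) ≤ n := by positivity
    linarith
  have htn : ∀ n : ℕ, ((n : ℝ) + 1) * t n = 1 := by
    intro n
    rw [ht]
    field_simp
  set φ := sol R z with hφ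
  set zn : ℕ → Fin k → ℝ := fun n => (1 + t n) • z with hzn
  set φn : ℕ → E3 → ℝ := fun n => sol R (zn n) with hφn
  have hzn0 : ∀ n i, 0 ≤ zn n i := by
    intro n i
    have := ht0 n
    have := hz i
    simp only [hzn, Pi.smul_apply, smul_eq_mul]
    positivity
  have S : Sol (V R z) φ := sol_spec R hz
  have Sn : ∀ n, Sol (V R (zn n)) (φn n) := fun n => sol_spec R (hzn0 n)
  set Ψn : ℕ → E3 → ℝ := fun n x => ((n : ℝ) + 1) * (φn n x - φ x) with hΨn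
  set kn : ℕ → E3 → ℝ := fun n x =>
    ((n : ℝ) + 1) * (φn n x ^ (3 / 2 : ℝ) - φ x ^ (3 / 2 : ℝ)) with hkn
  -- two sided bounds
  have b1 : ∀ n, ∀ᵐ x, φ x ≤ φn n x := by
    intro n
    apply sol_mono hz
    intro i
    have := mul_nonneg (ht0 n).le (hz i)
    simp only [hzn, Pi.smul_apply, smul_eq_mul]
    linarith
  have b2 : ∀ n, ∀ᵐ x, φn n x ≤ (1 + t n) * φ x := by
    intro n
    have hpos : 0 < 1 + t n := by linarith [ht0 n]
    have B := D1_sub_scale (R := R) (hzn0 n) hz (c := 1 / (1 + t n)) (by positivity)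
      (by rw [div_le_one hpos]; linarith [ht0 n]) (by
      intro i
      simp only [hzn, Pi.smul_apply, smul_eq_mul]
      rw [← mul_assoc, one_div, inv_mul_cancel₀ hpos.ne', one_mul])
    filter_upwards [B] with x hB
    rw [div_mul_eq_mul_div, one_mul, div_le_iff₀ hpos] at hB
    linarith
  -- monotone
  have b3 : ∀ n, ∀ᵐ x, Ψn n x ≤ Ψn (n + 1) x := by
    intro n
    have hθ0 : 0 ≤ t (n + 1) / t n := by
      have := ht0 n; have := ht0 (n + 1); positivity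
    have hθ1 : t (n + 1) / t n ≤ 1 := by
      rw [div_le_one (ht0 n)]
      rw [ht]
      simp only
      apply one_div_le_one_div_of_le (by positivity)
      push_cast
      linarith
    have B := D1_concave (R := R) hz (hzn0 n) (z'' := zn (n + 1)) hθ0 hθ1 (by
      funext i
      simp only [hzn, Pi.add_apply, Pi.smul_apply, smul_eq_mul]
      have := (ht0 n).ne'
      field_simp
      ring)
    filter_upwards [B] with x hB
    have h1 : t (n + 1) / t n * (φn n x - φ x) ≤ φn (n + 1) x - φ x := by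
      have e : sol R (zn (n + 1)) x = φn (n + 1) x := rfl
      have e' : sol R (zn n) x = φn n x := rfl
      rw [e, e'] at hB
      nlinarith
    have h2 := htn n
    have h3 := htn (n + 1)
    have h4 : (((n + 1 : ℕ) : ℝ) + 1) * (t (n + 1) / t n) = (n : ℝ) + 1 := by
      rw [← mul_div_assoc, h3, div_eq_iff (ht0 n).ne', h2]
    simp only [hΨn]
    calc ((n : ℝ) + 1) * (φn n x - φ x)
        = (((n + 1 : ℕ) : ℝ) + 1) * (t (n + 1) / t n * (φn n x - φ x)) := by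
          rw [← mul_assoc, h4]
      _ ≤ _ := mul_le_mul_of_nonneg_left h1 (by positivity)
  have all : ∀ᵐ x, (∀ n, φ x ≤ φn n x) ∧ (∀ n, φn n x ≤ (1 + t n) * φ x) ∧
      (∀ n, Ψn n x ≤ Ψn (n + 1) x) := by
    filter_upwards [ae_all_iff.2 b1, ae_all_iff.2 b2, ae_all_iff.2 b3] with x h1 h2 h3
    exact ⟨h1, h2, h3⟩
  have Ψle : ∀ x, (∀ n, φn n x ≤ (1 + t n) * φ x) → ∀ n, Ψn n x ≤ φ x := by
    intro x h2 n
    simp only [hΨn]
    have h5 : φn n x - φ x ≤ t n * φ x := by linarith [h2 n]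
    calc ((n : ℝ) + 1) * (φn n x - φ x) ≤ ((n : ℝ) + 1) * (t n * φ x) :=
          mul_le_mul_of_nonneg_left h5 (by positivity)
      _ = φ x := by rw [← mul_assoc, htn, one_mul]
  have Ψge : ∀ x, (∀ n, φ x ≤ φn n x) → ∀ n, 0 ≤ Ψn n x := by
    intro x h1 n
    simp only [hΨn]
    have := h1 n
    have : 0 ≤ φn n x - φ x := by linarith
    positivity
  have mΨ : ∀ n, Measurable (Ψn n) := fun n => ((Sn n).meas.sub S.meas).const_mul _
  obtain ⟨Ψ, mΨ', hΨ⟩ := measurable_limit_of_tendsto_metrizable_ae (μ := volume) (f := Ψn)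
    (L := atTop) (fun n => (mΨ n).aemeasurable) (by
      filter_upwards [all] with x ⟨h1, h2, h3⟩
      have hm : Monotone fun n => Ψn n x := monotone_nat_of_le_succ h3
      exact ⟨_, tendsto_atTop_ciSup hm ⟨φ x, by
        rintro _ ⟨n, rfl⟩
        exact Ψle x h2 n⟩⟩)
  -- bounds on the limit
  have lim : ∀ᵐ x, 0 ≤ Ψ x ∧ Ψ x ≤ φ x ∧
      Tendsto (fun n => kn n x) atTop (𝓝 (3 / 2 * φ x ^ (1 / 2 : ℝ) * Ψ x)) := by
    filter_upwards [all, hΨ] with x ⟨h1, h2, h3⟩ hl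
    refine ⟨ge_of_tendsto' hl (Ψge x h1), le_of_tendsto' hl (Ψle x h2), ?_⟩
    have tt : Tendsto t atTop (𝓝 0) := tendsto_one_div_add_atTop_nhds_zero_nat
    have l1 : Tendsto (fun n => φn n x) atTop (𝓝 (φ x)) := by
      have e : (fun n => φn n x) = fun n => φ x + t n * Ψn n x := by
        funext n
        simp only [hΨn]
        rw [← mul_assoc, mul_comm (t n), htn]
        ring
      rw [e]
      have := (tt.mul hl).const_add (φ x)
      simpa using this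
    have l2 : Tendsto (fun n => φn n x ^ (1 / 2 : ℝ)) atTop (𝓝 (φ x ^ (1 / 2 : ℝ))) :=
      l1.rpow_const (Or.inr (by norm_num))
    refine tendsto_of_tendsto_of_tendsto_of_le_of_le (hl.const_mul (3 / 2 * φ x ^ (1 / 2 : ℝ)))
      ((l2.const_mul (3 / 2)).mul hl) ?_ ?_
    · intro n
      have := D1_lo (S.nonneg x) (h1 n)
      simp only [hkn, hΨn]
      calc 3 / 2 * φ x ^ (1 / 2 : ℝ) * (((n : ℝ) + 1) * (φn n x - φ x))
          = ((n : ℝ) + 1) * (3 / 2 * φ x ^ (1 / 2 : ℝ) * (φn n x - φ x)) := by ring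
        _ ≤ _ := mul_le_mul_of_nonneg_left this (by positivity)
    · intro n
      have := D1_hi (S.nonneg x) (h1 n)
      simp only [hkn, hΨn]
      calc ((n : ℝ) + 1) * (φn n x ^ (3 / 2 : ℝ) - φ x ^ (3 / 2 : ℝ))
          ≤ ((n : ℝ) + 1) * (3 / 2 * φn n x ^ (1 / 2 : ℝ) * (φn n x - φ x)) :=
            mul_le_mul_of_nonneg_left this (by positivity)
        _ = _ := by ring
  have kb : ∀ᵐ x, ∀ n, |kn n x| ≤ 3 * φ x ^ (3 / 2 : ℝ) := by
    filter_upwards [all] with x ⟨h1, h2, h3⟩ n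
    have u1 := D1_upper (S.nonneg x) (ht0 n).le (ht1 n) (h1 n) (h2 n)
    have u2 : 0 ≤ φn n x ^ (3 / 2 : ℝ) - φ x ^ (3 / 2 : ℝ) :=
      sub_nonneg.2 (Real.rpow_le_rpow (S.nonneg x) (h1 n) (by norm_num))
    simp only [hkn]
    rw [abs_of_nonneg (by positivity)]
    calc ((n : ℝ) + 1) * (φn n x ^ (3 / 2 : ℝ) - φ x ^ (3 / 2 : ℝ))
        ≤ ((n : ℝ) + 1) * (3 * t n * φ x ^ (3 / 2 : ℝ)) :=
          mul_le_mul_of_nonneg_left u1 (by positivity)
      _ = ((n : ℝ) + 1) * t n * (3 * φ x ^ (3 / 2 : ℝ)) := by ring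
      _ = _ := by rw [htn, one_mul]
  set κ : E3 → ℝ := fun x => 3 / 2 * φ x ^ (1 / 2 : ℝ) * Ψ x with hκ
  have mφ12 : Measurable fun x => φ x ^ (1 / 2 : ℝ) := S.meas.pow_const _
  have mφ32 : Measurable fun x => φ x ^ (3 / 2 : ℝ) := S.meas.pow_const _
  have mκ : Measurable κ := (mφ12.const_mul _).mul mΨ'
  have mul12 : ∀ x, φ x ^ (1 / 2 : ℝ) * φ x = φ x ^ (3 / 2 : ℝ) := by
    intro x
    rcases eq_or_lt_of_le (S.nonneg x) with h0 | h0
    · rw [← h0]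
      norm_num
    · nth_rewrite 2 [← Real.rpow_one (φ x)]
      rw [← Real.rpow_add h0]
      norm_num
  have Lκ : Ld κ := by
    refine (S.ld.const_mul (3 / 2)).mono mκ.aestronglyMeasurable ?_
    filter_upwards [lim] with x ⟨h0, h1, _⟩
    have u1 : 0 ≤ φ x ^ (1 / 2 : ℝ) := Real.rpow_nonneg (S.nonneg x) _
    have u2 : 0 ≤ φ x ^ (3 / 2 : ℝ) := Real.rpow_nonneg (S.nonneg x) _
    simp only [hκ]
    rw [abs_of_nonneg (by positivity), abs_of_nonneg (by positivity), ← mul12 x]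
    have := mul_le_mul_of_nonneg_left h1 u1
    nlinarith
  -- the equation for Ψ
  have eqΨ : ∀ᵐ x, Ψ x = V R z x - G κ x := by
    have en : ∀ᵐ x, ∀ n, Ψn n x = V R z x - G (kn n) x := by
      rw [ae_all_iff]
      intro n
      filter_upwards [S.eq, (Sn n).eq] with x hx hx'
      have e1 : G (kn n) x = ((n : ℝ) + 1) * (G (fun y => φn n y ^ (3 / 2 : ℝ)) x -
          G (fun y => φ y ^ (3 / 2 : ℝ)) x) := by
        rw [← G_sub (Sn n).ld S.ld, ← G_const_mul]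
      rw [e1]
      simp only [hΨn]
      rw [hx, hx', hzn]
      simp only
      rw [V_smul]
      have := htn n
      linear_combination (V R z x) * this
    filter_upwards [en, hΨ] with x hx hl
    have hG : Tendsto (fun n => G (kn n) x) atTop (𝓝 (G κ x)) := by
      unfold G
      apply tendsto_integral_of_dominated_convergence
        (fun y => |3 * φ y ^ (3 / 2 : ℝ) / ‖x - y‖|)
      · intro n
        apply Measurable.aestronglyMeasurable
        have m1 : Measurable (kn n) := (((Sn n).meas.pow_const _).sub mφ32).const_mul _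
        exact m1.div (measurable_norm.comp (measurable_const.sub measurable_id))
      · exact ((S.ld.const_mul 3).int_div x).abs
      · intro n
        filter_upwards [kb] with y hy
        have h0 : 0 ≤ φ y ^ (3 / 2 : ℝ) := Real.rpow_nonneg (S.nonneg y) _
        rw [Real.norm_eq_abs, abs_div, abs_div]
        apply div_le_div_of_nonneg_right _ (abs_nonneg _)
        rw [abs_of_nonneg (by positivity : 0 ≤ 3 * φ y ^ (3 / 2 : ℝ))]
        exact hy n
      · filter_upwards [lim] with y ⟨_, _, hy⟩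
        exact hy.div_const _
    have h1 : Tendsto (fun n => Ψn n x) atTop (𝓝 (V R z x - G κ x)) := by
      have e : (fun n => Ψn n x) = fun n => V R z x - G (kn n) x := funext hx
      rw [e]
      exact hG.const_sub _
    exact tendsto_nhds_unique hl h1
  refine ⟨fun x => 3 * κ x - 3 * φ x ^ (3 / 2 : ℝ), (Lκ.const_mul 3).sub (S.ld.const_mul 3), ?_, ?_⟩
  · filter_upwards [eqΨ, S.eq, lim] with x hx hx' ⟨h0, h1, _⟩
    rw [G_sub (Lκ.const_mul 3) (S.ld.const_mul 3), G_const_mul, G_const_mul]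
    have e : 3 * G κ x - 3 * G (fun y => φ y ^ (3 / 2 : ℝ)) x = 3 * (φ x - Ψ x) := by
      rw [hx, hx']; ring
    rw [e, abs_of_nonneg (by linarith)]
    linarith
  · filter_upwards [eqΨ, S.eq] with x hx hx'
    rw [G_sub (Lκ.const_mul 3) (S.ld.const_mul 3), G_const_mul, G_const_mul]
    have e : 3 * G κ x - 3 * G (fun y => φ y ^ (3 / 2 : ℝ)) x = 3 * (φ x - Ψ x) := by
      rw [hx, hx']; ring
    rw [e]
    simp only [hκ]
    rw [← mul12 x]
    ring

end Pool.Agent.H23.TF
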