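import Pool.Agent.H23.TF.T1_Atom
import Pool.Agent.H23.TF.D1_Psi

/-! Module B1: lower bound (9a) and the comparison of molecule and atom.

`mol_ge`: `sub_le` with the atomic potential as subsolution: `![t,0] ≤ ![t,t]`, `V ![a,b] ![t,0] x = t/‖x-a‖`.
`lower`: `K_2 ≥ 3/5 (∫_{B_a} φ_a^(5/2) + ∫_{B_b} φ_b^(5/2))`, `B_a, B_b` the (disjoint) balls of radius `‖a-b‖/2`,
`∫_{B_a^c} φ_a^(5/2) ≤ ∫_{B_a^c} ‖x-a‖^(-10) dx` (`atom_le`, `integrableOn_compl`). -/

open MeasureTheory Set Filter Topology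
open scoped ENNReal NNReal

namespace Pool.Agent.H23.TF

/-- the molecular potential of two equal nuclei -/
noncomputable def mol (a b : E3) (t : ℝ) : E3 → ℝ := sol ![a, b] ![t, t]

theorem mol_sol (a b : E3) {t : ℝ} (ht : 0 ≤ t) : Sol (V ![a, b] ![t, t]) (mol a b t) := by
  apply sol_spec
  intro i
  fin_cases i <;> simpa using ht

theorem V_two (a b : E3) (t s : ℝ) (x : E3) : V ![a, b] ![t, s] x = t / ‖x - a‖ + s / ‖x - b‖ := by
  simp [V, Fin.sum_univ_two]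

theorem mol_ge (a b : E3) {t : ℝ} (ht : 0 ≤ t) :
    ∀ᵐ x, atom a t x ≤ mol a b t x ∧ atom b t x ≤ mol a b t x := by
  have ha := atom_sol a ht
  have hb := atom_sol b ht
  have h1 : ∀ᵐ x, atom a t x ≤ mol a b t x := by
    refine sub_le (R := ![a, b]) (z := ![t, t]) (z' := ![t, 0]) ?_ ?_ (mol_sol a b ht) ha.meas
      ha.nonneg ha.ld (Eventually.of_forall fun x => le_rfl) ?_
    · intro i
      fin_cases i <;> simp [ht]
    · intro i
      fin_cases i <;> simp [ht]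
    · filter_upwards [ha.eq] with x hx
      rw [V_two, zero_div, add_zero]
      exact hx
  have h2 : ∀ᵐ x, atom b t x ≤ mol a b t x := by
    refine sub_le (R := ![a, b]) (z := ![t, t]) (z' := ![0, t]) ?_ ?_ (mol_sol a b ht) hb.meas
      hb.nonneg hb.ld (Eventually.of_forall fun x => le_rfl) ?_
    · intro i
      fin_cases i <;> simp [ht]
    · intro i
      fin_cases i <;> simp [ht]
    · filter_upwards [hb.eq] with x hx
      rw [V_two, zero_div, zero_add]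
      exact hx
  filter_upwards [h1, h2] with x hx hx'
  exact ⟨hx, hx'⟩

lemma B1.atom_far (a : E3) {r : ℝ} (hr : 0 < r) {t : ℝ} (ht : 0 < t) :
    (∫ x in (Metric.ball a r)ᶜ, atom a t x ^ (5 / 2 : ℝ)) ≤
      ∫ x in (Metric.ball a r)ᶜ, (‖x - a‖ ^ (10 : ℝ))⁻¹ := by
  apply setIntegral_mono_ae (atom_sol a ht.le).i2.integrableOn
    (integrableOn_compl (by norm_num) a hr)
  filter_upwards [atom_le a ht] with x hx
  have h1 : atom a t x ^ (5 / 2 : ℝ) ≤ ((‖x - a‖ ^ (4 : ℝ))⁻¹) ^ (5 / 2 : ℝ) :=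
    Real.rpow_le_rpow ((atom_sol a ht.le).nonneg x) hx (by norm_num)
  have h2 : ((‖x - a‖ ^ (4 : ℝ))⁻¹) ^ (5 / 2 : ℝ) = (‖x - a‖ ^ (10 : ℝ))⁻¹ := by
    rw [Real.inv_rpow (Real.rpow_nonneg (norm_nonneg _) _), ← Real.rpow_mul (norm_nonneg _)]
    norm_num
  rwa [h2] at h1

lemma B1.atom_near (a : E3) {r : ℝ} (hr : 0 < r) {t : ℝ} (ht : 0 < t) :
    (∫ x, atom a t x ^ (5 / 2 : ℝ)) - (∫ x in (Metric.ball a r)ᶜ, (‖x - a‖ ^ (10 : ℝ))⁻¹) ≤
      ∫ x in Metric.ball a r, atom a t x ^ (5 / 2 : ℝ) := by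
  have h := integral_add_compl (measurableSet_ball (x := a) (ε := r)) (atom_sol a ht.le).i2
  have h2 := B1.atom_far a hr ht
  linarith

theorem lower {a b : E3} (hab : a ≠ b) : ∃ C, ∀ t : ℝ, 0 < t →
    Kv (fun _ : Fin 1 => a) (fun _ => t) + Kv (fun _ : Fin 1 => b) (fun _ => t) - C ≤ Kv ![a, b] ![t, t] := by
  have hr : 0 < ‖a - b‖ / 2 := by
    have := norm_pos_iff.2 (sub_ne_zero.2 hab)
    positivity
  set r := ‖a - b‖ / 2 with hrdef
  refine ⟨3 / 5 * ((∫ x in (Metric.ball a r)ᶜ, (‖x - a‖ ^ (10 : ℝ))⁻¹) +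
    ∫ x in (Metric.ball b r)ᶜ, (‖x - b‖ ^ (10 : ℝ))⁻¹), fun t ht => ?_⟩
  have hdisj : Disjoint (Metric.ball a r) (Metric.ball b r) := by
    apply Metric.ball_disjoint_ball
    rw [dist_eq_norm, hrdef]
    linarith
  have hm := mol_sol a b ht.le
  have hnn : ∀ x, 0 ≤ mol a b t x ^ (5 / 2 : ℝ) := fun x => Real.rpow_nonneg (hm.nonneg x) _
  have h1 : (∫ x in Metric.ball a r ∪ Metric.ball b r, mol a b t x ^ (5 / 2 : ℝ)) ≤
      ∫ x, mol a b t x ^ (5 / 2 : ℝ) :=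
    setIntegral_le_integral hm.i2 (Eventually.of_forall hnn)
  rw [setIntegral_union hdisj measurableSet_ball hm.i2.integrableOn hm.i2.integrableOn] at h1
  have h2 : (∫ x in Metric.ball a r, atom a t x ^ (5 / 2 : ℝ)) ≤
      ∫ x in Metric.ball a r, mol a b t x ^ (5 / 2 : ℝ) := by
    apply setIntegral_mono_ae (atom_sol a ht.le).i2.integrableOn hm.i2.integrableOn
    filter_upwards [mol_ge a b ht.le] with x hx
    exact Real.rpow_le_rpow ((atom_sol a ht.le).nonneg x) hx.1 (by norm_num)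
  have h3 : (∫ x in Metric.ball b r, atom b t x ^ (5 / 2 : ℝ)) ≤
      ∫ x in Metric.ball b r, mol a b t x ^ (5 / 2 : ℝ) := by
    apply setIntegral_mono_ae (atom_sol b ht.le).i2.integrableOn hm.i2.integrableOn
    filter_upwards [mol_ge a b ht.le] with x hx
    exact Real.rpow_le_rpow ((atom_sol b ht.le).nonneg x) hx.2 (by norm_num)
  have h4 := B1.atom_near a hr ht
  have h5 := B1.atom_near b hr ht
  have e1 : Kv (fun _ : Fin 1 => a) (fun _ => t) = 3 / 5 * ∫ x, atom a t x ^ (5 / 2 : ℝ) := rfl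
  have e2 : Kv (fun _ : Fin 1 => b) (fun _ => t) = 3 / 5 * ∫ x, atom b t x ^ (5 / 2 : ℝ) := rfl
  have e3 : Kv ![a, b] ![t, t] = 3 / 5 * ∫ x, mol a b t x ^ (5 / 2 : ℝ) := rfl
  rw [e1, e2, e3]
  linarith

end Pool.Agent.H23.TF
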