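import Pool.Agent.H23.TF.S5_Real

/-! Module U1: the solution is the unique minimiser (section 5), also without mass constraint.

`JJ R z s = 3/5 ∫ s^(5/3) - ∫ V s + 1/2 ∫ s G s` (`ξ - U`). With `ρ = φ^(3/2)`, `φ = V - Gρ` a.e.:
`JJ(s) - JJ(ρ) = ∫ [3/5 (s^(5/3) - ρ^(5/3)) - φ (s-ρ)] + 1/2 ∫ (s-ρ) G(s-ρ)`; pointwise `3/5 (s^(5/3) - φ^(5/2)) - φ (s - φ^(3/2)) ≥ 0`
with equality iff `s = φ^(3/2)` (strict convexity of `t^(5/3)`). `pos`, `G_symm`.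
`JJ_val`: multiply `φ = V - Gρ` by `ρ` and integrate: `∫ φ^(5/2) = ∫ Vρ - ∫ ρ Gρ`, `∫ V ρ = ∑ z_j Gρ(R_j)`. -/

open MeasureTheory Set Filter Topology
open scoped ENNReal NNReal

namespace Pool.Agent.H23.TF

/-- `ξ` without the nuclear repulsion -/
noncomputable def JJ {k : ℕ} (R : Fin k → E3) (z : Fin k → ℝ) (s : E3 → ℝ) : ℝ :=
  3 / 5 * (∫ x, s x ^ (5 / 3 : ℝ)) - (∫ x, V R z x * s x) + 1 / 2 * ∫ x, s x * G s x

theorem xi_eq {k : ℕ} (R : Fin k → E3) (z : Fin k → ℝ) (s : E3 → ℝ) : xi R z s = JJ R z s + U R z := by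
  unfold xi JJ
  have h : ∀ x : E3, ∫ y, s x * s y / ‖x - y‖ = s x * G s x := by
    intro x
    unfold G
    rw [← integral_const_mul]
    refine integral_congr_ae (Filter.Eventually.of_forall fun y => ?_)
    simp only [mul_div_assoc]
  simp_rw [h]

namespace U1

theorem key_id (t w : ℝ) : 3 / 5 * t ^ 5 + 2 / 5 * w ^ 5 - w ^ 2 * t ^ 3 =
    1 / 5 * ((t - w) ^ 2 * (3 * t ^ 3 + 6 * t ^ 2 * w + 4 * t * w ^ 2 + 2 * w ^ 3)) := by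
  ring

theorem rpow_pows {s p : ℝ} (hs : 0 ≤ s) (hp : 0 ≤ p) :
    s ^ (5 / 3 : ℝ) = (s ^ (1 / 3 : ℝ)) ^ 5 ∧ s = (s ^ (1 / 3 : ℝ)) ^ 3 ∧
      p ^ (5 / 2 : ℝ) = (p ^ (1 / 2 : ℝ)) ^ 5 ∧ p ^ (3 / 2 : ℝ) = (p ^ (1 / 2 : ℝ)) ^ 3 ∧
      p = (p ^ (1 / 2 : ℝ)) ^ 2 := by
  refine ⟨?_, ?_, ?_, ?_, ?_⟩
  · rw [← Real.rpow_natCast, ← Real.rpow_mul hs]; norm_num
  · rw [← Real.rpow_natCast, ← Real.rpow_mul hs]; norm_num
  · rw [← Real.rpow_natCast, ← Real.rpow_mul hp]; norm_num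
  · rw [← Real.rpow_natCast, ← Real.rpow_mul hp]; norm_num
  · rw [← Real.rpow_natCast, ← Real.rpow_mul hp]; norm_num

/-- the pointwise defect -/
noncomputable def hh (s p : ℝ) : ℝ := 3 / 5 * s ^ (5 / 3 : ℝ) + 2 / 5 * p ^ (5 / 2 : ℝ) - p * s

theorem hh_nonneg {s p : ℝ} (hs : 0 ≤ s) (hp : 0 ≤ p) : 0 ≤ hh s p := by
  obtain ⟨h1, h2, h3, -, h5⟩ := rpow_pows hs hp
  unfold hh
  have e : 3 / 5 * s ^ (5 / 3 : ℝ) + 2 / 5 * p ^ (5 / 2 : ℝ) - p * s =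
      3 / 5 * (s ^ (1 / 3 : ℝ)) ^ 5 + 2 / 5 * (p ^ (1 / 2 : ℝ)) ^ 5 -
        (p ^ (1 / 2 : ℝ)) ^ 2 * (s ^ (1 / 3 : ℝ)) ^ 3 := by
    rw [← h1, ← h2, ← h3, ← h5]
  rw [e, key_id]
  have ht : 0 ≤ s ^ (1 / 3 : ℝ) := Real.rpow_nonneg hs _
  have hw : 0 ≤ p ^ (1 / 2 : ℝ) := Real.rpow_nonneg hp _
  positivity

theorem hh_eq {s p : ℝ} (hs : 0 ≤ s) (hp : 0 ≤ p) (h : hh s p = 0) : s = p ^ (3 / 2 : ℝ) := by
  obtain ⟨h1, h2, h3, h4, h5⟩ := rpow_pows hs hp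
  unfold hh at h
  have e : 3 / 5 * s ^ (5 / 3 : ℝ) + 2 / 5 * p ^ (5 / 2 : ℝ) - p * s =
      3 / 5 * (s ^ (1 / 3 : ℝ)) ^ 5 + 2 / 5 * (p ^ (1 / 2 : ℝ)) ^ 5 -
        (p ^ (1 / 2 : ℝ)) ^ 2 * (s ^ (1 / 3 : ℝ)) ^ 3 := by
    rw [← h1, ← h2, ← h3, ← h5]
  rw [e, key_id] at h
  have ht : 0 ≤ s ^ (1 / 3 : ℝ) := Real.rpow_nonneg hs _
  have hw : 0 ≤ p ^ (1 / 2 : ℝ) := Real.rpow_nonneg hp _
  rw [h4]
  nth_rewrite 1 [h2]
  set t := s ^ (1 / 3 : ℝ)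
  set w := p ^ (1 / 2 : ℝ)
  have h6 : (t - w) ^ 2 * (3 * t ^ 3 + 6 * t ^ 2 * w + 4 * t * w ^ 2 + 2 * w ^ 3) = 0 := by linarith
  rcases mul_eq_zero.1 h6 with h7 | h7
  · have : t - w = 0 := by simpa using h7
    have : t = w := by linarith
    rw [this]
  · have a1 : 0 ≤ t ^ 3 := by positivity
    have a2 : 0 ≤ t ^ 2 * w := by positivity
    have a3 : 0 ≤ t * w ^ 2 := by positivity
    have a4 : 0 ≤ w ^ 3 := by positivity
    linarith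

end U1

open U1

variable {k : ℕ} {R : Fin k → E3} {z : Fin k → ℝ} {φ : E3 → ℝ}

theorem U1.rho53 (hφ : Sol (V R z) φ) (x : E3) :
    (φ x ^ (3 / 2 : ℝ)) ^ (5 / 3 : ℝ) = φ x ^ (5 / 2 : ℝ) := by
  rw [← Real.rpow_mul (hφ.nonneg x)]; norm_num

/-- the identity behind the minimum property -/
theorem U1.JJ_diff (hφ : Sol (V R z) φ) {s : E3 → ℝ} (hs0 : ∀ x, 0 ≤ s x) (hs : Ld s) :
    JJ R z s - JJ R z (fun x => φ x ^ (3 / 2 : ℝ)) = (∫ x, hh (s x) (φ x)) +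
      1 / 2 * ∫ x, (s x - φ x ^ (3 / 2 : ℝ)) * G (fun y => s y - φ y ^ (3 / 2 : ℝ)) x := by
  set ρ : E3 → ℝ := fun x => φ x ^ (3 / 2 : ℝ) with hρdef
  have hρ : Ld ρ := hφ.ld
  have hη : Ld (fun x => s x - ρ x) := hs.sub hρ
  have i53 : Integrable (fun x => s x ^ (5 / 3 : ℝ)) := by
    have := hs.i2
    refine this.congr (Filter.Eventually.of_forall fun x => ?_)
    simp only [abs_of_nonneg (hs0 x)]
  have hphis : Integrable (fun x => φ x * s x) := by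
    have h1 := (hs.int_V R z).sub (hs.int_mul_G hρ)
    refine h1.congr ?_
    filter_upwards [hφ.eq] with x hx
    rw [hx, Pi.sub_apply]
    ring
  have hphir : ∀ x, φ x * ρ x = φ x ^ (5 / 2 : ℝ) := by
    intro x
    obtain ⟨-, -, h3, h4, h5⟩ := rpow_pows (s := 0) le_rfl (hφ.nonneg x)
    simp only [hρdef]
    rw [h3, h4]
    nth_rewrite 1 [h5]
    ring
  -- G of the difference
  have hG : ∀ x, G (fun y => s y - ρ y) x = G s x - G ρ x := fun x => G_sub hs hρ x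
  have e1 : ∫ x, (s x - ρ x) * G (fun y => s y - ρ y) x =
      (∫ x, s x * G s x) - (∫ x, s x * G ρ x) - (∫ x, ρ x * G s x) + ∫ x, ρ x * G ρ x := by
    have : ∀ x, (s x - ρ x) * G (fun y => s y - ρ y) x =
        s x * G s x - s x * G ρ x - ρ x * G s x + ρ x * G ρ x := by
      intro x; rw [hG]; ring
    simp_rw [this]
    rw [integral_add, integral_sub, integral_sub]
    · exact hs.int_mul_G hs
    · exact hs.int_mul_G hρ
    · exact (hs.int_mul_G hs).sub (hs.int_mul_G hρ)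
    · exact hρ.int_mul_G hs
    · exact ((hs.int_mul_G hs).sub (hs.int_mul_G hρ)).sub (hρ.int_mul_G hs)
    · exact hρ.int_mul_G hρ
  have e2 := G_symm hρ hs
  have e3 : ∫ x, hh (s x) (φ x) =
      3 / 5 * (∫ x, s x ^ (5 / 3 : ℝ)) + 2 / 5 * (∫ x, φ x ^ (5 / 2 : ℝ)) - ∫ x, φ x * s x := by
    unfold hh
    rw [integral_sub, integral_add, integral_const_mul, integral_const_mul]
    · exact i53.const_mul _
    · exact hφ.i2.const_mul _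
    · exact (i53.const_mul _).add (hφ.i2.const_mul _)
    · exact hphis
  have e4 : ∫ x, φ x * s x = (∫ x, V R z x * s x) - ∫ x, s x * G ρ x := by
    rw [← integral_sub (hs.int_V R z) (hs.int_mul_G hρ)]
    refine integral_congr_ae ?_
    filter_upwards [hφ.eq] with x hx
    rw [hx]; ring
  have e5 : ∫ x, φ x ^ (5 / 2 : ℝ) = (∫ x, V R z x * ρ x) - ∫ x, ρ x * G ρ x := by
    rw [← integral_sub (hρ.int_V R z) (hρ.int_mul_G hρ)]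
    refine integral_congr_ae ?_
    filter_upwards [hφ.eq] with x hx
    rw [← hphir x]
    nth_rewrite 1 [hx]; ring
  have e6 : ∫ x, ρ x ^ (5 / 3 : ℝ) = ∫ x, φ x ^ (5 / 2 : ℝ) := by
    refine integral_congr_ae (Filter.Eventually.of_forall fun x => ?_)
    exact U1.rho53 hφ x
  unfold JJ
  change 3 / 5 * (∫ x, s x ^ (5 / 3 : ℝ)) - (∫ x, V R z x * s x) + 1 / 2 * (∫ x, s x * G s x) -
    (3 / 5 * (∫ x, ρ x ^ (5 / 3 : ℝ)) - (∫ x, V R z x * ρ x) + 1 / 2 * ∫ x, ρ x * G ρ x) = _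
  have e7 : ∫ x, (s x - φ x ^ (3 / 2 : ℝ)) * G (fun y => s y - φ y ^ (3 / 2 : ℝ)) x =
      ∫ x, (s x - ρ x) * G (fun y => s y - ρ y) x := rfl
  rw [e1, e2, e3, e4, e6]
  linarith [e5]

theorem JJ_min (hφ : Sol (V R z) φ) {s : E3 → ℝ} (hs0 : ∀ x, 0 ≤ s x) (hs : Ld s) :
    JJ R z (fun x => φ x ^ (3 / 2 : ℝ)) ≤ JJ R z s := by
  have h1 := U1.JJ_diff hφ hs0 hs
  have h2 : 0 ≤ ∫ x, hh (s x) (φ x) := integral_nonneg fun x => hh_nonneg (hs0 x) (hφ.nonneg x)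
  have h3 := pos (hs.sub hφ.ld)
  linarith

theorem JJ_eq (hφ : Sol (V R z) φ) {s : E3 → ℝ} (hs0 : ∀ x, 0 ≤ s x) (hs : Ld s)
    (h : JJ R z s ≤ JJ R z (fun x => φ x ^ (3 / 2 : ℝ))) : s =ᵐ[volume] fun x => φ x ^ (3 / 2 : ℝ) := by
  have h1 := U1.JJ_diff hφ hs0 hs
  have h2 : 0 ≤ ∫ x, hh (s x) (φ x) := integral_nonneg fun x => hh_nonneg (hs0 x) (hφ.nonneg x)
  have h3 := pos (hs.sub hφ.ld)
  have h4 : ∫ x, hh (s x) (φ x) = 0 := by linarith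
  have i53 : Integrable (fun x => s x ^ (5 / 3 : ℝ)) := by
    have := hs.i2
    refine this.congr (Filter.Eventually.of_forall fun x => ?_)
    simp only [abs_of_nonneg (hs0 x)]
  have hphis : Integrable (fun x => φ x * s x) := by
    have h1 := (hs.int_V R z).sub (hs.int_mul_G hφ.ld)
    refine h1.congr ?_
    filter_upwards [hφ.eq] with x hx
    rw [hx, Pi.sub_apply]
    ring
  have h5 : Integrable (fun x => hh (s x) (φ x)) := by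
    unfold hh
    exact ((i53.const_mul _).add (hφ.i2.const_mul _)).sub hphis
  have h6 := (integral_eq_zero_iff_of_nonneg (fun x => hh_nonneg (hs0 x) (hφ.nonneg x)) h5).1 h4
  filter_upwards [h6] with x hx
  exact hh_eq (hs0 x) (hφ.nonneg x) hx

theorem JJ_val (hφ : Sol (V R z) φ) :
    JJ R z (fun x => φ x ^ (3 / 2 : ℝ)) =
      1 / 10 * (∫ x, φ x ^ (5 / 2 : ℝ)) - 1 / 2 * ∑ j, z j * G (fun x => φ x ^ (3 / 2 : ℝ)) (R j) := by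
  set ρ : E3 → ℝ := fun x => φ x ^ (3 / 2 : ℝ) with hρdef
  have hρ : Ld ρ := hφ.ld
  have hphir : ∀ x, φ x * ρ x = φ x ^ (5 / 2 : ℝ) := by
    intro x
    obtain ⟨-, -, h3, h4, h5⟩ := rpow_pows (s := 0) le_rfl (hφ.nonneg x)
    simp only [hρdef]
    rw [h3, h4]
    nth_rewrite 1 [h5]
    ring
  have e5 : ∫ x, φ x ^ (5 / 2 : ℝ) = (∫ x, V R z x * ρ x) - ∫ x, ρ x * G ρ x := by
    rw [← integral_sub (hρ.int_V R z) (hρ.int_mul_G hρ)]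
    refine integral_congr_ae ?_
    filter_upwards [hφ.eq] with x hx
    rw [← hphir x]
    nth_rewrite 1 [hx]; ring
  have e6 : ∫ x, ρ x ^ (5 / 3 : ℝ) = ∫ x, φ x ^ (5 / 2 : ℝ) := by
    refine integral_congr_ae (Filter.Eventually.of_forall fun x => ?_)
    exact U1.rho53 hφ x
  have e7 := int_V_mul hρ R z
  unfold JJ
  rw [← e7, e6]
  linarith [e5]

end Pool.Agent.H23.TF
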