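import Pool.Agent.H23.TF.T1_Atom
import Pool.Agent.H23.TF.U1_Min

/-! Module B2: cutting an atom at radius `r` costs `O(1)`, uniformly in the charge `t` (9b).

`ρ = φ^(3/2)`, `τ = ρ 1_{B^c} ≤ τ₀ := ‖x-a‖^(-6) 1_{B(a,r)^c}` (`atom_le`, `Ld.pow6`), `s = ρ 1_B = ρ - τ`:
`JJ(s) - JJ(ρ) = -3/5 ∫ τ^(5/3) + ∫ V τ - ∫ τ Gρ + 1/2 ∫ τ Gτ = -3/5∫ τ^(5/3) + ∫ φ τ + 1/2 ∫ τ G τ ≤ ∫_{B^c} ‖x-a‖^(-10) + 1/2 ∫ τ₀ G τ₀`. -/

open MeasureTheory Set Filter Topology
open scoped ENNReal NNReal

namespace Pool.Agent.H23.TF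

/-- the cut atomic density -/
noncomputable def cut (a : E3) (r t : ℝ) : E3 → ℝ :=
  (Metric.ball a r).indicator (fun x => atom a t x ^ (3 / 2 : ℝ))

theorem cut_nonneg (a : E3) (r : ℝ) {t : ℝ} (ht : 0 ≤ t) (x : E3) : 0 ≤ cut a r t x := by
  unfold cut
  exact Set.indicator_nonneg (fun y _ => Real.rpow_nonneg ((atom_sol a ht).nonneg y) _) x

theorem cut_ld (a : E3) (r : ℝ) {t : ℝ} (ht : 0 ≤ t) : Ld (cut a r t) :=
  (atom_sol a ht).ld.indicator measurableSet_ball

/-- the tail of the atomic density -/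
noncomputable def tl (a : E3) (r t : ℝ) : E3 → ℝ :=
  (Metric.ball a r)ᶜ.indicator (fun x => atom a t x ^ (3 / 2 : ℝ))

/-- the universal bound of the tails -/
noncomputable def tl0 (a : E3) (r : ℝ) : E3 → ℝ :=
  (Metric.ball a r)ᶜ.indicator (fun x => (‖x - a‖ ^ (6 : ℝ))⁻¹)

theorem cut_add_tl (a : E3) (r t : ℝ) (x : E3) :
    cut a r t x + tl a r t x = atom a t x ^ (3 / 2 : ℝ) := by
  unfold cut tl
  exact Set.indicator_self_add_compl_apply _ _ _

theorem tl_nonneg (a : E3) (r : ℝ) {t : ℝ} (ht : 0 ≤ t) (x : E3) : 0 ≤ tl a r t x := by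
  unfold tl
  exact Set.indicator_nonneg (fun y _ => Real.rpow_nonneg ((atom_sol a ht).nonneg y) _) x

theorem tl_ld (a : E3) (r : ℝ) {t : ℝ} (ht : 0 ≤ t) : Ld (tl a r t) :=
  (atom_sol a ht).ld.indicator measurableSet_ball.compl

theorem tl0_ld (a : E3) {r : ℝ} (hr : 0 < r) : Ld (tl0 a r) := Ld.pow6 a hr

theorem tl0_nonneg (a : E3) (r : ℝ) (x : E3) : 0 ≤ tl0 a r x := by
  unfold tl0
  exact Set.indicator_nonneg (fun y _ => by positivity) x

theorem tl_le (a : E3) (r : ℝ) {t : ℝ} (ht : 0 < t) : ∀ᵐ x, tl a r t x ≤ tl0 a r x := by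
  filter_upwards [atom_le a ht] with x hx
  unfold tl tl0
  refine Set.indicator_le_indicator ?_
  have h0 := (atom_sol a ht.le).nonneg x
  calc atom a t x ^ (3 / 2 : ℝ) ≤ ((‖x - a‖ ^ (4 : ℝ))⁻¹) ^ (3 / 2 : ℝ) :=
        Real.rpow_le_rpow h0 hx (by norm_num)
    _ = (‖x - a‖ ^ (6 : ℝ))⁻¹ := by
        rw [Real.inv_rpow (by positivity), ← Real.rpow_mul (norm_nonneg _)]
        norm_num

theorem cut_mass (a : E3) {r : ℝ} (hr : 0 < r) : ∃ C, ∀ t : ℝ, 0 < t →
    0 ≤ t - (∫ x, cut a r t x) ∧ t - (∫ x, cut a r t x) ≤ C := by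
  refine ⟨∫ x, tl0 a r x, fun t ht => ?_⟩
  have h1 : t - (∫ x, cut a r t x) = ∫ x, tl a r t x := by
    have h2 : ∫ x, atom a t x ^ (3 / 2 : ℝ) = (∫ x, cut a r t x) + ∫ x, tl a r t x := by
      rw [← integral_add (cut_ld a r ht.le).i1 (tl_ld a r ht.le).i1]
      exact integral_congr_ae (Eventually.of_forall fun x => (cut_add_tl a r t x).symm)
    have h3 := atom_mass a ht.le
    linarith
  rw [h1]
  exact ⟨integral_nonneg fun x => tl_nonneg a r ht.le x,
    integral_mono_ae (tl_ld a r ht.le).i1 (tl0_ld a hr).i1 (tl_le a r ht)⟩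

theorem cut_energy (a : E3) {r : ℝ} (hr : 0 < r) : ∃ C, ∀ t : ℝ, 0 < t →
    JJ (fun _ : Fin 1 => a) (fun _ => t) (cut a r t) ≤
      JJ (fun _ : Fin 1 => a) (fun _ => t) (fun x => atom a t x ^ (3 / 2 : ℝ)) + C := by
  refine ⟨(∫ x in (Metric.ball a r)ᶜ, (‖x - a‖ ^ (10 : ℝ))⁻¹) + 1 / 2 * ∫ x, tl0 a r x * G (tl0 a r) x,
    fun t ht => ?_⟩
  have hS := atom_sol a ht.le
  have hρ := hS.ld
  have hs := cut_ld a r ht.le
  have hτ := tl_ld a r ht.le
  have hτ0 := tl0_ld a hr
  set ρ : E3 → ℝ := fun x => atom a t x ^ (3 / 2 : ℝ) with hρd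
  set s : E3 → ℝ := cut a r t with hsd
  set τ : E3 → ℝ := tl a r t with hτd
  have hρ0 : ∀ x, 0 ≤ ρ x := fun x => Real.rpow_nonneg (hS.nonneg x) _
  have hs0 : ∀ x, 0 ≤ s x := fun x => cut_nonneg a r ht.le x
  have hτn : ∀ x, 0 ≤ τ x := fun x => tl_nonneg a r ht.le x
  have hsum : ∀ x, s x = ρ x - τ x := fun x => by
    have := cut_add_tl a r t x
    simp only [hρd, hsd, hτd]; linarith
  -- kinetic energy
  have k1 : ∫ x, s x ^ (5 / 3 : ℝ) ≤ ∫ x, ρ x ^ (5 / 3 : ℝ) := by
    refine integral_mono ?_ ?_ ?_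
    · refine hs.i2.congr (Eventually.of_forall fun x => ?_)
      simp only [abs_of_nonneg (hs0 x)]
    · refine hρ.i2.congr (Eventually.of_forall fun x => ?_)
      simp only [abs_of_nonneg (hρ0 x)]
    · intro x
      exact Real.rpow_le_rpow (hs0 x) (by rw [hsum x]; linarith [hτn x]) (by norm_num)
  -- nuclear attraction
  have k2 : ∫ x, V (fun _ : Fin 1 => a) (fun _ => t) x * s x =
      (∫ x, V (fun _ : Fin 1 => a) (fun _ => t) x * ρ x) - ∫ x, V (fun _ : Fin 1 => a) (fun _ => t) x * τ x := by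
    rw [← integral_sub (hρ.int_V _ _) (hτ.int_V _ _)]
    refine integral_congr_ae (Eventually.of_forall fun x => ?_)
    simp only [hsum x]; ring
  -- repulsion
  have k3 : ∫ x, s x * G s x = (∫ x, ρ x * G ρ x) - 2 * (∫ x, τ x * G ρ x) + ∫ x, τ x * G τ x := by
    have e1 : ∀ x, s x * G s x = ρ x * G ρ x - ρ x * G τ x - (τ x * G ρ x - τ x * G τ x) := fun x => by
      have e2 : G s x = G ρ x - G τ x := by
        rw [← G_sub hρ hτ x]
        congr 1
        funext y; exact hsum y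
      rw [e2, hsum x]; ring
    have i1 := hρ.int_mul_G hρ
    have i2 := hρ.int_mul_G hτ
    have i3 := hτ.int_mul_G hρ
    have i4 := hτ.int_mul_G hτ
    rw [integral_congr_ae (Eventually.of_forall e1)]
    have i12 : Integrable (fun x => ρ x * G ρ x - ρ x * G τ x) := i1.sub i2
    have i34 : Integrable (fun x => τ x * G ρ x - τ x * G τ x) := i3.sub i4
    rw [integral_sub i12 i34, integral_sub i1 i2, integral_sub i3 i4, G_symm hρ hτ]
    ring
  -- the TF equation
  have k4 : (∫ x, V (fun _ : Fin 1 => a) (fun _ => t) x * τ x) - (∫ x, τ x * G ρ x) ≤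
      ∫ x in (Metric.ball a r)ᶜ, (‖x - a‖ ^ (10 : ℝ))⁻¹ := by
    rw [← integral_sub (hτ.int_V _ _) (hτ.int_mul_G hρ), ← integral_indicator measurableSet_ball.compl]
    refine integral_mono_ae ((hτ.int_V _ _).sub (hτ.int_mul_G hρ)) ?_ ?_
    · rw [integrable_indicator_iff measurableSet_ball.compl]
      exact integrableOn_compl (by norm_num) a hr
    · filter_upwards [hS.eq, atom_le a ht] with x hx hx2
      have h0 := hS.nonneg x
      have e3 : V (fun _ : Fin 1 => a) (fun _ => t) x * τ x - τ x * G ρ x = atom a t x * τ x := by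
        rw [V_atom, hx]; ring
      rw [e3]
      by_cases hxb : x ∈ (Metric.ball a r)ᶜ
      · have e4 : τ x = atom a t x ^ (3 / 2 : ℝ) := by
          simp only [hτd, tl]
          rw [Set.indicator_of_mem hxb]
        rw [Set.indicator_of_mem hxb, e4]
        calc atom a t x * atom a t x ^ (3 / 2 : ℝ) = atom a t x ^ (5 / 2 : ℝ) := by
              rw [show (5 / 2 : ℝ) = 1 + 3 / 2 by norm_num, Real.rpow_add' h0 (by norm_num), Real.rpow_one]
          _ ≤ ((‖x - a‖ ^ (4 : ℝ))⁻¹) ^ (5 / 2 : ℝ) := Real.rpow_le_rpow h0 hx2 (by norm_num)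
          _ = (‖x - a‖ ^ (10 : ℝ))⁻¹ := by
              rw [Real.inv_rpow (by positivity), ← Real.rpow_mul (norm_nonneg _)]
              norm_num
      · have e4 : τ x = 0 := by
          simp only [hτd, tl]
          rw [Set.indicator_of_notMem hxb]
        rw [Set.indicator_of_notMem hxb, e4, mul_zero]
  -- self-energy of the tail
  have k5 : ∫ x, τ x * G τ x ≤ ∫ x, tl0 a r x * G (tl0 a r) x := by
    refine integral_mono_ae (hτ.int_mul_G hτ) (hτ0.int_mul_G hτ0) ?_
    filter_upwards [tl_le a r ht] with x hx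
    exact mul_le_mul hx (G_mono hτ hτ0 (tl_le a r ht) x) (G_nonneg (Eventually.of_forall hτn) x)
      (tl0_nonneg a r x)
  unfold JJ
  rw [k2, k3]
  linarith

/-- Newton: the potential of the cut atom outside of its ball -/
theorem G_cut (a : E3) {r : ℝ} (hr : 0 < r) {t : ℝ} (ht : 0 ≤ t) (x : E3) (hx : r ≤ ‖x - a‖) :
    G (cut a r t) x = (∫ y, cut a r t y) / ‖x - a‖ := by
  obtain ⟨h, hm, h0, hh⟩ := atom_radial a ht
  refine G_out (h := (Iio r).indicator (fun u => h u ^ (3 / 2 : ℝ)))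
    ((hm.pow_const _).indicator measurableSet_Iio)
    (fun u => Set.indicator_nonneg (fun v _ => Real.rpow_nonneg (h0 v) _) u) hr ?_ a ?_ (cut_ld a r ht) x hx
  · intro u hu
    exact Set.indicator_of_notMem (by simpa using hu) _
  · filter_upwards [hh] with y hy
    unfold cut
    by_cases hyb : y ∈ Metric.ball a r
    · have h2 : ‖y - a‖ ∈ Iio r := by simpa [dist_eq_norm] using hyb
      rw [Set.indicator_of_mem hyb, Set.indicator_of_mem h2, hy]
    · have h2 : ‖y - a‖ ∉ Iio r := by simpa [dist_eq_norm] using hyb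
      rw [Set.indicator_of_notMem hyb, Set.indicator_of_notMem h2]

theorem G_translate (f : E3 → ℝ) (c x : E3) : G (fun y => f (y + c)) x = G f (x + c) := by
  unfold G
  rw [← integral_add_right_eq_self (fun y => f y / ‖x + c - y‖) c]
  refine integral_congr_ae (Eventually.of_forall fun y => ?_)
  simp only [add_sub_add_right_eq_sub]

/-- translated atoms -/
theorem atom_translate (a b : E3) {t : ℝ} (ht : 0 ≤ t) :
    atom b t =ᵐ[volume] fun x => atom a t (x + (a - b)) := by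
  have hS := atom_sol a ht
  refine sol_unique (atom_sol b ht) ⟨hS.meas.comp (measurable_add_const _), fun x => hS.nonneg _,
    hS.i1.comp_add_right (a - b), hS.i2.comp_add_right (a - b), ?_⟩
  have hmp : MeasurePreserving (fun x : E3 => x + (a - b)) volume volume :=
    measurePreserving_add_right volume (a - b)
  have h2 := hmp.quasiMeasurePreserving.ae hS.eq
  filter_upwards [h2] with x hx
  rw [hx, G_translate (fun y => atom a t y ^ (3 / 2 : ℝ)) (a - b) x]
  congr 3
  abel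

/-- the masses of the cut atoms do not depend on the position -/
theorem cut_mass_eq (a b : E3) (r : ℝ) {t : ℝ} (ht : 0 ≤ t) : ∫ y, cut a r t y = ∫ y, cut b r t y := by
  rw [← integral_add_right_eq_self (fun y => cut a r t y) (a - b)]
  refine integral_congr_ae ?_
  filter_upwards [atom_translate a b ht] with x hx
  unfold cut
  have hiff : x + (a - b) ∈ Metric.ball a r ↔ x ∈ Metric.ball b r := by
    simp only [Metric.mem_ball, dist_eq_norm]
    rw [show x + (a - b) - a = x - b by abel]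
  by_cases hxb : x ∈ Metric.ball b r
  · rw [Set.indicator_of_mem hxb, Set.indicator_of_mem (hiff.2 hxb), hx]
  · rw [Set.indicator_of_notMem hxb, Set.indicator_of_notMem (fun h => hxb (hiff.1 h))]

end Pool.Agent.H23.TF
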