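import Pool.Agent.H23.TF.B1_Lower
import Pool.Agent.H23.TF.B2_Cut

/-! Module B3: the trial density `s = s_a + s_b` (cut atoms, radius `r = ‖a-b‖/2`) (9b).

`JJ_mol(ρ_m) ≤ JJ_mol(s)` (`JJ_min`). Since the supports are disjoint `∫ s^(5/3) = ∫ s_a^(5/3) + ∫ s_b^(5/3)`;
`∫ V s = ∫ V_a s_a + ∫ V_b s_b + t G s_b(a) + t G s_a(b)`; `∫ s G s = ∫ s_a G s_a + ∫ s_b G s_b + 2 ∫ s_a G s_b`,
`G s_b(a) = m/‖a-b‖`, `∫ s_a G s_b = ∫ s_a m/‖x-b‖ = m G s_a(b) = m²/‖a-b‖` (`G_cut`). Cross terms + `t²/‖a-b‖` = `(t-m)²/‖a-b‖ ≤ C`. -/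

open MeasureTheory Set Filter Topology
open scoped ENNReal NNReal

namespace Pool.Agent.H23.TF

theorem trial {a b : E3} (hab : a ≠ b) : ∃ C, ∀ t : ℝ, 0 < t →
    JJ ![a, b] ![t, t] (fun x => mol a b t x ^ (3 / 2 : ℝ)) + t ^ 2 / ‖a - b‖ ≤
      JJ (fun _ : Fin 1 => a) (fun _ => t) (fun x => atom a t x ^ (3 / 2 : ℝ)) +
      JJ (fun _ : Fin 1 => b) (fun _ => t) (fun x => atom b t x ^ (3 / 2 : ℝ)) + C := by
  have hR : 0 < ‖a - b‖ := norm_pos_iff.2 (sub_ne_zero.2 hab)
  have hr : 0 < ‖a - b‖ / 2 := by positivity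
  obtain ⟨Ca, hCa⟩ := cut_energy a hr
  obtain ⟨Cb, hCb⟩ := cut_energy b hr
  obtain ⟨Cm, hCm⟩ := cut_mass a hr
  refine ⟨Ca + Cb + Cm ^ 2 / ‖a - b‖, fun t ht => ?_⟩
  have eCa := hCa t ht
  have eCb := hCb t ht
  obtain ⟨m1, m2⟩ := hCm t ht
  have hmeq := cut_mass_eq a b (‖a - b‖ / 2) ht.le
  have hsa := cut_ld a (‖a - b‖ / 2) ht.le
  have hsb := cut_ld b (‖a - b‖ / 2) ht.le
  have hsa0 := cut_nonneg a (‖a - b‖ / 2) ht.le
  have hsb0 := cut_nonneg b (‖a - b‖ / 2) ht.le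
  have hGa := fun x hx => G_cut a hr ht.le x hx
  have hGb := fun x hx => G_cut b hr ht.le x hx
  -- the supports are disjoint
  have hfar : ∀ x, x ∈ Metric.ball a (‖a - b‖ / 2) → ‖a - b‖ / 2 ≤ ‖x - b‖ := fun x hx => by
    have h1 : ‖x - a‖ < ‖a - b‖ / 2 := by simpa [dist_eq_norm] using hx
    have h2 : ‖a - b‖ ≤ ‖x - a‖ + ‖x - b‖ := by
      calc ‖a - b‖ = ‖(x - b) - (x - a)‖ := by congr 1; abel
        _ ≤ ‖x - b‖ + ‖x - a‖ := norm_sub_le _ _
        _ = _ := add_comm _ _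
    linarith
  have hdisj : ∀ x, cut a (‖a - b‖ / 2) t x = 0 ∨ cut b (‖a - b‖ / 2) t x = 0 := fun x => by
    by_cases hx : x ∈ Metric.ball a (‖a - b‖ / 2)
    · right
      unfold cut
      refine Set.indicator_of_notMem (fun h => ?_) _
      have h1 := hfar x hx
      have h2 : ‖x - b‖ < ‖a - b‖ / 2 := by simpa [dist_eq_norm] using h
      linarith
    · left
      unfold cut
      exact Set.indicator_of_notMem hx _
  have hfarsa : ∀ x, cut a (‖a - b‖ / 2) t x = 0 ∨ ‖a - b‖ / 2 ≤ ‖x - b‖ := fun x => by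
    by_cases hx : x ∈ Metric.ball a (‖a - b‖ / 2)
    · right; exact hfar x hx
    · left; unfold cut; exact Set.indicator_of_notMem hx _
  set sa : E3 → ℝ := cut a (‖a - b‖ / 2) t with hsad
  set sb : E3 → ℝ := cut b (‖a - b‖ / 2) t with hsbd
  set m : ℝ := ∫ x, sa x with hmd
  set R : ℝ := ‖a - b‖ with hRd
  have hs : Ld (fun x => sa x + sb x) := hsa.add hsb
  have hmin := JJ_min (mol_sol a b ht.le) (s := fun x => sa x + sb x)
    (fun x => add_nonneg (hsa0 x) (hsb0 x)) hs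
  have g1 : G sb a = m / R := by
    rw [hGb a (by linarith), ← hmeq]
  have g2 : G sa b = m / R := by
    have hba : ‖b - a‖ = R := by rw [hRd, norm_sub_rev]
    rw [hGa b (by rw [hba]; linarith), hba]
  have hG : ∀ x, G (fun y => sa y + sb y) x = G sa x + G sb x := fun x => G_add hsa hsb x
  -- kinetic energy
  have k1 : ∫ x, (sa x + sb x) ^ (5 / 3 : ℝ) = (∫ x, sa x ^ (5 / 3 : ℝ)) + ∫ x, sb x ^ (5 / 3 : ℝ) := by
    rw [← integral_add]
    · refine integral_congr_ae (Eventually.of_forall fun x => ?_)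
      rcases hdisj x with h | h
      · simp only [h, zero_add]
        rw [Real.zero_rpow (by norm_num), zero_add]
      · simp only [h, add_zero]
        rw [Real.zero_rpow (by norm_num), add_zero]
    · refine hsa.i2.congr (Eventually.of_forall fun x => ?_)
      simp only [abs_of_nonneg (hsa0 x)]
    · refine hsb.i2.congr (Eventually.of_forall fun x => ?_)
      simp only [abs_of_nonneg (hsb0 x)]
  -- nuclear attraction
  have k2 : ∫ x, V ![a, b] ![t, t] x * (sa x + sb x) =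
      t * (G sa a + m / R) + t * (m / R + G sb b) := by
    rw [int_V_mul hs ![a, b] ![t, t]]
    simp only [Fin.sum_univ_two, Matrix.cons_val_zero, Matrix.cons_val_one, hG, g1, g2]
  have k2a : ∫ x, V (fun _ : Fin 1 => a) (fun _ => t) x * sa x = t * G sa a := by
    rw [int_V_mul hsa]; simp
  have k2b : ∫ x, V (fun _ : Fin 1 => b) (fun _ => t) x * sb x = t * G sb b := by
    rw [int_V_mul hsb]; simp
  -- the cross term
  have kc : ∫ x, sa x * G sb x = m ^ 2 / R := by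
    have e1 : ∀ x, sa x * G sb x = m * (sa x / ‖b - x‖) := fun x => by
      rcases hfarsa x with h | h
      · rw [h]; simp
      · rw [hGb x h, ← hmeq, norm_sub_rev b x]; ring
    rw [integral_congr_ae (Eventually.of_forall e1), integral_const_mul]
    have e2 : ∫ x, sa x / ‖b - x‖ = G sa b := rfl
    rw [e2, g2]; ring
  -- repulsion
  have k3 : ∫ x, (sa x + sb x) * G (fun y => sa y + sb y) x =
      (∫ x, sa x * G sa x) + (∫ x, sb x * G sb x) + 2 * (m ^ 2 / R) := by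
    have e1 : ∀ x, (sa x + sb x) * G (fun y => sa y + sb y) x =
        sa x * G sa x + sb x * G sb x + (sa x * G sb x + sb x * G sa x) := fun x => by
      rw [hG x]; ring
    have i1 := hsa.int_mul_G hsa
    have i2 := hsb.int_mul_G hsb
    have i3 := hsa.int_mul_G hsb
    have i4 := hsb.int_mul_G hsa
    have i12 : Integrable (fun x => sa x * G sa x + sb x * G sb x) := i1.add i2
    have i34 : Integrable (fun x => sa x * G sb x + sb x * G sa x) := i3.add i4
    rw [integral_congr_ae (Eventually.of_forall e1), integral_add i12 i34, integral_add i1 i2,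
      integral_add i3 i4, G_symm hsb hsa, kc]
    ring
  have hQ : (t - m) ^ 2 / R ≤ Cm ^ 2 / R := by
    apply div_le_div_of_nonneg_right _ hR.le
    exact pow_le_pow_left₀ m1 m2 2
  have hid : t ^ 2 / R - t * (m / R) - t * (m / R) + m ^ 2 / R = (t - m) ^ 2 / R := by ring
  have hJ : JJ ![a, b] ![t, t] (fun x => sa x + sb x) + t ^ 2 / R =
      JJ (fun _ : Fin 1 => a) (fun _ => t) sa + JJ (fun _ : Fin 1 => b) (fun _ => t) sb + (t - m) ^ 2 / R := by
    unfold JJ
    rw [k1, k2, k3, k2a, k2b, ← hid]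
    ring
  linarith

end Pool.Agent.H23.TF
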