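import Pool.Agent.H23.TF.B3_Trial

/-! Module B4: `w(a) ≥ 0` and the upper bound (9c), (9d).

`w_nonneg`: for a.e. `x`: `G ρ_m(x) ≤ t/‖x-b‖ + G ρ_a(x) ≤ t/‖x-b‖ + G ρ_a(a)` (`mol_ge`, `G_center` with `atom_radial`); choose such `x_n → a` (a.e. set is dense) and use `G_le_of_tendsto`.
`upper`: `JJ_val` for the molecule and both atoms, `trial`, `w_nonneg`: `κ/6 ≤ C`. -/

open MeasureTheory Set Filter Topology
open scoped ENNReal NNReal

namespace Pool.Agent.H23.TF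

lemma B4.exists_seq {P : E3 → Prop} (h : ∀ᵐ x, P x) (a : E3) :
    ∃ u : ℕ → E3, Tendsto u atTop (𝓝 a) ∧ ∀ n, P (u n) := by
  have h1 : ∀ n : ℕ, ∃ x, P x ∧ dist x a < 1 / ((n : ℝ) + 1) := by
    intro n
    have hpos : (0 : ℝ) < 1 / ((n : ℝ) + 1) := by positivity
    by_contra hcon
    push Not at hcon
    have hsub : Metric.ball a (1 / ((n : ℝ) + 1)) ⊆ {x | ¬ P x} := by
      intro x hx hPx
      exact absurd (Metric.mem_ball.1 hx) (not_lt.2 (hcon x hPx))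
    have h0 : volume {x | ¬ P x} = 0 := ae_iff.1 h
    have h2 : volume (Metric.ball a (1 / ((n : ℝ) + 1))) = 0 := measure_mono_null hsub h0
    exact absurd h2 (Metric.measure_ball_pos volume a hpos).ne'
  choose u hu1 hu2 using h1
  refine ⟨u, ?_, hu1⟩
  rw [tendsto_iff_dist_tendsto_zero]
  exact squeeze_zero (fun n => dist_nonneg) (fun n => (hu2 n).le)
    tendsto_one_div_add_atTop_nhds_zero_nat

lemma B4.center (a : E3) {t : ℝ} (ht : 0 ≤ t) (x : E3) :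
    G (fun x => atom a t x ^ (3 / 2 : ℝ)) x ≤ G (fun x => atom a t x ^ (3 / 2 : ℝ)) a := by
  obtain ⟨h, hm, h0, he⟩ := atom_radial a ht
  refine G_center (h := fun r => h r ^ (3 / 2 : ℝ)) (hm.pow_const _)
    (fun r => Real.rpow_nonneg (h0 r) _) a ?_ (atom_sol a ht).ld x
  filter_upwards [he] with y hy
  rw [hy]

lemma B4.aux {a c : E3} (hac : c ≠ a) {t : ℝ} (ht : 0 < t) {ρ : E3 → ℝ} (hρ : Ld ρ)
    (h0 : ∀ᵐ x, 0 ≤ ρ x)
    (h : ∀ᵐ x, G ρ x ≤ t / ‖x - c‖ + G (fun x => atom a t x ^ (3 / 2 : ℝ)) x) :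
    G ρ a ≤ t / ‖a - c‖ + G (fun x => atom a t x ^ (3 / 2 : ℝ)) a := by
  obtain ⟨u, hu, hP⟩ := B4.exists_seq h a
  refine G_le_of_tendsto hρ h0 a u hu
    (fun n => t / ‖u n - c‖ + G (fun x => atom a t x ^ (3 / 2 : ℝ)) a) _ ?_ ?_
  · apply Tendsto.add_const
    have h1 : Tendsto (fun n => ‖u n - c‖) atTop (𝓝 ‖a - c‖) := (hu.sub_const c).norm
    exact Tendsto.div tendsto_const_nhds h1 (norm_ne_zero_iff.2 (sub_ne_zero.2 (Ne.symm hac)))
  · intro n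
    have h2 := hP n
    have h3 := B4.center a ht.le (u n)
    linarith

theorem w_nonneg {a b : E3} (hab : a ≠ b) {t : ℝ} (ht : 0 < t) :
    G (fun x => mol a b t x ^ (3 / 2 : ℝ)) a ≤ t / ‖a - b‖ + G (fun x => atom a t x ^ (3 / 2 : ℝ)) a := by
  have hm := mol_sol a b ht.le
  refine B4.aux (Ne.symm hab) ht hm.ld
    (Eventually.of_forall fun x => Real.rpow_nonneg (hm.nonneg x) _) ?_
  filter_upwards [hm.eq, (atom_sol a ht.le).eq, mol_ge a b ht.le] with x h1 h2 h3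
  rw [V_two] at h1
  linarith [h3.1]

theorem w_nonneg' {a b : E3} (hab : a ≠ b) {t : ℝ} (ht : 0 < t) :
    G (fun x => mol a b t x ^ (3 / 2 : ℝ)) b ≤ t / ‖a - b‖ + G (fun x => atom b t x ^ (3 / 2 : ℝ)) b := by
  have hm := mol_sol a b ht.le
  rw [norm_sub_rev a b]
  refine B4.aux hab ht hm.ld
    (Eventually.of_forall fun x => Real.rpow_nonneg (hm.nonneg x) _) ?_
  filter_upwards [hm.eq, (atom_sol b ht.le).eq, mol_ge a b ht.le] with x h1 h2 h3
  rw [V_two] at h1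
  linarith [h3.2]

theorem upper {a b : E3} (hab : a ≠ b) : ∃ C, ∀ t : ℝ, 0 < t →
    Kv ![a, b] ![t, t] ≤ Kv (fun _ : Fin 1 => a) (fun _ => t) + Kv (fun _ : Fin 1 => b) (fun _ => t) + C := by
  obtain ⟨C, hC⟩ := trial hab
  refine ⟨6 * C, fun t ht => ?_⟩
  have h0 := hC t ht
  have hV : ∀ c : E3, Sol (V (fun _ : Fin 1 => c) (fun _ => t)) (atom c t) := fun c =>
    sol_spec (fun _ : Fin 1 => c) (fun _ => ht.le)
  have h1 := JJ_val (mol_sol a b ht.le)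
  have h2 := JJ_val (hV a)
  have h3 := JJ_val (hV b)
  have h4 := w_nonneg hab ht
  have h5 := w_nonneg' hab ht
  rw [h1, h2, h3] at h0
  simp only [Fin.sum_univ_two, Matrix.cons_val_zero, Matrix.cons_val_one, Finset.univ_unique,
    Finset.sum_singleton] at h0
  have e1 : Kv (fun _ : Fin 1 => a) (fun _ => t) = 3 / 5 * ∫ x, atom a t x ^ (5 / 2 : ℝ) := rfl
  have e2 : Kv (fun _ : Fin 1 => b) (fun _ => t) = 3 / 5 * ∫ x, atom b t x ^ (5 / 2 : ℝ) := rfl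
  have e3 : Kv ![a, b] ![t, t] = 3 / 5 * ∫ x, mol a b t x ^ (5 / 2 : ℝ) := rfl
  rw [e1, e2, e3]
  have h6 : t * G (fun x => mol a b t x ^ (3 / 2 : ℝ)) a + t * G (fun x => mol a b t x ^ (3 / 2 : ℝ)) b ≤
      2 * (t ^ 2 / ‖a - b‖) + t * G (fun x => atom a t x ^ (3 / 2 : ℝ)) a +
        t * G (fun x => atom b t x ^ (3 / 2 : ℝ)) b := by
    have h7 := mul_le_mul_of_nonneg_left h4 ht.le
    have h8 := mul_le_mul_of_nonneg_left h5 ht.le
    have e4 : t * (t / ‖a - b‖) = t ^ 2 / ‖a - b‖ := by ring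
    rw [mul_add, e4] at h7 h8
    linarith
  linarith

end Pool.Agent.H23.TF
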