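import Pool.Agent.H23.TF.D1_Psi

/-! Module D2: first order expansion of `Kv` (section 6c).

`φ = sol R z`, `φ' = sol R (z+h)`, `d = φ'-φ`, `|d| ≤ ε φ`, `k = φ'^(3/2) - φ^(3/2)`, `d = V R h - G k` a.e. (V_add, G_sub).
`∑ h_i g(R_i) = ∫ V R h * f₁` (`int_V_mul`) `= ∫ f₁ d + ∫ f₁ G k = ∫ f₁ d + ∫ k g` (`G_symm`).
With `p = φ^(1/2)`, `q = φ'^(1/2)`: the integrand of `Kv R (z+h) - Kv R z - ∑ h_i g(R_i)` is
`(3/5) (q-p)² (q³+2q²p+3qp²+(3/2)p³) - g (q-p)² (q+p/2)`, bounded by `6 p (q²-p²)² ≤ 6 ε² p⁵`. -/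

open MeasureTheory Set Filter Topology
open scoped ENNReal NNReal

namespace Pool.Agent.H23.TF

variable {k : ℕ} {R : Fin k → E3} {z : Fin k → ℝ}

lemma rpow32 {a : ℝ} (ha : 0 ≤ a) : a ^ (3 / 2 : ℝ) = √a ^ 3 := by
  rw [Real.sqrt_eq_rpow, ← Real.rpow_natCast, ← Real.rpow_mul ha]
  norm_num

lemma rpow52 {a : ℝ} (ha : 0 ≤ a) : a ^ (5 / 2 : ℝ) = √a ^ 5 := by
  rw [Real.sqrt_eq_rpow, ← Real.rpow_natCast, ← Real.rpow_mul ha]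
  norm_num

/-- the pointwise algebra -/
lemma expand_pt {p q g ε : ℝ} (hp : 0 ≤ p) (hq : 0 ≤ q) (hg : |g| ≤ 3 * p ^ 2)
    (hε : ε ≤ 1 / 2) (h1 : (1 - ε) * p ^ 2 ≤ q ^ 2) (h2 : q ^ 2 ≤ (1 + ε) * p ^ 2) :
    |3 / 5 * q ^ 5 - 3 / 5 * p ^ 5 - (q ^ 2 - p ^ 2) * (3 / 2 * p * (p ^ 2 - g)) - (q ^ 3 - p ^ 3) * g|
      ≤ 6 * ε ^ 2 * p ^ 5 := by
  have hq2 : q ≤ 2 * p := by
    apply le_of_sq_le_sq _ (by positivity)
    nlinarith [sq_nonneg p]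
  have e : 3 / 5 * q ^ 5 - 3 / 5 * p ^ 5 - (q ^ 2 - p ^ 2) * (3 / 2 * p * (p ^ 2 - g)) -
      (q ^ 3 - p ^ 3) * g = (q - p) ^ 2 * (3 / 5 * (q ^ 3 + 2 * q ^ 2 * p + 3 * q * p ^ 2 + 3 / 2 * p ^ 3)
        - g * (q + p / 2)) := by ring
  rw [e, abs_mul, abs_of_nonneg (sq_nonneg (q - p))]
  have hA : 0 ≤ 3 / 5 * (q ^ 3 + 2 * q ^ 2 * p + 3 * q * p ^ 2 + 3 / 2 * p ^ 3) := by positivity
  have hA' : 3 / 5 * (q ^ 3 + 2 * q ^ 2 * p + 3 * q * p ^ 2 + 3 / 2 * p ^ 3) ≤ 3 * p * (q + p) ^ 2 := by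
    have : q ^ 3 ≤ 2 * p * q ^ 2 := by nlinarith [sq_nonneg q]
    have : 0 ≤ q ^ 2 * p := by positivity
    have : 0 ≤ q * p ^ 2 := by positivity
    have : 0 ≤ p ^ 3 := by positivity
    nlinarith
  have hB : |g * (q + p / 2)| ≤ 3 * p * (q + p) ^ 2 := by
    rw [abs_mul, abs_of_nonneg (show (0 : ℝ) ≤ q + p / 2 by positivity)]
    calc |g| * (q + p / 2) ≤ 3 * p ^ 2 * (q + p / 2) :=
          mul_le_mul_of_nonneg_right hg (by positivity)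
      _ ≤ 3 * p * (q + p) ^ 2 := by
          have : 0 ≤ p * q ^ 2 := by positivity
          have : 0 ≤ q * p ^ 2 := by positivity
          have : 0 ≤ p ^ 3 := by positivity
          nlinarith
  have hC : |3 / 5 * (q ^ 3 + 2 * q ^ 2 * p + 3 * q * p ^ 2 + 3 / 2 * p ^ 3) - g * (q + p / 2)|
      ≤ 6 * p * (q + p) ^ 2 := by
    calc _ ≤ |3 / 5 * (q ^ 3 + 2 * q ^ 2 * p + 3 * q * p ^ 2 + 3 / 2 * p ^ 3)| + |g * (q + p / 2)| :=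
          abs_sub _ _
      _ ≤ _ := by rw [abs_of_nonneg hA]; linarith
  have hd : |q ^ 2 - p ^ 2| ≤ ε * p ^ 2 := by
    rw [abs_le]; constructor <;> linarith
  have hd2 : (q ^ 2 - p ^ 2) ^ 2 ≤ ε ^ 2 * p ^ 4 := by
    calc (q ^ 2 - p ^ 2) ^ 2 = |q ^ 2 - p ^ 2| ^ 2 := (sq_abs _).symm
      _ ≤ (ε * p ^ 2) ^ 2 := pow_le_pow_left₀ (abs_nonneg _) hd 2
      _ = _ := by ring
  calc (q - p) ^ 2 * |3 / 5 * (q ^ 3 + 2 * q ^ 2 * p + 3 * q * p ^ 2 + 3 / 2 * p ^ 3) - g * (q + p / 2)|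
      ≤ (q - p) ^ 2 * (6 * p * (q + p) ^ 2) := mul_le_mul_of_nonneg_left hC (sq_nonneg _)
    _ = 6 * p * (q ^ 2 - p ^ 2) ^ 2 := by ring
    _ ≤ 6 * p * (ε ^ 2 * p ^ 4) := mul_le_mul_of_nonneg_left hd2 (by positivity)
    _ = _ := by ring

theorem Kv_expand (hz : ∀ i, 0 ≤ z i) : ∃ g : E3 → ℝ, ∃ C : ℝ, ∀ h : Fin k → ℝ, ∀ ε : ℝ, 0 ≤ ε → ε ≤ 1 / 2 →
    (∀ i, |h i| ≤ ε * z i) → |Kv R (z + h) - Kv R z - ∑ i, h i * g (R i)| ≤ C * ε ^ 2 := by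
  obtain ⟨f1, hf1, hg3, hf1e⟩ := exists_g (R := R) hz
  refine ⟨G f1, 6 * ∫ x, sol R z x ^ (5 / 2 : ℝ), fun h ε hε0 hε hh => ?_⟩
  have hz' : ∀ i, 0 ≤ (z + h) i := fun i => by
    have h1 := hh i
    have h2 := (abs_le.mp h1).1
    have h3 : ε * z i ≤ 1 / 2 * z i := mul_le_mul_of_nonneg_right hε (hz i)
    have h4 := hz i
    simp only [Pi.add_apply]
    linarith
  have hS := sol_spec R hz
  have hS' := sol_spec R hz'
  have hcmp := sol_cmp (R := R) hz hε0 hε hh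
  set φ := sol R z with hφ
  set φ' := sol R (z + h) with hφ'
  -- the difference of the densities
  have hk : Ld (fun x => φ' x ^ (3 / 2 : ℝ) - φ x ^ (3 / 2 : ℝ)) := hS'.ld.sub hS.ld
  have hV : ∀ᵐ x, V R h x = (φ' x - φ x) +
      G (fun x => φ' x ^ (3 / 2 : ℝ) - φ x ^ (3 / 2 : ℝ)) x := by
    filter_upwards [hS.eq, hS'.eq] with x h1 h2
    rw [G_sub hS'.ld hS.ld x]
    rw [V_add] at h2
    linarith
  have hI1 := hf1.int_mul_G hk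
  have hI2 := hf1.int_V R h
  have hI3 : Integrable (fun x => (φ' x - φ x) * f1 x) := by
    refine (hI2.sub hI1).congr ?_
    filter_upwards [hV] with x hx
    simp only [Pi.sub_apply]
    rw [hx]; ring
  have hsum : ∑ i, h i * G f1 (R i) = (∫ x, (φ' x - φ x) * f1 x) +
      ∫ x, (φ' x ^ (3 / 2 : ℝ) - φ x ^ (3 / 2 : ℝ)) * G f1 x := by
    rw [← int_V_mul hf1 R h, ← G_symm hf1 hk, ← integral_add hI3 hI1]
    apply integral_congr_ae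
    filter_upwards [hV] with x hx
    rw [hx]; ring
  have hI4 := hk.int_mul_G hf1
  have hI5 := hS.i2.const_mul (3 / 5)
  have hI6 := hS'.i2.const_mul (3 / 5)
  have hI7 : Integrable (fun x => 3 / 5 * φ' x ^ (5 / 2 : ℝ) - 3 / 5 * φ x ^ (5 / 2 : ℝ)) := hI6.sub hI5
  have hI8 : Integrable (fun x => 3 / 5 * φ' x ^ (5 / 2 : ℝ) - 3 / 5 * φ x ^ (5 / 2 : ℝ) -
      (φ' x - φ x) * f1 x) := hI7.sub hI3
  have hmain : Kv R (z + h) - Kv R z - ∑ i, h i * G f1 (R i) =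
      ∫ x, (3 / 5 * φ' x ^ (5 / 2 : ℝ) - 3 / 5 * φ x ^ (5 / 2 : ℝ) - (φ' x - φ x) * f1 x -
        (φ' x ^ (3 / 2 : ℝ) - φ x ^ (3 / 2 : ℝ)) * G f1 x) := by
    rw [integral_sub hI8 hI4, integral_sub hI7 hI3, integral_sub hI6 hI5, integral_const_mul,
      integral_const_mul, hsum]
    unfold Kv
    ring
  rw [hmain]
  calc |∫ x, (3 / 5 * φ' x ^ (5 / 2 : ℝ) - 3 / 5 * φ x ^ (5 / 2 : ℝ) - (φ' x - φ x) * f1 x -
        (φ' x ^ (3 / 2 : ℝ) - φ x ^ (3 / 2 : ℝ)) * G f1 x)| ≤ ∫ x, 6 * ε ^ 2 * φ x ^ (5 / 2 : ℝ) := by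
        rw [← Real.norm_eq_abs]
        refine norm_integral_le_of_norm_le (hS.i2.const_mul (6 * ε ^ 2)) ?_
        filter_upwards [hcmp, hg3, hf1e] with x h1 h2 h3
        rw [Real.norm_eq_abs]
        have e1 := Real.sq_sqrt (hS.nonneg x)
        have e2 := Real.sq_sqrt (hS'.nonneg x)
        have e3 : φ x ^ (1 / 2 : ℝ) = √(φ x) := (Real.sqrt_eq_rpow _).symm
        rw [h3, rpow52 (hS.nonneg x), rpow52 (hS'.nonneg x), rpow32 (hS.nonneg x),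
          rpow32 (hS'.nonneg x), e3]
        have key := expand_pt (p := √(φ x)) (q := √(φ' x)) (g := G f1 x) (ε := ε)
          (Real.sqrt_nonneg _) (Real.sqrt_nonneg _) (by rw [e1]; exact h2) hε
          (by rw [e1, e2]; exact h1.1) (by rw [e1, e2]; exact h1.2)
        rw [e1, e2] at key
        exact key
    _ = _ := by rw [integral_const_mul]; ring

end Pool.Agent.H23.TF
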