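/-
MP_f2f621_mp : weak superadditivity of `X~ = 3X - 2K` in neutral Thomas-Fermi theory (helper23).
Definitions of the problem, and the internal notions used in the proof.
Full paper proof: team-store helper23_tf_proof.md
-/
import Mathlib

open MeasureTheory Set Filter Topology
open scoped ENNReal NNReal

namespace Pool.Agent.H23.TF

/-- physical space -/
abbrev E3 := EuclideanSpace ℝ (Fin 3)

/-! ### The objects of the problem -/

/-- The nuclear potential `V(x) = ∑ z_j / |x - R_j|`. -/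
noncomputable def V {k : ℕ} (R : Fin k → E3) (z : Fin k → ℝ) (x : E3) : ℝ :=
  ∑ j, z j / ‖x - R j‖

/-- The nuclear repulsion `U = ∑_{i<j} z_i z_j / |R_i - R_j|`. -/
noncomputable def U {k : ℕ} (R : Fin k → E3) (z : Fin k → ℝ) : ℝ :=
  ∑ i, ∑ j ∈ Finset.univ.filter (fun j => i < j), z i * z j / ‖R i - R j‖

/-- The Thomas-Fermi functional `ξ(ρ)`. -/
noncomputable def xi {k : ℕ} (R : Fin k → E3) (z : Fin k → ℝ) (ρ : E3 → ℝ) : ℝ :=
  3 / 5 * (∫ x, ρ x ^ (5 / 3 : ℝ)) - (∫ x, V R z x * ρ x)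
    + 1 / 2 * (∫ x, ∫ y, ρ x * ρ y / ‖x - y‖) + U R z

/-- The densities: `ρ ≥ 0`, `∫ ρ < ∞`, `∫ ρ^(5/3) < ∞`, of total mass `Z`. -/
structure Density (Z : ℝ) (ρ : E3 → ℝ) : Prop where
  nonneg : ∀ x, 0 ≤ ρ x
  int : Integrable ρ
  int53 : Integrable (fun x => ρ x ^ (5 / 3 : ℝ))
  mass : ∫ x, ρ x = Z

/-- `ρ` minimises `ξ` in the neutral case `∫ ρ = Z = ∑ z_j`. -/
def IsMinimiser {k : ℕ} (R : Fin k → E3) (z : Fin k → ℝ) (ρ : E3 → ℝ) : Prop :=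
  Density (∑ j, z j) ρ ∧ ∀ σ, Density (∑ j, z j) σ → xi R z ρ ≤ xi R z σ

open Classical in
/-- The kinetic energy `K(z) = 3/5 ∫ ρ^(5/3)` of the minimiser `ρ`
(which exists for all `z ≥ 0` and is unique a.e., see the main theorem). -/
noncomputable def K {k : ℕ} (R : Fin k → E3) (z : Fin k → ℝ) : ℝ :=
  if h : ∃ ρ, IsMinimiser R z ρ then 3 / 5 * ∫ x, (Classical.choose h) x ^ (5 / 3 : ℝ) else 0

/-- The partial derivative `K_i = ∂K/∂z_i` on `ℝ_+^k` (one sided at `z_i = 0`). -/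
noncomputable def Ki {k : ℕ} (R : Fin k → E3) (z : Fin k → ℝ) (i : Fin k) : ℝ :=
  derivWithin (fun t => K R (Function.update z i t)) (Ici 0) (z i)

/-- `X = 3K - ∑ z_i K_i`. -/
noncomputable def X {k : ℕ} (R : Fin k → E3) (z : Fin k → ℝ) : ℝ :=
  3 * K R z - ∑ i, z i * Ki R z i

/-- `X~ = 3X - 2K`. -/
noncomputable def Xt {k : ℕ} (R : Fin k → E3) (z : Fin k → ℝ) : ℝ :=
  3 * X R z - 2 * K R z

/-- weak superadditivity on `ℝ_+^k` -/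
def WSA {k : ℕ} (f : (Fin k → ℝ) → ℝ) : Prop :=
  ∀ z1 z2 : Fin k → ℝ, (∀ i, 0 ≤ z1 i) → (∀ i, 0 ≤ z2 i) → (∀ i, z1 i * z2 i = 0) →
    f z1 + f z2 ≤ f (z1 + z2)

/-! ### Internal notions -/

/-- the Coulomb potential of a function -/
noncomputable def G (f : E3 → ℝ) (x : E3) : ℝ := ∫ y, f y / ‖x - y‖

/-- the class of (signed) charge densities `L^1 ∩ L^(5/3)` -/
structure Ld (f : E3 → ℝ) : Prop where
  i1 : Integrable f
  i2 : Integrable (fun x => |f x| ^ (5 / 3 : ℝ))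

/-- `φ` solves the neutral Thomas-Fermi equation `φ = W - G(φ^(3/2))` -/
structure Sol (W : E3 → ℝ) (φ : E3 → ℝ) : Prop where
  meas : Measurable φ
  nonneg : ∀ x, 0 ≤ φ x
  i1 : Integrable (fun x => φ x ^ (3 / 2 : ℝ))
  i2 : Integrable (fun x => φ x ^ (5 / 2 : ℝ))
  eq : ∀ᵐ x, φ x = W x - G (fun y => φ y ^ (3 / 2 : ℝ)) x

/-! #### `[0,∞]`-valued versions -/

/-- `1/|x|` -/
noncomputable def gg (x : E3) : ℝ≥0∞ := ‖x‖ₑ⁻¹

/-- the Coulomb potential of a `[0,∞]`-valued function (`lconvolution`) -/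
noncomputable def GG (f : E3 → ℝ≥0∞) : E3 → ℝ≥0∞ := fun x => ∫⁻ y, gg (x - y) * f y

/-- the Yukawa kernel -/
noncomputable def Yk (κ : ℝ) (x : E3) : ℝ≥0∞ := ENNReal.ofReal (Real.exp (-(κ * ‖x‖))) * ‖x‖ₑ⁻¹

/-- the constant `4π/κ²` -/
noncomputable def ci (κ : ℝ) : ℝ≥0∞ := ENNReal.ofReal (4 * Real.pi / κ ^ 2)

/-- the normalised Yukawa kernel `(κ²/4π) exp(-κ|x|)/|x|` -/
noncomputable def jk (κ : ℝ) (x : E3) : ℝ≥0∞ := ENNReal.ofReal (κ ^ 2 / (4 * Real.pi)) * Yk κ x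

/-- `J f = jk * f` -/
noncomputable def J (κ : ℝ) (f : E3 → ℝ≥0∞) : E3 → ℝ≥0∞ := fun x => ∫⁻ y, jk κ (x - y) * f y

/-- the nuclear potential, `[0,∞]`-valued -/
noncomputable def VE {k : ℕ} (R : Fin k → E3) (z : Fin k → ℝ) (x : E3) : ℝ≥0∞ :=
  ∑ j, ENNReal.ofReal (z j) * gg (x - R j)

/-- truncated nonlinearity `min(t,M)^(3/2)` -/
noncomputable def FM (M : ℝ≥0) (t : ℝ≥0∞) : ℝ≥0∞ := (min t M) ^ (3 / 2 : ℝ)

/-- `S w = w + (4π/κ²) F_M(W - w)` -/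
noncomputable def SM (κ : ℝ) (M : ℝ≥0) (W w : E3 → ℝ≥0∞) : E3 → ℝ≥0∞ :=
  fun x => w x + ci κ * FM M (W x - w x)

end Pool.Agent.H23.TF
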