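import Mathlib

/-! Module F1: the final real-variable argument (section 10). -/

open Set Filter Topology

namespace Pool.Agent.H23.TF

theorem final_real (K2 : ℝ → ℝ) (c1 C : ℝ) (hc1 : 0 < c1)
    (h2 : ∀ t : ℝ, 0 < t → |K2 t - 2 * (c1 * t ^ (7 / 3 : ℝ))| ≤ C)
    (h3 : AntitoneOn (fun t : ℝ => t ^ (-(7 / 3) : ℝ) * (K2 t - 2 * (c1 * t ^ (7 / 3 : ℝ)))) (Ioi 0))
    (h4 : AntitoneOn (fun t : ℝ => t ^ (-(7 / 3) : ℝ) * (K2 (2 * t) - 2 * K2 t)) (Ioi 0))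
    (h5 : Tendsto (fun n : ℕ => (1 / ((n : ℝ) + 1)) ^ (-(7 / 3) : ℝ) * K2 (1 / ((n : ℝ) + 1))) atTop
      (𝓝 (c1 * 2 ^ (7 / 3 : ℝ)))) : False := by
  obtain ⟨κ, hκ⟩ : ∃ κ : ℝ → ℝ, ∀ t, κ t = K2 t - 2 * (c1 * t ^ (7 / 3 : ℝ)) := ⟨_, fun _ => rfl⟩
  have hb : ∀ t : ℝ, 0 < t → |κ t| ≤ C := by
    intro t ht; rw [hκ]; exact h2 t ht
  have hlim : ∀ A : ℝ, Tendsto (fun s : ℝ => A * s ^ (-(7 / 3) : ℝ)) atTop (𝓝 0) := by
    intro A
    have := (tendsto_rpow_neg_atTop (show (0:ℝ) < 7 / 3 by norm_num)).const_mul A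
    simpa using this
  have hinv : ∀ t : ℝ, 0 < t → t ^ (-(7 / 3) : ℝ) * t ^ (7 / 3 : ℝ) = 1 := by
    intro t ht
    rw [← Real.rpow_add ht]
    norm_num
  -- Step A
  have hA : ∀ t : ℝ, 0 < t → 0 ≤ κ t := by
    intro t ht
    have h : ∀ᶠ s in atTop, -C * s ^ (-(7 / 3) : ℝ) ≤ t ^ (-(7 / 3) : ℝ) * κ t := by
      filter_upwards [eventually_ge_atTop t] with s hs
      have hs0 : 0 < s := lt_of_lt_of_le ht hs
      have e1 := h3 (mem_Ioi.mpr ht) (mem_Ioi.mpr hs0) hs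
      simp only [← hκ] at e1
      have e2 := (abs_le.mp (hb s hs0)).1
      have e3 : 0 ≤ s ^ (-(7 / 3) : ℝ) := (Real.rpow_pos_of_pos hs0 _).le
      nlinarith
    have h0 := le_of_tendsto (hlim (-C)) h
    have e3 : 0 < t ^ (-(7 / 3) : ℝ) := Real.rpow_pos_of_pos ht _
    exact nonneg_of_mul_nonneg_right h0 e3
  -- Step B
  have hD : ∀ t : ℝ, 0 < t → t ^ (-(7 / 3) : ℝ) * (K2 (2 * t) - 2 * K2 t) =
      t ^ (-(7 / 3) : ℝ) * (κ (2 * t) - 2 * κ t) + (2 ^ (7 / 3 : ℝ) - 2) * (2 * c1) := by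
    intro t ht
    rw [hκ, hκ, Real.mul_rpow (by norm_num) ht.le]
    have := hinv t ht
    linear_combination (2 * c1 * (2 ^ (7 / 3 : ℝ) - 2)) * this
  have hB : ∀ t : ℝ, 0 < t → 2 * κ t ≤ κ (2 * t) := by
    intro t ht
    have h : ∀ᶠ s in atTop, (-(3 * C)) * s ^ (-(7 / 3) : ℝ) ≤
        t ^ (-(7 / 3) : ℝ) * (κ (2 * t) - 2 * κ t) := by
      filter_upwards [eventually_ge_atTop t] with s hs
      have hs0 : 0 < s := lt_of_lt_of_le ht hs
      have e1 := h4 (mem_Ioi.mpr ht) (mem_Ioi.mpr hs0) hs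
      simp only at e1
      rw [hD t ht, hD s hs0] at e1
      have e2 := abs_le.mp (hb s hs0)
      have e2' := abs_le.mp (hb (2 * s) (by linarith))
      have e3 : 0 ≤ s ^ (-(7 / 3) : ℝ) := (Real.rpow_pos_of_pos hs0 _).le
      have e4 : -(3 * C) ≤ κ (2 * s) - 2 * κ s := by linarith [e2.1, e2.2, e2'.1]
      have e5 := mul_le_mul_of_nonneg_left e4 e3
      linarith
    have h0 := le_of_tendsto (hlim (-(3 * C))) h
    have e3 : 0 < t ^ (-(7 / 3) : ℝ) := Real.rpow_pos_of_pos ht _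
    have := nonneg_of_mul_nonneg_right h0 e3
    linarith
  -- Step C
  have hC : ∀ (n : ℕ) (t : ℝ), 0 < t → 2 ^ n * κ t ≤ κ (2 ^ n * t) := by
    intro n
    induction n with
    | zero => intro t _; simp
    | succ n ih =>
      intro t ht
      have e1 := ih t ht
      have e2 := hB (2 ^ n * t) (by positivity)
      have e3 : (2:ℝ) ^ (n+1) * t = 2 * (2 ^ n * t) := by ring
      rw [e3]
      calc (2:ℝ) ^ (n+1) * κ t = 2 * (2 ^ n * κ t) := by ring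
        _ ≤ 2 * κ (2 ^ n * t) := by linarith
        _ ≤ _ := e2
  have hz : ∀ t : ℝ, 0 < t → κ t = 0 := by
    intro t ht
    apply le_antisymm _ (hA t ht)
    have h : Tendsto (fun n : ℕ => C * (1/2:ℝ)^n) atTop (𝓝 0) := by
      have := (tendsto_pow_atTop_nhds_zero_of_lt_one (r := (1/2:ℝ)) (by norm_num)
        (by norm_num)).const_mul C
      simpa using this
    refine ge_of_tendsto' h fun n => ?_
    have e1 := hC n t ht
    have e2 := (abs_le.mp (hb (2 ^ n * t) (by positivity))).2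
    have e3 : (0:ℝ) < 2 ^ n := by positivity
    have e4 : C * (1/2:ℝ)^n = C / 2^n := by rw [one_div, inv_pow]; rfl
    rw [e4, le_div_iff₀ e3]
    linarith
  -- Step D
  have hconst : ∀ n : ℕ, (1 / ((n : ℝ) + 1)) ^ (-(7 / 3) : ℝ) * K2 (1 / ((n : ℝ) + 1)) = 2 * c1 := by
    intro n
    have hp : (0:ℝ) < 1 / ((n : ℝ) + 1) := by positivity
    have e1 := hz _ hp
    rw [hκ] at e1
    have e2 := hinv _ hp
    have e3 : K2 (1 / ((n : ℝ) + 1)) = 2 * (c1 * (1 / ((n : ℝ) + 1)) ^ (7 / 3 : ℝ)) := by linarith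
    rw [e3]
    linear_combination (2 * c1) * e2
  have h6 : Tendsto (fun _ : ℕ => 2 * c1) atTop (𝓝 (c1 * 2 ^ (7 / 3 : ℝ))) := by
    refine h5.congr fun n => ?_
    exact hconst n
  have h7 := tendsto_nhds_unique h6 tendsto_const_nhds
  have h8 : (2:ℝ) ^ (1:ℝ) < 2 ^ (7 / 3 : ℝ) := by
    apply Real.rpow_lt_rpow_of_exponent_lt (by norm_num) (by norm_num)
  rw [Real.rpow_one] at h8
  nlinarith

end Pool.Agent.H23.TF
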