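import Pool.Agent.H23.TF.U1_Min
import Pool.Agent.H23.TF.D2_Exp

/-! Module F2: the minimisers of the problem are the densities `φ^(3/2)`; `K = Kv`; derivatives; the ray formula (5, 6d, 6e).

`isMin_iff`: `IsMinimiser R z σ ↔ Density (∑ z) σ ∧ σ =ᵐ φ^(3/2)`; `JJ_min`, `JJ_eq`, `xi_eq`, `Sol.mass`.
`hasDerivAt_update`: `Kv_expand` with `h = (s-z i) e_i`, `ε = |s - z i|/z i`.
`hasDerivAt_ray`: `Kv_expand` at the point `t z` with `h = (s-t) z`, `ε = |s-t|/t`; the derivative is `∑ z_i g(R_i)`, `g` for the point `t z`;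
`z_i K_i(tz) = z_i g(R_i)` (`z_i = 0` trivial). -/

open MeasureTheory Set Filter Topology
open scoped ENNReal NNReal

namespace Pool.Agent.H23.TF

variable {k : ℕ} {R : Fin k → E3} {z : Fin k → ℝ}

theorem rpow_32_53 {t : ℝ} (ht : 0 ≤ t) : (t ^ (3 / 2 : ℝ)) ^ (5 / 3 : ℝ) = t ^ (5 / 2 : ℝ) := by
  rw [← Real.rpow_mul ht]; norm_num

theorem density_sol (hz : ∀ i, 0 ≤ z i) : Density (∑ j, z j) (fun x => sol R z x ^ (3 / 2 : ℝ)) := by
  have h := sol_spec R hz
  refine ⟨fun x => Real.rpow_nonneg (h.nonneg x) _, h.i1, ?_, Sol.mass hz h⟩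
  have e : (fun x => (sol R z x ^ (3 / 2 : ℝ)) ^ (5 / 3 : ℝ)) = fun x => sol R z x ^ (5 / 2 : ℝ) := by
    funext x; exact rpow_32_53 (h.nonneg x)
  rw [e]; exact h.i2

theorem isMinimiser_sol (hz : ∀ i, 0 ≤ z i) : IsMinimiser R z (fun x => sol R z x ^ (3 / 2 : ℝ)) := by
  refine ⟨density_sol hz, fun σ hσ => ?_⟩
  rw [xi_eq, xi_eq]
  have := JJ_min (sol_spec R hz) hσ.nonneg (Ld.of_nonneg hσ.nonneg hσ.int hσ.int53)
  linarith

theorem isMinimiser_unique (hz : ∀ i, 0 ≤ z i) {σ : E3 → ℝ} (h : IsMinimiser R z σ) :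
    σ =ᵐ[volume] fun x => sol R z x ^ (3 / 2 : ℝ) := by
  have h2 := h.2 _ (density_sol (R := R) hz)
  rw [xi_eq, xi_eq] at h2
  exact JJ_eq (sol_spec R hz) h.1.nonneg (Ld.of_nonneg h.1.nonneg h.1.int h.1.int53) (by linarith)

theorem K_eq (hz : ∀ i, 0 ≤ z i) : K R z = Kv R z := by
  have hex : ∃ ρ, IsMinimiser R z ρ := ⟨_, isMinimiser_sol hz⟩
  unfold K
  rw [dif_pos hex]
  unfold Kv
  congr 1
  apply integral_congr_ae
  filter_upwards [isMinimiser_unique hz (Classical.choose_spec hex)] with x hx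
  rw [hx, rpow_32_53 ((sol_spec R hz).nonneg x)]

theorem hasDerivAt_of_sq {f : ℝ → ℝ} {x d C : ℝ}
    (h : ∀ᶠ s in 𝓝 x, |f s - f x - (s - x) * d| ≤ C * (s - x) ^ 2) : HasDerivAt f d x := by
  rw [hasDerivAt_iff_isLittleO]
  have h1 : (fun s => f s - f x - (s - x) • d) =O[𝓝 x] fun s => (s - x) ^ 2 := by
    apply Asymptotics.IsBigO.of_bound C
    filter_upwards [h] with s hs
    rw [Real.norm_eq_abs, Real.norm_of_nonneg (sq_nonneg _), smul_eq_mul]
    exact hs
  refine h1.trans_isLittleO ?_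
  have h2 : (fun s : ℝ => (s - x) ^ 2) = fun s => (s - x) * (s - x) := by funext s; ring
  rw [h2]
  have h3 : (fun s : ℝ => s - x) =o[𝓝 x] (fun _ => (1 : ℝ)) := by
    rw [Asymptotics.isLittleO_one_iff]
    have : Tendsto (fun s : ℝ => s - x) (𝓝 x) (𝓝 (x - x)) := by
      apply Continuous.tendsto'; fun_prop; rfl
    rwa [sub_self] at this
  simpa using h3.mul_isBigO (Asymptotics.isBigO_refl (fun s : ℝ => s - x) (𝓝 x))

/-- the expansion for the functional `K` -/
theorem exists_expand (hz : ∀ i, 0 ≤ z i) : ∃ g : E3 → ℝ,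
    (∀ i, 0 < z i → HasDerivAt (fun t => K R (Function.update z i t)) (g (R i)) (z i)) ∧
    ∀ v : Fin k → ℝ, (∀ i, |v i| ≤ z i) →
      HasDerivAt (fun s : ℝ => K R (z + s • v)) (∑ i, v i * g (R i)) 0 := by
  obtain ⟨g, C, hg⟩ := Kv_expand (R := R) hz
  refine ⟨g, fun i hi => ?_, fun v hv => ?_⟩
  · apply hasDerivAt_of_sq (C := C / z i ^ 2)
    have hball : ∀ᶠ s in 𝓝 (z i), |s - z i| < z i / 2 := by
      have := Metric.ball_mem_nhds (z i) (half_pos hi)
      filter_upwards [this] with s hs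
      rwa [Metric.mem_ball, Real.dist_eq] at hs
    filter_upwards [hball] with s hs
    have hs0 : 0 ≤ s := by
      have := (abs_lt.1 hs).1
      linarith
    have h1 := hg (Pi.single i (s - z i)) (|s - z i| / z i) (by positivity)
      (by rw [div_le_iff₀ hi]; linarith)
      (by
        intro j
        by_cases hj : j = i
        · subst hj
          rw [Pi.single_eq_same, div_mul_cancel₀ _ hi.ne']
        · rw [Pi.single_eq_of_ne hj, abs_zero]
          have := hz j
          positivity)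
    have e1 : z + Pi.single i (s - z i) = Function.update z i s := by
      funext j
      by_cases hj : j = i
      · subst hj; simp
      · simp [hj]
    have e2 : ∑ j, (Pi.single i (s - z i) : Fin k → ℝ) j * g (R j) = (s - z i) * g (R i) := by
      rw [Finset.sum_eq_single i]
      · simp
      · intro j _ hj; simp [hj]
      · intro h; exact absurd (Finset.mem_univ i) h
    rw [e1, e2] at h1
    have hu : ∀ j, 0 ≤ Function.update z i s j := by
      intro j
      by_cases hj : j = i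
      · subst hj; simpa using hs0
      · simpa [hj] using hz j
    rw [K_eq hu, Function.update_eq_self, K_eq hz]
    refine h1.trans (le_of_eq ?_)
    rw [div_pow, sq_abs]; ring
  · apply hasDerivAt_of_sq (C := C)
    have hball : ∀ᶠ s in 𝓝 (0 : ℝ), |s| < 1 / 2 := by
      have := Metric.ball_mem_nhds (0 : ℝ) (half_pos one_pos)
      filter_upwards [this] with s hs
      simpa [Real.dist_eq] using hs
    filter_upwards [hball] with s hs
    have h1 := hg (s • v) |s| (abs_nonneg s) hs.le (fun i => by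
      rw [Pi.smul_apply, smul_eq_mul, abs_mul]
      exact mul_le_mul_of_nonneg_left (hv i) (abs_nonneg _))
    have hu : ∀ j, 0 ≤ (z + s • v) j := by
      intro j
      have h2 : |s * v j| ≤ z j := by
        rw [abs_mul]
        calc |s| * |v j| ≤ 1 * z j := by
              apply mul_le_mul (by linarith) (hv j) (abs_nonneg _) zero_le_one
          _ = z j := one_mul _
      have := (abs_le.1 h2).1
      simp only [Pi.add_apply, Pi.smul_apply, smul_eq_mul]
      linarith
    rw [K_eq hu, zero_smul, add_zero, K_eq hz, sub_zero, Finset.mul_sum]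
    rw [sq_abs] at h1
    have e3 : ∑ i, (s • v) i * g (R i) = ∑ i, s * (v i * g (R i)) := by
      refine Finset.sum_congr rfl fun i _ => ?_
      simp only [Pi.smul_apply, smul_eq_mul]
      ring
    rw [e3] at h1
    exact h1

theorem differentiableAt_update (hz : ∀ i, 0 ≤ z i) {i : Fin k} (hi : 0 < z i) :
    DifferentiableAt ℝ (fun t => K R (Function.update z i t)) (z i) := by
  obtain ⟨g, h1, -⟩ := exists_expand (R := R) hz
  exact (h1 i hi).differentiableAt

theorem hasDerivAt_ray (hz : ∀ i, 0 ≤ z i) {t : ℝ} (ht : 0 < t) :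
    HasDerivAt (fun s => K R (s • z)) ((7 * K R (t • z) - Xt R (t • z)) / (3 * t)) t := by
  have htz : ∀ i, 0 ≤ (t • z) i := fun i => mul_nonneg ht.le (hz i)
  obtain ⟨g, h1, h2⟩ := exists_expand (R := R) htz
  have h3 := h2 (t • z) (fun i => by rw [abs_of_nonneg (htz i)])
  have e : (7 * K R (t • z) - Xt R (t • z)) / (3 * t) = (∑ i, (t • z) i * g (R i)) / t := by
    have hsum : ∑ i, (t • z) i * Ki R (t • z) i = ∑ i, (t • z) i * g (R i) := by
      refine Finset.sum_congr rfl fun i _ => ?_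
      rcases (htz i).eq_or_lt with h0 | h0
      · rw [← h0]; simp
      · congr 1
        unfold Ki
        rw [derivWithin_of_mem_nhds (Ici_mem_nhds h0)]
        exact (h1 i h0).deriv
    unfold Xt X
    rw [hsum]
    field_simp
    ring
  rw [e]
  have h4 : HasDerivAt (fun s : ℝ => (s - t) / t) (1 / t) t := by
    simpa using ((hasDerivAt_id t).sub_const t).div_const t
  have h5 : HasDerivAt (fun s : ℝ => K R (t • z + s • (t • z))) (∑ i, (t • z) i * g (R i)) ((t - t) / t) := by
    rw [sub_self, zero_div]; exact h3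
  have h6 := HasDerivAt.comp (h := fun s : ℝ => (s - t) / t) t h5 h4
  rw [mul_one_div] at h6
  refine h6.congr_of_eventuallyEq (Eventually.of_forall fun s => ?_)
  simp only [Function.comp]
  congr 1
  funext i
  simp only [Pi.add_apply, Pi.smul_apply, smul_eq_mul]
  field_simp
  ring

/-- WSA along rays -/
theorem antitone_ray (hW : WSA (Xt R)) {z1 z2 : Fin k → ℝ} (h1 : ∀ i, 0 ≤ z1 i) (h2 : ∀ i, 0 ≤ z2 i)
    (h12 : ∀ i, z1 i * z2 i = 0) :
    AntitoneOn (fun t : ℝ => t ^ (-(7 / 3) : ℝ) *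
      (K R (t • (z1 + z2)) - K R (t • z1) - K R (t • z2))) (Ioi 0) := by
  have hd : ∀ t : ℝ, 0 < t → HasDerivAt (fun t : ℝ => t ^ (-(7 / 3) : ℝ) *
      (K R (t • (z1 + z2)) - K R (t • z1) - K R (t • z2)))
      (-(t ^ (-(10 / 3) : ℝ) / 3) * (Xt R (t • (z1 + z2)) - Xt R (t • z1) - Xt R (t • z2))) t := by
    intro t ht
    have e1 := hasDerivAt_ray (R := R) (z := z1 + z2) (fun i => add_nonneg (h1 i) (h2 i)) ht
    have e2 := hasDerivAt_ray (R := R) h1 ht
    have e3 := hasDerivAt_ray (R := R) h2 ht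
    have e4 : HasDerivAt (fun t : ℝ => t ^ (-(7 / 3) : ℝ)) (-(7 / 3) * t ^ (-(7 / 3) - 1 : ℝ)) t :=
      Real.hasDerivAt_rpow_const (Or.inl ht.ne')
    have e5 := e4.mul ((e1.sub e2).sub e3)
    refine (e5.congr_deriv ?_).congr_of_eventuallyEq (Eventually.of_forall fun s => rfl)
    have p1 : t ^ (-(7 / 3) - 1 : ℝ) = t ^ (-(10 / 3) : ℝ) := by norm_num
    have p2 : t ^ (-(7 / 3) : ℝ) = t ^ (-(10 / 3) : ℝ) * t := by
      rw [← Real.rpow_add_one ht.ne']; norm_num
    simp only [Pi.sub_apply]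
    rw [p1, p2]
    field_simp
    ring
  apply antitoneOn_of_deriv_nonpos (convex_Ioi 0)
  · intro t ht
    exact (hd t ht).continuousAt.continuousWithinAt
  · intro t ht
    rw [interior_Ioi] at ht
    exact (hd t ht).differentiableAt.differentiableWithinAt
  · intro t ht
    rw [interior_Ioi] at ht
    rw [(hd t ht).deriv]
    have ht0 : 0 < t := ht
    have h3 := hW (t • z1) (t • z2) (fun i => mul_nonneg ht0.le (h1 i)) (fun i => mul_nonneg ht0.le (h2 i))
      (fun i => by
        simp only [Pi.smul_apply, smul_eq_mul]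
        have := h12 i
        calc t * z1 i * (t * z2 i) = t * t * (z1 i * z2 i) := by ring
          _ = 0 := by rw [this]; ring)
    rw [← smul_add] at h3
    have h4 : 0 ≤ t ^ (-(10 / 3) : ℝ) / 3 := by positivity
    have h5 : 0 ≤ Xt R (t • (z1 + z2)) - Xt R (t • z1) - Xt R (t • z2) := by linarith
    nlinarith [mul_nonneg h4 h5]

end Pool.Agent.H23.TF
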