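import Pool.Agent.H23.TF.S5_Real

/-! Module K0: the chosen solution `sol R z`, the function `Kv R z = 3/5 ∫ φ^(5/2)`, scaling and translation.

`Kv_scale`: if `Sol (V R (l³ z)) φ` then `ψ(x) = l^(-4) φ(l^(-1)(x-b))` satisfies `Sol (V (l R + b) z) ψ` (change of variables `y = l y' + b`), and
`∫ ψ^(5/2) = l^(-10) l³ ∫ φ^(5/2)`. -/

open MeasureTheory Set Filter Topology
open scoped ENNReal NNReal

namespace Pool.Agent.H23.TF

open Classical in
/-- a solution of the TF equation with nuclei `R`, charges `z` -/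
noncomputable def sol {k : ℕ} (R : Fin k → E3) (z : Fin k → ℝ) : E3 → ℝ :=
  if h : ∃ φ, Sol (V R z) φ then Classical.choose h else fun _ => 0

/-- the kinetic energy, computed from the solution -/
noncomputable def Kv {k : ℕ} (R : Fin k → E3) (z : Fin k → ℝ) : ℝ :=
  3 / 5 * ∫ x, sol R z x ^ (5 / 2 : ℝ)

theorem sol_spec {k : ℕ} (R : Fin k → E3) {z : Fin k → ℝ} (hz : ∀ i, 0 ≤ z i) :
    Sol (V R z) (sol R z) := by
  have h : ∃ φ, Sol (V R z) φ := by
    obtain ⟨φ, h, -⟩ := exists_sol' R z hz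
    exact ⟨φ, h⟩
  unfold sol
  rw [dif_pos h]
  exact Classical.choose_spec h

theorem Kv_eq {k : ℕ} {R : Fin k → E3} {z : Fin k → ℝ} {φ : E3 → ℝ} (hφ : Sol (V R z) φ) :
    Kv R z = 3 / 5 * ∫ x, φ x ^ (5 / 2 : ℝ) := by
  have h : ∃ φ, Sol (V R z) φ := ⟨φ, hφ⟩
  have h2 : Sol (V R z) (sol R z) := by
    unfold sol
    rw [dif_pos h]
    exact Classical.choose_spec h
  unfold Kv
  congr 1
  exact integral_congr_ae (by filter_upwards [sol_unique h2 hφ] with x hx; rw [hx])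

theorem Sol.congr {W W' φ : E3 → ℝ} (h : Sol W φ) (hW : W =ᵐ[volume] W') : Sol W' φ :=
  ⟨h.meas, h.nonneg, h.i1, h.i2, by filter_upwards [h.eq, hW] with x hx hx'; rw [hx, hx']⟩

theorem Kv_congr {k k' : ℕ} {R : Fin k → E3} {R' : Fin k' → E3} {z : Fin k → ℝ} {z' : Fin k' → ℝ}
    (hz : ∀ i, 0 ≤ z i) (h : V R z =ᵐ[volume] V R' z') : Kv R z = Kv R' z' := by
  rw [Kv_eq ((sol_spec R hz).congr h)]
  rfl

/-- change of variables `y = l⁻¹ (x - b)` -/
theorem integral_affine {l : ℝ} (hl : 0 < l) (b : E3) (f : E3 → ℝ) :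
    ∫ x, f (l⁻¹ • (x - b)) = l ^ 3 * ∫ x, f x := by
  have h1 : ∫ x, f (l⁻¹ • (x - b)) = ∫ x, f (l⁻¹ • x) :=
    integral_sub_right_eq_self (fun x => f (l⁻¹ • x)) b
  rw [h1, Measure.integral_comp_inv_smul, finrank_euclideanSpace, Fintype.card_fin,
    abs_of_pos (pow_pos hl 3), smul_eq_mul]

theorem integrable_affine {l : ℝ} (hl : 0 < l) (b : E3) {f : E3 → ℝ} (hf : Integrable f) :
    Integrable (fun x => f (l⁻¹ • (x - b))) :=
  (hf.comp_smul (inv_ne_zero hl.ne')).comp_sub_right b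

theorem ae_affine {l : ℝ} (hl : 0 < l) (b : E3) {p : E3 → Prop} (h : ∀ᵐ x, p x) :
    ∀ᵐ x, p (l⁻¹ • (x - b)) := by
  have h1 : ∀ᵐ x : E3, p (l⁻¹ • x) :=
    (Measure.quasiMeasurePreserving_smul volume (inv_ne_zero hl.ne')).ae h
  exact (measurePreserving_sub_right volume b).quasiMeasurePreserving.ae h1

/-- the scaled solution -/
theorem Sol.affine {k : ℕ} {R : Fin k → E3} {z : Fin k → ℝ} {l : ℝ} (hl : 0 < l) (b : E3) {φ : E3 → ℝ}
    (h : Sol (V R (fun i => l ^ 3 * z i)) φ) :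
    Sol (V (fun i => l • R i + b) z) (fun x => (l ^ 4)⁻¹ * φ (l⁻¹ • (x - b))) := by
  have hl4 : 0 ≤ (l ^ 4)⁻¹ := by positivity
  have p32 : ∀ x, ((l ^ 4)⁻¹ * φ (l⁻¹ • (x - b))) ^ (3 / 2 : ℝ) =
      (l ^ 6)⁻¹ * φ (l⁻¹ • (x - b)) ^ (3 / 2 : ℝ) := by
    intro x
    rw [Real.mul_rpow hl4 (h.nonneg _), Real.inv_rpow (by positivity)]
    congr 2
    rw [← Real.rpow_natCast, ← Real.rpow_natCast, ← Real.rpow_mul hl.le]
    norm_num
  have p52 : ∀ x, ((l ^ 4)⁻¹ * φ (l⁻¹ • (x - b))) ^ (5 / 2 : ℝ) =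
      (l ^ 10)⁻¹ * φ (l⁻¹ • (x - b)) ^ (5 / 2 : ℝ) := by
    intro x
    rw [Real.mul_rpow hl4 (h.nonneg _), Real.inv_rpow (by positivity)]
    congr 2
    rw [← Real.rpow_natCast, ← Real.rpow_natCast, ← Real.rpow_mul hl.le]
    norm_num
  refine ⟨?_, fun x => mul_nonneg hl4 (h.nonneg _), ?_, ?_, ?_⟩
  · exact (h.meas.comp ((measurable_id.sub_const b).const_smul l⁻¹)).const_mul _
  · simp only [p32]
    exact (integrable_affine hl b h.i1).const_mul _
  · simp only [p52]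
    exact (integrable_affine hl b h.i2).const_mul _
  · filter_upwards [ae_affine hl b h.eq] with x hx
    rw [hx]
    have eV : V R (fun i => l ^ 3 * z i) (l⁻¹ • (x - b)) = l ^ 4 * V (fun i => l • R i + b) z x := by
      unfold V
      rw [Finset.mul_sum]
      refine Finset.sum_congr rfl fun j _ => ?_
      have e : l⁻¹ • (x - b) - R j = l⁻¹ • (x - (l • R j + b)) := by
        rw [smul_sub, smul_sub, smul_add, smul_smul, inv_mul_cancel₀ hl.ne', one_smul]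
        abel
      rw [e, norm_smul, norm_inv, Real.norm_of_nonneg hl.le]
      rcases eq_or_ne ‖x - (l • R j + b)‖ 0 with h0 | h0
      · rw [h0]; simp
      · field_simp
    have eG : G (fun y => φ y ^ (3 / 2 : ℝ)) (l⁻¹ • (x - b)) =
        l ^ 4 * G (fun y => ((l ^ 4)⁻¹ * φ (l⁻¹ • (y - b))) ^ (3 / 2 : ℝ)) x := by
      unfold G
      have e := integral_affine hl b (fun y => φ y ^ (3 / 2 : ℝ) / ‖l⁻¹ • (x - b) - y‖)
      have e' : ∫ y, φ y ^ (3 / 2 : ℝ) / ‖l⁻¹ • (x - b) - y‖ =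
          (l ^ 3)⁻¹ * ∫ y, φ (l⁻¹ • (y - b)) ^ (3 / 2 : ℝ) / ‖l⁻¹ • (x - b) - l⁻¹ • (y - b)‖ := by
        rw [e]; field_simp
      rw [e', ← integral_const_mul, ← integral_const_mul]
      refine integral_congr_ae (Filter.Eventually.of_forall fun y => ?_)
      simp only [p32]
      have e2 : l⁻¹ • (x - b) - l⁻¹ • (y - b) = l⁻¹ • (x - y) := by
        rw [← smul_sub]; congr 1; abel
      rw [e2, norm_smul, norm_inv, Real.norm_of_nonneg hl.le]
      rcases eq_or_ne ‖x - y‖ 0 with h0 | h0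
      · rw [h0]; simp
      · field_simp
    rw [eV, eG]
    field_simp

theorem Kv_scale {k : ℕ} (R : Fin k → E3) {z : Fin k → ℝ} (hz : ∀ i, 0 ≤ z i) {l : ℝ} (hl : 0 < l) (b : E3) :
    l ^ 7 * Kv (fun i => l • R i + b) z = Kv R (fun i => l ^ 3 * z i) := by
  have hz' : ∀ i, 0 ≤ l ^ 3 * z i := fun i => mul_nonneg (by positivity) (hz i)
  have h := sol_spec R hz'
  rw [Kv_eq h, Kv_eq (h.affine hl b)]
  have hl4 : 0 ≤ (l ^ 4)⁻¹ := by positivity
  have p52 : ∀ x, ((l ^ 4)⁻¹ * sol R (fun i => l ^ 3 * z i) (l⁻¹ • (x - b))) ^ (5 / 2 : ℝ) =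
      (l ^ 10)⁻¹ * sol R (fun i => l ^ 3 * z i) (l⁻¹ • (x - b)) ^ (5 / 2 : ℝ) := by
    intro x
    rw [Real.mul_rpow hl4 (h.nonneg _), Real.inv_rpow (by positivity)]
    congr 2
    rw [← Real.rpow_natCast, ← Real.rpow_natCast, ← Real.rpow_mul hl.le]
    norm_num
  simp only [p52]
  rw [integral_const_mul, integral_affine hl b (fun x => sol R (fun i => l ^ 3 * z i) x ^ (5 / 2 : ℝ))]
  field_simp

/-- one nucleus: `K(t) = c₁ t^(7/3)`, wherever the nucleus sits -/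
theorem Kv_atom (a : E3) {t : ℝ} (ht : 0 < t) :
    Kv (fun _ : Fin 1 => a) (fun _ => t) = Kv (fun _ : Fin 1 => (0 : E3)) (fun _ => 1) * t ^ (7 / 3 : ℝ) := by
  have hl : 0 < t ^ (1 / 3 : ℝ) := Real.rpow_pos_of_pos ht _
  have e3 : (t ^ (1 / 3 : ℝ)) ^ 3 = t := by
    rw [← Real.rpow_natCast, ← Real.rpow_mul ht.le]; norm_num
  have e7 : (t ^ (1 / 3 : ℝ)) ^ 7 = t ^ (7 / 3 : ℝ) := by
    rw [← Real.rpow_natCast, ← Real.rpow_mul ht.le]; norm_num
  have h1 := Kv_scale (fun _ : Fin 1 => (0 : E3)) (z := fun _ => 1) (fun _ => zero_le_one) hl (0 : E3)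
  have h2 := Kv_scale (fun _ : Fin 1 => (0 : E3)) (z := fun _ => t) (fun _ => ht.le) one_pos a
  simp only [e3, e7, mul_one, smul_zero, add_zero] at h1
  simp only [one_pow, one_mul, smul_zero, zero_add] at h2
  rw [h2, ← h1, mul_comm]

theorem Kv_atom_pos : 0 < Kv (fun _ : Fin 1 => (0 : E3)) (fun _ => 1) := by
  have h := sol_spec (fun _ : Fin 1 => (0 : E3)) (z := fun _ => (1 : ℝ)) (fun _ => zero_le_one)
  set φ := sol (fun _ : Fin 1 => (0 : E3)) (fun _ => (1 : ℝ)) with hφ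
  have h0 : 0 ≤ ∫ x, φ x ^ (5 / 2 : ℝ) :=
    integral_nonneg fun x => Real.rpow_nonneg (h.nonneg x) _
  rcases h0.lt_or_eq with h1 | h1
  · unfold Kv
    rw [← hφ]
    positivity
  · exfalso
    have h2 := (integral_eq_zero_iff_of_nonneg (fun x => Real.rpow_nonneg (h.nonneg x) _) h.i2).1 h1.symm
    have h3 : ∀ᵐ x, φ x = 0 := by
      filter_upwards [h2] with x hx
      exact (Real.rpow_eq_zero (h.nonneg x) (by norm_num)).1 hx
    have h4 : G (fun y => φ y ^ (3 / 2 : ℝ)) = fun _ => 0 := by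
      ext x
      unfold G
      rw [integral_congr_ae (g := fun _ => (0 : ℝ)) _, integral_zero]
      filter_upwards [h3] with y hy
      rw [hy, Real.zero_rpow (by norm_num), zero_div]
    have h5 : ∀ᵐ x : E3, x = 0 := by
      filter_upwards [h.eq, h3] with x hx hx'
      rw [hx', h4] at hx
      simp only [V, Finset.univ_unique, Finset.sum_singleton, sub_zero] at hx
      have : ‖x‖⁻¹ = 0 := by simpa using hx.symm
      simpa using this
    have h6 : ∀ᵐ x : E3, x ≠ 0 := by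
      rw [ae_iff]
      simp
    obtain ⟨x, hx, hx'⟩ := (h5.and h6).exists
    exact hx' hx

end Pool.Agent.H23.TF
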