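import Pool.Agent.H23.TF.A3_G

/-! Module M1: `∫ |V_{R^n} - V_R|^(5/2) → 0` if `R^n → R` (section 7).

`p = 1/‖x-a‖`, `q = 1/‖x-a'‖`: `|p - q| ≤ ‖a-a'‖ p q`, `|p-q| ≤ m = max(p,q)`, so `|p-q|^(5/2) ≤ ‖a-a'‖^(1/4) m^(11/4)` and `≤ ‖a-a'‖ m^(7/2)`;
use the first where `m ≥ 1`, the second where `m < 1`: with `T(y) = ‖y‖^(-11/4) 1_{‖y‖≤1}`, `S(y) = ‖y‖^(-7/2) 1_{‖y‖>1}`,
`|p-q|^(5/2) ≤ ‖a-a'‖^(1/4) (T(x-a)+T(x-a')) + ‖a-a'‖ (S(x-a)+S(x-a'))`. -/

open MeasureTheory Set Filter Topology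
open scoped ENNReal NNReal

namespace Pool.Agent.H23.TF

/-- the near part of the dominating function -/
noncomputable def M1T : E3 → ℝ :=
  (Metric.ball (0:E3) 1).indicator (fun x => (‖x‖ ^ (11 / 4 : ℝ))⁻¹)

/-- the far part of the dominating function -/
noncomputable def M1S : E3 → ℝ :=
  (Metric.ball (0:E3) 1)ᶜ.indicator (fun x => (‖x‖ ^ (7 / 2 : ℝ))⁻¹)

theorem M1T_nonneg (x : E3) : 0 ≤ M1T x := by
  unfold M1T
  exact indicator_nonneg (fun _ _ => by positivity) x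

theorem M1S_nonneg (x : E3) : 0 ≤ M1S x := by
  unfold M1S
  exact indicator_nonneg (fun _ _ => by positivity) x

theorem M1T_int : Integrable M1T := by
  have h := integrableOn_ball (p := 11 / 4) (by norm_num) (by norm_num) (0:E3) 1
  simp only [sub_zero] at h
  exact h.integrable_indicator Metric.isOpen_ball.measurableSet

theorem M1S_int : Integrable M1S := by
  have h := integrableOn_compl (p := 7 / 2) (by norm_num) (0:E3) (r := 1) one_pos
  simp only [sub_zero] at h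
  exact h.integrable_indicator Metric.isOpen_ball.measurableSet.compl

/-- the dominating function for one pair of nuclei -/
noncomputable def M1B (a a' x : E3) : ℝ :=
  ‖a - a'‖ ^ (1 / 4 : ℝ) * (M1T (x - a) + M1T (x - a')) +
    ‖a - a'‖ * (M1S (x - a) + M1S (x - a'))

theorem M1B_symm (a a' x : E3) : M1B a a' x = M1B a' a x := by
  unfold M1B
  rw [norm_sub_rev a a', add_comm (M1T (x - a)), add_comm (M1S (x - a))]

theorem M1B_nonneg (a a' x : E3) : 0 ≤ M1B a a' x := by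
  unfold M1B
  have := M1T_nonneg (x - a)
  have := M1T_nonneg (x - a')
  have := M1S_nonneg (x - a)
  have := M1S_nonneg (x - a')
  positivity

theorem M1B_int (a a' : E3) : Integrable (M1B a a') := by
  unfold M1B
  exact (((M1T_int.comp_sub_right a).add (M1T_int.comp_sub_right a')).const_mul _).add
    (((M1S_int.comp_sub_right a).add (M1S_int.comp_sub_right a')).const_mul _)

theorem M1B_integral (a a' : E3) : ∫ x, M1B a a' x =
    ‖a - a'‖ ^ (1 / 4 : ℝ) * (2 * ∫ x, M1T x) + ‖a - a'‖ * (2 * ∫ x, M1S x) := by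
  have i1 : Integrable (fun x => M1T (x - a)) := M1T_int.comp_sub_right a
  have i2 : Integrable (fun x => M1T (x - a')) := M1T_int.comp_sub_right a'
  have i3 : Integrable (fun x => M1S (x - a)) := M1S_int.comp_sub_right a
  have i4 : Integrable (fun x => M1S (x - a')) := M1S_int.comp_sub_right a'
  have i5 : Integrable (fun x => ‖a - a'‖ ^ (1 / 4 : ℝ) * (M1T (x - a) + M1T (x - a'))) :=
    (i1.add i2).const_mul _
  have i6 : Integrable (fun x => ‖a - a'‖ * (M1S (x - a) + M1S (x - a'))) :=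
    (i3.add i4).const_mul _
  unfold M1B
  rw [integral_add i5 i6, integral_const_mul, integral_const_mul, integral_add i1 i2,
    integral_add i3 i4,
    integral_sub_right_eq_self M1T a, integral_sub_right_eq_self M1T a',
    integral_sub_right_eq_self M1S a, integral_sub_right_eq_self M1S a']
  ring

theorem M1_pt_aux (a a' x : E3) (hx : x ≠ a) (hle : ‖x - a‖ ≤ ‖x - a'‖) :
    |1 / ‖x - a‖ - 1 / ‖x - a'‖| ^ (5 / 2 : ℝ) ≤ M1B a a' x := by
  obtain ⟨r, hr⟩ : ∃ r, r = ‖x - a‖ := ⟨_, rfl⟩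
  obtain ⟨r', hr'⟩ : ∃ r, r = ‖x - a'‖ := ⟨_, rfl⟩
  obtain ⟨δ, hδ⟩ : ∃ δ, δ = ‖a - a'‖ := ⟨_, rfl⟩
  have hr0 : 0 < r := by rw [hr, norm_pos_iff, sub_ne_zero]; exact hx
  have hrr : r ≤ r' := by rw [hr, hr']; exact hle
  have hr'0 : 0 < r' := lt_of_lt_of_le hr0 hrr
  have hδ0 : 0 ≤ δ := by rw [hδ]; exact norm_nonneg _
  have htri : r' - r ≤ δ := by
    rw [hr, hr', hδ]
    have h1 : x - a' = (x - a) + (a - a') := by abel
    have h2 := norm_add_le (x - a) (a - a')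
    rw [← h1] at h2
    linarith
  obtain ⟨D, hD⟩ : ∃ D, D = 1 / r - 1 / r' := ⟨_, rfl⟩
  have hD0 : 0 ≤ D := by
    rw [hD, sub_nonneg]
    exact one_div_le_one_div_of_le hr0 hrr
  have hD1 : D ≤ r⁻¹ := by
    rw [hD, one_div]
    have : 0 ≤ 1 / r' := by positivity
    linarith
  have hD2 : D ≤ δ * (r⁻¹ * r⁻¹) := by
    have e1 : D = (r' - r) * (r⁻¹ * r'⁻¹) := by rw [hD]; field_simp
    rw [e1]
    have e2 : r'⁻¹ ≤ r⁻¹ := by
      rw [inv_eq_one_div, inv_eq_one_div]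
      exact one_div_le_one_div_of_le hr0 hrr
    have e3 : 0 ≤ r⁻¹ := by positivity
    have e4 : 0 ≤ r'⁻¹ := by positivity
    calc (r' - r) * (r⁻¹ * r'⁻¹) ≤ δ * (r⁻¹ * r'⁻¹) :=
          mul_le_mul_of_nonneg_right htri (by positivity)
      _ ≤ δ * (r⁻¹ * r⁻¹) := by gcongr
  have hri : 0 < r⁻¹ := by positivity
  have hnear : D ^ (5 / 2 : ℝ) ≤ δ ^ (1 / 4 : ℝ) * (r ^ (11 / 4 : ℝ))⁻¹ := by
    have e1 : D ^ (5 / 2 : ℝ) = D ^ (1 / 4 : ℝ) * D ^ (9 / 4 : ℝ) := by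
      rw [← Real.rpow_add' hD0 (by norm_num)]
      norm_num
    have e2 : D ^ (1 / 4 : ℝ) ≤ (δ * (r⁻¹ * r⁻¹)) ^ (1 / 4 : ℝ) :=
      Real.rpow_le_rpow hD0 hD2 (by norm_num)
    have e3 : D ^ (9 / 4 : ℝ) ≤ r⁻¹ ^ (9 / 4 : ℝ) := Real.rpow_le_rpow hD0 hD1 (by norm_num)
    rw [e1]
    refine (mul_le_mul e2 e3 (by positivity) (by positivity)).trans (le_of_eq ?_)
    rw [Real.mul_rpow hδ0 (by positivity), Real.mul_rpow hri.le hri.le, ← Real.inv_rpow hr0.le,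
      mul_assoc, ← Real.rpow_add hri, ← Real.rpow_add hri]
    norm_num
  have hfar : D ^ (5 / 2 : ℝ) ≤ δ * (r ^ (7 / 2 : ℝ))⁻¹ := by
    have e1 : D ^ (5 / 2 : ℝ) = D * D ^ (3 / 2 : ℝ) := by
      nth_rewrite 2 [← Real.rpow_one D]
      rw [← Real.rpow_add' hD0 (by norm_num)]
      norm_num
    have e3 : D ^ (3 / 2 : ℝ) ≤ r⁻¹ ^ (3 / 2 : ℝ) := Real.rpow_le_rpow hD0 hD1 (by norm_num)
    rw [e1]
    refine (mul_le_mul hD2 e3 (by positivity) (by positivity)).trans (le_of_eq ?_)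
    rw [← Real.inv_rpow hr0.le]
    have e4 : r⁻¹ * r⁻¹ = r⁻¹ ^ (2:ℝ) := by
      rw [show (2:ℝ) = ((2:ℕ):ℝ) by norm_num, Real.rpow_natCast]; ring
    rw [e4, mul_assoc, ← Real.rpow_add hri]
    norm_num
  rw [← hr, ← hr', ← hD, abs_of_nonneg hD0]
  unfold M1B
  rw [← hδ]
  have t1 := M1T_nonneg (x - a)
  have t2 := M1T_nonneg (x - a')
  have t3 := M1S_nonneg (x - a)
  have t4 := M1S_nonneg (x - a')
  have hδ4 : 0 ≤ δ ^ (1 / 4 : ℝ) := by positivity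
  by_cases h1 : r < 1
  · have hT : M1T (x - a) = (r ^ (11 / 4 : ℝ))⁻¹ := by
      unfold M1T
      rw [indicator_of_mem]
      · simp only [← hr]
      · rw [mem_ball_zero_iff, ← hr]; exact h1
    rw [hT]
    calc D ^ (5 / 2 : ℝ) ≤ δ ^ (1 / 4 : ℝ) * (r ^ (11 / 4 : ℝ))⁻¹ := hnear
      _ ≤ δ ^ (1 / 4 : ℝ) * ((r ^ (11 / 4 : ℝ))⁻¹ + M1T (x - a')) +
          δ * (M1S (x - a) + M1S (x - a')) := by
        have e1 : 0 ≤ δ ^ (1 / 4 : ℝ) * M1T (x - a') := by positivity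
        have e2 : 0 ≤ δ * (M1S (x - a) + M1S (x - a')) := by positivity
        linarith
  · have hS : M1S (x - a) = (r ^ (7 / 2 : ℝ))⁻¹ := by
      unfold M1S
      rw [indicator_of_mem]
      · simp only [← hr]
      · rw [mem_compl_iff, mem_ball_zero_iff, ← hr]; exact h1
    rw [hS]
    calc D ^ (5 / 2 : ℝ) ≤ δ * (r ^ (7 / 2 : ℝ))⁻¹ := hfar
      _ ≤ δ ^ (1 / 4 : ℝ) * (M1T (x - a) + M1T (x - a')) +
          δ * ((r ^ (7 / 2 : ℝ))⁻¹ + M1S (x - a')) := by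
        have e1 : 0 ≤ δ ^ (1 / 4 : ℝ) * (M1T (x - a) + M1T (x - a')) := by positivity
        have e2 : 0 ≤ δ * M1S (x - a') := by positivity
        linarith

theorem M1_pt (a a' x : E3) (hx : x ≠ a) (hx' : x ≠ a') :
    |1 / ‖x - a‖ - 1 / ‖x - a'‖| ^ (5 / 2 : ℝ) ≤ M1B a a' x := by
  rcases le_total ‖x - a‖ ‖x - a'‖ with h | h
  · exact M1_pt_aux a a' x hx h
  · rw [abs_sub_comm, M1B_symm]
    exact M1_pt_aux a' a x hx' h

/-- the dominating function -/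
theorem M1_sum {k : ℕ} (R R' : Fin k → E3) (z : Fin k → ℝ) :
    ∀ᵐ x, |V R z x - V R' z x| ^ (5 / 2 : ℝ) ≤
      (k : ℝ) ^ (3 / 2 : ℝ) * ∑ j, |z j| ^ (5 / 2 : ℝ) * M1B (R j) (R' j) x := by
  have h1 : ∀ᵐ x : E3, ∀ j, x ≠ R j := by
    rw [ae_all_iff]
    intro j
    exact Measure.ae_ne volume (R j)
  have h2 : ∀ᵐ x : E3, ∀ j, x ≠ R' j := by
    rw [ae_all_iff]
    intro j
    exact Measure.ae_ne volume (R' j)
  filter_upwards [h1, h2] with x hx hx'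
  have e1 : V R z x - V R' z x = ∑ j, z j * (1 / ‖x - R j‖ - 1 / ‖x - R' j‖) := by
    unfold V
    rw [← Finset.sum_sub_distrib]
    exact Finset.sum_congr rfl fun j _ => by ring
  have e2 : |V R z x - V R' z x| ≤ ∑ j, |z j * (1 / ‖x - R j‖ - 1 / ‖x - R' j‖)| := by
    rw [e1]; exact Finset.abs_sum_le_sum_abs _ _
  have e3 := Real.rpow_sum_le_const_mul_sum_rpow (Finset.univ : Finset (Fin k))
    (fun j => z j * (1 / ‖x - R j‖ - 1 / ‖x - R' j‖)) (p := 5 / 2) (by norm_num)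
  rw [Finset.card_univ, Fintype.card_fin] at e3
  refine (Real.rpow_le_rpow (abs_nonneg _) e2 (by norm_num)).trans (e3.trans ?_)
  rw [show (5 / 2 : ℝ) - 1 = 3 / 2 by norm_num]
  refine mul_le_mul_of_nonneg_left (Finset.sum_le_sum fun j _ => ?_) (by positivity)
  rw [abs_mul, Real.mul_rpow (abs_nonneg _) (abs_nonneg _)]
  exact mul_le_mul_of_nonneg_left (M1_pt (R j) (R' j) x (hx j) (hx' j)) (by positivity)

theorem M1_dom_int {k : ℕ} (R R' : Fin k → E3) (z : Fin k → ℝ) :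
    Integrable (fun x => (k : ℝ) ^ (3 / 2 : ℝ) * ∑ j, |z j| ^ (5 / 2 : ℝ) * M1B (R j) (R' j) x) :=
  (integrable_finsetSum _ fun j _ => (M1B_int (R j) (R' j)).const_mul _).const_mul _

theorem int_V_sub_pow {k : ℕ} (R R' : Fin k → E3) (z : Fin k → ℝ) :
    Integrable (fun x => |V R z x - V R' z x| ^ (5 / 2 : ℝ)) := by
  refine (M1_dom_int R R' z).mono' ?_ ?_
  · have h1 : Measurable (fun x => |V R z x - V R' z x| ^ (5 / 2 : ℝ)) := by
      have h2 := (measurable_V R z).sub (measurable_V R' z)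
      exact (h2.abs).pow_const _
    exact h1.aestronglyMeasurable
  · filter_upwards [M1_sum R R' z] with x hx
    rw [Real.norm_of_nonneg (by positivity)]
    exact hx

theorem tendsto_V_sub_pow {k : ℕ} (Rn : ℕ → Fin k → E3) (R : Fin k → E3) (hR : ∀ i, Tendsto (fun n => Rn n i) atTop (𝓝 (R i)))
    (z : Fin k → ℝ) :
    Tendsto (fun n => ∫ x, |V (Rn n) z x - V R z x| ^ (5 / 2 : ℝ)) atTop (𝓝 0) := by
  have hbound : ∀ n, ∫ x, |V (Rn n) z x - V R z x| ^ (5 / 2 : ℝ) ≤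
      (k : ℝ) ^ (3 / 2 : ℝ) * ∑ j, |z j| ^ (5 / 2 : ℝ) *
        (‖Rn n j - R j‖ ^ (1 / 4 : ℝ) * (2 * ∫ x, M1T x) + ‖Rn n j - R j‖ * (2 * ∫ x, M1S x)) := by
    intro n
    refine (integral_mono_ae (int_V_sub_pow (Rn n) R z) (M1_dom_int (Rn n) R z)
      (M1_sum (Rn n) R z)).trans (le_of_eq ?_)
    rw [integral_const_mul, integral_finsetSum _ fun j _ => (M1B_int (Rn n j) (R j)).const_mul _]
    congr 1
    refine Finset.sum_congr rfl fun j _ => ?_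
    rw [integral_const_mul, M1B_integral]
  refine squeeze_zero (fun n => integral_nonneg fun x => by positivity) hbound ?_
  have hn : ∀ j, Tendsto (fun n => ‖Rn n j - R j‖) atTop (𝓝 0) := fun j =>
    tendsto_iff_norm_sub_tendsto_zero.mp (hR j)
  have hn4 : ∀ j, Tendsto (fun n => ‖Rn n j - R j‖ ^ (1 / 4 : ℝ)) atTop (𝓝 0) := fun j => by
    have := (hn j).rpow_const (p := 1 / 4) (Or.inr (by norm_num))
    rwa [Real.zero_rpow (by norm_num)] at this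
  have h0 : (0:ℝ) = (k : ℝ) ^ (3 / 2 : ℝ) * ∑ j : Fin k, |z j| ^ (5 / 2 : ℝ) *
        (0 * (2 * ∫ x, M1T x) + 0 * (2 * ∫ x, M1S x)) := by simp
  rw [h0]
  refine Tendsto.const_mul _ (tendsto_finsetSum _ fun j _ => Tendsto.const_mul _ ?_)
  exact ((hn4 j).mul_const _).add ((hn j).mul_const _)

end Pool.Agent.H23.TF
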