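import Pool.Agent.H23.TF.K0_Kv
import Pool.Agent.H23.TF.M1_Vn

/-! Module M2: continuity of `Kv` in the positions, also at coinciding nuclei (section 7).

`stab`: `φ = sol R z`, `φ' = sol R' z`, `v = V R' z - V R z`, `d = φ'-φ = v - G(ρ'-ρ)`: `∫ (ρ'-ρ) d = ∫ (ρ'-ρ) v - ∫ (ρ'-ρ)G(ρ'-ρ) ≤ ∫ |ρ'-ρ| |v|`.
Pointwise (with square roots `α = √φ'`, `β = √φ`, `ν = √|v|`) `|ρ'-ρ||v| ≤ (1/2)|ρ'-ρ||d| + 3 (β + 2ν) ν⁴`, and
`|α⁵ - β⁵| ≤ 40 ε β⁵ + C_ε (α³-β³)(α²-β²)`. -/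

open MeasureTheory Set Filter Topology
open scoped ENNReal NNReal

namespace Pool.Agent.H23.TF

/-! ### Polynomial inequalities -/

theorem M2_poly_A (α β : ℝ) (hα : 0 ≤ α) (hβ : 0 ≤ β) :
    |α - β| ^ 5 ≤ (α ^ 3 - β ^ 3) * (α ^ 2 - β ^ 2) ∧
    |α - β| ^ 2 * β ^ 3 ≤ (α ^ 3 - β ^ 3) * (α ^ 2 - β ^ 2) := by
  obtain ⟨t, ht⟩ : ∃ t, t = |α - β| := ⟨_, rfl⟩
  have e1 : (α ^ 3 - β ^ 3) * (α ^ 2 - β ^ 2) = t ^ 2 * ((α ^ 2 + α * β + β ^ 2) * (α + β)) := by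
    rw [ht, sq_abs]; ring
  have ht0 : 0 ≤ t := by rw [ht]; exact abs_nonneg _
  have ht1 : t ≤ α + β := by
    rw [ht, abs_le]; constructor <;> linarith
  have ht2 : t ^ 2 ≤ α ^ 2 + α * β + β ^ 2 := by
    rw [ht, sq_abs]
    have := mul_nonneg hα hβ
    nlinarith
  rw [← ht, e1]
  constructor
  · have e2 : t ^ 5 = t ^ 2 * (t ^ 2 * t) := by ring
    rw [e2]
    exact mul_le_mul_of_nonneg_left (mul_le_mul ht2 ht1 ht0 (by positivity)) (by positivity)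
  · have e3 : β ^ 3 = β ^ 2 * β := by ring
    rw [e3]
    refine mul_le_mul_of_nonneg_left (mul_le_mul ?_ ?_ hβ (by positivity)) (by positivity)
    · have := mul_nonneg hα hβ
      nlinarith [sq_nonneg α]
    · linarith

theorem M2_poly_B (α β ε : ℝ) (hα : 0 ≤ α) (hβ : 0 ≤ β) (hε : 0 < ε) :
    |α ^ 5 - β ^ 5| ≤ 40 * ε * β ^ 5 +
      40 * (1 / (4 * ε) + 1) * ((α ^ 3 - β ^ 3) * (α ^ 2 - β ^ 2)) := by
  obtain ⟨h1, h2⟩ := M2_poly_A α β hα hβ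
  obtain ⟨t, ht⟩ : ∃ t, t = |α - β| := ⟨_, rfl⟩
  obtain ⟨A, hA⟩ : ∃ A, A = (α ^ 3 - β ^ 3) * (α ^ 2 - β ^ 2) := ⟨_, rfl⟩
  rw [← ht, ← hA] at h1 h2
  rw [← hA]
  have ht0 : 0 ≤ t := by rw [ht]; exact abs_nonneg _
  have hαt : α ≤ β + t := by
    rw [ht]; have := le_abs_self (α - β); linarith
  have e1 : |α ^ 5 - β ^ 5| = t * (α ^ 4 + α ^ 3 * β + α ^ 2 * β ^ 2 + α * β ^ 3 + β ^ 4) := by
    have : α ^ 5 - β ^ 5 = (α - β) *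
        (α ^ 4 + α ^ 3 * β + α ^ 2 * β ^ 2 + α * β ^ 3 + β ^ 4) := by ring
    rw [this, abs_mul, ht, abs_of_nonneg (a := α ^ 4 + α ^ 3 * β + α ^ 2 * β ^ 2 + α * β ^ 3 + β ^ 4)
      (by positivity)]
  have hβt : β ≤ β + t := by linarith
  have hbt0 : 0 ≤ β + t := by linarith
  have e2 : α ^ 4 + α ^ 3 * β + α ^ 2 * β ^ 2 + α * β ^ 3 + β ^ 4 ≤ 5 * (β + t) ^ 4 := by
    have g1 : α ^ 4 ≤ (β + t) ^ 4 := pow_le_pow_left₀ hα hαt 4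
    have g2 : β ^ 4 ≤ (β + t) ^ 4 := pow_le_pow_left₀ hβ hβt 4
    have g3 : α ^ 3 * β ≤ (β + t) ^ 3 * (β + t) :=
      mul_le_mul (pow_le_pow_left₀ hα hαt 3) hβt hβ (by positivity)
    have g4 : α ^ 2 * β ^ 2 ≤ (β + t) ^ 2 * (β + t) ^ 2 :=
      mul_le_mul (pow_le_pow_left₀ hα hαt 2) (pow_le_pow_left₀ hβ hβt 2) (by positivity)
        (by positivity)
    have g5 : α * β ^ 3 ≤ (β + t) * (β + t) ^ 3 :=
      mul_le_mul hαt (pow_le_pow_left₀ hβ hβt 3) (by positivity) hbt0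
    have g6 : (β + t) ^ 3 * (β + t) = (β + t) ^ 4 := by ring
    have g7 : (β + t) ^ 2 * (β + t) ^ 2 = (β + t) ^ 4 := by ring
    have g8 : (β + t) * (β + t) ^ 3 = (β + t) ^ 4 := by ring
    linarith
  have e3 : (β + t) ^ 4 ≤ 8 * (β ^ 4 + t ^ 4) := by
    have g1 : (β + t) ^ 2 ≤ 2 * (β ^ 2 + t ^ 2) := by nlinarith [sq_nonneg (β - t)]
    have g2 : (β + t) ^ 4 = ((β + t) ^ 2) ^ 2 := by ring
    have g3 : ((β + t) ^ 2) ^ 2 ≤ (2 * (β ^ 2 + t ^ 2)) ^ 2 :=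
      pow_le_pow_left₀ (by positivity) g1 2
    have g4 : (2 * (β ^ 2 + t ^ 2)) ^ 2 ≤ 8 * (β ^ 4 + t ^ 4) := by
      nlinarith [sq_nonneg (β ^ 2 - t ^ 2)]
    linarith
  have e4 : t * β ^ 4 ≤ ε * β ^ 5 + 1 / (4 * ε) * (t ^ 2 * β ^ 3) := by
    have g1 : 0 ≤ β ^ 3 * (2 * ε * β - t) ^ 2 := by positivity
    have g2 : ε * β ^ 5 + 1 / (4 * ε) * (t ^ 2 * β ^ 3) - t * β ^ 4 =
        1 / (4 * ε) * (β ^ 3 * (2 * ε * β - t) ^ 2) := by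
      field_simp
      ring
    have g3 : 0 ≤ 1 / (4 * ε) * (β ^ 3 * (2 * ε * β - t) ^ 2) := by positivity
    linarith
  have e5 : 1 / (4 * ε) * (t ^ 2 * β ^ 3) ≤ 1 / (4 * ε) * A :=
    mul_le_mul_of_nonneg_left h2 (by positivity)
  rw [e1]
  calc t * (α ^ 4 + α ^ 3 * β + α ^ 2 * β ^ 2 + α * β ^ 3 + β ^ 4)
      ≤ t * (5 * (8 * (β ^ 4 + t ^ 4))) :=
        mul_le_mul_of_nonneg_left (e2.trans (mul_le_mul_of_nonneg_left e3 (by norm_num))) ht0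
    _ = 40 * (t * β ^ 4) + 40 * t ^ 5 := by ring
    _ ≤ 40 * (ε * β ^ 5 + 1 / (4 * ε) * A) + 40 * A := by linarith
    _ = _ := by ring

theorem M2_poly_C (α β ν M : ℝ) (hα : 0 ≤ α) (hβ : 0 ≤ β) (hν : 0 ≤ ν) (hM : 1 ≤ M) :
    |α ^ 3 - β ^ 3| * ν ^ 2 ≤ 1 / 2 * ((α ^ 3 - β ^ 3) * (α ^ 2 - β ^ 2)) +
      (3 / M * β ^ 5 + (3 * M + 6) * ν ^ 5) := by
  have hM0 : 0 < M := by linarith
  have hsign : (α ^ 3 - β ^ 3) * (α ^ 2 - β ^ 2) = |α ^ 3 - β ^ 3| * |α ^ 2 - β ^ 2| := by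
    rw [← abs_mul]
    symm
    apply abs_of_nonneg
    have e1 : (α ^ 3 - β ^ 3) * (α ^ 2 - β ^ 2) =
        (α - β) ^ 2 * ((α ^ 2 + α * β + β ^ 2) * (α + β)) := by ring
    rw [e1]; positivity
  rw [hsign]
  have hX0 : 0 ≤ 3 / M * β ^ 5 + (3 * M + 6) * ν ^ 5 := by positivity
  rcases le_or_gt (ν ^ 2) (1 / 2 * |α ^ 2 - β ^ 2|) with h | h
  · have := mul_le_mul_of_nonneg_left h (abs_nonneg (α ^ 3 - β ^ 3))
    linarith
  · have hm : ∀ x y : ℝ, 0 ≤ x → 0 ≤ y → x ≤ y → |y ^ 2 - x ^ 2| < 2 * ν ^ 2 → x ≤ β + 2 * ν →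
        y ≤ β + 2 * ν → |y ^ 3 - x ^ 3| ≤ 3 * (β + 2 * ν) * ν ^ 2 := by
      intro x y hx hy hxy hlt _ hy2
      have g1 : 0 ≤ y ^ 2 - x ^ 2 := by nlinarith
      have g2 : y ^ 3 - x ^ 3 ≤ 3 / 2 * y * (y ^ 2 - x ^ 2) := by
        have g3 : 3 / 2 * y * (y ^ 2 - x ^ 2) - (y ^ 3 - x ^ 3) =
            (y - x) * (1 / 2 * (y ^ 2 + x * y - 2 * x ^ 2)) := by ring
        have g4 : 0 ≤ y ^ 2 + x * y - 2 * x ^ 2 := by nlinarith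
        have g5 : 0 ≤ (y - x) * (1 / 2 * (y ^ 2 + x * y - 2 * x ^ 2)) :=
          mul_nonneg (by linarith) (by linarith)
        linarith
      have g6 : 0 ≤ y ^ 3 - x ^ 3 := by
        have := pow_le_pow_left₀ hx hxy 3
        linarith
      rw [abs_of_nonneg g1] at hlt
      rw [abs_of_nonneg g6]
      calc y ^ 3 - x ^ 3 ≤ 3 / 2 * y * (y ^ 2 - x ^ 2) := g2
        _ ≤ 3 / 2 * (β + 2 * ν) * (2 * ν ^ 2) := by
          apply mul_le_mul _ hlt.le g1 (by positivity)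
          linarith
        _ = 3 * (β + 2 * ν) * ν ^ 2 := by ring
    have hβm : β ≤ β + 2 * ν := by linarith
    have hαm : α ≤ β + 2 * ν := by
      have h1 : α ^ 2 - β ^ 2 ≤ 2 * ν ^ 2 := by
        have := le_abs_self (α ^ 2 - β ^ 2); linarith
      have h2 : α ^ 2 ≤ (β + 2 * ν) ^ 2 := by nlinarith [mul_nonneg hβ hν]
      exact (pow_le_pow_iff_left₀ hα (by positivity) (by norm_num)).mp h2
    have hmain : |α ^ 3 - β ^ 3| ≤ 3 * (β + 2 * ν) * ν ^ 2 := by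
      rcases le_total β α with hle | hle
      · exact hm β α hβ hα hle (by linarith) hβm hαm
      · rw [abs_sub_comm]
        refine hm α β hα hβ hle ?_ hαm hβm
        rw [abs_sub_comm]; linarith
    have hY : β * ν ^ 4 ≤ 1 / M * β ^ 5 + M * ν ^ 5 := by
      rcases le_or_gt β (M * ν) with h1 | h1
      · have g1 : β * ν ^ 4 ≤ M * ν * ν ^ 4 := mul_le_mul_of_nonneg_right h1 (by positivity)
        have g2 : M * ν * ν ^ 4 = M * ν ^ 5 := by ring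
        have g3 : 0 ≤ 1 / M * β ^ 5 := by positivity
        linarith
      · have g1 : ν ≤ β / M := by
          rw [le_div_iff₀ hM0]; linarith
        have g2 : ν ^ 4 ≤ (β / M) ^ 4 := pow_le_pow_left₀ hν g1 4
        have g3 : (β / M) ^ 4 ≤ β ^ 4 / M := by
          rw [div_pow]
          apply div_le_div_of_nonneg_left (by positivity) hM0
          calc M = M ^ 1 := (pow_one M).symm
            _ ≤ M ^ 4 := pow_le_pow_right₀ hM (by norm_num)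
        have g4 : β * ν ^ 4 ≤ β * (β ^ 4 / M) :=
          mul_le_mul_of_nonneg_left (g2.trans g3) hβ
        have g5 : β * (β ^ 4 / M) = 1 / M * β ^ 5 := by ring
        have g6 : 0 ≤ M * ν ^ 5 := by positivity
        linarith
    have h3 : |α ^ 3 - β ^ 3| * ν ^ 2 ≤ 3 * (β + 2 * ν) * ν ^ 2 * ν ^ 2 :=
      mul_le_mul_of_nonneg_right hmain (by positivity)
    have h4 : 3 * (β + 2 * ν) * ν ^ 2 * ν ^ 2 = 3 * (β * ν ^ 4) + 6 * ν ^ 5 := by ring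
    have h5 : 0 ≤ |α ^ 3 - β ^ 3| * |α ^ 2 - β ^ 2| := by positivity
    have h6 : 3 * (1 / M * β ^ 5) = 3 / M * β ^ 5 := by ring
    linarith

/-! ### Real powers as powers of the square root -/

theorem M2_pow32 {x : ℝ} (hx : 0 ≤ x) : x ^ (3 / 2 : ℝ) = Real.sqrt x ^ 3 := by
  rw [Real.sqrt_eq_rpow, ← Real.rpow_natCast, ← Real.rpow_mul hx]
  norm_num

theorem M2_pow52 {x : ℝ} (hx : 0 ≤ x) : x ^ (5 / 2 : ℝ) = Real.sqrt x ^ 5 := by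
  rw [Real.sqrt_eq_rpow, ← Real.rpow_natCast, ← Real.rpow_mul hx]
  norm_num

/-! ### The stability estimate -/

theorem M2_energy {k : ℕ} (R R' : Fin k → E3) {z : Fin k → ℝ} (hz : ∀ i, 0 ≤ z i) (M : ℝ)
    (hM : 1 ≤ M) :
    Integrable (fun x => (sol R' z x ^ (3 / 2 : ℝ) - sol R z x ^ (3 / 2 : ℝ)) *
      (sol R' z x - sol R z x)) ∧
    ∫ x, (sol R' z x ^ (3 / 2 : ℝ) - sol R z x ^ (3 / 2 : ℝ)) * (sol R' z x - sol R z x) ≤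
      2 * (3 / M * (∫ x, sol R z x ^ (5 / 2 : ℝ)) +
        (3 * M + 6) * ∫ x, |V R' z x - V R z x| ^ (5 / 2 : ℝ)) := by
  have hφ := sol_spec R hz
  have hφ' := sol_spec R' hz
  obtain ⟨φ, hφd⟩ : ∃ φ, φ = sol R z := ⟨_, rfl⟩
  obtain ⟨φ', hφd'⟩ : ∃ φ', φ' = sol R' z := ⟨_, rfl⟩
  rw [← hφd] at hφ ⊢
  rw [← hφd'] at hφ' ⊢
  have hL := hφ.ld
  have hL' := hφ'.ld
  have hη := hL'.sub hL
  have hdeq : ∀ᵐ x, φ' x - φ x = (V R' z x - V R z x) -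
      G (fun y => φ' y ^ (3 / 2 : ℝ) - φ y ^ (3 / 2 : ℝ)) x := by
    filter_upwards [hφ.eq, hφ'.eq] with x h1 h2
    rw [G_sub hL' hL, h1, h2]
    ring
  have hi1 : Integrable (fun x => (φ' x ^ (3 / 2 : ℝ) - φ x ^ (3 / 2 : ℝ)) *
      (V R' z x - V R z x)) := by
    have h1 := (hη.int_V R' z).sub (hη.int_V R z)
    refine h1.congr (Eventually.of_forall fun x => ?_)
    simp only [Pi.sub_apply]
    ring
  have hi2 := hη.int_mul_G hη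
  have hi3 : Integrable (fun x => (φ' x ^ (3 / 2 : ℝ) - φ x ^ (3 / 2 : ℝ)) * (φ' x - φ x)) := by
    refine (hi1.sub hi2).congr ?_
    filter_upwards [hdeq] with x hx
    simp only [Pi.sub_apply]
    rw [hx]
    ring
  have hvi := int_V_sub_pow R' R z
  have hint : ∫ x, (φ' x ^ (3 / 2 : ℝ) - φ x ^ (3 / 2 : ℝ)) * (φ' x - φ x) ≤
      ∫ x, (φ' x ^ (3 / 2 : ℝ) - φ x ^ (3 / 2 : ℝ)) * (V R' z x - V R z x) := by
    have h1 : ∫ x, (φ' x ^ (3 / 2 : ℝ) - φ x ^ (3 / 2 : ℝ)) * (φ' x - φ x) =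
        (∫ x, (φ' x ^ (3 / 2 : ℝ) - φ x ^ (3 / 2 : ℝ)) * (V R' z x - V R z x)) -
        ∫ x, (φ' x ^ (3 / 2 : ℝ) - φ x ^ (3 / 2 : ℝ)) *
          G (fun y => φ' y ^ (3 / 2 : ℝ) - φ y ^ (3 / 2 : ℝ)) x := by
      rw [← integral_sub hi1 hi2]
      refine integral_congr_ae ?_
      filter_upwards [hdeq] with x hx
      rw [hx]
      ring
    have h2 := pos hη
    linarith
  have hpt : ∀ x, (φ' x ^ (3 / 2 : ℝ) - φ x ^ (3 / 2 : ℝ)) * (V R' z x - V R z x) ≤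
      1 / 2 * ((φ' x ^ (3 / 2 : ℝ) - φ x ^ (3 / 2 : ℝ)) * (φ' x - φ x)) +
      (3 / M * φ x ^ (5 / 2 : ℝ) + (3 * M + 6) * |V R' z x - V R z x| ^ (5 / 2 : ℝ)) := by
    intro x
    have h1 := M2_poly_C (Real.sqrt (φ' x)) (Real.sqrt (φ x)) (Real.sqrt |V R' z x - V R z x|) M
      (Real.sqrt_nonneg _) (Real.sqrt_nonneg _) (Real.sqrt_nonneg _) hM
    rw [← M2_pow32 (hφ.nonneg x), ← M2_pow32 (hφ'.nonneg x), ← M2_pow52 (hφ.nonneg x),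
      ← M2_pow52 (abs_nonneg _), Real.sq_sqrt (hφ.nonneg x), Real.sq_sqrt (hφ'.nonneg x),
      Real.sq_sqrt (abs_nonneg _), ← abs_mul] at h1
    exact (le_abs_self _).trans h1
  refine ⟨hi3, ?_⟩
  have j1 : Integrable (fun x => 1 / 2 *
      ((φ' x ^ (3 / 2 : ℝ) - φ x ^ (3 / 2 : ℝ)) * (φ' x - φ x))) := hi3.const_mul _
  have j2 : Integrable (fun x => 3 / M * φ x ^ (5 / 2 : ℝ)) := hφ.i2.const_mul _
  have j3 : Integrable (fun x => (3 * M + 6) * |V R' z x - V R z x| ^ (5 / 2 : ℝ)) :=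
    hvi.const_mul _
  have j4 : Integrable (fun x => 3 / M * φ x ^ (5 / 2 : ℝ) +
      (3 * M + 6) * |V R' z x - V R z x| ^ (5 / 2 : ℝ)) := j2.add j3
  have h1 : ∫ x, (φ' x ^ (3 / 2 : ℝ) - φ x ^ (3 / 2 : ℝ)) * (V R' z x - V R z x) ≤
      ∫ x, (1 / 2 * ((φ' x ^ (3 / 2 : ℝ) - φ x ^ (3 / 2 : ℝ)) * (φ' x - φ x)) +
      (3 / M * φ x ^ (5 / 2 : ℝ) + (3 * M + 6) * |V R' z x - V R z x| ^ (5 / 2 : ℝ))) :=
    integral_mono hi1 (j1.add j4) hpt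
  rw [integral_add j1 j4, integral_add j2 j3, integral_const_mul, integral_const_mul,
    integral_const_mul] at h1
  linarith

theorem stab {η : ℝ} (hη : 0 < η) : ∃ C : ℝ, ∀ (k : ℕ) (R R' : Fin k → E3) (z : Fin k → ℝ), (∀ i, 0 ≤ z i) →
    |Kv R' z - Kv R z| ≤ η * Kv R z + C * ∫ x, |V R' z x - V R z x| ^ (5 / 2 : ℝ) := by
  obtain ⟨ε, hε⟩ : ∃ ε, ε = η / 80 := ⟨_, rfl⟩
  have hε0 : 0 < ε := by rw [hε]; positivity
  obtain ⟨B, hB⟩ : ∃ B, B = 40 * (1 / (4 * ε) + 1) := ⟨_, rfl⟩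
  have hB0 : 0 < B := by rw [hB]; positivity
  obtain ⟨M, hM⟩ : ∃ M, M = 12 * B / η + 1 := ⟨_, rfl⟩
  have hM1 : 1 ≤ M := by
    rw [hM]
    have : 0 ≤ 12 * B / η := by positivity
    linarith
  have hM0 : 0 < M := by linarith
  refine ⟨3 / 5 * (B * (2 * (3 * M + 6))), ?_⟩
  intro k R R' z hz
  obtain ⟨hi3, hen⟩ := M2_energy R R' hz M hM1
  have hφ := sol_spec R hz
  have hφ' := sol_spec R' hz
  unfold Kv
  obtain ⟨φ, hφd⟩ : ∃ φ, φ = sol R z := ⟨_, rfl⟩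
  obtain ⟨φ', hφd'⟩ : ∃ φ', φ' = sol R' z := ⟨_, rfl⟩
  rw [← hφd, ← hφd'] at hi3 hen ⊢
  rw [← hφd] at hφ
  rw [← hφd'] at hφ'
  obtain ⟨I, hI⟩ : ∃ I, I = ∫ x, φ x ^ (5 / 2 : ℝ) := ⟨_, rfl⟩
  obtain ⟨N, hN⟩ : ∃ N, N = ∫ x, |V R' z x - V R z x| ^ (5 / 2 : ℝ) := ⟨_, rfl⟩
  have hI0 : 0 ≤ I := by
    rw [hI]; exact integral_nonneg fun x => Real.rpow_nonneg (hφ.nonneg x) _
  have hpt : ∀ x, |φ' x ^ (5 / 2 : ℝ) - φ x ^ (5 / 2 : ℝ)| ≤ 40 * ε * φ x ^ (5 / 2 : ℝ) +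
      B * ((φ' x ^ (3 / 2 : ℝ) - φ x ^ (3 / 2 : ℝ)) * (φ' x - φ x)) := by
    intro x
    have h1 := M2_poly_B (Real.sqrt (φ' x)) (Real.sqrt (φ x)) ε
      (Real.sqrt_nonneg _) (Real.sqrt_nonneg _) hε0
    rw [← M2_pow32 (hφ.nonneg x), ← M2_pow32 (hφ'.nonneg x), ← M2_pow52 (hφ.nonneg x),
      ← M2_pow52 (hφ'.nonneg x), Real.sq_sqrt (hφ.nonneg x), Real.sq_sqrt (hφ'.nonneg x),
      ← hB] at h1
    exact h1
  have h2 : |(∫ x, φ' x ^ (5 / 2 : ℝ)) - I| ≤ 40 * ε * I +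
      B * ∫ x, (φ' x ^ (3 / 2 : ℝ) - φ x ^ (3 / 2 : ℝ)) * (φ' x - φ x) := by
    rw [hI, ← integral_sub hφ'.i2 hφ.i2]
    refine (abs_integral_le_integral_abs).trans ?_
    have j1 : Integrable (fun x => 40 * ε * φ x ^ (5 / 2 : ℝ)) := hφ.i2.const_mul _
    have j2 : Integrable (fun x => B *
        ((φ' x ^ (3 / 2 : ℝ) - φ x ^ (3 / 2 : ℝ)) * (φ' x - φ x))) := hi3.const_mul _
    have j3 : ∫ x, |φ' x ^ (5 / 2 : ℝ) - φ x ^ (5 / 2 : ℝ)| ≤ ∫ x, (40 * ε * φ x ^ (5 / 2 : ℝ) +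
        B * ((φ' x ^ (3 / 2 : ℝ) - φ x ^ (3 / 2 : ℝ)) * (φ' x - φ x))) :=
      integral_mono ((hφ'.i2.sub hφ.i2).abs) (j1.add j2) hpt
    rw [integral_add j1 j2, integral_const_mul, integral_const_mul] at j3
    exact j3
  rw [← hI, ← hN] at hen
  rw [← hI, ← hN]
  have h3 : B * (2 * (3 / M * I)) ≤ η / 2 * I := by
    have g1 : B * (2 * (3 / M)) ≤ η / 2 := by
      have g2 : 12 * B ≤ η * M := by
        rw [hM]
        have : η * (12 * B / η + 1) = 12 * B + η := by field_simp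
        rw [this]; linarith
      have g3 : B * (2 * (3 / M)) = 6 * B / M := by ring
      rw [g3, div_le_iff₀ hM0]
      linarith
    have := mul_le_mul_of_nonneg_right g1 hI0
    linarith
  have h4 : 40 * ε * I = η / 2 * I := by rw [hε]; ring
  have h5 : B * ∫ x, (φ' x ^ (3 / 2 : ℝ) - φ x ^ (3 / 2 : ℝ)) * (φ' x - φ x) ≤
      B * (2 * (3 / M * I + (3 * M + 6) * N)) := mul_le_mul_of_nonneg_left hen hB0.le
  rw [← mul_sub, abs_mul, abs_of_pos (show (0:ℝ) < 3 / 5 by norm_num)]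
  have h6 : |(∫ x, φ' x ^ (5 / 2 : ℝ)) - I| ≤ η * I + B * (2 * (3 * M + 6)) * N := by
    linarith
  linarith

theorem Kv_tendsto {k : ℕ} (Rn : ℕ → Fin k → E3) (R : Fin k → E3) (hR : ∀ i, Tendsto (fun n => Rn n i) atTop (𝓝 (R i)))
    {z : Fin k → ℝ} (hz : ∀ i, 0 ≤ z i) : Tendsto (fun n => Kv (Rn n) z) atTop (𝓝 (Kv R z)) := by
  have hK0 : 0 ≤ Kv R z := by
    unfold Kv
    have h := sol_spec R hz
    have : 0 ≤ ∫ x, sol R z x ^ (5 / 2 : ℝ) :=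
      integral_nonneg fun x => Real.rpow_nonneg (h.nonneg x) _
    linarith
  rw [Metric.tendsto_atTop]
  intro ε hε
  obtain ⟨C, hC⟩ := stab (show 0 < ε / (2 * (Kv R z + 1)) by positivity)
  have ht := (tendsto_V_sub_pow Rn R hR z).const_mul C
  rw [mul_zero] at ht
  rw [Metric.tendsto_atTop] at ht
  obtain ⟨N, hN⟩ := ht (ε / 2) (by positivity)
  refine ⟨N, fun n hn => ?_⟩
  have h1 := hC k R (Rn n) z hz
  have h2 := hN n hn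
  rw [Real.dist_eq, sub_zero] at h2
  rw [Real.dist_eq]
  have h3 : ε / (2 * (Kv R z + 1)) * Kv R z ≤ ε / 2 := by
    rw [div_mul_eq_mul_div, div_le_div_iff₀ (by positivity) (by norm_num)]
    nlinarith
  have h4 := (abs_lt.mp h2).2
  linarith

end Pool.Agent.H23.TF
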