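import Pool.Agent.H23.TF.F1_Real
import Pool.Agent.H23.TF.F2_Link
import Pool.Agent.H23.TF.M2_Merge
import Pool.Agent.H23.TF.B4_Upper

/-! Assembly of the main theorem. -/

open MeasureTheory Set Filter Topology
open scoped ENNReal NNReal

namespace Pool.Agent.H23.TF

theorem V_four (a b c d : E3) (p q r s : ℝ) (x : E3) :
    V ![a, b, c, d] ![p, q, r, s] x =
      p / ‖x - a‖ + q / ‖x - b‖ + r / ‖x - c‖ + s / ‖x - d‖ := by
  simp [V, Fin.sum_univ_four]

theorem nonneg2 {p q : ℝ} (hp : 0 ≤ p) (hq : 0 ≤ q) : ∀ i, 0 ≤ (![p, q] : Fin 2 → ℝ) i := by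
  intro i; fin_cases i <;> simpa

theorem nonneg4 {p q r s : ℝ} (hp : 0 ≤ p) (hq : 0 ≤ q) (hr : 0 ≤ r) (hs : 0 ≤ s) :
    ∀ i, 0 ≤ (![p, q, r, s] : Fin 4 → ℝ) i := by
  intro i; fin_cases i <;> simpa

/-- no subsequence of splittings can be weakly superadditive -/
theorem no_seq {a b : E3} (hab : a ≠ b) (c : ℕ → E3) (hc : Tendsto c atTop (𝓝 0))
    (hW : ∀ n, WSA (Xt ![a, a + c n, b, b + c n])) : False := by
  set c1 := Kv (fun _ : Fin 1 => (0 : E3)) (fun _ => 1) with hc1
  have hatom : ∀ (p : E3) (t : ℝ), 0 < t →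
      Kv (fun _ : Fin 1 => p) (fun _ => t) = c1 * t ^ (7 / 3 : ℝ) := fun p t ht => Kv_atom p ht
  obtain ⟨C1, hC1⟩ := lower hab
  obtain ⟨C2, hC2⟩ := upper hab
  -- K at four nuclei
  have hK4 : ∀ (d : E3) (p q r s : ℝ), 0 ≤ p → 0 ≤ q → 0 ≤ r → 0 ≤ s → 
      K ![a, a + d, b, b + d] ![p, q, r, s] = Kv ![a, a + d, b, b + d] ![p, q, r, s] := by
    intro d p q r s hp hq hr hs
    exact K_eq (nonneg4 hp hq hr hs)
  refine final_real (fun t => Kv ![a, b] ![t, t]) c1 (max C1 C2) Kv_atom_pos ?_ ?_ ?_ ?_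
  · intro t ht
    have e1 := hC1 t ht
    have e2 := hC2 t ht
    rw [hatom a t ht, hatom b t ht] at e1 e2
    rw [abs_le]
    constructor
    · linarith [le_max_left C1 C2]
    · linarith [le_max_right C1 C2]
  · have h := antitone_ray (hW 0) (z1 := ![1, 0, 0, 0]) (z2 := ![0, 0, 1, 0])
      (nonneg4 zero_le_one le_rfl le_rfl le_rfl) (nonneg4 le_rfl le_rfl zero_le_one le_rfl)
      (by intro i; fin_cases i <;> simp)
    refine h.congr ?_
    intro t ht
    have ht' : (0 : ℝ) < t := ht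
    have e1 : t • (![1, 0, 0, 0] + ![0, 0, 1, 0] : Fin 4 → ℝ) = ![t, 0, t, 0] := by
      ext i; fin_cases i <;> simp
    have e2 : t • (![1, 0, 0, 0] : Fin 4 → ℝ) = ![t, 0, 0, 0] := by
      ext i; fin_cases i <;> simp
    have e3 : t • (![0, 0, 1, 0] : Fin 4 → ℝ) = ![0, 0, t, 0] := by
      ext i; fin_cases i <;> simp
    have k1 : Kv ![a, a + c 0, b, b + c 0] ![t, 0, t, 0] = Kv ![a, b] ![t, t] := by
      apply Kv_congr (nonneg4 ht'.le le_rfl ht'.le le_rfl)
      refine Filter.Eventually.of_forall fun x => ?_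
      simp only [V_four, V_two]
      simp
    have k2 : Kv ![a, a + c 0, b, b + c 0] ![t, 0, 0, 0] = Kv (fun _ : Fin 1 => a) (fun _ => t) := by
      apply Kv_congr (nonneg4 ht'.le le_rfl le_rfl le_rfl)
      refine Filter.Eventually.of_forall fun x => ?_
      simp only [V_four, V_atom]
      simp
    have k3 : Kv ![a, a + c 0, b, b + c 0] ![0, 0, t, 0] = Kv (fun _ : Fin 1 => b) (fun _ => t) := by
      apply Kv_congr (nonneg4 le_rfl le_rfl ht'.le le_rfl)
      refine Filter.Eventually.of_forall fun x => ?_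
      simp only [V_four, V_atom]
      simp
    simp only
    rw [e1, e2, e3, hK4 _ _ _ _ _ ht'.le le_rfl ht'.le le_rfl, hK4 _ _ _ _ _ ht'.le le_rfl le_rfl le_rfl,
      hK4 _ _ _ _ _ le_rfl le_rfl ht'.le le_rfl, k1, k2, k3, hatom a t ht', hatom b t ht']
    ring
  · -- the limit of splittings
    have key : ∀ t : ℝ, 0 < t → Tendsto (fun n => t ^ (-(7 / 3) : ℝ) *
        (K ![a, a + c n, b, b + c n] (t • (![1, 0, 1, 0] + ![0, 1, 0, 1] : Fin 4 → ℝ))
          - K ![a, a + c n, b, b + c n] (t • (![1, 0, 1, 0] : Fin 4 → ℝ))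
          - K ![a, a + c n, b, b + c n] (t • (![0, 1, 0, 1] : Fin 4 → ℝ)))) atTop
        (𝓝 (t ^ (-(7 / 3) : ℝ) * (Kv ![a, b] ![2 * t, 2 * t] - 2 * Kv ![a, b] ![t, t]))) := by
      intro t ht
      have e1 : t • (![1, 0, 1, 0] + ![0, 1, 0, 1] : Fin 4 → ℝ) = ![t, t, t, t] := by
        ext i; fin_cases i <;> simp
      have e2 : t • (![1, 0, 1, 0] : Fin 4 → ℝ) = ![t, 0, t, 0] := by
        ext i; fin_cases i <;> simp
      have e3 : t • (![0, 1, 0, 1] : Fin 4 → ℝ) = ![0, t, 0, t] := by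
        ext i; fin_cases i <;> simp
      have hlim : ∀ i, Tendsto (fun n => (![a, a + c n, b, b + c n] : Fin 4 → E3) i) atTop
          (𝓝 ((![a, a, b, b] : Fin 4 → E3) i)) := by
        intro i
        have ha : Tendsto (fun n => a + c n) atTop (𝓝 a) := by simpa using hc.const_add a
        have hb : Tendsto (fun n => b + c n) atTop (𝓝 b) := by simpa using hc.const_add b
        fin_cases i
        · simp
        · simpa using ha
        · simp
        · simpa using hb
      have k1 : Kv ![a, a, b, b] ![t, t, t, t] = Kv ![a, b] ![2 * t, 2 * t] := by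
        apply Kv_congr (nonneg4 ht.le ht.le ht.le ht.le)
        refine Filter.Eventually.of_forall fun x => ?_
        simp only [V_four, V_two]
        ring
      have k2 : Kv ![a, a, b, b] ![t, 0, t, 0] = Kv ![a, b] ![t, t] := by
        apply Kv_congr (nonneg4 ht.le le_rfl ht.le le_rfl)
        refine Filter.Eventually.of_forall fun x => ?_
        simp only [V_four, V_two]
        simp
      have k3 : Kv ![a, a, b, b] ![0, t, 0, t] = Kv ![a, b] ![t, t] := by
        apply Kv_congr (nonneg4 le_rfl ht.le le_rfl ht.le)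
        refine Filter.Eventually.of_forall fun x => ?_
        simp only [V_four, V_two]
        simp
      have l1 := Kv_tendsto (fun n => ![a, a + c n, b, b + c n]) ![a, a, b, b] hlim
        (nonneg4 ht.le ht.le ht.le ht.le)
      have l2 := Kv_tendsto (fun n => ![a, a + c n, b, b + c n]) ![a, a, b, b] hlim
        (nonneg4 ht.le le_rfl ht.le le_rfl)
      have l3 := Kv_tendsto (fun n => ![a, a + c n, b, b + c n]) ![a, a, b, b] hlim
        (nonneg4 le_rfl ht.le le_rfl ht.le)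
      rw [k1] at l1
      rw [k2] at l2
      rw [k3] at l3
      have l := ((l1.sub l2).sub l3).const_mul (t ^ (-(7 / 3) : ℝ))
      rw [e1, e2, e3]
      refine (l.congr ?_).trans ?_
      · intro n
        rw [hK4 _ _ _ _ _ ht.le ht.le ht.le ht.le, hK4 _ _ _ _ _ ht.le le_rfl ht.le le_rfl,
          hK4 _ _ _ _ _ le_rfl ht.le le_rfl ht.le]
      · apply le_of_eq
        congr 1
        ring
    intro s hs t ht hst
    have h := fun n => antitone_ray (hW n) (z1 := ![1, 0, 1, 0]) (z2 := ![0, 1, 0, 1])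
      (nonneg4 zero_le_one le_rfl zero_le_one le_rfl) (nonneg4 le_rfl zero_le_one le_rfl zero_le_one)
      (by intro i; fin_cases i <;> simp) hs ht hst
    exact le_of_tendsto_of_tendsto' (key t ht) (key s hs) h
  · -- united atom limit
    have hscale : ∀ t : ℝ, 0 < t → t ^ (-(7 / 3) : ℝ) * Kv ![a, b] ![t, t] =
        Kv (fun i => (t ^ (1 / 3 : ℝ)) • (![a, b] : Fin 2 → E3) i + 0) ![1, 1] := by
      intro t ht
      have hl : 0 < t ^ (1 / 3 : ℝ) := Real.rpow_pos_of_pos ht _
      have h := Kv_scale ![a, b] (nonneg2 zero_le_one zero_le_one) hl (0 : E3)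
      have e3 : (t ^ (1 / 3 : ℝ)) ^ 3 = t := by
        rw [← Real.rpow_natCast, ← Real.rpow_mul ht.le]; norm_num
      have e7 : (t ^ (1 / 3 : ℝ)) ^ 7 = t ^ (7 / 3 : ℝ) := by
        rw [← Real.rpow_natCast, ← Real.rpow_mul ht.le]; norm_num
      have e : (fun i => (t ^ (1 / 3 : ℝ)) ^ 3 * (![1, 1] : Fin 2 → ℝ) i) = ![t, t] := by
        rw [e3]; ext i; fin_cases i <;> simp
      rw [e, e7] at h
      rw [← h, ← mul_assoc, ← Real.rpow_add ht]
      norm_num
    have hlim : ∀ i, Tendsto (fun n : ℕ => (((1 / ((n : ℝ) + 1)) ^ (1 / 3 : ℝ)) •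
        (![a, b] : Fin 2 → E3) i + 0)) atTop (𝓝 ((fun _ => 0 : Fin 2 → E3) i)) := by
      intro i
      have h0 : Tendsto (fun n : ℕ => (1 / ((n : ℝ) + 1)) ^ (1 / 3 : ℝ)) atTop (𝓝 0) := by
        have := (tendsto_one_div_add_atTop_nhds_zero_nat (𝕜 := ℝ)).rpow_const
          (p := (1 / 3 : ℝ)) (Or.inr (by norm_num))
        simpa using this
      simpa using (h0.smul_const ((![a, b] : Fin 2 → E3) i)).add_const 0
    have l := Kv_tendsto (fun (n : ℕ) i => (((1 / ((n : ℝ) + 1)) ^ (1 / 3 : ℝ)) •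
        (![a, b] : Fin 2 → E3) i + 0)) (fun _ => 0) hlim (nonneg2 zero_le_one zero_le_one)
    have k1 : Kv (fun _ : Fin 2 => (0 : E3)) ![1, 1] = Kv (fun _ : Fin 1 => (0 : E3)) (fun _ => 2) := by
      apply Kv_congr (nonneg2 zero_le_one zero_le_one)
      refine Filter.Eventually.of_forall fun x => ?_
      rw [V_atom]
      simp only [V, Fin.sum_univ_two]
      simp
      ring
    rw [k1, hatom 0 2 two_pos] at l
    refine l.congr fun n => ?_
    rw [hscale _ (by positivity)]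

theorem split_injective {a b c : E3} (hab : a ≠ b) (hc : c ≠ 0) (hcb : ‖c‖ < ‖a - b‖) :
    Function.Injective (![a, a + c, b, b + c] : Fin 4 → E3) := by
  have h1 : a ≠ a + c := by
    intro h; exact hc (by simpa using h)
  have h2 : b ≠ b + c := by
    intro h; exact hc (by simpa using h)
  have h3 : a + c ≠ b := by
    intro h
    have : c = -(a - b) := by rw [← h]; abel
    rw [this, norm_neg] at hcb
    exact lt_irrefl _ hcb
  have h4 : a ≠ b + c := by
    intro h
    have : c = a - b := by rw [h]; abel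
    rw [← this] at hcb
    exact lt_irrefl _ hcb
  have h5 : a + c ≠ b + c := by
    intro h; exact hab (by simpa using h)
  intro i j hij
  fin_cases i <;> fin_cases j <;> simp_all [Ne.symm, eq_comm]

theorem main_fail {a b : E3} (hab : a ≠ b) : ∃ η : ℝ, 0 < η ∧ ∀ c : E3, c ≠ 0 → ‖c‖ < η →
    Function.Injective (![a, a + c, b, b + c] : Fin 4 → E3) ∧ ¬ WSA (Xt ![a, a + c, b, b + c]) := by
  by_contra hcon
  push Not at hcon
  have hd : 0 < ‖a - b‖ := norm_pos_iff.2 (sub_ne_zero.2 hab)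
  have h : ∀ n : ℕ, ∃ c : E3, c ≠ 0 ∧ ‖c‖ < min ‖a - b‖ (1 / ((n : ℝ) + 1)) ∧
      WSA (Xt ![a, a + c, b, b + c]) := by
    intro n
    obtain ⟨c, hc, hcn, h⟩ := hcon (min ‖a - b‖ (1 / ((n : ℝ) + 1))) (lt_min hd (by positivity))
    exact ⟨c, hc, hcn, h (split_injective hab hc (hcn.trans_le (min_le_left _ _)))⟩
  choose c hc0 hc1 hc2 using h
  refine no_seq hab c ?_ hc2
  rw [tendsto_zero_iff_norm_tendsto_zero]
  refine squeeze_zero (fun n => norm_nonneg _) (fun n => (hc1 n).le.trans (min_le_right _ _)) ?_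
  exact tendsto_one_div_add_atTop_nhds_zero_nat

end Pool.Agent.H23.TF
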