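import Pool.Agent.H23.TF.A1_Rad

/-! Module N1: axially symmetric integrals (Archimedes).

`∫ F(|y|², y₀) dy = π ∫_{v>0} ∫_{|s|<√v} F(v,s) ds dv`.
Proof: split `y = (y₀, w)`, `w ∈ ℝ²` (`EuclideanSpace.volume_preserving_measurableEquiv` / `volume_preserving_piFinSuccAbove` ...,
or write everything over `Fin 3 → ℝ`), polar coordinates in the plane (`lintegral_comp_polarCoord_symm`), substitution
`u = ρ²` (`∫_{ρ>0} ρ f(ρ²) dρ = (1/2)∫_{u>0} f(u) du`), then `v = s² + u` and Tonelli. -/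

open MeasureTheory Set Filter Topology
open scoped ENNReal NNReal

namespace Pool.Agent.H23.TF

/-- splitting off the coordinates -/
theorem N1_split (F : ℝ → ℝ → ℝ≥0∞) (hF : Measurable (Function.uncurry F)) :
    ∫⁻ y : E3, F (‖y‖ ^ 2) (y 0) = ∫⁻ s : ℝ, ∫⁻ p : ℝ × ℝ, F (s ^ 2 + (p.1 ^ 2 + p.2 ^ 2)) s := by
  have h1 : ∫⁻ y : E3, F (‖y‖ ^ 2) (y 0)
      = ∫⁻ y : Fin 3 → ℝ, F (y 0 ^ 2 + (y 1 ^ 2 + y 2 ^ 2)) (y 0) := by
    rw [← (PiLp.volume_preserving_toLp (Fin 3)).lintegral_comp_emb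
      (MeasurableEquiv.toLp 2 (Fin 3 → ℝ)).measurableEmbedding]
    apply lintegral_congr
    intro y
    congr 1
    rw [EuclideanSpace.real_norm_sq_eq, Fin.sum_univ_three]
    simp only [PiLp.toLp_apply]
    ring
  rw [h1]
  have m1 : Measurable (fun y : Fin 3 → ℝ => F (y 0 ^ 2 + (y 1 ^ 2 + y 2 ^ 2)) (y 0)) := by
    have : Measurable (fun y : Fin 3 → ℝ => (y 0 ^ 2 + (y 1 ^ 2 + y 2 ^ 2), y 0)) := by fun_prop
    exact hF.comp this
  have h2 : ∫⁻ y : Fin 3 → ℝ, F (y 0 ^ 2 + (y 1 ^ 2 + y 2 ^ 2)) (y 0)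
      = ∫⁻ q : ℝ × (Fin 2 → ℝ), F (q.1 ^ 2 + (q.2 0 ^ 2 + q.2 1 ^ 2)) q.1 := by
    rw [← (volume_preserving_piFinSuccAbove (fun _ : Fin 3 => ℝ) 0).symm.lintegral_comp_emb
      (MeasurableEquiv.piFinSuccAbove (fun _ : Fin 3 => ℝ) 0).symm.measurableEmbedding]
    rfl
  rw [h2]
  have m2 : Measurable (fun q : ℝ × (Fin 2 → ℝ) => F (q.1 ^ 2 + (q.2 0 ^ 2 + q.2 1 ^ 2)) q.1) := by
    have : Measurable (fun q : ℝ × (Fin 2 → ℝ) => (q.1 ^ 2 + (q.2 0 ^ 2 + q.2 1 ^ 2), q.1)) := by fun_prop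
    exact hF.comp this
  rw [Measure.volume_eq_prod, lintegral_prod _ m2.aemeasurable]
  apply lintegral_congr
  intro s
  rw [← (volume_preserving_finTwoArrow ℝ).symm.lintegral_comp_emb
    (MeasurableEquiv.finTwoArrow (α := ℝ)).symm.measurableEmbedding]
  rfl

/-- polar coordinates and the substitution `v = s² + r²`. -/
theorem N1_polar (G : ℝ → ℝ≥0∞) (hG : Measurable G) (s : ℝ) :
    ∫⁻ p : ℝ × ℝ, G (s ^ 2 + (p.1 ^ 2 + p.2 ^ 2))
      = ∫⁻ v in Ioi (s ^ 2), ENNReal.ofReal Real.pi * G v := by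
  rw [← lintegral_comp_polarCoord_symm]
  have h1 : ∫⁻ p in polarCoord.target, ENNReal.ofReal p.1 •
      (fun p : ℝ × ℝ => G (s ^ 2 + (p.1 ^ 2 + p.2 ^ 2))) (polarCoord.symm p)
      = ∫⁻ p in Ioi (0 : ℝ) ×ˢ Ioo (-Real.pi) Real.pi, ENNReal.ofReal p.1 * G (s ^ 2 + p.1 ^ 2) := by
    apply setLIntegral_congr_fun (measurableSet_Ioi.prod measurableSet_Ioo)
    intro p _
    simp only [polarCoord_symm_apply, smul_eq_mul]
    congr 3
    have := Real.sin_sq_add_cos_sq p.2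
    nlinarith
  rw [h1, Measure.volume_eq_prod, ← Measure.prod_restrict]
  have m1 : Measurable (fun p : ℝ × ℝ => ENNReal.ofReal p.1 * G (s ^ 2 + p.1 ^ 2)) := by
    have : Measurable (fun p : ℝ × ℝ => s ^ 2 + p.1 ^ 2) := by fun_prop
    exact (ENNReal.measurable_ofReal.comp measurable_fst).mul (hG.comp this)
  rw [lintegral_prod _ m1.aemeasurable]
  simp only [lintegral_const, Measure.restrict_apply MeasurableSet.univ, univ_inter, Real.volume_Ioo]
  have h2 : ∫⁻ v in Ioi (s ^ 2), ENNReal.ofReal Real.pi * G v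
      = ∫⁻ r in Ioi (0 : ℝ), ENNReal.ofReal |2 * r| * (ENNReal.ofReal Real.pi * G (s ^ 2 + r ^ 2)) := by
    have himg : (fun r : ℝ => s ^ 2 + r ^ 2) '' Ioi (0 : ℝ) = Ioi (s ^ 2) := by
      ext v
      simp only [mem_image, mem_Ioi]
      constructor
      · rintro ⟨r, hr, rfl⟩
        have : 0 < r ^ 2 := by positivity
        linarith
      · intro hv
        refine ⟨√(v - s ^ 2), Real.sqrt_pos.mpr (by linarith), ?_⟩
        rw [Real.sq_sqrt (by linarith)]
        ring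
    rw [← himg, lintegral_image_eq_lintegral_abs_deriv_mul measurableSet_Ioi (f' := fun r => 2 * r)]
    · intro r _
      have h := ((hasDerivAt_pow 2 r).const_add (s ^ 2)).hasDerivWithinAt (s := Ioi (0 : ℝ))
      simpa using h
    · intro a ha b hb hab
      have h : a ^ 2 = b ^ 2 := by simpa using hab
      have ha' : 0 < a := ha
      have hb' : 0 < b := hb
      nlinarith [sq_nonneg (a - b), mul_pos ha' hb']
  rw [h2]
  apply setLIntegral_congr_fun measurableSet_Ioi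
  intro r hr
  have hr' : 0 < r := hr
  simp only
  rw [abs_of_pos (by positivity), ENNReal.ofReal_mul (by norm_num : (0 : ℝ) ≤ 2),
    show Real.pi - -Real.pi = 2 * Real.pi by ring, ENNReal.ofReal_mul (by norm_num : (0 : ℝ) ≤ 2)]
  ring

theorem lintegral_axial (F : ℝ → ℝ → ℝ≥0∞) (hF : Measurable (Function.uncurry F)) :
    ∫⁻ y : E3, F (‖y‖ ^ 2) (y 0) =
      ∫⁻ v in Ioi (0 : ℝ), ∫⁻ s in Ioo (-√v) (√v), ENNReal.ofReal Real.pi * F v s := by
  rw [N1_split F hF]
  have hFs : ∀ s, Measurable (fun v => F v s) := fun s =>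
    hF.comp (measurable_id.prodMk measurable_const)
  have h1 : ∀ s : ℝ, ∫⁻ p : ℝ × ℝ, F (s ^ 2 + (p.1 ^ 2 + p.2 ^ 2)) s
      = ∫⁻ v : ℝ, (Ioi (s ^ 2)).indicator (fun v => ENNReal.ofReal Real.pi * F v s) v := by
    intro s
    rw [N1_polar (fun v => F v s) (hFs s) s, lintegral_indicator measurableSet_Ioi]
  simp only [h1]
  have hS : MeasurableSet {q : ℝ × ℝ | q.1 ^ 2 < q.2} :=
    measurableSet_lt (measurable_fst.pow_const 2) measurable_snd
  have hmeas : Measurable (fun q : ℝ × ℝ => {q : ℝ × ℝ | q.1 ^ 2 < q.2}.indicator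
      (fun q => ENNReal.ofReal Real.pi * F q.2 q.1) q) := by
    apply Measurable.indicator _ hS
    exact measurable_const.mul (hF.comp (measurable_snd.prodMk measurable_fst))
  rw [lintegral_lintegral_swap]
  · rw [← lintegral_indicator measurableSet_Ioi]
    apply lintegral_congr
    intro v
    by_cases hv : v ∈ Ioi (0 : ℝ)
    · rw [indicator_of_mem hv, ← lintegral_indicator measurableSet_Ioo]
      apply lintegral_congr
      intro s
      have hiff : v ∈ Ioi (s ^ 2) ↔ s ∈ Ioo (-√v) (√v) := by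
        rw [mem_Ioi, mem_Ioo, ← abs_lt, Real.lt_sqrt (abs_nonneg s), sq_abs]
      by_cases h : v ∈ Ioi (s ^ 2)
      · rw [indicator_of_mem h, indicator_of_mem (hiff.mp h)]
      · rw [indicator_of_notMem h, indicator_of_notMem (fun h' => h (hiff.mpr h'))]
    · rw [indicator_of_notMem hv]
      have : ∀ s : ℝ, (Ioi (s ^ 2)).indicator (fun v => ENNReal.ofReal Real.pi * F v s) v = 0 := by
        intro s
        apply indicator_of_notMem
        intro h
        apply hv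
        exact lt_of_le_of_lt (sq_nonneg s) h
      simp only [this, lintegral_zero]
  · exact hmeas.aemeasurable

end Pool.Agent.H23.TF
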