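import Pool.Agent.H23.TF.N1_Arch

/-! Module N2: Newton's theorem.

`x = 0` is trivial. For `x ≠ 0`, `r = ‖x‖`: a linear isometry maps `x` to `r e₀` (reflection), so
LHS `= ∫ h(‖y‖) / ‖r e₀ - y‖ dy`, `‖r e₀ - y‖² = r² - 2 r y₀ + ‖y‖²`. Apply `lintegral_axial` to
`F v s = h(√v) (ofReal √(r² - 2rs + v))⁻¹`; inner integral for `v > 0`, `v ≠ r²` (null set):
`∫_{|s|<√v} (r²+v-2rs)^(-1/2) ds = ((r+√v) - |r-√v|)/r = 2√v/max(r,√v)`
(antiderivative `-√(r²+v-2rs)/r`). The RHS is `lintegral_axial` with `F v s = h(√v) (ofReal max(r,√v))⁻¹`: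
the inner integral is `2√v/max(r,√v)` as well. -/

open MeasureTheory Set Filter Topology
open scoped ENNReal NNReal

namespace Pool.Agent.H23.TF

/-- the elementary integral -/
theorem N2_inner {r a : ℝ} (hr : 0 < r) (ha : 0 < a) (hne : a ≠ r) :
    ∫⁻ s in Ioo (-a) a, (ENNReal.ofReal √(r ^ 2 - 2 * r * s + a ^ 2))⁻¹
      = ENNReal.ofReal (2 * a) * (max (ENNReal.ofReal r) (ENNReal.ofReal a))⁻¹ := by
  have hpos : ∀ s ∈ Icc (-a) a, 0 < r ^ 2 - 2 * r * s + a ^ 2 := by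
    intro s hs
    have h1 : 0 < (r - a) ^ 2 := by
      have : r - a ≠ 0 := sub_ne_zero.mpr hne.symm
      positivity
    have h2 : 0 ≤ r * (a - s) := mul_nonneg hr.le (by linarith [hs.2])
    nlinarith
  have hcont : ContinuousOn (fun s : ℝ => (√(r ^ 2 - 2 * r * s + a ^ 2))⁻¹) (Icc (-a) a) := by
    apply ContinuousOn.inv₀
    · fun_prop
    · intro s hs
      exact (Real.sqrt_pos.mpr (hpos s hs)).ne'
  have hder : ∀ s ∈ uIcc (-a) a, HasDerivAt (fun s : ℝ => -(√(r ^ 2 - 2 * r * s + a ^ 2)) / r)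
      ((√(r ^ 2 - 2 * r * s + a ^ 2))⁻¹) s := by
    intro s hs
    rw [uIcc_of_le (by linarith)] at hs
    have hp := hpos s hs
    have h1 : HasDerivAt (fun s : ℝ => r ^ 2 - 2 * r * s + a ^ 2) (-(2 * r)) s := by
      have := (((hasDerivAt_id s).const_mul (2 * r)).const_sub (r ^ 2)).add_const (a ^ 2)
      simpa using this
    have h2 := (h1.sqrt hp.ne').neg.div_const r
    have h3 : √(r ^ 2 - 2 * r * s + a ^ 2) ≠ 0 := (Real.sqrt_pos.mpr hp).ne'
    have h4 : r ≠ 0 := hr.ne'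
    refine HasDerivAt.congr_deriv h2 ?_
    generalize √(r ^ 2 - 2 * r * s + a ^ 2) = q at h3
    field_simp
  have hint : IntervalIntegrable (fun s : ℝ => (√(r ^ 2 - 2 * r * s + a ^ 2))⁻¹) volume (-a) a := by
    apply ContinuousOn.intervalIntegrable
    rw [uIcc_of_le (by linarith)]
    exact hcont
  have hval := intervalIntegral.integral_eq_sub_of_hasDerivAt hder hint
  have e1 : r ^ 2 - 2 * r * a + a ^ 2 = (r - a) ^ 2 := by ring
  have e2 : r ^ 2 - 2 * r * -a + a ^ 2 = (r + a) ^ 2 := by ring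
  rw [e1, e2, Real.sqrt_sq_eq_abs, Real.sqrt_sq_eq_abs, abs_of_pos (by linarith : 0 < r + a)] at hval
  have hlint : ∫⁻ s in Ioo (-a) a, (ENNReal.ofReal √(r ^ 2 - 2 * r * s + a ^ 2))⁻¹
      = ENNReal.ofReal (∫ s in (-a)..a, (√(r ^ 2 - 2 * r * s + a ^ 2))⁻¹) := by
    rw [intervalIntegral.integral_of_le (by linarith),
      ofReal_integral_eq_lintegral_ofReal hint.1 (Eventually.of_forall (fun s => by positivity)),
      setLIntegral_congr Ioo_ae_eq_Ioc]
    apply setLIntegral_congr_fun measurableSet_Ioc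
    intro s hs
    simp only
    rw [ENNReal.ofReal_inv_of_pos]
    exact Real.sqrt_pos.mpr (hpos s ⟨hs.1.le, hs.2⟩)
  rw [hlint, hval, ← ENNReal.ofReal_max, ← ENNReal.ofReal_inv_of_pos (lt_max_of_lt_left hr),
    ← ENNReal.ofReal_mul (by positivity)]
  congr 1
  rcases lt_or_gt_of_ne hne with h | h
  · rw [max_eq_left h.le, abs_of_pos (by linarith : 0 < r - a)]
    field_simp
    ring
  · rw [max_eq_right h.le, abs_of_neg (by linarith : r - a < 0)]
    field_simp
    ring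

/-- the axial form -/
theorem N2_axial (h : ℝ → ℝ≥0∞) (hh : Measurable h) {r : ℝ} (hr : 0 < r) :
    ∫⁻ y : E3, h ‖y‖ * (ENNReal.ofReal √(r ^ 2 - 2 * r * y 0 + ‖y‖ ^ 2))⁻¹
      = ∫⁻ y : E3, h ‖y‖ * (max (ENNReal.ofReal r) ‖y‖ₑ)⁻¹ := by
  have m1 : Measurable (Function.uncurry (fun v s : ℝ =>
      h √v * (ENNReal.ofReal √(r ^ 2 - 2 * r * s + v))⁻¹)) := by
    apply Measurable.mul
    · exact hh.comp (Real.continuous_sqrt.measurable.comp measurable_fst)
    · apply Measurable.inv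
      apply ENNReal.measurable_ofReal.comp
      apply Real.continuous_sqrt.measurable.comp
      fun_prop
  have m2 : Measurable (Function.uncurry (fun v _s : ℝ =>
      h √v * (max (ENNReal.ofReal r) (ENNReal.ofReal √v))⁻¹)) := by
    apply Measurable.mul
    · exact hh.comp (Real.continuous_sqrt.measurable.comp measurable_fst)
    · apply Measurable.inv
      apply Measurable.max measurable_const
      exact ENNReal.measurable_ofReal.comp (Real.continuous_sqrt.measurable.comp measurable_fst)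
  have e1 := lintegral_axial _ m1
  have e2 := lintegral_axial _ m2
  have l1 : ∫⁻ y : E3, h ‖y‖ * (ENNReal.ofReal √(r ^ 2 - 2 * r * y 0 + ‖y‖ ^ 2))⁻¹
      = ∫⁻ y : E3, (fun v s : ℝ => h √v * (ENNReal.ofReal √(r ^ 2 - 2 * r * s + v))⁻¹) (‖y‖ ^ 2) (y 0) := by
    apply lintegral_congr
    intro y
    simp only
    rw [Real.sqrt_sq (norm_nonneg y)]
  have l2 : ∫⁻ y : E3, h ‖y‖ * (max (ENNReal.ofReal r) ‖y‖ₑ)⁻¹
      = ∫⁻ y : E3, (fun v _s : ℝ => h √v * (max (ENNReal.ofReal r) (ENNReal.ofReal √v))⁻¹) (‖y‖ ^ 2) (y 0) := by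
    apply lintegral_congr
    intro y
    simp only
    rw [Real.sqrt_sq (norm_nonneg y), ofReal_norm]
  rw [l1, l2, e1, e2]
  have hne : ∀ᵐ v : ℝ, v ≠ r ^ 2 := by
    rw [ae_iff]
    simp
  apply lintegral_congr_ae
  filter_upwards [ae_restrict_mem measurableSet_Ioi, ae_restrict_of_ae hne] with v hv hv2
  have hv0 : 0 < v := hv
  have hs0 : 0 < √v := Real.sqrt_pos.mpr hv0
  have hsne : √v ≠ r := by
    intro h'
    apply hv2
    rw [← h', Real.sq_sqrt hv0.le]
  have hin := N2_inner hr hs0 hsne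
  rw [Real.sq_sqrt hv0.le] at hin
  have mm : Measurable (fun s : ℝ => (ENNReal.ofReal √(r ^ 2 - 2 * r * s + v))⁻¹) := by
    apply Measurable.inv
    apply ENNReal.measurable_ofReal.comp
    apply Real.continuous_sqrt.measurable.comp
    fun_prop
  rw [lintegral_const_mul _ (mm.const_mul _), lintegral_const_mul _ mm, hin, setLIntegral_const,
    Real.volume_Ioo, show √v - -√v = 2 * √v by ring]
  ring

theorem newton (h : ℝ → ℝ≥0∞) (hh : Measurable h) (x : E3) :
    ∫⁻ y : E3, h ‖y‖ * ‖x - y‖ₑ⁻¹ = ∫⁻ y : E3, h ‖y‖ * (max ‖x‖ₑ ‖y‖ₑ)⁻¹ := by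
  by_cases hx : x = 0
  · subst hx
    simp
  · have hr : 0 < ‖x‖ := norm_pos_iff.mpr hx
    set w : E3 := EuclideanSpace.single 0 ‖x‖ with hw
    have hwn : ‖w‖ = ‖x‖ := by rw [hw]; simp
    set L : E3 ≃ₗᵢ[ℝ] E3 := Submodule.reflection (Submodule.orthogonal (Submodule.span ℝ {x - w})) with hL
    have hLx : L x = w := Submodule.reflection_sub hwn.symm
    have h1 : ∫⁻ y : E3, h ‖y‖ * ‖x - y‖ₑ⁻¹ = ∫⁻ y : E3, h ‖y‖ * ‖w - y‖ₑ⁻¹ := by
      have hc := L.measurePreserving.lintegral_comp_emb L.toHomeomorph.measurableEmbedding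
        (fun y => h ‖y‖ * ‖w - y‖ₑ⁻¹)
      rw [← hc]
      apply lintegral_congr
      intro y
      rw [L.norm_map, ← hLx, ← map_sub, ← ofReal_norm, ← ofReal_norm, L.norm_map]
    rw [h1, ← ofReal_norm x, ← N2_axial h hh hr]
    apply lintegral_congr
    intro y
    congr 2
    rw [← ofReal_norm]
    congr 1
    rw [← Real.sqrt_sq (norm_nonneg (w - y))]
    congr 1
    rw [norm_sub_sq_real, hwn, hw]
    have : inner ℝ (EuclideanSpace.single (0 : Fin 3) ‖x‖) y = ‖x‖ * y 0 := by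
      rw [EuclideanSpace.inner_single_left]
      simp
    rw [this]
    ring

end Pool.Agent.H23.TF
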