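import Pool.Agent.H23.TF.N2_Newton
import Pool.Agent.H23.TF.A3_G

/-! Module N3: consequences of Newton's theorem.

`ball_le`, `ball_ge`: Newton with `h = 1_{[0,r)}` and `lintegral_radial`:
`∫_{‖x‖<r} dx/‖x-y‖ = ∫_{‖x‖<r} dx/max(‖x‖,‖y‖) ≤ ∫_{‖x‖<r} dx/‖x‖ = 2πr²`, and `≥ ∫_{‖y‖<‖x‖<r} dx/‖x‖ = 2π(r²-‖y‖²)`.
`G_out`, `G_center`: `f(y) = h(‖y-c‖)` a.e.; translate to `c = 0`; the real integral of a nonnegative function is the `toReal` of the
lintegral. Outside the support `max(‖x‖,‖y‖) = ‖x‖`; and `max(‖x‖,‖y‖)⁻¹ ≤ ‖y‖⁻¹`. -/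

open MeasureTheory Set Filter Topology
open scoped ENNReal NNReal

namespace Pool.Agent.H23.TF

/-- `∫_{a<‖x‖<r} dx/‖x‖ = 2π(r²-a²)` -/
private lemma annulus {a r : ℝ} (ha : 0 ≤ a) (har : a ≤ r) :
    ∫⁻ x : E3, (Ioo a r).indicator (fun t => (ENNReal.ofReal t)⁻¹) ‖x‖ =
      ENNReal.ofReal (2 * Real.pi * (r ^ 2 - a ^ 2)) := by
  have hm : Measurable ((Ioo a r).indicator (fun t => (ENNReal.ofReal t)⁻¹)) :=
    (ENNReal.measurable_ofReal.inv).indicator measurableSet_Ioo
  rw [lintegral_radial _ hm]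
  have e1 : ∀ t ∈ Ioi (0:ℝ), ENNReal.ofReal (4 * Real.pi * t ^ 2) *
      (Ioo a r).indicator (fun t => (ENNReal.ofReal t)⁻¹) t =
      (Ioo a r).indicator (fun t => ENNReal.ofReal (4 * Real.pi * t)) t := by
    intro t ht
    by_cases h : t ∈ Ioo a r
    · rw [indicator_of_mem h, indicator_of_mem h]
      have ht' : (0:ℝ) < t := ht
      rw [← ENNReal.ofReal_inv_of_pos ht', ← ENNReal.ofReal_mul (by positivity)]
      congr 1
      field_simp
    · rw [indicator_of_notMem h, indicator_of_notMem h, mul_zero]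
  rw [setLIntegral_congr_fun measurableSet_Ioi e1, ← lintegral_indicator measurableSet_Ioi]
  have e2 : (Ioi (0:ℝ)).indicator ((Ioo a r).indicator (fun t => ENNReal.ofReal (4 * Real.pi * t)))
      = (Ioo a r).indicator (fun t => ENNReal.ofReal (4 * Real.pi * t)) := by
    rw [indicator_indicator]
    congr 1
    ext t
    simp only [mem_inter_iff, mem_Ioi, mem_Ioo]
    constructor
    · exact fun h => h.2
    · exact fun h => ⟨lt_of_le_of_lt ha h.1, h⟩
  rw [e2, lintegral_indicator measurableSet_Ioo]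
  have hc : Continuous (fun t : ℝ => 4 * Real.pi * t) := continuous_const.mul continuous_id
  have hint : IntegrableOn (fun t : ℝ => 4 * Real.pi * t) (Ioo a r) :=
    (hc.integrableOn_Icc).mono_set Ioo_subset_Icc_self
  rw [← ofReal_integral_eq_lintegral_ofReal hint
    ((ae_restrict_iff' measurableSet_Ioo).2 (ae_of_all _ fun t ht => by
      have : 0 < t := lt_of_le_of_lt ha ht.1
      positivity))]
  congr 1
  rw [← integral_Ioc_eq_integral_Ioo, ← intervalIntegral.integral_of_le har,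
    intervalIntegral.integral_const_mul, integral_id]
  ring

theorem ball_le (y : E3) {r : ℝ} (hr : 0 ≤ r) :
    ∫⁻ x in Metric.ball (0 : E3) r, ‖x - y‖ₑ⁻¹ ≤ ENNReal.ofReal (2 * Real.pi * r ^ 2) := by
  have hm : Measurable ((Iio r).indicator (fun _ => (1 : ℝ≥0∞))) :=
    measurable_const.indicator measurableSet_Iio
  have h1 := newton _ hm y
  have e1 : ∫⁻ x in Metric.ball (0 : E3) r, ‖x - y‖ₑ⁻¹ =
      ∫⁻ x : E3, (Iio r).indicator (fun _ => (1 : ℝ≥0∞)) ‖x‖ * ‖y - x‖ₑ⁻¹ := by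
    rw [← lintegral_indicator Metric.isOpen_ball.measurableSet]
    apply lintegral_congr
    intro x
    by_cases h : ‖x‖ < r
    · rw [indicator_of_mem (by simpa using h), indicator_of_mem (by simpa using h), one_mul,
        enorm_sub_rev]
    · rw [indicator_of_notMem (by simpa using h), indicator_of_notMem (by simpa using h), zero_mul]
  rw [e1, h1]
  have e2 : (2 * Real.pi * r ^ 2) = 2 * Real.pi * (r ^ 2 - 0 ^ 2) := by ring
  rw [e2, ← annulus le_rfl hr]
  apply lintegral_mono_ae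
  have h0 : ∀ᵐ x : E3, x ≠ 0 := by
    rw [ae_iff]
    simp
  filter_upwards [h0] with x hx
  have hx' : 0 < ‖x‖ := norm_pos_iff.mpr hx
  by_cases h : ‖x‖ < r
  · rw [indicator_of_mem (by simpa using h), one_mul,
      indicator_of_mem (show ‖x‖ ∈ Ioo 0 r from ⟨hx', h⟩), ofReal_norm]
    exact ENNReal.inv_le_inv.mpr (le_max_right _ _)
  · rw [indicator_of_notMem (by simpa using h), zero_mul]
    exact zero_le

theorem ball_ge (y : E3) {r : ℝ} (hr : 0 ≤ r) :
    ENNReal.ofReal (2 * Real.pi * (r ^ 2 - ‖y‖ ^ 2)) ≤ ∫⁻ x in Metric.ball (0 : E3) r, ‖x - y‖ₑ⁻¹ := by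
  rcases le_total r ‖y‖ with hle | hle
  · have : 2 * Real.pi * (r ^ 2 - ‖y‖ ^ 2) ≤ 0 := by
      have h1 : r ^ 2 - ‖y‖ ^ 2 ≤ 0 := by nlinarith
      exact mul_nonpos_of_nonneg_of_nonpos (by positivity) h1
    rw [ENNReal.ofReal_of_nonpos this]
    exact zero_le
  · have hm : Measurable ((Iio r).indicator (fun _ => (1 : ℝ≥0∞))) :=
      measurable_const.indicator measurableSet_Iio
    have h1 := newton _ hm y
    have e1 : ∫⁻ x in Metric.ball (0 : E3) r, ‖x - y‖ₑ⁻¹ =
        ∫⁻ x : E3, (Iio r).indicator (fun _ => (1 : ℝ≥0∞)) ‖x‖ * ‖y - x‖ₑ⁻¹ := by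
      rw [← lintegral_indicator Metric.isOpen_ball.measurableSet]
      apply lintegral_congr
      intro x
      by_cases h : ‖x‖ < r
      · rw [indicator_of_mem (by simpa using h), indicator_of_mem (by simpa using h), one_mul,
          enorm_sub_rev]
      · rw [indicator_of_notMem (by simpa using h), indicator_of_notMem (by simpa using h),
          zero_mul]
    rw [e1, h1, ← annulus (norm_nonneg y) hle]
    apply lintegral_mono
    intro x
    by_cases h : ‖x‖ ∈ Ioo ‖y‖ r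
    · have h2 : ‖y‖ₑ ≤ ‖x‖ₑ := by
        rw [← ofReal_norm, ← ofReal_norm]
        exact ENNReal.ofReal_le_ofReal h.1.le
      simp only
      rw [indicator_of_mem h, indicator_of_mem (by simpa using h.2), one_mul, max_eq_right h2,
        ofReal_norm]
    · simp only
      rw [indicator_of_notMem h]
      exact zero_le

/-- the integral defining the potential of a radial charge -/
private lemma radial_lint {h : ℝ → ℝ} (hh : Measurable h)
    (c : E3) {f : E3 → ℝ} (hf : f =ᵐ[volume] fun y => h ‖y - c‖) (x : E3) :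
    ∫⁻ y, ENNReal.ofReal (f y / ‖x - y‖) =
      ∫⁻ y : E3, ENNReal.ofReal (h ‖y‖) * (max ‖x - c‖ₑ ‖y‖ₑ)⁻¹ := by
  have hne : ∀ᵐ y : E3, y ≠ x := by
    rw [ae_iff]
    simp
  have e1 : ∫⁻ y, ENNReal.ofReal (f y / ‖x - y‖) =
      ∫⁻ y : E3, ENNReal.ofReal (h ‖y - c‖) * ‖x - y‖ₑ⁻¹ := by
    apply lintegral_congr_ae
    filter_upwards [hf, hne] with y hy hyx
    have hpos : 0 < ‖x - y‖ := norm_pos_iff.mpr (sub_ne_zero.mpr (Ne.symm hyx))
    rw [hy, ENNReal.ofReal_div_of_pos hpos, ofReal_norm, div_eq_mul_inv]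
  have e2 := lintegral_add_right_eq_self (μ := (volume : Measure E3))
    (fun y : E3 => ENNReal.ofReal (h ‖y - c‖) * ‖x - y‖ₑ⁻¹) c
  rw [e1, ← e2]
  have hm : Measurable (fun t => ENNReal.ofReal (h t)) := ENNReal.measurable_ofReal.comp hh
  rw [← newton _ hm (x - c)]
  apply lintegral_congr
  intro y
  rw [add_sub_cancel_right, show x - (y + c) = x - c - y by abel]

private lemma G_eq {h : ℝ → ℝ} (hh : Measurable h) (h0 : ∀ r, 0 ≤ h r)
    (c : E3) {f : E3 → ℝ} (hf : f =ᵐ[volume] fun y => h ‖y - c‖) (hLd : Ld f) (x : E3) :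
    G f x = (∫⁻ y : E3, ENNReal.ofReal (h ‖y‖) * (max ‖x - c‖ₑ ‖y‖ₑ)⁻¹).toReal := by
  unfold G
  rw [integral_eq_lintegral_of_nonneg_ae _ (hLd.int_div x).aestronglyMeasurable,
    radial_lint hh c hf x]
  filter_upwards [hf] with y hy
  rw [hy]
  exact div_nonneg (h0 _) (norm_nonneg _)

/-- Newton: outside of its support a radial charge acts like a point charge -/
theorem G_out {h : ℝ → ℝ} (hh : Measurable h) (h0 : ∀ r, 0 ≤ h r) {s : ℝ} (hs : 0 < s)
    (hsupp : ∀ r, s ≤ r → h r = 0) (c : E3) {f : E3 → ℝ} (hf : f =ᵐ[volume] fun y => h ‖y - c‖)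
    (hLd : Ld f) (x : E3) (hx : s ≤ ‖x - c‖) : G f x = (∫ y, f y) / ‖x - c‖ := by
  rw [G_eq hh h0 c hf hLd x]
  have e1 : ∫⁻ y : E3, ENNReal.ofReal (h ‖y‖) * (max ‖x - c‖ₑ ‖y‖ₑ)⁻¹ =
      (∫⁻ y : E3, ENNReal.ofReal (h ‖y‖)) * ‖x - c‖ₑ⁻¹ := by
    have hmm : Measurable (fun y : E3 => ENNReal.ofReal (h ‖y‖)) :=
      (ENNReal.measurable_ofReal.comp hh).comp measurable_norm
    rw [← lintegral_mul_const _ hmm]
    apply lintegral_congr
    intro y
    rcases lt_or_ge ‖y‖ s with hy | hy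
    · have : ‖y‖ₑ ≤ ‖x - c‖ₑ := by
        rw [← ofReal_norm, ← ofReal_norm]
        exact ENNReal.ofReal_le_ofReal (hy.le.trans hx)
      rw [max_eq_left this]
    · rw [hsupp _ hy, ENNReal.ofReal_zero, zero_mul, zero_mul]
  have e2 := lintegral_sub_right_eq_self (μ := (volume : Measure E3))
    (fun y : E3 => ENNReal.ofReal (h ‖y‖)) c
  have e3 : (∫ y, f y) = (∫⁻ y : E3, ENNReal.ofReal (h ‖y‖)).toReal := by
    rw [integral_eq_lintegral_of_nonneg_ae _ hLd.i1.aestronglyMeasurable]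
    · congr 1
      rw [← e2]
      apply lintegral_congr_ae
      filter_upwards [hf] with y hy
      rw [hy]
    · filter_upwards [hf] with y hy
      rw [hy]
      exact h0 _
  rw [e1, ENNReal.toReal_mul, e3, ENNReal.toReal_inv, toReal_enorm, div_eq_mul_inv]

/-- Newton: the potential of a nonnegative radial charge is maximal at the centre -/
theorem G_center {h : ℝ → ℝ} (hh : Measurable h) (h0 : ∀ r, 0 ≤ h r)
    (c : E3) {f : E3 → ℝ} (hf : f =ᵐ[volume] fun y => h ‖y - c‖)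
    (hLd : Ld f) (x : E3) : G f x ≤ G f c := by
  rw [G_eq hh h0 c hf hLd x, G_eq hh h0 c hf hLd c]
  apply ENNReal.toReal_mono
  · rw [← radial_lint hh c hf c]
    exact ((lintegral_mono (fun y => Real.ofReal_le_enorm _)).trans_lt
      (hLd.int_div c).hasFiniteIntegral).ne
  · apply lintegral_mono
    intro y
    apply mul_le_mul_right
    apply ENNReal.inv_le_inv.mpr
    rw [sub_self, enorm_zero]
    exact max_le_max zero_le le_rfl

end Pool.Agent.H23.TF
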