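import Pool.Agent.H23.TF.N2_Newton
import Pool.Agent.H23.TF.A3_G

/-! Module N3b: Newton's theorem for the density of the Sommerfeld type supersolution.
Translate to `c = 0`; `G h(x) = ∫ h(y)/max(‖x‖,‖y‖) dy` (`newton`), `lintegral_radial`:
`= (1/r) ∫_0^r 12 A⁵ s (1+As)^(-5) ds + ∫_r^∞ 12 A⁵ (1+As)^(-5) ds` (`4π (3/π) = 12`), `r = ‖x‖`;
`∫_0^r 12 s A² (1+As)^(-5) ds = 1 - 4(1+Ar)^(-3) + 3(1+Ar)^(-4)`, `∫_r^∞ 12 A (1+As)^(-5) ds = 3 (1+Ar)^(-4)`. -/

open MeasureTheory Set Filter Topology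
open scoped ENNReal NNReal

namespace Pool.Agent.H23.TF

/-- fundamental theorem of calculus, `[0,∞]`-valued, half line -/
theorem N3b_Ioi {g g' : ℝ → ℝ} {a l : ℝ} (hder : ∀ x ∈ Ici a, HasDerivAt g (g' x) x)
    (hpos : ∀ x ∈ Ioi a, 0 ≤ g' x) (hg : Tendsto g atTop (𝓝 l)) :
    ∫⁻ x in Ioi a, ENNReal.ofReal (g' x) = ENNReal.ofReal (l - g a) := by
  rw [← integral_Ioi_of_hasDerivAt_of_nonneg' hder hpos hg,
    ofReal_integral_eq_lintegral_ofReal (integrableOn_Ioi_deriv_of_nonneg' hder hpos hg)]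
  filter_upwards [ae_restrict_mem measurableSet_Ioi] with x hx using hpos x hx

/-- fundamental theorem of calculus, `[0,∞]`-valued, bounded interval -/
theorem N3b_Ioc {g g' : ℝ → ℝ} {a b : ℝ} (hab : a ≤ b)
    (hder : ∀ x ∈ Icc a b, HasDerivAt g (g' x) x)
    (hc : ContinuousOn g' (Icc a b)) (hpos : ∀ x ∈ Ioc a b, 0 ≤ g' x) :
    ∫⁻ x in Ioc a b, ENNReal.ofReal (g' x) = ENNReal.ofReal (g b - g a) := by
  have hint : IntervalIntegrable g' volume a b := by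
    apply ContinuousOn.intervalIntegrable
    rw [uIcc_of_le hab]
    exact hc
  have hval : ∫ x in a..b, g' x = g b - g a :=
    intervalIntegral.integral_eq_sub_of_hasDerivAt (by rw [uIcc_of_le hab]; exact hder) hint
  rw [← hval, intervalIntegral.integral_of_le hab, ofReal_integral_eq_lintegral_ofReal hint.1]
  filter_upwards [ae_restrict_mem measurableSet_Ioc] with x hx using hpos x hx

theorem N3b_pos {A s : ℝ} (hA : 0 < A) (hs : 0 ≤ s) : 0 < 1 + A * s := by positivity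

theorem N3b_der {A s : ℝ} (n : ℕ) (h : 1 + A * s ≠ 0) :
    HasDerivAt (fun s : ℝ => ((1 + A * s) ^ (n + 1))⁻¹)
      (-((n + 1 : ℝ) * A * ((1 + A * s) ^ (n + 2))⁻¹)) s := by
  have h1 : HasDerivAt (fun s : ℝ => 1 + A * s) A s := by
    have := ((hasDerivAt_id s).const_mul A).const_add 1
    simpa using this
  have h2 := (h1.pow (n + 1)).inv (pow_ne_zero (n + 1) h)
  refine HasDerivAt.congr_deriv h2 ?_
  simp only [Nat.add_sub_cancel, Pi.pow_apply]
  push_cast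
  field_simp
  ring

theorem N3b_lim {A : ℝ} (hA : 0 < A) (n : ℕ) :
    Tendsto (fun s : ℝ => ((1 + A * s) ^ (n + 1))⁻¹) atTop (𝓝 0) := by
  have h1 : Tendsto (fun s : ℝ => 1 + A * s) atTop atTop :=
    tendsto_atTop_add_const_left _ _ (tendsto_id.const_mul_atTop hA)
  have h2 := (tendsto_pow_atTop (α := ℝ) (Nat.succ_ne_zero n)).comp h1
  exact tendsto_inv_atTop_zero.comp h2

/-- inner primitive -/
theorem N3b_in {A s : ℝ} (hA : 0 < A) (hs : 0 ≤ s) :
    HasDerivAt (fun s : ℝ => A ^ 3 * (3 * ((1 + A * s) ^ 4)⁻¹ - 4 * ((1 + A * s) ^ 3)⁻¹))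
      (12 * A ^ 5 * s * ((1 + A * s) ^ 5)⁻¹) s := by
  have hp := (N3b_pos hA hs).ne'
  have h := (((N3b_der 3 hp).const_mul 3).sub ((N3b_der 2 hp).const_mul 4)).const_mul (A ^ 3)
  refine HasDerivAt.congr_deriv h ?_
  norm_num
  field_simp
  ring

/-- outer primitive -/
theorem N3b_out {A s : ℝ} (hA : 0 < A) (hs : 0 ≤ s) :
    HasDerivAt (fun s : ℝ => -(3 * A ^ 4) * ((1 + A * s) ^ 4)⁻¹)
      (12 * A ^ 5 * ((1 + A * s) ^ 5)⁻¹) s := by
  have hp := (N3b_pos hA hs).ne'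
  have h := (N3b_der 3 hp).const_mul (-(3 * A ^ 4))
  refine HasDerivAt.congr_deriv h ?_
  norm_num
  field_simp
  ring

theorem N3b_int2 {A : ℝ} (hA : 0 < A) : IntegrableOn (fun s : ℝ => ((1 + A * s) ^ 2)⁻¹) (Ioi 0) := by
  have h : ∀ x ∈ Ici (0 : ℝ), HasDerivAt (fun s : ℝ => -A⁻¹ * ((1 + A * s) ^ 1)⁻¹)
      (((1 + A * x) ^ 2)⁻¹) x := by
    intro x hx
    have hp := (N3b_pos hA hx).ne'
    have h := (N3b_der 0 hp).const_mul (-A⁻¹)
    refine HasDerivAt.congr_deriv h ?_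
    norm_num
    field_simp
  exact integrableOn_Ioi_deriv_of_nonneg' h (fun x _ => by positivity)
    ((N3b_lim hA 0).const_mul (-A⁻¹))

/-- the profile -/
noncomputable def hS (A s : ℝ) : ℝ := 3 / Real.pi * A ^ 5 / (s * (1 + A * s) ^ 5)

theorem hS_nonneg {A s : ℝ} (hA : 0 < A) (hs : 0 ≤ s) : 0 ≤ hS A s := by
  unfold hS
  have := Real.pi_pos
  positivity

theorem hS_meas (A : ℝ) : Measurable (hS A) := by
  unfold hS
  fun_prop

theorem N3b_Ld0 {A : ℝ} (hA : 0 < A) : Ld (fun y : E3 => hS A ‖y‖) := by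
  have hdim : Module.finrank ℝ E3 = 3 := by simp
  apply Ld.of_nonneg (fun y => hS_nonneg hA (norm_nonneg y))
  · rw [integrable_fun_norm_addHaar (volume : Measure E3) (f := hS A), hdim]
    refine ((N3b_int2 hA).const_mul (3 / Real.pi * A ^ 4)).mono' ?_ ?_
    · apply Measurable.aestronglyMeasurable
      exact (measurable_id.pow_const 2).smul (hS_meas A)
    · filter_upwards [ae_restrict_mem measurableSet_Ioi] with s hs
      have hs0 : 0 < s := hs
      have hp := N3b_pos hA hs0.le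
      have hpi := Real.pi_pos
      rw [Real.norm_eq_abs, smul_eq_mul, abs_of_nonneg (mul_nonneg (by positivity) (hS_nonneg hA hs0.le))]
      unfold hS
      have ht : A * s ≤ (1 + A * s) ^ 3 := by
        have h1 : 1 ≤ 1 + A * s := by
          have : 0 ≤ A * s := by positivity
          linarith
        have h2 : (1 + A * s) ^ 1 ≤ (1 + A * s) ^ 3 := pow_le_pow_right₀ h1 (by norm_num)
        linarith
      have e1 : s ^ (3 - 1) * (3 / Real.pi * A ^ 5 / (s * (1 + A * s) ^ 5))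
          = 3 / Real.pi * A ^ 4 * (((1 + A * s) ^ 2)⁻¹ * (A * s / (1 + A * s) ^ 3)) := by
        field_simp
      rw [e1]
      apply mul_le_mul_of_nonneg_left _ (by positivity)
      apply mul_le_of_le_one_right (by positivity)
      rw [div_le_one (by positivity)]
      exact ht
  · rw [integrable_fun_norm_addHaar (volume : Measure E3) (f := fun s => hS A s ^ (5 / 3 : ℝ)), hdim]
    refine ((N3b_int2 hA).const_mul ((3 / Real.pi * A ^ 5) ^ (5 / 3 : ℝ) * (A⁻¹) ^ (1 / 3 : ℝ))).mono' ?_ ?_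
    · apply Measurable.aestronglyMeasurable
      exact (measurable_id.pow_const 2).smul ((hS_meas A).pow_const _)
    · filter_upwards [ae_restrict_mem measurableSet_Ioi] with s hs
      have hs0 : 0 < s := hs
      have hp := N3b_pos hA hs0.le
      have hpi := Real.pi_pos
      rw [Real.norm_eq_abs, smul_eq_mul, abs_of_nonneg (mul_nonneg (by positivity)
        (Real.rpow_nonneg (hS_nonneg hA hs0.le) _))]
      unfold hS
      have h1 : 1 ≤ 1 + A * s := by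
        have : 0 ≤ A * s := by positivity
        linarith
      have e1 : s ^ (3 - 1) = s ^ (5 / 3 : ℝ) * s ^ (1 / 3 : ℝ) := by
        rw [← Real.rpow_add hs0, ← Real.rpow_natCast]
        norm_num
      have e2 : ((1 + A * s) ^ 5) ^ (5 / 3 : ℝ) = (1 + A * s) ^ (1 / 3 : ℝ) * (1 + A * s) ^ 8 := by
        rw [← Real.rpow_natCast (1 + A * s) 5, ← Real.rpow_mul hp.le,
          ← Real.rpow_natCast (1 + A * s) 8, ← Real.rpow_add hp]
        norm_num
      have h2 : s ^ (1 / 3 : ℝ) ≤ A⁻¹ ^ (1 / 3 : ℝ) * (1 + A * s) ^ (1 / 3 : ℝ) := by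
        rw [← Real.mul_rpow (by positivity) hp.le]
        apply Real.rpow_le_rpow hs0.le _ (by norm_num)
        rw [inv_mul_eq_div, le_div_iff₀ hA]
        linarith
      rw [e1, Real.div_rpow (by positivity) (by positivity), Real.mul_rpow hs0.le (by positivity), e2]
      set C := (3 / Real.pi * A ^ 5) ^ (5 / 3 : ℝ) with hC
      have hC0 : 0 ≤ C := by positivity
      set a := s ^ (5 / 3 : ℝ) with ha
      have ha0 : 0 < a := by positivity
      set b := s ^ (1 / 3 : ℝ) with hb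
      have hb0 : 0 < b := by positivity
      set t := (1 + A * s) ^ (1 / 3 : ℝ) with ht
      have ht0 : 0 < t := by positivity
      set w := A⁻¹ ^ (1 / 3 : ℝ) with hw
      have hw0 : 0 < w := by positivity
      have e3 : a * b * (C / (a * (t * (1 + A * s) ^ 8))) =
          C * (((1 + A * s) ^ 2)⁻¹ * (b / t * ((1 + A * s) ^ 6)⁻¹)) := by
        field_simp
      rw [e3, mul_assoc C w]
      apply mul_le_mul_of_nonneg_left _ hC0
      rw [mul_comm w]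
      apply mul_le_mul_of_nonneg_left _ (by positivity)
      have h3 : b / t ≤ w := by
        rw [div_le_iff₀ ht0]
        exact h2
      have h4 : ((1 + A * s) ^ 6)⁻¹ ≤ 1 := inv_le_one_of_one_le₀ (one_le_pow₀ h1)
      calc b / t * ((1 + A * s) ^ 6)⁻¹ ≤ b / t * 1 := mul_le_mul_of_nonneg_left h4 (by positivity)
        _ ≤ w := by linarith

theorem N3b_Ld {A : ℝ} (hA : 0 < A) (c : E3) : Ld (fun y : E3 => hS A ‖y - c‖) :=
  ⟨(N3b_Ld0 hA).i1.comp_sub_right c, (N3b_Ld0 hA).i2.comp_sub_right c⟩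

theorem N3b_lint {A : ℝ} (hA : 0 < A) {x : E3} (hx : x ≠ 0) :
    ∫⁻ y : E3, ENNReal.ofReal (hS A ‖y‖) * ‖x - y‖ₑ⁻¹ =
      ENNReal.ofReal (A ^ 3 / ‖x‖ - A ^ 3 / (‖x‖ * (1 + A * ‖x‖) ^ 3)) := by
  have hr : 0 < ‖x‖ := norm_pos_iff.mpr hx
  have hpi := Real.pi_pos
  have mh : Measurable (fun r : ℝ => ENNReal.ofReal (hS A r)) :=
    ENNReal.measurable_ofReal.comp (hS_meas A)
  have m2 : Measurable (fun s : ℝ => ENNReal.ofReal (hS A s) * (max ‖x‖ₑ (ENNReal.ofReal s))⁻¹) :=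
    mh.mul (Measurable.inv (measurable_const.max ENNReal.measurable_ofReal))
  have h2 : ∫⁻ y : E3, ENNReal.ofReal (hS A ‖y‖) * (max ‖x‖ₑ ‖y‖ₑ)⁻¹
      = ∫⁻ y : E3, (fun s : ℝ => ENNReal.ofReal (hS A s) * (max ‖x‖ₑ (ENNReal.ofReal s))⁻¹) ‖y‖ := by
    apply lintegral_congr
    intro y
    simp only
    rw [ofReal_norm]
  rw [newton (fun r => ENNReal.ofReal (hS A r)) mh, h2, lintegral_radial _ m2]
  have h3 : ∫⁻ s in Ioi (0 : ℝ), ENNReal.ofReal (4 * Real.pi * s ^ 2) *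
      (ENNReal.ofReal (hS A s) * (max ‖x‖ₑ (ENNReal.ofReal s))⁻¹)
      = ∫⁻ s in Ioi (0 : ℝ), ENNReal.ofReal (12 * A ^ 5 * s * ((1 + A * s) ^ 5)⁻¹ / max ‖x‖ s) := by
    apply setLIntegral_congr_fun measurableSet_Ioi
    intro s hs
    have hs0 : 0 < s := hs
    have hm : 0 < max ‖x‖ s := lt_max_of_lt_right hs0
    have hp := N3b_pos hA hs0.le
    simp only
    rw [← ofReal_norm x, ← ENNReal.ofReal_max, ← ENNReal.ofReal_inv_of_pos hm,
      ← ENNReal.ofReal_mul (hS_nonneg hA hs0.le), ← ENNReal.ofReal_mul (by positivity)]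
    congr 1
    unfold hS
    field_simp
    ring
  rw [h3, ← Ioc_union_Ioi_eq_Ioi hr.le, lintegral_union measurableSet_Ioi
    (Set.disjoint_left.mpr (fun s hs hs' => absurd hs.2 (not_le.mpr hs')))]
  have h4 : ∫⁻ s in Ioc 0 ‖x‖, ENNReal.ofReal (12 * A ^ 5 * s * ((1 + A * s) ^ 5)⁻¹ / max ‖x‖ s)
      = ENNReal.ofReal (1 / ‖x‖ * (A ^ 3 * (1 - 4 * ((1 + A * ‖x‖) ^ 3)⁻¹ + 3 * ((1 + A * ‖x‖) ^ 4)⁻¹))) := by
    have e : ∫⁻ s in Ioc 0 ‖x‖, ENNReal.ofReal (12 * A ^ 5 * s * ((1 + A * s) ^ 5)⁻¹ / max ‖x‖ s)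
        = ∫⁻ s in Ioc 0 ‖x‖, ENNReal.ofReal (1 / ‖x‖ * (12 * A ^ 5 * s * ((1 + A * s) ^ 5)⁻¹)) := by
      apply setLIntegral_congr_fun measurableSet_Ioc
      intro s hs
      simp only
      rw [max_eq_left hs.2]
      congr 1
      ring
    rw [e, N3b_Ioc (g := fun s => 1 / ‖x‖ * (A ^ 3 * (3 * ((1 + A * s) ^ 4)⁻¹ - 4 * ((1 + A * s) ^ 3)⁻¹)))
      hr.le (fun s hs => (N3b_in hA hs.1).const_mul _)]
    · congr 1
      simp
      ring
    · apply ContinuousOn.mul continuousOn_const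
      apply ContinuousOn.mul (by fun_prop)
      apply ContinuousOn.inv₀ (by fun_prop)
      intro s hs
      exact pow_ne_zero _ (N3b_pos hA hs.1).ne'
    · intro s hs
      have h5 := hs.1
      have := N3b_pos hA h5.le
      positivity
  have h5 : ∫⁻ s in Ioi ‖x‖, ENNReal.ofReal (12 * A ^ 5 * s * ((1 + A * s) ^ 5)⁻¹ / max ‖x‖ s)
      = ENNReal.ofReal (3 * A ^ 4 * ((1 + A * ‖x‖) ^ 4)⁻¹) := by
    have e : ∫⁻ s in Ioi ‖x‖, ENNReal.ofReal (12 * A ^ 5 * s * ((1 + A * s) ^ 5)⁻¹ / max ‖x‖ s)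
        = ∫⁻ s in Ioi ‖x‖, ENNReal.ofReal (12 * A ^ 5 * ((1 + A * s) ^ 5)⁻¹) := by
      apply setLIntegral_congr_fun measurableSet_Ioi
      intro s hs
      have hs' : ‖x‖ < s := hs
      have hs0 : 0 < s := hr.trans hs'
      simp only
      rw [max_eq_right hs'.le]
      congr 1
      field_simp
    rw [e, N3b_Ioi (g := fun s => -(3 * A ^ 4) * ((1 + A * s) ^ 4)⁻¹) (l := 0)
      (fun s hs => N3b_out hA (hr.le.trans hs))]
    · congr 1
      ring
    · intro s hs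
      have hs' : ‖x‖ < s := hs
      have := N3b_pos hA (hr.trans hs').le
      positivity
    · have := (N3b_lim hA 3).const_mul (-(3 * A ^ 4))
      simpa using this
  have hp := N3b_pos hA hr.le
  have h6 : 0 ≤ 1 - 4 * ((1 + A * ‖x‖) ^ 3)⁻¹ + 3 * ((1 + A * ‖x‖) ^ 4)⁻¹ := by
    have : 1 - 4 * ((1 + A * ‖x‖) ^ 3)⁻¹ + 3 * ((1 + A * ‖x‖) ^ 4)⁻¹
      = ((A * ‖x‖) ^ 2 * ((A * ‖x‖) ^ 2 + 4 * (A * ‖x‖) + 6)) * ((1 + A * ‖x‖) ^ 4)⁻¹ := by
      field_simp
      ring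
    rw [this]
    positivity
  rw [h4, h5, ← ENNReal.ofReal_add (by positivity) (by positivity)]
  congr 1
  field_simp
  ring

/-- Newton's theorem for the explicit density used in the Sommerfeld type supersolution:
`h(r) = (3/π) A⁵ / (r (1+Ar)⁵)` has potential `A³/|x| - A³/(|x| (1+A|x|)³)` -/
theorem G_somm {A : ℝ} (hA : 0 < A) (c : E3) :
    Ld (fun y : E3 => 3 / Real.pi * A ^ 5 / (‖y - c‖ * (1 + A * ‖y - c‖) ^ 5)) ∧
    ∀ x : E3, x ≠ c → G (fun y : E3 => 3 / Real.pi * A ^ 5 / (‖y - c‖ * (1 + A * ‖y - c‖) ^ 5)) x =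
      A ^ 3 / ‖x - c‖ - A ^ 3 / (‖x - c‖ * (1 + A * ‖x - c‖) ^ 3) := by
  refine ⟨N3b_Ld hA c, fun x hx => ?_⟩
  have hxc : x - c ≠ 0 := sub_ne_zero.mpr hx
  have hr : 0 < ‖x - c‖ := norm_pos_iff.mpr hxc
  have hld := N3b_Ld hA c
  change ∫ y : E3, hS A ‖y - c‖ / ‖x - y‖ = _
  rw [integral_eq_lintegral_of_nonneg_ae
    (Eventually.of_forall fun y => div_nonneg (hS_nonneg hA (norm_nonneg (y - c))) (norm_nonneg _))
    (hld.int_div x).1]
  have h1 : ∫⁻ y : E3, ENNReal.ofReal (hS A ‖y - c‖ / ‖x - y‖)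
      = ∫⁻ y : E3, ENNReal.ofReal (hS A ‖y - c‖) * ‖(x - c) - (y - c)‖ₑ⁻¹ := by
    have hne : ∀ᵐ y : E3, y ≠ x := by
      rw [ae_iff]
      simp
    apply lintegral_congr_ae
    filter_upwards [hne] with y hy
    have hxy : 0 < ‖x - y‖ := norm_pos_iff.mpr (sub_ne_zero.mpr hy.symm)
    rw [sub_sub_sub_cancel_right, ← ofReal_norm (x - y), ← ENNReal.ofReal_inv_of_pos hxy,
      ← ENNReal.ofReal_mul (hS_nonneg hA (norm_nonneg _)), div_eq_mul_inv _ ‖x - y‖]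
  rw [h1, lintegral_sub_right_eq_self (fun y : E3 => ENNReal.ofReal (hS A ‖y‖) * ‖(x - c) - y‖ₑ⁻¹) c,
    N3b_lint hA hxc, ENNReal.toReal_ofReal]
  have hp := N3b_pos hA hr.le
  have : A ^ 3 / (‖x - c‖ * (1 + A * ‖x - c‖) ^ 3) ≤ A ^ 3 / ‖x - c‖ := by
    apply div_le_div_of_nonneg_left (by positivity) hr
    have h7 : 1 ≤ (1 + A * ‖x - c‖) ^ 3 := one_le_pow₀ (by nlinarith)
    nlinarith
  linarith

end Pool.Agent.H23.TF
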