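import Pool.Agent.H23.TF.N2_Newton

/-! Module N4: the Yukawa kernel.

`∫ exp(-κ|x|)/|x| dx = 4π ∫_0^∞ r e^{-κr} dr = 4π/κ²`.
`(j * 1/|.|)(x) = (κ²/4π) ∫ Y(y)/max(|x|,|y|) dy` (Newton) `= κ² [ (1/r) ∫_0^r s e^{-κs} ds + ∫_r^∞ e^{-κs} ds ] = (1-e^{-κr})/r`,
`r = ‖x‖` (`x = 0`: the value is `κ`). -/

open MeasureTheory Set Filter Topology
open scoped ENNReal NNReal

namespace Pool.Agent.H23.TF

/-- fundamental theorem of calculus, `[0,∞]`-valued, half line -/
theorem N4_Ioi {g g' : ℝ → ℝ} {a l : ℝ} (hder : ∀ x ∈ Ici a, HasDerivAt g (g' x) x)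
    (hpos : ∀ x ∈ Ioi a, 0 ≤ g' x) (hg : Tendsto g atTop (𝓝 l)) :
    ∫⁻ x in Ioi a, ENNReal.ofReal (g' x) = ENNReal.ofReal (l - g a) := by
  rw [← integral_Ioi_of_hasDerivAt_of_nonneg' hder hpos hg,
    ofReal_integral_eq_lintegral_ofReal (integrableOn_Ioi_deriv_of_nonneg' hder hpos hg)]
  filter_upwards [ae_restrict_mem measurableSet_Ioi] with x hx using hpos x hx

/-- fundamental theorem of calculus, `[0,∞]`-valued, bounded interval -/
theorem N4_Ioc {g g' : ℝ → ℝ} {a b : ℝ} (hab : a ≤ b) (hder : ∀ x ∈ Icc a b, HasDerivAt g (g' x) x)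
    (hc : ContinuousOn g' (Icc a b)) (hpos : ∀ x ∈ Ioc a b, 0 ≤ g' x) :
    ∫⁻ x in Ioc a b, ENNReal.ofReal (g' x) = ENNReal.ofReal (g b - g a) := by
  have hint : IntervalIntegrable g' volume a b := by
    apply ContinuousOn.intervalIntegrable
    rw [uIcc_of_le hab]
    exact hc
  have hval : ∫ x in a..b, g' x = g b - g a :=
    intervalIntegral.integral_eq_sub_of_hasDerivAt (by rw [uIcc_of_le hab]; exact hder) hint
  rw [← hval, intervalIntegral.integral_of_le hab, ofReal_integral_eq_lintegral_ofReal hint.1]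
  filter_upwards [ae_restrict_mem measurableSet_Ioc] with x hx using hpos x hx

/-- `d/ds (-(1+κs) e^{-κs}) = κ² s e^{-κs}` -/
theorem N4_der1 (κ s : ℝ) :
    HasDerivAt (fun s : ℝ => -((1 + κ * s) * Real.exp (-(κ * s)))) (κ ^ 2 * s * Real.exp (-(κ * s))) s := by
  have h1 : HasDerivAt (fun s : ℝ => 1 + κ * s) κ s := by
    have := ((hasDerivAt_id s).const_mul κ).const_add 1
    simpa using this
  have h2 : HasDerivAt (fun s : ℝ => Real.exp (-(κ * s))) (Real.exp (-(κ * s)) * -κ) s := by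
    have h3 : HasDerivAt (fun s : ℝ => -(κ * s)) (-κ) s := by
      refine HasDerivAt.congr_deriv ((hasDerivAt_id s).const_mul κ).neg ?_
      simp
    exact h3.exp
  have h3 := (h1.mul h2).neg
  refine HasDerivAt.congr_deriv h3 ?_
  ring

theorem N4_der2 (κ s : ℝ) :
    HasDerivAt (fun s : ℝ => -Real.exp (-(κ * s))) (κ * Real.exp (-(κ * s))) s := by
  have h3 : HasDerivAt (fun s : ℝ => -(κ * s)) (-κ) s := by
    refine HasDerivAt.congr_deriv ((hasDerivAt_id s).const_mul κ).neg ?_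
    simp
  have h2 := h3.exp.neg
  refine HasDerivAt.congr_deriv h2 ?_
  ring

theorem N4_lim0 {κ : ℝ} (hκ : 0 < κ) : Tendsto (fun s : ℝ => Real.exp (-(κ * s))) atTop (𝓝 0) := by
  have h1 : Tendsto (fun s : ℝ => κ * s) atTop atTop := tendsto_id.const_mul_atTop hκ
  exact Real.tendsto_exp_neg_atTop_nhds_zero.comp h1

theorem N4_lim1 {κ : ℝ} (hκ : 0 < κ) :
    Tendsto (fun s : ℝ => -((1 + κ * s) * Real.exp (-(κ * s)))) atTop (𝓝 0) := by
  have h1 : Tendsto (fun s : ℝ => κ * s) atTop atTop := tendsto_id.const_mul_atTop hκ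
  have h2 := (Real.tendsto_pow_mul_exp_neg_atTop_nhds_zero 1).comp h1
  have h3 := ((N4_lim0 hκ).add h2).neg
  simp only [add_zero, neg_zero] at h3
  refine h3.congr (fun s => ?_)
  simp only [Function.comp, pow_one]
  ring

theorem lintegral_Yk {κ : ℝ} (hκ : 0 < κ) : ∫⁻ x, Yk κ x = ci κ := by
  have m : Measurable (fun r : ℝ => ENNReal.ofReal (Real.exp (-(κ * r))) * (ENNReal.ofReal r)⁻¹) := by
    apply Measurable.mul
    · apply ENNReal.measurable_ofReal.comp
      fun_prop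
    · exact ENNReal.measurable_ofReal.inv
  have h1 : ∫⁻ x : E3, Yk κ x = ∫⁻ x : E3, (fun r : ℝ =>
      ENNReal.ofReal (Real.exp (-(κ * r))) * (ENNReal.ofReal r)⁻¹) ‖x‖ := by
    apply lintegral_congr
    intro x
    unfold Yk
    rw [← ofReal_norm]
  rw [h1, lintegral_radial _ m]
  have h2 : ∫⁻ r in Ioi (0 : ℝ), ENNReal.ofReal (4 * Real.pi * r ^ 2) *
      (ENNReal.ofReal (Real.exp (-(κ * r))) * (ENNReal.ofReal r)⁻¹)
      = ∫⁻ r in Ioi (0 : ℝ), ENNReal.ofReal (4 * Real.pi / κ ^ 2) *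
        ENNReal.ofReal (κ ^ 2 * r * Real.exp (-(κ * r))) := by
    apply setLIntegral_congr_fun measurableSet_Ioi
    intro r hr
    have hr0 : 0 < r := hr
    simp only
    rw [← ENNReal.ofReal_inv_of_pos hr0, ← ENNReal.ofReal_mul (by positivity),
      ← ENNReal.ofReal_mul (by positivity), ← ENNReal.ofReal_mul (by positivity)]
    congr 1
    field_simp
  rw [h2, lintegral_const_mul, N4_Ioi (g := fun s => -((1 + κ * s) * Real.exp (-(κ * s))))
    (l := 0) (fun x _ => N4_der1 κ x) _ (N4_lim1 hκ)]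
  · unfold ci
    simp
  · intro x hx
    have hx0 : 0 < x := hx
    positivity
  · apply ENNReal.measurable_ofReal.comp
    fun_prop

theorem lintegral_jk {κ : ℝ} (hκ : 0 < κ) : ∫⁻ x, jk κ x = 1 := by
  unfold jk
  rw [lintegral_const_mul', lintegral_Yk hκ]
  · unfold ci
    rw [← ENNReal.ofReal_mul (by positivity)]
    have : κ ^ 2 / (4 * Real.pi) * (4 * Real.pi / κ ^ 2) = 1 := by
      have := Real.pi_pos
      field_simp
    rw [this, ENNReal.ofReal_one]
  · exact ENNReal.ofReal_ne_top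

/-- the general radial form, `r > 0` or `r = 0` -/
theorem N4_J (κ : ℝ) (hκ : 0 < κ) (x : E3) :
    J κ gg x = ∫⁻ s in Ioi (0 : ℝ), ENNReal.ofReal (κ ^ 2 * s * Real.exp (-(κ * s)) / max ‖x‖ s) := by
  set h : ℝ → ℝ≥0∞ := fun r => ENNReal.ofReal (κ ^ 2 / (4 * Real.pi)) *
    (ENNReal.ofReal (Real.exp (-(κ * r))) * (ENNReal.ofReal r)⁻¹) with hh
  have mh : Measurable h := by
    apply Measurable.const_mul
    apply Measurable.mul
    · apply ENNReal.measurable_ofReal.comp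
      fun_prop
    · exact ENNReal.measurable_ofReal.inv
  have h1 : J κ gg x = ∫⁻ y : E3, h ‖y‖ * ‖x - y‖ₑ⁻¹ := by
    unfold J
    rw [← lintegral_sub_left_eq_self (fun y => h ‖y‖ * ‖x - y‖ₑ⁻¹) x]
    apply lintegral_congr
    intro y
    rw [hh]
    unfold jk Yk gg
    simp only
    rw [sub_sub_cancel, ← ofReal_norm (x - y)]
  have m2 : Measurable (fun s : ℝ => h s * (max ‖x‖ₑ (ENNReal.ofReal s))⁻¹) :=
    mh.mul (Measurable.inv (measurable_const.max ENNReal.measurable_ofReal))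
  have h2 : ∫⁻ y : E3, h ‖y‖ * (max ‖x‖ₑ ‖y‖ₑ)⁻¹
      = ∫⁻ y : E3, (fun s : ℝ => h s * (max ‖x‖ₑ (ENNReal.ofReal s))⁻¹) ‖y‖ := by
    apply lintegral_congr
    intro y
    simp only
    rw [ofReal_norm]
  rw [h1, newton h mh, h2, lintegral_radial _ m2]
  apply setLIntegral_congr_fun measurableSet_Ioi
  intro s hs
  have hs0 : 0 < s := hs
  simp only [hh]
  rw [← ofReal_norm x, ← ENNReal.ofReal_max, ← ENNReal.ofReal_inv_of_pos (lt_max_of_lt_right hs0),
    ← ENNReal.ofReal_inv_of_pos hs0, ← ENNReal.ofReal_mul (by positivity),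
    ← ENNReal.ofReal_mul (by positivity), ← ENNReal.ofReal_mul (by positivity),
    ← ENNReal.ofReal_mul (by positivity)]
  congr 1
  have := Real.pi_pos
  have hm : 0 < max ‖x‖ s := lt_max_of_lt_right hs0
  field_simp

theorem J_gg_apply {κ : ℝ} (hκ : 0 < κ) {x : E3} (hx : x ≠ 0) :
    J κ gg x = ENNReal.ofReal ((1 - Real.exp (-(κ * ‖x‖))) / ‖x‖) := by
  have hr : 0 < ‖x‖ := norm_pos_iff.mpr hx
  rw [N4_J κ hκ x, ← Ioc_union_Ioi_eq_Ioi hr.le, lintegral_union measurableSet_Ioi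
    (Set.disjoint_left.mpr (fun s hs hs' => absurd hs.2 (not_le.mpr hs')))]
  have h1 : ∫⁻ s in Ioc 0 ‖x‖, ENNReal.ofReal (κ ^ 2 * s * Real.exp (-(κ * s)) / max ‖x‖ s)
      = ENNReal.ofReal (1 / ‖x‖ * (1 - (1 + κ * ‖x‖) * Real.exp (-(κ * ‖x‖)))) := by
    have e : ∫⁻ s in Ioc 0 ‖x‖, ENNReal.ofReal (κ ^ 2 * s * Real.exp (-(κ * s)) / max ‖x‖ s)
        = ∫⁻ s in Ioc 0 ‖x‖, ENNReal.ofReal (1 / ‖x‖ * (κ ^ 2 * s * Real.exp (-(κ * s)))) := by
      apply setLIntegral_congr_fun measurableSet_Ioc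
      intro s hs
      simp only
      rw [max_eq_left hs.2]
      congr 1
      ring
    rw [e, N4_Ioc (g := fun s => 1 / ‖x‖ * -((1 + κ * s) * Real.exp (-(κ * s)))) hr.le
      (fun s _ => (N4_der1 κ s).const_mul _)]
    · congr 1
      simp
      ring
    · fun_prop
    · intro s hs
      have := hs.1
      positivity
  have h2 : ∫⁻ s in Ioi ‖x‖, ENNReal.ofReal (κ ^ 2 * s * Real.exp (-(κ * s)) / max ‖x‖ s)
      = ENNReal.ofReal (κ * Real.exp (-(κ * ‖x‖))) := by
    have e : ∫⁻ s in Ioi ‖x‖, ENNReal.ofReal (κ ^ 2 * s * Real.exp (-(κ * s)) / max ‖x‖ s)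
        = ∫⁻ s in Ioi ‖x‖, ENNReal.ofReal (κ * (κ * Real.exp (-(κ * s)))) := by
      apply setLIntegral_congr_fun measurableSet_Ioi
      intro s hs
      have hs' : ‖x‖ < s := hs
      have hs0 : 0 < s := hr.trans hs'
      simp only
      rw [max_eq_right hs'.le]
      congr 1
      field_simp
    rw [e, N4_Ioi (g := fun s => κ * -Real.exp (-(κ * s))) (l := 0)
      (fun s _ => (N4_der2 κ s).const_mul _)]
    · congr 1
      ring
    · intro s _
      positivity
    · have := (N4_lim0 hκ).neg.const_mul κ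
      simpa using this
  rw [h1, h2, ← ENNReal.ofReal_add]
  · congr 1
    field_simp
    ring
  · have : (1 + κ * ‖x‖) * Real.exp (-(κ * ‖x‖)) ≤ 1 := by
      have h3 := Real.add_one_le_exp (κ * ‖x‖)
      rw [Real.exp_neg]
      rw [mul_inv_le_iff₀ (Real.exp_pos _)]
      linarith
    have h4 : 0 ≤ 1 - (1 + κ * ‖x‖) * Real.exp (-(κ * ‖x‖)) := by linarith
    positivity
  · positivity

/-- `g = Y + J g`, everywhere (both sides are `∞` at `0`) -/
theorem gg_eq {κ : ℝ} (hκ : 0 < κ) (x : E3) : gg x = Yk κ x + J κ gg x := by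
  by_cases hx : x = 0
  · subst hx
    unfold gg Yk
    simp
  · have hr : 0 < ‖x‖ := norm_pos_iff.mpr hx
    rw [J_gg_apply hκ hx]
    unfold gg Yk
    rw [← ofReal_norm, ← ENNReal.ofReal_inv_of_pos hr, ← ENNReal.ofReal_mul (by positivity),
      ← ENNReal.ofReal_add (by positivity)]
    · congr 1
      field_simp
      ring
    · have h3 : Real.exp (-(κ * ‖x‖)) ≤ 1 := Real.exp_le_one_iff.mpr (by
        have : 0 ≤ κ * ‖x‖ := by positivity
        linarith)
      have h4 : 0 ≤ 1 - Real.exp (-(κ * ‖x‖)) := by linarith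
      positivity

theorem J_gg_le {κ : ℝ} (hκ : 0 < κ) (x : E3) : J κ gg x ≤ ENNReal.ofReal κ := by
  rw [N4_J κ hκ x]
  calc ∫⁻ s in Ioi (0 : ℝ), ENNReal.ofReal (κ ^ 2 * s * Real.exp (-(κ * s)) / max ‖x‖ s)
      ≤ ∫⁻ s in Ioi (0 : ℝ), ENNReal.ofReal (κ * (κ * Real.exp (-(κ * s)))) := by
        apply setLIntegral_mono' measurableSet_Ioi
        intro s hs
        have hs0 : 0 < s := hs
        apply ENNReal.ofReal_le_ofReal
        have hm : 0 < max ‖x‖ s := lt_max_of_lt_right hs0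
        rw [div_le_iff₀ hm]
        have h1 : s ≤ max ‖x‖ s := le_max_right _ _
        have h2 : 0 ≤ κ ^ 2 * Real.exp (-(κ * s)) := by positivity
        calc κ ^ 2 * s * Real.exp (-(κ * s)) = κ ^ 2 * Real.exp (-(κ * s)) * s := by ring
          _ ≤ κ ^ 2 * Real.exp (-(κ * s)) * max ‖x‖ s := mul_le_mul_of_nonneg_left h1 h2
          _ = κ * (κ * Real.exp (-(κ * s))) * max ‖x‖ s := by ring
    _ = ENNReal.ofReal κ := by
        rw [N4_Ioi (g := fun s => κ * -Real.exp (-(κ * s))) (l := 0)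
          (fun s _ => (N4_der2 κ s).const_mul _)]
        · simp
        · intro s _
          positivity
        · have := (N4_lim0 hκ).neg.const_mul κ
          simpa using this

end Pool.Agent.H23.TF
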