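import Pool.Agent.H23.TF.Y2_Lim

/-! Module S1: the monotone scheme for the truncated nonlinearity, in `[0,∞]`.

`FM_lip`: `F(s) ≤ F(t) + c (s - t)` for `c ≥ (3/2) M^(1/2)` (truncated subtraction), since `min(s,M)^(3/2) - min(t,M)^(3/2) ≤ (3/2) M^(1/2) (min(s,M)-min(t,M))`.
`SM_mono`: `S w ≤ S w'` if `w ≤ w'`: with `a = W x`, `F(a-w) ≤ F(a-w') + c ((a-w)-(a-w'))`, `(a-w)-(a-w') ≤ w'-w`, and `ci κ * c ≤ 1`.
`scheme`: `w_0 = b`, `w_{n+1} = J (S w_n)`, increasing, `w_{n+1} ≤ J (S W) = J W ≤ W` (`S W = W` pointwise: `W - W = 0` also when `W = ∞`), limit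
`w = ⨆ w_n`; `S w_n → S w` at all points with `W < ∞`; monotone convergence: `w = J (S w) = J w + ci κ * J (F(W-w))`. Iterate:
`w = J^n w + ci κ ∑_{m=1}^n J^m F(W-w)`, `J^n w ≤ J^n W → 0` a.e., so `w = GG (F(W-w))` a.e. by `GG_sum`. Leastness by induction. -/

open MeasureTheory Set Filter Topology
open scoped ENNReal NNReal

namespace Pool.Agent.H23.TF

theorem measurable_FM (M : ℝ≥0) : Measurable (FM M) := by
  unfold FM
  exact (measurable_id.min measurable_const).pow_const _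

theorem FM_mono (M : ℝ≥0) : Monotone (FM M) := by
  intro a b h
  unfold FM
  exact ENNReal.rpow_le_rpow (min_le_min_right _ h) (by norm_num)

theorem FM_zero (M : ℝ≥0) : FM M 0 = 0 := by
  unfold FM
  rw [min_eq_left zero_le]
  exact ENNReal.zero_rpow_of_pos (by norm_num)

theorem FM_le (M : ℝ≥0) (t : ℝ≥0∞) : FM M t ≤ t ^ (3 / 2 : ℝ) := by
  unfold FM
  exact ENNReal.rpow_le_rpow (min_le_left _ _) (by norm_num)

theorem s1_rpow_lip {a b m : ℝ} (hb : 0 ≤ b) (hab : b ≤ a) (ham : a ≤ m) :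
    a ^ (3 / 2 : ℝ) ≤ b ^ (3 / 2 : ℝ) + 3 / 2 * √m * (a - b) := by
  have ha : 0 ≤ a := hb.trans hab
  have h1 : ∀ c : ℝ, 0 ≤ c → c ^ (3 / 2 : ℝ) = √c ^ 3 := by
    intro c hc
    rw [Real.sqrt_eq_rpow, ← Real.rpow_natCast, ← Real.rpow_mul hc]
    norm_num
  rw [h1 a ha, h1 b hb]
  have hx := Real.sqrt_nonneg a
  have hy := Real.sqrt_nonneg b
  have hxy : √b ≤ √a := Real.sqrt_le_sqrt hab
  have hxm : √a ≤ √m := Real.sqrt_le_sqrt ham
  have hxa : √a ^ 2 = a := Real.sq_sqrt ha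
  have hyb : √b ^ 2 = b := Real.sq_sqrt hb
  have hdiff : a - b = (√a - √b) * (√a + √b) := by
    nlinarith
  rw [hdiff]
  set x := √a
  set y := √b
  set r := √m
  have hd : 0 ≤ x - y := by linarith
  have key : x ^ 2 + x * y + y ^ 2 ≤ 3 / 2 * r * (x + y) := by
    have h2 : 3 / 2 * x * (x + y) ≤ 3 / 2 * r * (x + y) := by
      apply mul_le_mul_of_nonneg_right _ (by linarith)
      linarith
    nlinarith [mul_nonneg hd hx, mul_nonneg hd hy]
  nlinarith [mul_le_mul_of_nonneg_left key hd]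

theorem FM_lip {κ : ℝ} (hκ : 0 < κ) {M : ℝ≥0} (hM : 3 / 2 * √(M : ℝ) ≤ κ ^ 2 / (4 * Real.pi)) (s t : ℝ≥0∞) :
    ci κ * FM M s ≤ ci κ * FM M t + (s - t) := by
  rcases le_total s t with h | h
  · calc ci κ * FM M s ≤ ci κ * FM M t := mul_le_mul_right (FM_mono M h) _
      _ ≤ _ := le_self_add
  · have hMt : (M : ℝ≥0∞) ≠ ∞ := ENNReal.coe_ne_top
    have has : min s (M : ℝ≥0∞) ≠ ∞ := ne_top_of_le_ne_top hMt (min_le_right _ _)
    have hbt : min t (M : ℝ≥0∞) ≠ ∞ := ne_top_of_le_ne_top hMt (min_le_right _ _)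
    have hba : min t (M : ℝ≥0∞) ≤ min s (M : ℝ≥0∞) := min_le_min_right _ h
    have hsub : min s (M : ℝ≥0∞) - min t (M : ℝ≥0∞) ≤ s - t := by
      rcases le_total t (M : ℝ≥0∞) with h1 | h1
      · rw [min_eq_left h1]
        exact tsub_le_tsub_right (min_le_left _ _) _
      · rw [min_eq_right h1, min_eq_right (h1.trans h)]
        simp
    refine le_trans ?_ (add_le_add_right hsub _)
    unfold FM
    generalize ha' : min s (M : ℝ≥0∞) = a at *
    generalize hb' : min t (M : ℝ≥0∞) = b at *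
    have haM : a ≤ M := by rw [← ha']; exact min_le_right _ _
    lift a to ℝ≥0 using has
    lift b to ℝ≥0 using hbt
    have hba' : (b : ℝ) ≤ a := by exact_mod_cast hba
    have haM' : (a : ℝ) ≤ M := by exact_mod_cast haM
    have hl := s1_rpow_lip (NNReal.coe_nonneg b) hba' haM'
    have hc : 0 < 4 * Real.pi / κ ^ 2 := by positivity
    have hcM : 4 * Real.pi / κ ^ 2 * (3 / 2 * √(M : ℝ)) ≤ 1 := by
      calc 4 * Real.pi / κ ^ 2 * (3 / 2 * √(M : ℝ))
          ≤ 4 * Real.pi / κ ^ 2 * (κ ^ 2 / (4 * Real.pi)) := mul_le_mul_of_nonneg_left hM hc.le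
        _ = 1 := by field_simp
    have hreal : 4 * Real.pi / κ ^ 2 * (a : ℝ) ^ (3 / 2 : ℝ)
        ≤ 4 * Real.pi / κ ^ 2 * (b : ℝ) ^ (3 / 2 : ℝ) + ((a : ℝ) - b) := by
      calc 4 * Real.pi / κ ^ 2 * (a : ℝ) ^ (3 / 2 : ℝ)
          ≤ 4 * Real.pi / κ ^ 2 * ((b : ℝ) ^ (3 / 2 : ℝ) + 3 / 2 * √(M : ℝ) * ((a : ℝ) - b)) :=
            mul_le_mul_of_nonneg_left hl hc.le
        _ = 4 * Real.pi / κ ^ 2 * (b : ℝ) ^ (3 / 2 : ℝ)
            + 4 * Real.pi / κ ^ 2 * (3 / 2 * √(M : ℝ)) * ((a : ℝ) - b) := by ring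
        _ ≤ 4 * Real.pi / κ ^ 2 * (b : ℝ) ^ (3 / 2 : ℝ) + 1 * ((a : ℝ) - b) := by
            gcongr
        _ = _ := by ring
    have e1 : ∀ c : ℝ≥0, ci κ * (c : ℝ≥0∞) ^ (3 / 2 : ℝ)
        = ENNReal.ofReal (4 * Real.pi / κ ^ 2 * (c : ℝ) ^ (3 / 2 : ℝ)) := by
      intro c
      unfold ci
      rw [ENNReal.ofReal_mul hc.le, ← ENNReal.ofReal_rpow_of_nonneg (NNReal.coe_nonneg c) (by norm_num),
        ENNReal.ofReal_coe_nnreal]
    have e2 : (a : ℝ≥0∞) - b = ENNReal.ofReal ((a : ℝ) - b) := by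
      rw [ENNReal.ofReal_sub _ (NNReal.coe_nonneg b), ENNReal.ofReal_coe_nnreal,
        ENNReal.ofReal_coe_nnreal]
    rw [e1, e1, e2, ← ENNReal.ofReal_add (by positivity) (by linarith)]
    exact ENNReal.ofReal_le_ofReal hreal

theorem SM_mono {κ : ℝ} (hκ : 0 < κ) {M : ℝ≥0} (hM : 3 / 2 * √(M : ℝ) ≤ κ ^ 2 / (4 * Real.pi))
    (W : E3 → ℝ≥0∞) {w w' : E3 → ℝ≥0∞} {x : E3} (h : w x ≤ w' x) : SM κ M W w x ≤ SM κ M W w' x := by
  unfold SM
  have h1 := FM_lip hκ hM (W x - w x) (W x - w' x)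
  have h2 : (W x - w x) - (W x - w' x) ≤ w' x - w x := by
    rw [tsub_le_iff_left]
    exact tsub_le_tsub_add_tsub
  calc w x + ci κ * FM M (W x - w x)
      ≤ w x + (ci κ * FM M (W x - w' x) + (w' x - w x)) :=
        add_le_add_right (h1.trans (add_le_add_right h2 _)) _
    _ = (w x + (w' x - w x)) + ci κ * FM M (W x - w' x) := by ring
    _ = w' x + ci κ * FM M (W x - w' x) := by rw [add_tsub_cancel_of_le h]

theorem SM_self (κ : ℝ) (M : ℝ≥0) (W : E3 → ℝ≥0∞) (x : E3) : SM κ M W W x = W x := by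
  unfold SM
  rw [tsub_self, FM_zero, mul_zero, add_zero]

theorem measurable_SM (κ : ℝ) (M : ℝ≥0) {W w : E3 → ℝ≥0∞} (hW : Measurable W) (hw : Measurable w) :
    Measurable (SM κ M W w) := by
  unfold SM
  exact hw.add (((measurable_FM M).comp (hW.sub hw)).const_mul _)

theorem s1_continuous_FM (M : ℝ≥0) : Continuous (FM M) := by
  unfold FM
  exact ENNReal.continuous_rpow_const.comp (continuous_id.min continuous_const)

theorem s1_ci_ne_top (κ : ℝ) : ci κ ≠ ∞ := ENNReal.ofReal_ne_top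

theorem s1_J_sum (κ : ℝ) (n : ℕ) {f : ℕ → E3 → ℝ≥0∞} (hf : ∀ m, Measurable (f m)) (x : E3) :
    J κ (fun y => ∑ m ∈ Finset.range n, f m y) x = ∑ m ∈ Finset.range n, J κ (f m) x := by
  induction n with
  | zero => simp [J]
  | succ n ih =>
    simp only [Finset.sum_range_succ]
    rw [J_add (Finset.measurable_fun_sum _ fun m _ => hf m), ih]

theorem s1_measurable_iter (κ : ℝ) {f : E3 → ℝ≥0∞} (hf : Measurable f) (n : ℕ) :
    Measurable ((J κ)^[n] f) := by
  induction n with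
  | zero => exact hf
  | succ n ih =>
    rw [Function.iterate_succ_apply']
    exact measurable_J κ ih

theorem s1_iter_mono (κ : ℝ) {f g : E3 → ℝ≥0∞} (h : ∀ x, f x ≤ g x) (n : ℕ) (x : E3) :
    ((J κ)^[n] f) x ≤ ((J κ)^[n] g) x := by
  induction n generalizing x with
  | zero => exact h x
  | succ n ih =>
    rw [Function.iterate_succ_apply', Function.iterate_succ_apply']
    exact J_mono (Filter.Eventually.of_forall ih) x

theorem scheme {κ : ℝ} (hκ : 0 < κ) {M : ℝ≥0} (hM : 3 / 2 * √(M : ℝ) ≤ κ ^ 2 / (4 * Real.pi))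
    {W : E3 → ℝ≥0∞} (hW : Measurable W) (hfin : ∀ᵐ x, W x ≠ ∞) (hJW : ∀ x, J κ W x ≤ W x)
    (hlim : ∀ᵐ x, Tendsto (fun n => ((J κ)^[n] W) x) atTop (𝓝 0))
    {b : E3 → ℝ≥0∞} (hb : Measurable b) (hbW : b ≤ᵐ[volume] W) (hbJ : ∀ x, b x ≤ J κ (SM κ M W b) x) :
    ∃ w : E3 → ℝ≥0∞, Measurable w ∧ (∀ x, b x ≤ w x) ∧ (∀ x, w x ≤ W x) ∧
      (w =ᵐ[volume] GG (fun x => FM M (W x - w x))) ∧
      ∀ w' : E3 → ℝ≥0∞, (∀ x, b x ≤ w' x) → (∀ x, J κ (SM κ M W w') x ≤ w' x) → ∀ x, w x ≤ w' x := by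
  -- the iteration
  let T : (E3 → ℝ≥0∞) → (E3 → ℝ≥0∞) := fun w => J κ (SM κ M W w)
  let u : ℕ → E3 → ℝ≥0∞ := fun n => T^[n] b
  have hu0 : u 0 = b := rfl
  have huS : ∀ n, u (n + 1) = J κ (SM κ M W (u n)) := fun n => Function.iterate_succ_apply' T n b
  have hTW : ∀ v : E3 → ℝ≥0∞, v ≤ᵐ[volume] W → ∀ x, J κ (SM κ M W v) x ≤ W x := by
    intro v hv x
    refine le_trans (J_mono ?_ x) (hJW x)
    filter_upwards [hv] with y hy
    calc SM κ M W v y ≤ SM κ M W W y := SM_mono hκ hM W hy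
      _ = W y := SM_self κ M W y
  have huW : ∀ n x, u n x ≤ W x := by
    intro n
    induction n with
    | zero => intro x; rw [hu0]; exact (hbJ x).trans (hTW b hbW x)
    | succ n ih => intro x; rw [huS]; exact hTW (u n) (Filter.Eventually.of_forall ih) x
  have humono1 : ∀ n x, u n x ≤ u (n + 1) x := by
    intro n
    induction n with
    | zero => intro x; rw [huS, hu0]; exact hbJ x
    | succ n ih =>
      intro x
      rw [huS n, huS (n + 1)]
      exact J_mono (Filter.Eventually.of_forall fun y => SM_mono hκ hM W (ih y)) x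
  have humono : ∀ x, Monotone (fun n => u n x) := fun x => monotone_nat_of_le_succ fun n => humono1 n x
  have humeas : ∀ n, Measurable (u n) := by
    intro n
    induction n with
    | zero => rw [hu0]; exact hb
    | succ n ih => rw [huS]; exact measurable_J κ (measurable_SM κ M hW ih)
  let w : E3 → ℝ≥0∞ := fun x => ⨆ n, u n x
  have hwmeas : Measurable w := Measurable.iSup humeas
  have hbw : ∀ x, b x ≤ w x := fun x => le_iSup (fun n => u n x) 0
  have hwW : ∀ x, w x ≤ W x := fun x => iSup_le fun n => huW n x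
  have hSmono : ∀ x, Monotone (fun n => SM κ M W (u n) x) := fun x m n h =>
    SM_mono hκ hM W (humono x h)
  have hSlim : ∀ᵐ x, ⨆ n, SM κ M W (u n) x = SM κ M W w x := by
    filter_upwards [hfin] with x hx
    have hlim1 : Tendsto (fun n => u n x) atTop (𝓝 (w x)) := tendsto_atTop_iSup (humono x)
    have hlim2 : Tendsto (fun n => SM κ M W (u n) x) atTop (𝓝 (SM κ M W w x)) := by
      unfold SM
      refine hlim1.add (ENNReal.Tendsto.const_mul ?_ (Or.inr (s1_ci_ne_top κ)))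
      refine (s1_continuous_FM M).continuousAt.tendsto.comp ?_
      exact ENNReal.Tendsto.sub tendsto_const_nhds hlim1 (Or.inl hx)
    exact iSup_eq_of_tendsto (hSmono x) hlim2
  have hfix : ∀ x, w x = J κ (SM κ M W w) x := by
    intro x
    have h1 : J κ (SM κ M W w) x = ∫⁻ y, ⨆ n, jk κ (x - y) * SM κ M W (u n) y := by
      unfold J
      apply lintegral_congr_ae
      filter_upwards [hSlim] with y hy
      rw [← hy, ENNReal.mul_iSup]
    rw [h1, lintegral_iSup]
    · show ⨆ n, u n x = ⨆ n, J κ (SM κ M W (u n)) x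
      apply le_antisymm
      · exact iSup_le fun n => (humono1 n x).trans
          (by rw [huS n]; exact le_iSup (fun n => J κ (SM κ M W (u n)) x) n)
      · exact iSup_le fun n => by
          rw [← huS n]; exact le_iSup (fun n => u n x) (n + 1)
    · intro n
      exact ((measurable_jk κ).comp (measurable_const.sub measurable_id)).mul
        (measurable_SM κ M hW (humeas n))
    · intro m n h y
      exact mul_le_mul_right (hSmono y h) _
  -- the density
  let h : E3 → ℝ≥0∞ := fun x => FM M (W x - w x)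
  have hhmeas : Measurable h := (measurable_FM M).comp (hW.sub hwmeas)
  have hfix2 : ∀ x, w x = J κ w x + ci κ * J κ h x := by
    intro x
    have h1 : J κ (SM κ M W w) x = J κ w x + J κ (fun y => ci κ * h y) x := J_add hwmeas x
    rw [J_const_mul (ci κ) hhmeas] at h1
    rw [← h1]
    exact hfix x
  have hiter : ∀ n x, w x = ((J κ)^[n] w) x + ci κ * ∑ m ∈ Finset.range n, ((J κ)^[m + 1] h) x := by
    intro n
    induction n with
    | zero => intro x; simp
    | succ n ih =>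
      intro x
      have hm : ∀ m, Measurable ((J κ)^[m + 1] h) := fun m => s1_measurable_iter κ hhmeas (m + 1)
      have hms : Measurable (fun y => ∑ m ∈ Finset.range n, ((J κ)^[m + 1] h) y) :=
        Finset.measurable_fun_sum _ fun m _ => hm m
      have h1 : J κ w x = ((J κ)^[n + 1] w) x
          + ci κ * ∑ m ∈ Finset.range n, ((J κ)^[m + 1 + 1] h) x := by
        have h2 : w = fun y => ((J κ)^[n] w) y
            + ci κ * ∑ m ∈ Finset.range n, ((J κ)^[m + 1] h) y := funext ih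
        have h3 : J κ w x = J κ (fun y => ((J κ)^[n] w) y
            + ci κ * ∑ m ∈ Finset.range n, ((J κ)^[m + 1] h) y) x := congrArg (fun f => J κ f x) h2
        rw [h3, J_add (s1_measurable_iter κ hwmeas n), J_const_mul (ci κ) hms,
          s1_J_sum κ n hm, Function.iterate_succ_apply']
        congr 2
        refine Finset.sum_congr rfl fun m _ => ?_
        rw [Function.iterate_succ_apply' (J κ) (m + 1)]
      calc w x = J κ w x + ci κ * J κ h x := hfix2 x
        _ = ((J κ)^[n + 1] w) x + (ci κ * ∑ m ∈ Finset.range n, ((J κ)^[m + 1 + 1] h) x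
            + ci κ * J κ h x) := by rw [h1, add_assoc]
        _ = _ := by
            rw [← mul_add, Finset.sum_range_succ']
            rfl
  have hGG : w =ᵐ[volume] GG h := by
    filter_upwards [hlim] with x hx
    rw [GG_sum hκ hhmeas x]
    have h1 : Tendsto (fun n => ((J κ)^[n] w) x) atTop (𝓝 0) :=
      tendsto_of_tendsto_of_tendsto_of_le_of_le tendsto_const_nhds hx (fun n => zero_le)
        (fun n => s1_iter_mono κ hwW n x)
    have h2 : Tendsto (fun n => ∑ m ∈ Finset.range n, ((J κ)^[m + 1] h) x) atTop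
        (𝓝 (∑' m : ℕ, ((J κ)^[m + 1] h) x)) := ENNReal.tendsto_nat_tsum _
    have h3 : Tendsto (fun n => ((J κ)^[n] w) x
        + ci κ * ∑ m ∈ Finset.range n, ((J κ)^[m + 1] h) x) atTop
        (𝓝 (0 + ci κ * ∑' m : ℕ, ((J κ)^[m + 1] h) x)) :=
      h1.add (ENNReal.Tendsto.const_mul h2 (Or.inr (s1_ci_ne_top κ)))
    rw [zero_add] at h3
    refine tendsto_nhds_unique ?_ h3
    refine (tendsto_const_nhds (x := w x)).congr fun n => ?_
    exact hiter n x
  refine ⟨w, hwmeas, hbw, hwW, hGG, ?_⟩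
  intro w' hbw' hJw' x
  refine iSup_le fun n => ?_
  revert x
  induction n with
  | zero => intro x; rw [hu0]; exact hbw' x
  | succ n ih =>
    intro x
    rw [huS]
    exact (J_mono (Filter.Eventually.of_forall fun y => SM_mono hκ hM W (ih y)) x).trans (hJw' x)

end Pool.Agent.H23.TF
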