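import Pool.Agent.H23.TF.Y2_Lim
import Pool.Agent.H23.TF.A1_Rad

/-! Module S2: properties of the nuclear potential `VE R z` (`z ≥ 0` is not needed because of `ofReal`).

`VE_fin`: finite off the nuclei (a.e.). `J_VE_le`: from `J_gg_le_gg`, `J_gg_sub`, additivity. `tendsto_J_VE`: from `tendsto_J_gg`.
`VE_loc`: `{V > m}` is contained in `⋃ B(R_j, Z/m)` where `Z = ∑ z_j`, and `V^(5/2) ≤ k^(3/2) ∑ z_j^(5/2) ‖x-R_j‖^(-5/2)`.
`GG_VE_loc`: `V^(3/2) 1_{V>m}` is in `L^1` with `V^(5/2) 1_{V>m} ∈ L^1`; Young as in `exists_G_le`. -/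

open MeasureTheory Set Filter Topology
open scoped ENNReal NNReal

namespace Pool.Agent.H23.TF

variable {k : ℕ} (R : Fin k → E3) (z : Fin k → ℝ)

theorem s2_measurable_gg_sub (a : E3) : Measurable (fun x : E3 => gg (x - a)) :=
  measurable_gg.comp (measurable_id.sub_const a)

theorem measurable_VE : Measurable (VE R z) := by
  unfold VE
  exact Finset.measurable_fun_sum _ fun j _ => (s2_measurable_gg_sub (R j)).const_mul _

theorem s2_gg_ne_top {x : E3} (hx : x ≠ 0) : gg x ≠ ∞ := by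
  unfold gg
  exact ENNReal.inv_ne_top.2 (enorm_ne_zero.2 hx)

theorem VE_fin (x : E3) (hx : ∀ j, x ≠ R j) : VE R z x ≠ ∞ := by
  unfold VE
  exact ENNReal.sum_ne_top.2 fun j _ =>
    ENNReal.mul_ne_top ENNReal.ofReal_ne_top (s2_gg_ne_top (sub_ne_zero.2 (hx j)))

theorem s2_ae_ne : ∀ᵐ x : E3, ∀ j, x ≠ R j := by
  rw [ae_all_iff]
  intro j
  exact compl_mem_ae_iff.mpr (measure_singleton (R j))

theorem VE_fin_ae : ∀ᵐ x, VE R z x ≠ ∞ := by
  filter_upwards [s2_ae_ne R] with x hx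
  exact VE_fin R z x hx

/-- off the nuclei `VE` is the real potential -/
theorem VE_eq (hz : ∀ i, 0 ≤ z i) : ∀ᵐ x, VE R z x = ENNReal.ofReal (V R z x) := by
  filter_upwards [s2_ae_ne R] with x hx
  unfold VE V
  rw [ENNReal.ofReal_sum_of_nonneg (fun j _ => div_nonneg (hz j) (norm_nonneg _))]
  refine Finset.sum_congr rfl fun j _ => ?_
  have hpos : 0 < ‖x - R j‖ := norm_pos_iff.2 (sub_ne_zero.2 (hx j))
  rw [ENNReal.ofReal_div_of_pos hpos, ofReal_norm]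
  rfl

theorem s2_J_lin (κ : ℝ) (c : Fin k → ℝ≥0∞) {f : Fin k → E3 → ℝ≥0∞} (hf : ∀ j, Measurable (f j)) (x : E3) :
    J κ (fun y => ∑ j, c j * f j y) x = ∑ j, c j * J κ (f j) x := by
  unfold J
  have hjk : Measurable (fun y => jk κ (x - y)) :=
    (measurable_jk κ).comp (measurable_const.sub measurable_id)
  calc ∫⁻ y, jk κ (x - y) * ∑ j, c j * f j y
      = ∫⁻ y, ∑ j, c j * (jk κ (x - y) * f j y) := by
        refine lintegral_congr fun y => ?_
        rw [Finset.mul_sum]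
        refine Finset.sum_congr rfl fun j _ => ?_
        ring
    _ = ∑ j, ∫⁻ y, c j * (jk κ (x - y) * f j y) :=
        lintegral_finsetSum _ fun j _ => (hjk.mul (hf j)).const_mul _
    _ = ∑ j, c j * ∫⁻ y, jk κ (x - y) * f j y :=
        Finset.sum_congr rfl fun j _ => lintegral_const_mul _ (hjk.mul (hf j))

theorem s2_measurable_iter (κ : ℝ) {f : E3 → ℝ≥0∞} (hf : Measurable f) (n : ℕ) :
    Measurable ((J κ)^[n] f) := by
  induction n with
  | zero => exact hf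
  | succ n ih =>
    rw [Function.iterate_succ_apply']
    exact measurable_J κ ih

theorem s2_J_iter_VE (κ : ℝ) (n : ℕ) :
    (J κ)^[n] (VE R z) = fun x => ∑ j, ENNReal.ofReal (z j) * ((J κ)^[n] gg) (x - R j) := by
  have h : (J κ)^[n] (VE R z)
      = fun x => ∑ j, ENNReal.ofReal (z j) * ((J κ)^[n] (fun y => gg (y - R j))) x := by
    induction n with
    | zero => rfl
    | succ n ih =>
      rw [Function.iterate_succ_apply', ih]
      funext x
      rw [s2_J_lin κ _ (fun j => s2_measurable_iter κ (s2_measurable_gg_sub (R j)) n)]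
      refine Finset.sum_congr rfl fun j _ => ?_
      rw [Function.iterate_succ_apply' (J κ) n]
  rw [h]
  funext x
  refine Finset.sum_congr rfl fun j _ => ?_
  rw [J_iterate_sub]

theorem J_VE_le {κ : ℝ} (hκ : 0 < κ) (x : E3) : J κ (VE R z) x ≤ VE R z x := by
  have h := congrFun (s2_J_iter_VE R z κ 1) x
  simp only [Function.iterate_one] at h
  rw [h]
  unfold VE
  exact Finset.sum_le_sum fun j _ => mul_le_mul_right (J_gg_le_gg hκ _) _

theorem tendsto_J_VE {κ : ℝ} (hκ : 0 < κ) :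
    ∀ᵐ x, Tendsto (fun n => ((J κ)^[n] (VE R z)) x) atTop (𝓝 0) := by
  filter_upwards [s2_ae_ne R] with x hx
  have h : (fun n => ((J κ)^[n] (VE R z)) x)
      = fun n => ∑ j, ENNReal.ofReal (z j) * ((J κ)^[n] gg) (x - R j) :=
    funext fun n => congrFun (s2_J_iter_VE R z κ n) x
  rw [h]
  have h0 : (0 : ℝ≥0∞) = ∑ j : Fin k, ENNReal.ofReal (z j) * 0 := by simp
  rw [h0]
  exact tendsto_finsetSum _ fun j _ => ENNReal.Tendsto.const_mul
    (tendsto_J_gg hκ (sub_ne_zero.2 (hx j))) (Or.inr ENNReal.ofReal_ne_top)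

theorem VE_add {z z' z'' : Fin k → ℝ} (h' : ∀ i, 0 ≤ z' i) (h'' : ∀ i, 0 ≤ z'' i) (hz : z = z' + z'') (x : E3) :
    VE R z x = VE R z' x + VE R z'' x := by
  unfold VE
  rw [← Finset.sum_add_distrib]
  refine Finset.sum_congr rfl fun j _ => ?_
  rw [hz, Pi.add_apply, ENNReal.ofReal_add (h' j) (h'' j), add_mul]

theorem s2_lint_gg_ball (c : E3) (r : ℝ) :
    ∫⁻ x in Metric.ball c r, gg (x - c) ^ (5 / 2 : ℝ) ≠ ∞ := by
  have h := (integrableOn_ball (p := 5 / 2) (by norm_num) (by norm_num) c r).lintegral_lt_top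
  refine ne_of_lt (lt_of_le_of_lt (lintegral_mono_ae ?_) h)
  have h1 : ∀ᵐ x : E3, x ≠ c := compl_mem_ae_iff.mpr (measure_singleton c)
  filter_upwards [ae_restrict_of_ae h1] with x hx
  have hpos : 0 < ‖x - c‖ := norm_pos_iff.2 (sub_ne_zero.2 hx)
  rw [ENNReal.ofReal_inv_of_pos (by positivity), ← ENNReal.ofReal_rpow_of_pos hpos, ofReal_norm]
  unfold gg
  rw [ENNReal.inv_rpow]

theorem s2_mem_ball {K : ℝ≥0∞} (hK : K ≠ ∞) {m : ℝ≥0} (hm : 0 < m) {a x : E3}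
    (h : (m : ℝ≥0∞) < K * gg (x - a)) : x ∈ Metric.ball a ((K / m).toReal + 1) := by
  by_contra hx
  rw [Metric.mem_ball, not_lt, dist_eq_norm] at hx
  have hr : 0 ≤ (K / m).toReal := ENNReal.toReal_nonneg
  have hm0 : (m : ℝ≥0∞) ≠ 0 := by exact_mod_cast hm.ne'
  have hKm : K / m ≠ ∞ := ENNReal.div_ne_top hK hm0
  have hpos : 0 < ‖x - a‖ := by linarith
  have h1 : K / m ≤ ‖x - a‖ₑ := by
    rw [← ofReal_norm, ← ENNReal.ofReal_toReal hKm]
    exact ENNReal.ofReal_le_ofReal (by linarith)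
  have h2 : K ≤ m * ‖x - a‖ₑ := by
    have := (ENNReal.div_le_iff_le_mul (Or.inl hm0) (Or.inl ENNReal.coe_ne_top)).1 h1
    rwa [mul_comm] at this
  have hne0 : ‖x - a‖ₑ ≠ 0 := enorm_ne_zero.2 (norm_pos_iff.1 hpos)
  have hnet : ‖x - a‖ₑ ≠ ∞ := enorm_ne_top
  have h3 : K * gg (x - a) ≤ m := by
    calc K * gg (x - a) ≤ (m * ‖x - a‖ₑ) * ‖x - a‖ₑ⁻¹ := mul_le_mul_left h2 _
      _ = m := by rw [mul_assoc, ENNReal.mul_inv_cancel hne0 hnet, mul_one]
  exact absurd h (not_lt.2 h3)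

theorem s2_VE_dom {m : ℝ≥0} {x : E3} (hx : (m : ℝ≥0∞) < VE R z x) :
    ∃ j, (m : ℝ≥0∞) < (k : ℝ≥0∞) * ENNReal.ofReal (z j) * gg (x - R j) ∧
      VE R z x ≤ (k : ℝ≥0∞) * ENNReal.ofReal (z j) * gg (x - R j) := by
  have hne : (Finset.univ : Finset (Fin k)).Nonempty := by
    by_contra h
    rw [Finset.not_nonempty_iff_eq_empty] at h
    have h0 : VE R z x = 0 := by
      unfold VE
      rw [h, Finset.sum_empty]
    rw [h0] at hx
    exact absurd hx (not_lt.2 zero_le)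
  obtain ⟨j, -, hj⟩ := Finset.exists_max_image Finset.univ
    (fun j => ENNReal.ofReal (z j) * gg (x - R j)) hne
  have hle : VE R z x ≤ (k : ℝ≥0∞) * ENNReal.ofReal (z j) * gg (x - R j) := by
    unfold VE
    calc ∑ i, ENNReal.ofReal (z i) * gg (x - R i)
        ≤ ∑ _i : Fin k, ENNReal.ofReal (z j) * gg (x - R j) :=
          Finset.sum_le_sum fun i hi => hj i hi
      _ = _ := by
        rw [Finset.sum_const, Finset.card_univ, Fintype.card_fin, nsmul_eq_mul, mul_assoc]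
  exact ⟨j, hx.trans_le hle, hle⟩

theorem VE_loc {m : ℝ≥0} (hm : 0 < m) :
    ∫⁻ x in {x | (m : ℝ≥0∞) < VE R z x}, VE R z x ^ (5 / 2 : ℝ) ≠ ∞ := by
  let K : Fin k → ℝ≥0∞ := fun j => (k : ℝ≥0∞) * ENNReal.ofReal (z j)
  have hK : ∀ j, K j ≠ ∞ := fun j => ENNReal.mul_ne_top (ENNReal.natCast_ne_top k) ENNReal.ofReal_ne_top
  let B : Fin k → Set E3 := fun j => Metric.ball (R j) ((K j / m).toReal + 1)
  have hmeasS : MeasurableSet {x | (m : ℝ≥0∞) < VE R z x} :=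
    measurableSet_lt measurable_const (measurable_VE R z)
  have hgm : ∀ j, Measurable (fun x => (K j * gg (x - R j)) ^ (5 / 2 : ℝ)) := fun j =>
    ((s2_measurable_gg_sub (R j)).const_mul _).pow_const _
  have hbound : ∀ x ∈ {x | (m : ℝ≥0∞) < VE R z x}, VE R z x ^ (5 / 2 : ℝ)
      ≤ ∑ j, (B j).indicator (fun x => (K j * gg (x - R j)) ^ (5 / 2 : ℝ)) x := by
    intro x hx
    obtain ⟨j, h1, h2⟩ := s2_VE_dom R z hx
    have hxB : x ∈ B j := s2_mem_ball (hK j) hm h1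
    calc VE R z x ^ (5 / 2 : ℝ) ≤ (K j * gg (x - R j)) ^ (5 / 2 : ℝ) :=
          ENNReal.rpow_le_rpow h2 (by norm_num)
      _ = (B j).indicator (fun x => (K j * gg (x - R j)) ^ (5 / 2 : ℝ)) x := by
          rw [indicator_of_mem hxB]
      _ ≤ _ := Finset.single_le_sum
          (f := fun j => (B j).indicator (fun x => (K j * gg (x - R j)) ^ (5 / 2 : ℝ)) x)
          (fun i _ => zero_le) (Finset.mem_univ j)
  have h1 : ∫⁻ x in {x | (m : ℝ≥0∞) < VE R z x}, VE R z x ^ (5 / 2 : ℝ)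
      ≤ ∑ j, ∫⁻ x in B j, (K j * gg (x - R j)) ^ (5 / 2 : ℝ) := by
    calc ∫⁻ x in {x | (m : ℝ≥0∞) < VE R z x}, VE R z x ^ (5 / 2 : ℝ)
        ≤ ∫⁻ x in {x | (m : ℝ≥0∞) < VE R z x},
            ∑ j, (B j).indicator (fun x => (K j * gg (x - R j)) ^ (5 / 2 : ℝ)) x :=
          setLIntegral_mono' hmeasS hbound
      _ ≤ ∫⁻ x, ∑ j, (B j).indicator (fun x => (K j * gg (x - R j)) ^ (5 / 2 : ℝ)) x :=
          setLIntegral_le_lintegral _ _
      _ = ∑ j, ∫⁻ x, (B j).indicator (fun x => (K j * gg (x - R j)) ^ (5 / 2 : ℝ)) x :=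
          lintegral_finsetSum _ fun j _ => (hgm j).indicator Metric.isOpen_ball.measurableSet
      _ = _ := Finset.sum_congr rfl fun j _ =>
          lintegral_indicator Metric.isOpen_ball.measurableSet _
  refine ne_top_of_le_ne_top (ENNReal.sum_ne_top.2 fun j _ => ?_) h1
  have h2 : ∫⁻ x in B j, (K j * gg (x - R j)) ^ (5 / 2 : ℝ)
      = K j ^ (5 / 2 : ℝ) * ∫⁻ x in B j, gg (x - R j) ^ (5 / 2 : ℝ) := by
    rw [← lintegral_const_mul _ ((s2_measurable_gg_sub (R j)).pow_const _)]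
    refine lintegral_congr fun x => ?_
    rw [ENNReal.mul_rpow_of_nonneg _ _ (by norm_num)]
  rw [h2]
  exact ENNReal.mul_ne_top (ENNReal.rpow_ne_top_of_nonneg (by norm_num) (hK j)) (s2_lint_gg_ball _ _)

theorem s2_young (a s : ℝ≥0∞) : a * s ^ (3 / 2 : ℝ) ≤ a ^ (5 / 2 : ℝ) + s ^ (5 / 2 : ℝ) := by
  have h : ∀ t : ℝ≥0∞, t * t ^ (3 / 2 : ℝ) = t ^ (5 / 2 : ℝ) := by
    intro t
    rw [show (5 / 2 : ℝ) = 1 + 3 / 2 by norm_num, ENNReal.rpow_add_of_nonneg _ _ (by norm_num) (by norm_num),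
      ENNReal.rpow_one]
  rcases le_total a s with h1 | h1
  · calc a * s ^ (3 / 2 : ℝ) ≤ s * s ^ (3 / 2 : ℝ) := mul_le_mul_left h1 _
      _ = s ^ (5 / 2 : ℝ) := h s
      _ ≤ _ := le_add_self
  · calc a * s ^ (3 / 2 : ℝ) ≤ a * a ^ (3 / 2 : ℝ) :=
          mul_le_mul_right (ENNReal.rpow_le_rpow h1 (by norm_num)) _
      _ = a ^ (5 / 2 : ℝ) := h a
      _ ≤ _ := le_self_add

theorem s2_VE_bdd {m : ℝ≥0} (hm : 0 < m) : ∃ r : ℝ, {x | (m : ℝ≥0∞) < VE R z x} ⊆ Metric.ball 0 r := by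
  let K : Fin k → ℝ≥0∞ := fun j => (k : ℝ≥0∞) * ENNReal.ofReal (z j)
  have hK : ∀ j, K j ≠ ∞ := fun j => ENNReal.mul_ne_top (ENNReal.natCast_ne_top k) ENNReal.ofReal_ne_top
  refine ⟨∑ j, ((K j / m).toReal + 1 + ‖R j‖), fun x hx => ?_⟩
  obtain ⟨j, h1, -⟩ := s2_VE_dom R z hx
  have hxB : x ∈ Metric.ball (R j) ((K j / m).toReal + 1) := s2_mem_ball (hK j) hm h1
  rw [Metric.mem_ball, dist_eq_norm] at hxB
  rw [Metric.mem_ball, dist_zero_right]
  have h2 : ‖x‖ ≤ ‖x - R j‖ + ‖R j‖ := by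
    calc ‖x‖ = ‖(x - R j) + R j‖ := by rw [sub_add_cancel]
      _ ≤ _ := norm_add_le _ _
  calc ‖x‖ < (K j / m).toReal + 1 + ‖R j‖ := by linarith
    _ ≤ _ := Finset.single_le_sum (f := fun j => (K j / m).toReal + 1 + ‖R j‖)
        (fun i _ => by positivity) (Finset.mem_univ j)

theorem GG_VE_loc {m : ℝ≥0} (hm : 0 < m) (x : E3) :
    GG ({x | (m : ℝ≥0∞) < VE R z x}.indicator (fun x => VE R z x ^ (3 / 2 : ℝ))) x ≠ ∞ := by
  have hmeasS : MeasurableSet {x | (m : ℝ≥0∞) < VE R z x} :=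
    measurableSet_lt measurable_const (measurable_VE R z)
  obtain ⟨r, hr⟩ := s2_VE_bdd R z hm
  have hmg : Measurable (fun y : E3 => gg (x - y)) := measurable_gg.comp (measurable_const.sub measurable_id)
  have hsub : {x | (m : ℝ≥0∞) < VE R z x} ⊆ Metric.ball x (r + ‖x‖) := by
    intro y hy
    have := hr hy
    rw [Metric.mem_ball, dist_zero_right] at this
    rw [Metric.mem_ball, dist_eq_norm]
    calc ‖y - x‖ ≤ ‖y‖ + ‖x‖ := norm_sub_le _ _
      _ < r + ‖x‖ := by linarith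
  have hgs : ∀ y : E3, gg (x - y) = gg (y - x) := by
    intro y
    unfold gg
    rw [← enorm_neg, neg_sub]
  have h1 : GG ({x | (m : ℝ≥0∞) < VE R z x}.indicator (fun x => VE R z x ^ (3 / 2 : ℝ))) x
      ≤ (∫⁻ y in Metric.ball x (r + ‖x‖), gg (y - x) ^ (5 / 2 : ℝ))
        + ∫⁻ y in {x | (m : ℝ≥0∞) < VE R z x}, VE R z y ^ (5 / 2 : ℝ) := by
    unfold GG
    calc ∫⁻ y, gg (x - y) * ({x | (m : ℝ≥0∞) < VE R z x}.indicator (fun x => VE R z x ^ (3 / 2 : ℝ))) y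
        = ∫⁻ y, {x | (m : ℝ≥0∞) < VE R z x}.indicator
            (fun y => gg (x - y) * VE R z y ^ (3 / 2 : ℝ)) y := by
          refine lintegral_congr fun y => ?_
          by_cases hy : y ∈ {x | (m : ℝ≥0∞) < VE R z x}
          · rw [indicator_of_mem hy, indicator_of_mem hy]
          · rw [indicator_of_notMem hy, indicator_of_notMem hy, mul_zero]
      _ = ∫⁻ y in {x | (m : ℝ≥0∞) < VE R z x}, gg (x - y) * VE R z y ^ (3 / 2 : ℝ) :=
          lintegral_indicator hmeasS _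
      _ ≤ ∫⁻ y in {x | (m : ℝ≥0∞) < VE R z x}, (gg (y - x) ^ (5 / 2 : ℝ) + VE R z y ^ (5 / 2 : ℝ)) := by
          refine lintegral_mono fun y => ?_
          rw [hgs y]
          exact s2_young _ _
      _ = (∫⁻ y in {x | (m : ℝ≥0∞) < VE R z x}, gg (y - x) ^ (5 / 2 : ℝ))
          + ∫⁻ y in {x | (m : ℝ≥0∞) < VE R z x}, VE R z y ^ (5 / 2 : ℝ) :=
          lintegral_add_left ((s2_measurable_gg_sub x).pow_const _) _
      _ ≤ _ := add_le_add_left (lintegral_mono_set hsub) _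
  exact ne_top_of_le_ne_top (ENNReal.add_ne_top.2 ⟨s2_lint_gg_ball x _, VE_loc R z hm⟩) h1

end Pool.Agent.H23.TF
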