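import Pool.Agent.H23.TF.S1_Scheme
import Pool.Agent.H23.TF.S2_VE

/-! Module S3: the limit `M → ∞` : existence and comparison in `[0,∞]` (section 4 of the paper proof).
Proof written by helper67. -/

open MeasureTheory Set Filter Topology
open scoped ENNReal NNReal



namespace Pool.Agent.H23.TF

variable {k : ℕ} (R : Fin k → E3) (z : Fin k → ℝ)

namespace S3

/-- the truncation levels -/
noncomputable def Mn (n : ℕ) : ℝ≥0 := (n : ℝ≥0) + 1

theorem Mn_pos (n : ℕ) : 0 < Mn n := by unfold Mn; positivity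

theorem Mn_mono {m n : ℕ} (h : m ≤ n) : Mn m ≤ Mn n := by
  unfold Mn; gcongr

/-- the constants `κ_n` -/
noncomputable def kn (n : ℕ) : ℝ := √(4 * Real.pi * (3 / 2 * √((Mn n : ℝ≥0) : ℝ)))

theorem kn_pos (n : ℕ) : 0 < kn n := by
  have h1 : 0 < √((Mn n : ℝ≥0) : ℝ) := Real.sqrt_pos.2 (by exact_mod_cast Mn_pos n)
  have := Real.pi_pos
  unfold kn
  apply Real.sqrt_pos.2
  positivity

theorem kn_spec (n : ℕ) : 3 / 2 * √((Mn n : ℝ≥0) : ℝ) ≤ kn n ^ 2 / (4 * Real.pi) := by
  have h1 : 0 ≤ √((Mn n : ℝ≥0) : ℝ) := Real.sqrt_nonneg _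
  have := Real.pi_pos
  unfold kn
  rw [Real.sq_sqrt (by positivity)]
  apply le_of_eq
  field_simp

theorem FM_mono_M {M M' : ℝ≥0} (h : M ≤ M') (t : ℝ≥0∞) : FM M t ≤ FM M' t := by
  unfold FM
  apply ENNReal.rpow_le_rpow _ (by norm_num)
  exact min_le_min_left _ (by exact_mod_cast h)

theorem FM_eq_of_le {M : ℝ≥0} {t : ℝ≥0∞} (h : t ≤ M) : FM M t = t ^ (3 / 2 : ℝ) := by
  unfold FM; rw [min_eq_left h]

theorem VE_zero (x : E3) : VE R (0 : Fin k → ℝ) x = 0 := by
  unfold VE; simp

theorem gg_ne_top_ae (x : E3) : ∀ᵐ y, gg (x - y) ≠ ∞ := by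
  have h : ∀ᵐ y : E3, y ≠ x := by
    rw [ae_iff]
    have : {y : E3 | ¬ y ≠ x} = {x} := by ext y; simp
    rw [this]; exact measure_singleton x
  filter_upwards [h] with y hy
  exact s2_gg_ne_top (sub_ne_zero.2 (Ne.symm hy))

/-- comparison of the least fixed point with `VE z'' + GG s` -/
theorem sub_aux {κ : ℝ} (hκ : 0 < κ) {M : ℝ≥0}
    {z' z'' : Fin k → ℝ} (h' : ∀ i, 0 ≤ z' i) (h'' : ∀ i, 0 ≤ z'' i) (hz : z = z' + z'')
    {ψ s : E3 → ℝ≥0∞} (hs : Measurable s)
    (h1 : ∀ᵐ x, ψ x + GG s x = VE R z' x) (h2 : ∀ᵐ x, FM M (ψ x) ≤ s x) (x : E3) :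
    J κ (SM κ M (VE R z) (fun x => VE R z'' x + GG s x)) x ≤ VE R z'' x + GG s x := by
  have hVm := measurable_VE R z''
  have hGm := measurable_GG hs
  calc J κ (SM κ M (VE R z) (fun x => VE R z'' x + GG s x)) x
      ≤ J κ (fun x => (VE R z'' x + GG s x) + ci κ * s x) x := by
        apply J_mono
        filter_upwards [h1, h2] with y hy1 hy2
        unfold SM
        gcongr
        refine le_trans (FM_mono M ?_) hy2
        rw [tsub_le_iff_right, VE_add R h' h'' hz y, ← hy1]
        apply le_of_eq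
        ring
    _ = J κ (VE R z'') x + (J κ (GG s) x + ci κ * J κ s x) := by
        have hA : Measurable (fun x => VE R z'' x + GG s x) := hVm.add hGm
        rw [J_add hA, J_add hVm, J_const_mul _ hs, add_assoc]
    _ ≤ VE R z'' x + GG s x := by
        have h3 := GG_res hκ hs x
        rw [h3, add_comm (J κ (GG s) x)]
        gcongr
        exact J_VE_le R z'' hκ x

end S3

open S3 in
/-- existence of a maximal solution, which is also below all supersolutions -/
theorem ex_w (hz : ∀ i, 0 ≤ z i) :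
    ∃ w : E3 → ℝ≥0∞, Measurable w ∧ (∀ x, w x ≤ VE R z x) ∧
      (w =ᵐ[volume] GG (fun x => (VE R z x - w x) ^ (3 / 2 : ℝ))) ∧
      (∀ z' z'' : Fin k → ℝ, (∀ i, 0 ≤ z' i) → (∀ i, 0 ≤ z'' i) → z = z' + z'' →
        ∀ ψ s : E3 → ℝ≥0∞, Measurable ψ → Measurable s →
          (∀ᵐ x, ψ x + GG s x = VE R z' x) → (∀ᵐ x, ψ x ^ (3 / 2 : ℝ) ≤ s x) →
          ∀ᵐ x, ψ x ≤ VE R z x - w x) ∧
      (∀ χ s : E3 → ℝ≥0∞, Measurable χ → Measurable s →
          (∀ᵐ x, χ x + GG s x = VE R z x) → (∀ᵐ x, s x ≤ χ x ^ (3 / 2 : ℝ)) →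
          ∀ᵐ x, VE R z x - w x ≤ χ x) := by
  have hWm := measurable_VE R z
  set W := VE R z with hW
  have hfin : ∀ᵐ x, W x ≠ ∞ := VE_fin_ae R z
  -- the truncated solutions
  have hex : ∀ n : ℕ, ∃ w : E3 → ℝ≥0∞, Measurable w ∧ (∀ x, w x ≤ W x) ∧
      (w =ᵐ[volume] GG (fun x => FM (Mn n) (W x - w x))) ∧
      ∀ w' : E3 → ℝ≥0∞, (∀ x, J (kn n) (SM (kn n) (Mn n) W w') x ≤ w' x) → ∀ x, w x ≤ w' x := by
    intro n
    obtain ⟨w, h1, h2, h3, h4, h5⟩ := scheme (kn_pos n) (kn_spec n) hWm hfin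
      (fun x => J_VE_le R z (kn_pos n) x) (tendsto_J_VE R z (kn_pos n))
      (b := fun _ => 0) measurable_const (Eventually.of_forall fun x => zero_le)
      (fun x => zero_le)
    exact ⟨w, h1, h3, h4, fun w' hw' => h5 w' (fun x => zero_le) hw'⟩
  choose w hwm hwW hweq hwleast using hex
  have hFMm : ∀ n, Measurable (fun x => FM (Mn n) (W x - w n x)) := fun n =>
    (measurable_FM (Mn n)).comp (hWm.sub (hwm n))
  -- comparison
  have hcmp : ∀ n (z' z'' : Fin k → ℝ), (∀ i, 0 ≤ z' i) → (∀ i, 0 ≤ z'' i) → z = z' + z'' →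
      ∀ ψ s : E3 → ℝ≥0∞, Measurable s → (∀ᵐ x, ψ x + GG s x = VE R z' x) →
      (∀ᵐ x, FM (Mn n) (ψ x) ≤ s x) → ∀ x, w n x ≤ VE R z'' x + GG s x := by
    intro n z' z'' h' h'' hzz ψ s hs h1 h2
    exact hwleast n _ (sub_aux R z (kn_pos n) h' h'' hzz hs h1 h2)
  have hcmp0 : ∀ n (ψ s : E3 → ℝ≥0∞), Measurable s → (∀ᵐ x, ψ x + GG s x = W x) →
      (∀ᵐ x, FM (Mn n) (ψ x) ≤ s x) → ∀ x, w n x ≤ GG s x := by
    intro n ψ s hs h1 h2 x
    have := hcmp n z 0 hz (fun i => le_refl _) (by simp) ψ s hs h1 h2 x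
    rwa [VE_zero, zero_add] at this
  -- monotone in n
  have hmono1 : ∀ n, ∀ᵐ x, w n x ≤ w (n + 1) x := by
    intro n
    have h := hcmp0 n (fun x => W x - w (n + 1) x) (fun x => FM (Mn (n + 1)) (W x - w (n + 1) x))
      (hFMm (n + 1))
      (by
        filter_upwards [hweq (n + 1)] with x hx
        rw [← hx]
        exact tsub_add_cancel_of_le (hwW (n + 1) x))
      (Eventually.of_forall fun x => FM_mono_M (Mn_mono (Nat.le_succ n)) _)
    filter_upwards [hweq (n + 1)] with x hx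
    rw [hx]; exact h x
  have hmono : ∀ᵐ x, Monotone (fun n => w n x) := by
    filter_upwards [ae_all_iff.2 hmono1] with x hx
    exact monotone_nat_of_le_succ hx
  have hweqA : ∀ᵐ x, ∀ n, w n x = GG (fun x => FM (Mn n) (W x - w n x)) x := ae_all_iff.2 hweq
  -- the limit
  set wi : E3 → ℝ≥0∞ := fun x => ⨆ n, w n x with hwi
  have hwim : Measurable wi := Measurable.iSup hwm
  have hwiW : ∀ x, wi x ≤ W x := fun x => iSup_le fun n => hwW n x
  have hlim : ∀ᵐ x, Tendsto (fun n => w n x) atTop (𝓝 (wi x)) := by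
    filter_upwards [hmono] with x hx
    exact tendsto_atTop_iSup hx
  have hlimφ : ∀ᵐ x, Tendsto (fun n => FM (Mn n) (W x - w n x)) atTop
      (𝓝 ((W x - wi x) ^ (3 / 2 : ℝ))) := by
    filter_upwards [hlim, hfin] with x hx hWx
    have h1 : Tendsto (fun n => W x - w n x) atTop (𝓝 (W x - wi x)) :=
      ENNReal.Tendsto.sub tendsto_const_nhds hx (Or.inl hWx)
    have h2 : Tendsto (fun n => (W x - w n x) ^ (3 / 2 : ℝ)) atTop
        (𝓝 ((W x - wi x) ^ (3 / 2 : ℝ))) := h1.ennrpow_const _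
    refine h2.congr' ?_
    obtain ⟨N, hN⟩ := exists_nat_gt (W x).toReal
    filter_upwards [eventually_ge_atTop N] with n hn
    rw [FM_eq_of_le]
    refine le_trans tsub_le_self ?_
    rw [← ENNReal.ofReal_toReal hWx]
    rw [← ENNReal.ofReal_coe_nnreal]
    apply ENNReal.ofReal_le_ofReal
    have : (N : ℝ) ≤ n := by exact_mod_cast hn
    simp only [Mn, NNReal.coe_add, NNReal.coe_natCast, NNReal.coe_one]
    linarith
  -- the dominating function
  set D : E3 → ℝ≥0∞ := fun x => FM (Mn 0) (W x - w 0 x) +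
    {x | ((Mn 0 : ℝ≥0) : ℝ≥0∞) < W x}.indicator (fun x => W x ^ (3 / 2 : ℝ)) x with hD
  have hSm : MeasurableSet {x | ((Mn 0 : ℝ≥0) : ℝ≥0∞) < W x} := measurableSet_lt measurable_const hWm
  have hindm : Measurable ({x | ((Mn 0 : ℝ≥0) : ℝ≥0∞) < W x}.indicator
      (fun x => W x ^ (3 / 2 : ℝ))) := (hWm.pow_const _).indicator hSm
  have hDm : Measurable D := (hFMm 0).add hindm
  have hdom : ∀ n, ∀ᵐ x, FM (Mn n) (W x - w n x) ≤ D x := by
    intro n
    filter_upwards [hmono] with x hx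
    have h1 : FM (Mn n) (W x - w n x) ≤ (W x - w 0 x) ^ (3 / 2 : ℝ) :=
      le_trans (FM_le _ _) (ENNReal.rpow_le_rpow (tsub_le_tsub_left (hx (Nat.zero_le n)) _)
        (by norm_num))
    refine le_trans h1 ?_
    simp only [hD]
    by_cases h2 : W x - w 0 x ≤ Mn 0
    · rw [FM_eq_of_le h2]; exact le_self_add
    · have h3 : x ∈ {x | ((Mn 0 : ℝ≥0) : ℝ≥0∞) < W x} := by
        show ((Mn 0 : ℝ≥0) : ℝ≥0∞) < W x
        exact lt_of_lt_of_le (not_le.1 h2) tsub_le_self
      rw [indicator_of_mem h3]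
      exact le_trans (ENNReal.rpow_le_rpow tsub_le_self (by norm_num)) le_add_self
  have hGD : ∀ᵐ x, GG D x ≠ ∞ := by
    filter_upwards [hweqA, hfin] with x hx hWx
    have h1 : GG D x = GG (fun x => FM (Mn 0) (W x - w 0 x)) x +
        GG ({x | ((Mn 0 : ℝ≥0) : ℝ≥0∞) < W x}.indicator (fun x => W x ^ (3 / 2 : ℝ))) x :=
      GG_add (hFMm 0) x
    rw [h1, ← hx 0]
    exact ENNReal.add_ne_top.2 ⟨ne_top_of_le_ne_top hWx (hwW 0 x), GG_VE_loc R z (Mn_pos 0) x⟩
  have hwi_eq : wi =ᵐ[volume] GG (fun x => (W x - wi x) ^ (3 / 2 : ℝ)) := by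
    filter_upwards [hweqA, hlim, hGD] with x h1 h2 h3
    have h4 : Tendsto (fun n => GG (fun x => FM (Mn n) (W x - w n x)) x) atTop
        (𝓝 (GG (fun x => (W x - wi x) ^ (3 / 2 : ℝ)) x)) := by
      unfold GG
      refine tendsto_lintegral_of_dominated_convergence (fun y => gg (x - y) * D y) ?_ ?_ ?_ ?_
      · intro n
        exact measurable_slice measurable_gg (hFMm n) x
      · intro n
        filter_upwards [hdom n] with y hy
        gcongr
      · exact h3
      · filter_upwards [hlimφ, gg_ne_top_ae x] with y hy hgy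
        exact ENNReal.Tendsto.const_mul hy (Or.inr hgy)
    have h5 : Tendsto (fun n => w n x) atTop
        (𝓝 (GG (fun x => (W x - wi x) ^ (3 / 2 : ℝ)) x)) := by
      refine h4.congr fun n => (h1 n).symm
    exact tendsto_nhds_unique h2 h5
  refine ⟨wi, hwim, hwiW, hwi_eq, ?_, ?_⟩
  · intro z' z'' h' h'' hzz ψ s hψ hs h1 h2
    have h3 : ∀ x, wi x ≤ VE R z'' x + GG s x := by
      intro x
      refine iSup_le fun n => ?_
      refine hcmp n z' z'' h' h'' hzz ψ s hs h1 ?_ x
      filter_upwards [h2] with y hy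
      exact le_trans (FM_le _ _) hy
    filter_upwards [h1, hfin] with x hx hWx
    have h4 : wi x ≠ ∞ := ne_top_of_le_ne_top hWx (hwiW x)
    apply ENNReal.le_sub_of_add_le_right h4
    calc ψ x + wi x ≤ ψ x + (VE R z'' x + GG s x) := by gcongr; exact h3 x
      _ = W x := by
        rw [hW, VE_add R h' h'' hzz x, ← hx]; ring
  · intro χ s hχ hs h1 h2
    have hFχ : ∀ n, Measurable (fun x => FM (Mn n) (χ x)) := fun n => (measurable_FM (Mn n)).comp hχ
    have hsn : ∀ n, Measurable (fun x => min (s x) (FM (Mn n) (χ x))) := fun n => hs.min (hFχ n)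
    have hGle : ∀ᵐ x, GG s x ≤ W x := by
      filter_upwards [h1] with x hx
      rw [← hx]; exact le_add_self
    have key : ∀ n, ∀ᵐ x, GG (fun x => min (s x) (FM (Mn n) (χ x))) x ≤ wi x := by
      intro n
      set sn : E3 → ℝ≥0∞ := fun x => min (s x) (FM (Mn n) (χ x)) with hsn'
      have hsnm : Measurable sn := hsn n
      have hsns : ∀ x, GG sn x ≤ GG s x := fun x =>
        GG_mono (Eventually.of_forall fun y => min_le_left _ _) x
      have hbW : GG sn ≤ᵐ[volume] W := by
        filter_upwards [hGle] with x hx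
        exact le_trans (hsns x) hx
      have hχb : ∀ᵐ x, χ x ≤ W x - GG sn x := by
        filter_upwards [h1, hbW, hfin] with x hx1 hx2 hx3
        have h4 : GG sn x ≠ ∞ := ne_top_of_le_ne_top hx3 hx2
        apply ENNReal.le_sub_of_add_le_right h4
        rw [← hx1]
        gcongr
        exact hsns x
      have hbm := measurable_GG hsnm
      have hbJ : ∀ x, GG sn x ≤ J (kn n) (SM (kn n) (Mn n) W (GG sn)) x := by
        intro x
        have e1 : J (kn n) (SM (kn n) (Mn n) W (GG sn)) x =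
            J (kn n) (GG sn) x + ci (kn n) * J (kn n) (fun x => FM (Mn n) (W x - GG sn x)) x := by
          have hm : Measurable (fun x => FM (Mn n) (W x - GG sn x)) :=
            (measurable_FM (Mn n)).comp (hWm.sub hbm)
          unfold SM
          rw [J_add hbm, J_const_mul _ hm]
        rw [e1]
        conv_lhs => rw [GG_res (kn_pos n) hsnm x, add_comm]
        gcongr
        apply J_mono
        filter_upwards [hχb] with y hy
        exact le_trans (min_le_right _ _) (FM_mono _ hy)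
      obtain ⟨v, hvm, hbv, hvW, hveq, -⟩ := scheme (kn_pos n) (kn_spec n) hWm hfin
        (fun x => J_VE_le R z (kn_pos n) x) (tendsto_J_VE R z (kn_pos n))
        (b := GG sn) hbm hbW hbJ
      have hvFm : Measurable (fun x => FM (Mn n) (W x - v x)) :=
        (measurable_FM (Mn n)).comp (hWm.sub hvm)
      have h5 : ∀ x, w n x ≤ GG (fun x => FM (Mn n) (W x - v x)) x := by
        refine hcmp0 n (fun x => W x - v x) _ hvFm ?_ (Eventually.of_forall fun x => le_refl _)
        filter_upwards [hveq] with x hx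
        rw [← hx]
        exact tsub_add_cancel_of_le (hvW x)
      have h6 : ∀ᵐ x, w n x ≤ v x := by
        filter_upwards [hveq] with x hx
        rw [hx]; exact h5 x
      have h7 : ∀ x, GG (fun x => FM (Mn n) (W x - v x)) x ≤
          GG (fun x => FM (Mn n) (W x - w n x)) x := by
        intro x
        apply GG_mono
        filter_upwards [h6] with y hy
        exact FM_mono _ (tsub_le_tsub_left hy _)
      filter_upwards [hveq, hweq n] with x hx1 hx2
      calc GG sn x ≤ v x := hbv x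
        _ ≤ w n x := by rw [hx1, hx2]; exact h7 x
        _ ≤ wi x := le_iSup (fun n => w n x) n
    have hsup : s =ᵐ[volume] fun x => ⨆ n, min (s x) (FM (Mn n) (χ x)) := by
      filter_upwards [h1, h2, hfin] with x hx1 hx2 hWx
      apply le_antisymm _ (iSup_le fun n => min_le_left _ _)
      have hχx : χ x ≠ ∞ := by
        refine ne_top_of_le_ne_top hWx ?_
        rw [← hx1]; exact le_self_add
      obtain ⟨N, hN⟩ := exists_nat_gt (χ x).toReal
      refine le_trans ?_ (le_iSup (fun n => min (s x) (FM (Mn n) (χ x))) N)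
      rw [FM_eq_of_le]
      · exact le_min (le_refl _) hx2
      · rw [← ENNReal.ofReal_toReal hχx, ← ENNReal.ofReal_coe_nnreal]
        apply ENNReal.ofReal_le_ofReal
        simp only [Mn, NNReal.coe_add, NNReal.coe_natCast, NNReal.coe_one]
        linarith
    have hGs : ∀ x, GG s x = ⨆ n, GG (fun x => min (s x) (FM (Mn n) (χ x))) x := by
      intro x
      rw [GG_congr hsup]
      unfold GG
      rw [← lintegral_iSup]
      · apply lintegral_congr
        intro y
        rw [ENNReal.mul_iSup]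
      · intro n
        exact measurable_slice measurable_gg (hsn n) x
      · intro m n hmn y
        show gg (x - y) * _ ≤ gg (x - y) * _
        gcongr
        exact min_le_min_left _ (FM_mono_M (Mn_mono hmn) _)
    filter_upwards [ae_all_iff.2 key, h1] with x hx1 hx2
    rw [tsub_le_iff_right, ← hx2]
    gcongr
    rw [hGs x]
    exact iSup_le hx1

end Pool.Agent.H23.TF
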