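import Pool.Agent.H23.TF.S2_VE
import Pool.Agent.H23.TF.N3_Cons

/-! Module S4: mass and neutrality (section 4d).

`mass_le`: integrate `GG f ≤ VE R z` over `B(0,r)`: `∫ f(y) (∫_{B_r} dx/‖x-y‖) dy ≤ Z 2πr²` (`ball_le`), and by `ball_ge`
`∫ f(y) ofReal(1-‖y‖²/r²) dy ≤ Z`; monotone convergence (or Fatou) `r → ∞`.
`neutral`: integrate `VE R z ≤ φ + GG(φ^(3/2))` over `B_r`: LHS `≥ ∑ z_j 2π(r²-‖R_j‖²)`; `∫_{B_r} GG f ≤ 2πr² ∫ f`;
`∫_{B_r} φ ≤ r ∫ φ^(3/2) + r^(-2) vol(B_r)` by Young (`t ≤ r t^(3/2) + r^(-2)` for `t ≥ 0`: if `t ≥ r^(-2)` then `t ≤ r t^(3/2)`), so `≤ C r`. Divide by `2πr²`, `r → ∞`.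
`int52`: `φ ≤ VE`, `φ^(5/2) ≤ V^(5/2) 1_{V>1} + φ^(3/2)`. -/

open MeasureTheory Set Filter Topology
open scoped ENNReal NNReal

namespace Pool.Agent.H23.TF

variable {k : ℕ} (R : Fin k → E3) (z : Fin k → ℝ)

/-- Tonelli over a ball -/
theorem lint_ball_GG {f : E3 → ℝ≥0∞} (hf : Measurable f) (r : ℝ) :
    ∫⁻ x in Metric.ball (0 : E3) r, GG f x =
      ∫⁻ y, f y * ∫⁻ x in Metric.ball (0 : E3) r, ‖x - y‖ₑ⁻¹ := by
  unfold GG
  rw [lintegral_lintegral_swap]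
  · refine lintegral_congr fun y => ?_
    unfold gg
    rw [lintegral_mul_const _ (by fun_prop), mul_comm]
  · unfold gg
    exact (Measurable.mul (by fun_prop) (by fun_prop)).aemeasurable

theorem lint_ball_VE (r : ℝ) :
    ∫⁻ x in Metric.ball (0 : E3) r, VE R z x =
      ∑ j, ENNReal.ofReal (z j) * ∫⁻ x in Metric.ball (0 : E3) r, ‖x - R j‖ₑ⁻¹ := by
  unfold VE gg
  rw [lintegral_finsetSum _ (fun j _ => by fun_prop)]
  refine Finset.sum_congr rfl fun j _ => ?_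
  rw [lintegral_const_mul _ (by fun_prop)]

theorem ofReal_two_pi {r : ℝ} (a : ℝ) (hr : 0 < r) :
    ENNReal.ofReal (2 * Real.pi * (r ^ 2 - a ^ 2)) =
      ENNReal.ofReal (2 * Real.pi * r ^ 2) * ENNReal.ofReal (1 - a ^ 2 / r ^ 2) := by
  rw [← ENNReal.ofReal_mul (by positivity)]
  congr 1
  field_simp

theorem mass_le {f : E3 → ℝ≥0∞} (hf : Measurable f) (h : ∀ᵐ x, GG f x ≤ VE R z x) :
    ∫⁻ x, f x ≤ ∑ j, ENNReal.ofReal (z j) := by
  have key : ∀ n : ℕ, ∫⁻ y, f y * ENNReal.ofReal (1 - ‖y‖ ^ 2 / ((n : ℝ) + 1) ^ 2) ≤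
      ∑ j, ENNReal.ofReal (z j) := by
    intro n
    set r : ℝ := (n : ℝ) + 1 with hr
    have hr0 : 0 < r := by positivity
    have h1 : ∫⁻ x in Metric.ball (0 : E3) r, GG f x ≤ ∫⁻ x in Metric.ball (0 : E3) r, VE R z x :=
      lintegral_mono_ae (ae_restrict_of_ae h)
    rw [lint_ball_GG hf, lint_ball_VE] at h1
    have h2 : ∫⁻ y, f y * ENNReal.ofReal (2 * Real.pi * (r ^ 2 - ‖y‖ ^ 2)) ≤
        ∫⁻ y, f y * ∫⁻ x in Metric.ball (0 : E3) r, ‖x - y‖ₑ⁻¹ :=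
      lintegral_mono fun y => mul_le_mul_right (ball_ge y hr0.le) _
    have h3 : ∑ j, ENNReal.ofReal (z j) * ∫⁻ x in Metric.ball (0 : E3) r, ‖x - R j‖ₑ⁻¹ ≤
        ∑ j, ENNReal.ofReal (z j) * ENNReal.ofReal (2 * Real.pi * r ^ 2) :=
      Finset.sum_le_sum fun j _ => mul_le_mul_right (ball_le (R j) hr0.le) _
    have h4 : ∫⁻ y, f y * ENNReal.ofReal (2 * Real.pi * (r ^ 2 - ‖y‖ ^ 2)) =
        ENNReal.ofReal (2 * Real.pi * r ^ 2) *
          ∫⁻ y, f y * ENNReal.ofReal (1 - ‖y‖ ^ 2 / r ^ 2) := by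
      rw [← lintegral_const_mul _ (by fun_prop)]
      refine lintegral_congr fun y => ?_
      rw [ofReal_two_pi _ hr0]
      ring
    rw [← Finset.sum_mul] at h3
    have h5 := (h4 ▸ h2).trans (h1.trans h3)
    rw [mul_comm _ (ENNReal.ofReal (2 * Real.pi * r ^ 2))] at h5
    have hp : ENNReal.ofReal (2 * Real.pi * r ^ 2) ≠ 0 := by
      have : 0 < 2 * Real.pi * r ^ 2 := by positivity
      simpa using this
    exact (ENNReal.mul_le_mul_iff_right hp ENNReal.ofReal_ne_top).1 h5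
  have hlim : ∀ y : E3, f y = liminf (fun n : ℕ => f y * ENNReal.ofReal (1 - ‖y‖ ^ 2 / ((n : ℝ) + 1) ^ 2)) atTop := by
    intro y
    have h1 : Tendsto (fun n : ℕ => 1 - ‖y‖ ^ 2 / ((n : ℝ) + 1) ^ 2) atTop (𝓝 (1 - 0)) := by
      apply Tendsto.sub tendsto_const_nhds
      apply Tendsto.div_atTop tendsto_const_nhds
      exact (tendsto_pow_atTop two_ne_zero).comp
        (tendsto_atTop_add_const_right _ _ tendsto_natCast_atTop_atTop)
    have h2 : Tendsto (fun n : ℕ => f y * ENNReal.ofReal (1 - ‖y‖ ^ 2 / ((n : ℝ) + 1) ^ 2)) atTop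
        (𝓝 (f y * ENNReal.ofReal (1 - 0))) :=
      ENNReal.Tendsto.const_mul (ENNReal.tendsto_ofReal h1) (Or.inl (by simp))
    rw [h2.liminf_eq]
    simp
  calc ∫⁻ x, f x = ∫⁻ y, liminf (fun n : ℕ => f y * ENNReal.ofReal (1 - ‖y‖ ^ 2 / ((n : ℝ) + 1) ^ 2)) atTop :=
        lintegral_congr hlim
    _ ≤ liminf (fun n : ℕ => ∫⁻ y, f y * ENNReal.ofReal (1 - ‖y‖ ^ 2 / ((n : ℝ) + 1) ^ 2)) atTop :=
        lintegral_liminf_le (fun n => by fun_prop)
    _ ≤ liminf (fun _ : ℕ => ∑ j, ENNReal.ofReal (z j)) atTop :=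
        liminf_le_liminf (Eventually.of_forall key)
    _ = ∑ j, ENNReal.ofReal (z j) := liminf_const _

theorem young_le {r : ℝ} (hr : 0 < r) (t : ℝ≥0∞) :
    t ≤ ENNReal.ofReal r * t ^ (3 / 2 : ℝ) + ENNReal.ofReal ((r ^ 2)⁻¹) := by
  rcases le_or_gt t (ENNReal.ofReal ((r ^ 2)⁻¹)) with h | h
  · exact h.trans le_add_self
  · refine le_trans ?_ le_self_add
    rcases eq_or_ne t ∞ with ht | ht
    · subst ht
      rw [ENNReal.top_rpow_of_pos (by norm_num), ENNReal.mul_top (by simpa using hr)]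
    · obtain ⟨s, hs0, rfl⟩ : ∃ s : ℝ, 0 ≤ s ∧ t = ENNReal.ofReal s :=
        ⟨t.toReal, ENNReal.toReal_nonneg, (ENNReal.ofReal_toReal ht).symm⟩
      rw [ENNReal.ofReal_rpow_of_nonneg hs0 (by norm_num), ← ENNReal.ofReal_mul hr.le]
      apply ENNReal.ofReal_le_ofReal
      have h' : (r ^ 2)⁻¹ < s := (ENNReal.ofReal_lt_ofReal_iff_of_nonneg (by positivity)).1 h
      have hs : 0 < s := lt_trans (by positivity) h'
      have e : s ^ (3 / 2 : ℝ) = s * √s := by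
        rw [Real.sqrt_eq_rpow, ← Real.rpow_one_add' hs0 (by norm_num)]
        norm_num
      rw [e]
      have h2 : r⁻¹ ≤ √s := by
        apply Real.le_sqrt_of_sq_le
        rw [inv_pow]
        exact h'.le
      have h3 : 1 ≤ r * √s := by
        calc (1 : ℝ) = r * r⁻¹ := (mul_inv_cancel₀ hr.ne').symm
          _ ≤ r * √s := by gcongr
      nlinarith [mul_le_mul_of_nonneg_left h3 hs0]

theorem neutral {φ : E3 → ℝ≥0∞} (hφ : Measurable φ) (hfin : ∫⁻ x, φ x ^ (3 / 2 : ℝ) ≠ ∞)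
    (h : ∀ᵐ x, VE R z x ≤ φ x + GG (fun y => φ y ^ (3 / 2 : ℝ)) x) :
    ∑ j, ENNReal.ofReal (z j) ≤ ∫⁻ x, φ x ^ (3 / 2 : ℝ) := by
  set A := ∫⁻ x, φ x ^ (3 / 2 : ℝ) with hA
  have hmeas : Measurable fun y => φ y ^ (3 / 2 : ℝ) := by fun_prop
  have key : ∀ n : ℕ, ∑ j, ENNReal.ofReal (z j) * ENNReal.ofReal (1 - ‖R j‖ ^ 2 / ((n : ℝ) + 1) ^ 2) ≤
      A + (A + ENNReal.ofReal (4 / 3 * Real.pi)) * ENNReal.ofReal ((2 * Real.pi * ((n : ℝ) + 1))⁻¹) := by
    intro n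
    set r : ℝ := (n : ℝ) + 1 with hr
    have hr0 : 0 < r := by positivity
    have h1 : ∫⁻ x in Metric.ball (0 : E3) r, VE R z x ≤
        ∫⁻ x in Metric.ball (0 : E3) r, (φ x + GG (fun y => φ y ^ (3 / 2 : ℝ)) x) :=
      lintegral_mono_ae (ae_restrict_of_ae h)
    rw [lintegral_add_left hφ, lint_ball_GG hmeas, lint_ball_VE] at h1
    have h2 : ∑ j, ENNReal.ofReal (z j) * ENNReal.ofReal (2 * Real.pi * (r ^ 2 - ‖R j‖ ^ 2)) ≤
        ∑ j, ENNReal.ofReal (z j) * ∫⁻ x in Metric.ball (0 : E3) r, ‖x - R j‖ₑ⁻¹ :=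
      Finset.sum_le_sum fun j _ => mul_le_mul_right (ball_ge (R j) hr0.le) _
    have h3 : ∫⁻ y, φ y ^ (3 / 2 : ℝ) * ∫⁻ x in Metric.ball (0 : E3) r, ‖x - y‖ₑ⁻¹ ≤
        A * ENNReal.ofReal (2 * Real.pi * r ^ 2) := by
      rw [hA, ← lintegral_mul_const _ hmeas]
      exact lintegral_mono fun y => mul_le_mul_right (ball_le y hr0.le) _
    have h4 : ∫⁻ x in Metric.ball (0 : E3) r, φ x ≤
        (A + ENNReal.ofReal (4 / 3 * Real.pi)) * ENNReal.ofReal r := by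
      calc ∫⁻ x in Metric.ball (0 : E3) r, φ x ≤
          ∫⁻ x in Metric.ball (0 : E3) r, (ENNReal.ofReal r * φ x ^ (3 / 2 : ℝ) + ENNReal.ofReal ((r ^ 2)⁻¹)) :=
            lintegral_mono fun x => young_le hr0 _
        _ = ENNReal.ofReal r * (∫⁻ x in Metric.ball (0 : E3) r, φ x ^ (3 / 2 : ℝ)) +
            ENNReal.ofReal ((r ^ 2)⁻¹) * volume (Metric.ball (0 : E3) r) := by
            rw [lintegral_add_right _ measurable_const, lintegral_const_mul _ hmeas, lintegral_const,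
              Measure.restrict_apply_univ]
        _ ≤ ENNReal.ofReal r * A + ENNReal.ofReal (4 / 3 * Real.pi) * ENNReal.ofReal r := by
            apply add_le_add
            · gcongr
              exact setLIntegral_le_lintegral _ _
            · rw [volume_ball_real 0 hr0.le, ← ENNReal.ofReal_mul (by positivity),
                ← ENNReal.ofReal_mul (by positivity)]
              apply ENNReal.ofReal_le_ofReal
              apply le_of_eq
              field_simp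
        _ = _ := by ring
    have h5 : ∑ j, ENNReal.ofReal (z j) * ENNReal.ofReal (2 * Real.pi * (r ^ 2 - ‖R j‖ ^ 2)) =
        ENNReal.ofReal (2 * Real.pi * r ^ 2) *
          ∑ j, ENNReal.ofReal (z j) * ENNReal.ofReal (1 - ‖R j‖ ^ 2 / r ^ 2) := by
      rw [Finset.mul_sum]
      refine Finset.sum_congr rfl fun j _ => ?_
      rw [ofReal_two_pi _ hr0]
      ring
    have hp : ENNReal.ofReal (2 * Real.pi * r ^ 2) ≠ 0 := by
      have : 0 < 2 * Real.pi * r ^ 2 := by positivity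
      simpa using this
    have h6 : ENNReal.ofReal r = ENNReal.ofReal (2 * Real.pi * r ^ 2) * ENNReal.ofReal ((2 * Real.pi * r)⁻¹) := by
      rw [← ENNReal.ofReal_mul (by positivity)]
      congr 1
      field_simp
    have h7 := (h5 ▸ h2).trans (h1.trans (add_le_add h4 h3))
    have h8 : (A + ENNReal.ofReal (4 / 3 * Real.pi)) * ENNReal.ofReal r + A * ENNReal.ofReal (2 * Real.pi * r ^ 2)
        = ENNReal.ofReal (2 * Real.pi * r ^ 2) * (A + (A + ENNReal.ofReal (4 / 3 * Real.pi)) *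
          ENNReal.ofReal ((2 * Real.pi * r)⁻¹)) := by
      rw [h6]; ring
    rw [h8] at h7
    exact (ENNReal.mul_le_mul_iff_right hp ENNReal.ofReal_ne_top).1 h7
  have hN : Tendsto (fun n : ℕ => (n : ℝ) + 1) atTop atTop :=
    tendsto_atTop_add_const_right _ _ tendsto_natCast_atTop_atTop
  have hl : Tendsto (fun n : ℕ => ∑ j, ENNReal.ofReal (z j) * ENNReal.ofReal (1 - ‖R j‖ ^ 2 / ((n : ℝ) + 1) ^ 2))
      atTop (𝓝 (∑ j, ENNReal.ofReal (z j))) := by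
    have : (∑ j, ENNReal.ofReal (z j)) = ∑ j, ENNReal.ofReal (z j) * ENNReal.ofReal (1 - 0) := by simp
    rw [this]
    apply tendsto_finsetSum
    intro j _
    apply ENNReal.Tendsto.const_mul _ (Or.inr ENNReal.ofReal_ne_top)
    apply ENNReal.tendsto_ofReal
    apply Tendsto.sub tendsto_const_nhds
    apply Tendsto.div_atTop tendsto_const_nhds
    exact (tendsto_pow_atTop two_ne_zero).comp hN
  have hr : Tendsto (fun n : ℕ => A + (A + ENNReal.ofReal (4 / 3 * Real.pi)) * ENNReal.ofReal ((2 * Real.pi * ((n : ℝ) + 1))⁻¹))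
      atTop (𝓝 A) := by
    have e : A = A + (A + ENNReal.ofReal (4 / 3 * Real.pi)) * ENNReal.ofReal 0 := by simp
    conv => rhs; rw [e]
    apply Tendsto.const_add
    apply ENNReal.Tendsto.const_mul _ (Or.inr (ENNReal.add_ne_top.2 ⟨hfin, ENNReal.ofReal_ne_top⟩))
    apply ENNReal.tendsto_ofReal
    apply Tendsto.inv_tendsto_atTop
    exact Tendsto.const_mul_atTop (by positivity) hN
  exact le_of_tendsto_of_tendsto' hl hr key

theorem int52 {φ : E3 → ℝ≥0∞} (hφ : Measurable φ) (hfin : ∫⁻ x, φ x ^ (3 / 2 : ℝ) ≠ ∞)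
    (h : ∀ᵐ x, φ x ≤ VE R z x) : ∫⁻ x, φ x ^ (5 / 2 : ℝ) ≠ ∞ := by
  have hV := VE_loc R z (m := 1) one_pos
  have hm : MeasurableSet {x | ((1 : ℝ≥0) : ℝ≥0∞) < VE R z x} :=
    measurableSet_lt measurable_const (measurable_VE R z)
  have hb : ∫⁻ x, φ x ^ (5 / 2 : ℝ) ≤ ∫⁻ x, ({x | ((1 : ℝ≥0) : ℝ≥0∞) < VE R z x}.indicator
      (fun x => VE R z x ^ (5 / 2 : ℝ)) x + φ x ^ (3 / 2 : ℝ)) := by
    apply lintegral_mono_ae
    filter_upwards [h] with x hx
    by_cases h1 : x ∈ {x | ((1 : ℝ≥0) : ℝ≥0∞) < VE R z x}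
    · rw [indicator_of_mem h1]
      exact (ENNReal.rpow_le_rpow hx (by norm_num)).trans le_self_add
    · refine le_trans ?_ le_add_self
      simp only [mem_ofPred_eq, not_lt, ENNReal.coe_one] at h1
      exact ENNReal.rpow_le_rpow_of_exponent_ge (hx.trans h1) (by norm_num)
  refine ne_top_of_le_ne_top ?_ hb
  rw [lintegral_add_right _ (by fun_prop), lintegral_indicator hm]
  exact ENNReal.add_ne_top.2 ⟨hV, hfin⟩

end Pool.Agent.H23.TF
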