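import Pool.Agent.H23.TF.S3_Exist
import Pool.Agent.H23.TF.S4_Mass
import Pool.Agent.H23.TF.A4_Pos

/-! Module S5: the real-valued form: existence, uniqueness, neutrality, comparison.

`exists_sol'`: `φ x = (VE R z x - w x).toReal`, `w` from `ex_w`; `ρ = φ^(3/2)`, `ENNReal.ofReal (ρ x) = (VE - w)^(3/2)` a.e., `mass_le`, `int52`, `neutral`;
`G ρ x = (GG (ofReal ρ) x).toReal` for `ρ ≥ 0` measurable (`integral_eq_lintegral_of_nonneg_ae`), finite a.e. The comparison statements SUB and SUPER are transferred to reals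
(`ψ, s ≥ 0`; `s` may be replaced by a measurable representative, `Ld s` makes `GG (ofReal s)` finite everywhere by `Ld.int_div`).
`sol_unique`: `φ-φ' = -G(ρ-ρ')` a.e. so `∫ (ρ-ρ')(φ-φ') = -∫ (ρ-ρ') G(ρ-ρ') ≤ 0` by `pos`, while `(ρ-ρ')(φ-φ') ≥ 0` with equality iff `φ = φ'`.
`sub_le`, `le_super`, `Sol.mass`: from `exists_sol'` and `sol_unique`. -/

open MeasureTheory Set Filter Topology
open scoped ENNReal NNReal

namespace Pool.Agent.H23.TF

theorem gg_toReal (x : E3) : (gg x).toReal = ‖x‖⁻¹ := by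
  unfold gg
  rw [ENNReal.toReal_inv, toReal_enorm]

theorem gg_eq_ofReal {x : E3} (hx : x ≠ 0) : gg x = ENNReal.ofReal ‖x‖⁻¹ := by
  unfold gg
  rw [ENNReal.ofReal_inv_of_pos (norm_pos_iff.2 hx), ofReal_norm]

theorem ae_ne (x : E3) : ∀ᵐ y : E3, y ≠ x := by
  rw [ae_iff]
  simp

theorem G_toReal {f : E3 → ℝ≥0∞} (hf : Measurable f) (hfin : ∀ᵐ y, f y ≠ ∞) (x : E3) :
    G (fun y => (f y).toReal) x = (GG f x).toReal := by
  unfold G GG
  rw [← integral_toReal]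
  · refine integral_congr_ae (Eventually.of_forall fun y => ?_)
    simp only [ENNReal.toReal_mul, gg_toReal]
    rw [div_eq_mul_inv, mul_comm]
  · have := measurable_gg
    fun_prop
  · filter_upwards [hfin, ae_ne x] with y hy hxy
    rw [gg_eq_ofReal (sub_ne_zero.2 hxy.symm)]
    exact ENNReal.mul_lt_top ENNReal.ofReal_lt_top (lt_top_iff_ne_top.2 hy)

theorem GG_ofReal {s : E3 → ℝ} (hs : Ld s) (hs0 : ∀ᵐ x, 0 ≤ s x) (x : E3) :
    GG (fun y => ENNReal.ofReal (s y)) x = ENNReal.ofReal (G s x) := by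
  unfold GG G
  rw [ofReal_integral_eq_lintegral_ofReal (hs.int_div x)]
  · refine lintegral_congr_ae ?_
    filter_upwards [ae_ne x, hs0] with y hy h0
    rw [gg_eq_ofReal (sub_ne_zero.2 hy.symm), ← ENNReal.ofReal_mul (by positivity)]
    congr 1
    rw [div_eq_mul_inv, mul_comm]
  · filter_upwards [hs0] with y h0
    exact div_nonneg h0 (norm_nonneg _)

theorem V_nonneg {k : ℕ} (R : Fin k → E3) {z : Fin k → ℝ} (hz : ∀ i, 0 ≤ z i) (x : E3) : 0 ≤ V R z x :=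
  Finset.sum_nonneg fun j _ => div_nonneg (hz j) (norm_nonneg _)

/-- replace `s` by a measurable representative -/
theorem exists_rep {s : E3 → ℝ} (hs : Ld s) (hs0 : ∀ᵐ x, 0 ≤ s x) :
    ∃ t : E3 → ℝ, Measurable t ∧ t =ᵐ[volume] s ∧
      ∀ x, GG (fun y => ENNReal.ofReal (t y)) x = ENNReal.ofReal (G s x) := by
  refine ⟨hs.i1.aestronglyMeasurable.mk s, hs.i1.aestronglyMeasurable.stronglyMeasurable_mk.measurable,
    hs.i1.aestronglyMeasurable.ae_eq_mk.symm, fun x => ?_⟩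
  have e := hs.i1.aestronglyMeasurable.ae_eq_mk
  rw [← GG_ofReal hs hs0 x]
  refine congrFun (GG_congr ?_) x
  filter_upwards [e] with y hy
  rw [hy]

theorem exists_sol' {k : ℕ} (R : Fin k → E3) (z : Fin k → ℝ) (hz : ∀ i, 0 ≤ z i) :
    ∃ φ : E3 → ℝ, Sol (V R z) φ ∧ (∫ x, φ x ^ (3 / 2 : ℝ)) = ∑ j, z j ∧
      (∀ z' : Fin k → ℝ, (∀ i, 0 ≤ z' i) → (∀ i, z' i ≤ z i) →
        ∀ ψ s : E3 → ℝ, Measurable ψ → (∀ x, 0 ≤ ψ x) → Ld s → (∀ᵐ x, ψ x ^ (3 / 2 : ℝ) ≤ s x) →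
          (∀ᵐ x, ψ x = V R z' x - G s x) → ∀ᵐ x, ψ x ≤ φ x) ∧
      (∀ χ s : E3 → ℝ, Measurable χ → (∀ x, 0 ≤ χ x) → Ld s → (∀ᵐ x, 0 ≤ s x) →
          (∀ᵐ x, s x ≤ χ x ^ (3 / 2 : ℝ)) →
          (∀ᵐ x, χ x = V R z x - G s x) → ∀ᵐ x, φ x ≤ χ x) := by
  obtain ⟨w, hwm, hwle, hweq, hsub, hsuper⟩ := ex_w R z hz
  obtain ⟨Φ, hΦ⟩ : ∃ Φ : E3 → ℝ≥0∞, Φ = fun x => VE R z x - w x := ⟨_, rfl⟩
  have hΦx : ∀ x, VE R z x - w x = Φ x := fun x => by rw [hΦ]
  have hΦm : Measurable Φ := hΦ ▸ (measurable_VE R z).sub hwm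
  have hΦle : ∀ x, Φ x ≤ VE R z x := fun x => by rw [← hΦx]; exact tsub_le_self
  clear hΦ
  simp only [hΦx] at hweq hsub hsuper
  have hΦfin : ∀ᵐ x, Φ x ≠ ∞ := by
    filter_upwards [VE_fin_ae R z] with x hx
    exact ne_top_of_le_ne_top hx (hΦle x)
  have hmass1 : ∫⁻ x, Φ x ^ (3 / 2 : ℝ) ≤ ∑ j, ENNReal.ofReal (z j) := by
    apply mass_le R z (by fun_prop)
    filter_upwards [hweq] with x hx
    rw [← hx]
    exact hwle x
  have hsumfin : ∑ j, ENNReal.ofReal (z j) ≠ ∞ := by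
    simp [ENNReal.sum_eq_top]
  have hfin32 : ∫⁻ x, Φ x ^ (3 / 2 : ℝ) ≠ ∞ := ne_top_of_le_ne_top hsumfin hmass1
  have hmass2 : ∑ j, ENNReal.ofReal (z j) ≤ ∫⁻ x, Φ x ^ (3 / 2 : ℝ) := by
    apply neutral R z hΦm hfin32
    filter_upwards [hweq] with x hx
    rw [← hx, ← hΦx]
    exact le_tsub_add
  have hfin52 : ∫⁻ x, Φ x ^ (5 / 2 : ℝ) ≠ ∞ := int52 R z hΦm hfin32 (Eventually.of_forall hΦle)
  have e32 : ∀ x, (Φ x).toReal ^ (3 / 2 : ℝ) = (Φ x ^ (3 / 2 : ℝ)).toReal := fun x => ENNReal.toReal_rpow _ _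
  have e52 : ∀ x, (Φ x).toReal ^ (5 / 2 : ℝ) = (Φ x ^ (5 / 2 : ℝ)).toReal := fun x => ENNReal.toReal_rpow _ _
  have hΦ32fin : ∀ᵐ x, Φ x ^ (3 / 2 : ℝ) ≠ ∞ := by
    filter_upwards [hΦfin] with x hx
    exact ENNReal.rpow_ne_top_of_nonneg (by norm_num) hx
  refine ⟨fun x => (Φ x).toReal, ⟨by fun_prop, fun x => ENNReal.toReal_nonneg, ?_, ?_, ?_⟩, ?_, ?_, ?_⟩
  · simp only [e32]
    exact integrable_toReal_of_lintegral_ne_top (by fun_prop) hfin32
  · simp only [e52]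
    exact integrable_toReal_of_lintegral_ne_top (by fun_prop) hfin52
  · filter_upwards [hweq, VE_fin_ae R z, VE_eq R z hz] with x hx h1 h2
    simp only [e32]
    rw [G_toReal (f := fun y => Φ y ^ (3 / 2 : ℝ)) (by fun_prop) hΦ32fin x, ← hx, ← hΦx,
      ENNReal.toReal_sub_of_le (hwle x) h1, h2, ENNReal.toReal_ofReal (V_nonneg R hz x)]
  · simp only [e32]
    rw [integral_toReal (by fun_prop) (by filter_upwards [hΦ32fin] with x hx using lt_top_iff_ne_top.2 hx),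
      le_antisymm hmass1 hmass2, ENNReal.toReal_sum (fun _ _ => ENNReal.ofReal_ne_top)]
    exact Finset.sum_congr rfl fun j _ => ENNReal.toReal_ofReal (hz j)
  · intro z' hz' hzz ψ s hψm hψ0 hs hsψ hψ
    have hs0 : ∀ᵐ x, 0 ≤ s x := by
      filter_upwards [hsψ] with x hx
      exact (Real.rpow_nonneg (hψ0 x) _).trans hx
    obtain ⟨t, htm, hts, ht⟩ := exists_rep hs hs0
    have h1 := hsub z' (z - z') hz' (fun i => by simpa using hzz i) (by abel)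
      (fun x => ENNReal.ofReal (ψ x)) (fun x => ENNReal.ofReal (t x)) (by fun_prop) (by fun_prop)
      (by
        filter_upwards [hψ, VE_eq R z' hz'] with x hx h2
        rw [ht x, ← ENNReal.ofReal_add (hψ0 x) (G_nonneg hs0 x), h2]
        congr 1
        linarith)
      (by
        filter_upwards [hsψ, hts] with x hx h2
        rw [ENNReal.ofReal_rpow_of_nonneg (hψ0 x) (by norm_num), h2]
        exact ENNReal.ofReal_le_ofReal hx)
    filter_upwards [h1, hΦfin] with x hx h2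
    exact (ENNReal.ofReal_le_iff_le_toReal h2).1 hx
  · intro χ s hχm hχ0 hs hs0 hsχ hχ
    obtain ⟨t, htm, hts, ht⟩ := exists_rep hs hs0
    have h1 := hsuper (fun x => ENNReal.ofReal (χ x)) (fun x => ENNReal.ofReal (t x)) (by fun_prop) (by fun_prop)
      (by
        filter_upwards [hχ, VE_eq R z hz] with x hx h2
        rw [ht x, ← ENNReal.ofReal_add (hχ0 x) (G_nonneg hs0 x), h2]
        congr 1
        linarith)
      (by
        filter_upwards [hsχ, hts] with x hx h2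
        rw [ENNReal.ofReal_rpow_of_nonneg (hχ0 x) (by norm_num), h2]
        exact ENNReal.ofReal_le_ofReal hx)
    filter_upwards [h1] with x hx
    exact ENNReal.toReal_le_of_le_ofReal (hχ0 x) hx

theorem sol_unique {W φ φ' : E3 → ℝ} (h : Sol W φ) (h' : Sol W φ') : φ =ᵐ[volume] φ' := by
  set η : E3 → ℝ := fun x => φ x ^ (3 / 2 : ℝ) - φ' x ^ (3 / 2 : ℝ) with hη
  have hLd : Ld η := h.ld.sub h'.ld
  have e : ∀ᵐ x, G η x = -(φ x - φ' x) := by
    filter_upwards [h.eq, h'.eq] with x h1 h2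
    rw [hη, G_sub h.ld h'.ld, h1, h2]
    ring
  have hsign : ∀ x, 0 ≤ η x * (φ x - φ' x) := by
    intro x
    rcases le_total (φ x) (φ' x) with h1 | h1
    · apply mul_nonneg_of_nonpos_of_nonpos
      · have := Real.rpow_le_rpow (h.nonneg x) h1 (by norm_num : (0 : ℝ) ≤ 3 / 2)
        simp only [hη]; linarith
      · linarith
    · apply mul_nonneg
      · have := Real.rpow_le_rpow (h'.nonneg x) h1 (by norm_num : (0 : ℝ) ≤ 3 / 2)
        simp only [hη]; linarith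
      · linarith
  have hint := hLd.int_mul_G hLd
  have hnn : 0 ≤ᵐ[volume] fun x => -(η x * G η x) := by
    filter_upwards [e] with x hx
    rw [hx]
    have := hsign x
    simp only [Pi.zero_apply]
    linarith
  have hz : ∫ x, -(η x * G η x) = 0 := by
    apply le_antisymm
    · rw [integral_neg]
      have := pos hLd
      linarith
    · exact integral_nonneg_of_ae hnn
  have h0 := (integral_eq_zero_iff_of_nonneg_ae hnn hint.neg).1 hz
  filter_upwards [h0, e] with x hx he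
  rw [he] at hx
  have hx' : η x * (φ x - φ' x) = 0 := by
    have : -(η x * -(φ x - φ' x)) = 0 := hx
    linarith
  rcases mul_eq_zero.1 hx' with h1 | h1
  · have h2 : φ x ^ (3 / 2 : ℝ) = φ' x ^ (3 / 2 : ℝ) := by
      simp only [hη] at h1; linarith
    exact (Real.rpow_left_inj (h.nonneg x) (h'.nonneg x) (by norm_num)).1 h2
  · linarith

theorem sub_le {k : ℕ} {R : Fin k → E3} {z z' : Fin k → ℝ} (hz' : ∀ i, 0 ≤ z' i) (hzz : ∀ i, z' i ≤ z i)
    {φ : E3 → ℝ} (hφ : Sol (V R z) φ) {ψ s : E3 → ℝ} (hψm : Measurable ψ) (hψ0 : ∀ x, 0 ≤ ψ x) (hs : Ld s)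
    (hsψ : ∀ᵐ x, ψ x ^ (3 / 2 : ℝ) ≤ s x) (hψ : ∀ᵐ x, ψ x = V R z' x - G s x) : ∀ᵐ x, ψ x ≤ φ x := by
  obtain ⟨φ', h1, -, h3, -⟩ := exists_sol' R z (fun i => (hz' i).trans (hzz i))
  filter_upwards [h3 z' hz' hzz ψ s hψm hψ0 hs hsψ hψ, sol_unique h1 hφ] with x hx hx'
  rw [← hx']; exact hx

theorem le_super {k : ℕ} {R : Fin k → E3} {z : Fin k → ℝ} (hz : ∀ i, 0 ≤ z i)
    {φ : E3 → ℝ} (hφ : Sol (V R z) φ) {χ s : E3 → ℝ} (hχm : Measurable χ) (hχ0 : ∀ x, 0 ≤ χ x) (hs : Ld s)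
    (hs0 : ∀ᵐ x, 0 ≤ s x) (hsχ : ∀ᵐ x, s x ≤ χ x ^ (3 / 2 : ℝ)) (hχ : ∀ᵐ x, χ x = V R z x - G s x) :
    ∀ᵐ x, φ x ≤ χ x := by
  obtain ⟨φ', h1, -, -, h4⟩ := exists_sol' R z hz
  filter_upwards [h4 χ s hχm hχ0 hs hs0 hsχ hχ, sol_unique h1 hφ] with x hx hx'
  rw [← hx']; exact hx

theorem Sol.mass {k : ℕ} {R : Fin k → E3} {z : Fin k → ℝ} (hz : ∀ i, 0 ≤ z i)
    {φ : E3 → ℝ} (hφ : Sol (V R z) φ) : (∫ x, φ x ^ (3 / 2 : ℝ)) = ∑ j, z j := by
  obtain ⟨φ', h1, h2, -, -⟩ := exists_sol' R z hz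
  rw [← h2]
  exact integral_congr_ae (by filter_upwards [sol_unique hφ h1] with x hx; rw [hx])

end Pool.Agent.H23.TF
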