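import Pool.Agent.H23.TF.K0_Kv
import Pool.Agent.H23.TF.N3_Cons
import Pool.Agent.H23.TF.N3b_Somm

/-! Module T1: atoms (section 8).  `atom a t` = solution for one nucleus at `a` of charge `t`.

`atom_radial`: `φ̃(x) = t/‖x-a‖ - Gρ(x)`; for a linear isometry `L`, `x ↦ φ(a + L(x-a))` is again a solution, so `ρ(a+L(x-a)) = ρ(x)` a.e. and `φ̃(a+Lx) = φ̃(a+x)`
for ALL `x ≠ 0`, all `L`; two vectors of the same norm are exchanged by a reflection; `h(r) = max (φ̃(a + r e₀)) 0` (measurable by `measurable_G`).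
`atom_le`: `A = t^(1/3)`, `G_somm`, `le_super` with `χ(x) = A³/(‖x-a‖(1+A‖x-a‖)³)`, `s = (3/π)A⁵/(‖x-a‖(1+A‖x-a‖)⁵) ≤ χ^(3/2)`
(iff `(3/π)(A r)^(1/2) ≤ (1+A r)^(1/2)`), and `χ ≤ ‖x-a‖^(-4)`. -/

open MeasureTheory Set Filter Topology
open scoped ENNReal NNReal

namespace Pool.Agent.H23.TF

/-- the atomic potential -/
noncomputable def atom (a : E3) (t : ℝ) : E3 → ℝ := sol (fun _ : Fin 1 => a) (fun _ => t)

theorem V_atom (a : E3) (t : ℝ) (x : E3) : V (fun _ : Fin 1 => a) (fun _ => t) x = t / ‖x - a‖ := by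
  simp [V]

theorem atom_sol (a : E3) {t : ℝ} (ht : 0 ≤ t) : Sol (fun x => t / ‖x - a‖) (atom a t) := by
  have h := sol_spec (fun _ : Fin 1 => a) (z := fun _ => t) (fun _ => ht)
  have e : V (fun _ : Fin 1 => a) (fun _ => t) = fun x => t / ‖x - a‖ := funext (V_atom a t)
  rw [e] at h
  exact h

theorem atom_mass (a : E3) {t : ℝ} (ht : 0 ≤ t) : ∫ x, atom a t x ^ (3 / 2 : ℝ) = t := by
  have h := Sol.mass (z := fun _ : Fin 1 => t) (fun _ => ht) (sol_spec (fun _ : Fin 1 => a) (fun _ => ht))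
  simpa [atom] using h

/-- rigid motion about `a` -/
private noncomputable def rm (a : E3) (L : E3 ≃ₗᵢ[ℝ] E3) (x : E3) : E3 := a + L (x - a)

private lemma rm_mp (a : E3) (L : E3 ≃ₗᵢ[ℝ] E3) : MeasurePreserving (rm a L) volume volume := by
  have h1 : MeasurePreserving (fun x : E3 => x - a) volume volume := measurePreserving_sub_right _ a
  have h2 : MeasurePreserving L volume volume := L.measurePreserving
  have h3 : MeasurePreserving (fun x : E3 => a + x) volume volume := measurePreserving_add_left _ a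
  exact h3.comp (h2.comp h1)

private lemma rm_inv (a : E3) (L : E3 ≃ₗᵢ[ℝ] E3) (x : E3) : rm a L.symm (rm a L x) = x := by
  unfold rm
  simp

private lemma rm_inv' (a : E3) (L : E3 ≃ₗᵢ[ℝ] E3) (x : E3) : rm a L (rm a L.symm x) = x := by
  unfold rm
  simp

/-- as a measurable equivalence -/
private noncomputable def rmE (a : E3) (L : E3 ≃ₗᵢ[ℝ] E3) : E3 ≃ᵐ E3 where
  toFun := rm a L
  invFun := rm a L.symm
  left_inv := rm_inv a L
  right_inv := rm_inv' a L
  measurable_toFun := (rm_mp a L).measurable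
  measurable_invFun := (rm_mp a L.symm).measurable

private lemma rm_norm (a : E3) (L : E3 ≃ₗᵢ[ℝ] E3) (x : E3) : ‖rm a L x - a‖ = ‖x - a‖ := by
  unfold rm
  rw [add_sub_cancel_left, L.norm_map]

private lemma rm_dist (a : E3) (L : E3 ≃ₗᵢ[ℝ] E3) (x y : E3) :
    ‖rm a L x - rm a L y‖ = ‖x - y‖ := by
  unfold rm
  rw [add_sub_add_left_eq_sub, ← map_sub, L.norm_map]
  congr 1
  abel

private lemma integral_rm (a : E3) (L : E3 ≃ₗᵢ[ℝ] E3) (f : E3 → ℝ) :
    ∫ x, f (rm a L x) = ∫ x, f x :=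
  (rm_mp a L).integral_comp (rmE a L).measurableEmbedding f

private lemma G_rm (a : E3) (L : E3 ≃ₗᵢ[ℝ] E3) (f : E3 → ℝ) (x : E3) :
    G (fun y => f (rm a L y)) x = G f (rm a L x) := by
  unfold G
  rw [← integral_rm a L (fun y => f y / ‖rm a L x - y‖)]
  simp only [rm_dist]

private lemma atom_rm (a : E3) {t : ℝ} (ht : 0 ≤ t) (L : E3 ≃ₗᵢ[ℝ] E3) :
    (fun x => atom a t (rm a L x)) =ᵐ[volume] atom a t := by
  have h := atom_sol a ht
  have hmp := rm_mp a L
  refine sol_unique (W := fun x => t / ‖x - a‖) ⟨h.meas.comp hmp.measurable,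
    fun x => h.nonneg _, ?_, ?_, ?_⟩ h
  · exact hmp.integrable_comp_of_integrable h.i1
  · exact hmp.integrable_comp_of_integrable h.i2
  · filter_upwards [hmp.quasiMeasurePreserving.ae h.eq] with x hx
    rw [hx, rm_norm, ← G_rm]

theorem atom_radial (a : E3) {t : ℝ} (ht : 0 ≤ t) :
    ∃ h : ℝ → ℝ, Measurable h ∧ (∀ r, 0 ≤ h r) ∧ ∀ᵐ x, atom a t x = h ‖x - a‖ := by
  have hs := atom_sol a ht
  set ρ : E3 → ℝ := fun y => atom a t y ^ (3 / 2 : ℝ) with hρ
  set e0 : E3 := EuclideanSpace.single 0 1 with he0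
  have hρm : Measurable ρ := hs.meas.pow_const _
  set F : E3 → ℝ := fun x => t / ‖x - a‖ - G ρ x with hF
  have hFm : Measurable F := by
    have := measurable_G hρm
    have h2 : Measurable (fun x : E3 => t / ‖x - a‖) := by fun_prop
    exact h2.sub this
  have hinv : ∀ (L : E3 ≃ₗᵢ[ℝ] E3) (x : E3), F (rm a L x) = F x := by
    intro L x
    have h1 : G (fun y => ρ (rm a L y)) = G ρ := by
      apply G_congr
      filter_upwards [atom_rm a ht L] with y hy
      simp only [hρ]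
      rw [hy]
    simp only [hF]
    rw [rm_norm, ← G_rm, h1]
  have hsame : ∀ x y : E3, ‖x - a‖ = ‖y - a‖ → F x = F y := by
    intro x y hxy
    have h1 := Submodule.reflection_sub hxy
    have h2 := hinv ((ℝ ∙ ((x - a) - (y - a)))ᗮ.reflection) x
    unfold rm at h2
    rw [h1] at h2
    rw [← h2]
    congr 1
    abel
  refine ⟨fun r => max (F (a + r • e0)) 0, ?_, fun r => le_max_right _ _, ?_⟩
  · refine (hFm.comp ?_).max measurable_const
    fun_prop
  · filter_upwards [hs.eq] with x hx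
    have h1 : F (a + ‖x - a‖ • e0) = F x := by
      apply hsame
      rw [add_sub_cancel_left, norm_smul, he0]
      simp
    have h2 : F x = atom a t x := hx.symm
    rw [h1, h2, max_eq_left (hs.nonneg x)]

theorem atom_le (a : E3) {t : ℝ} (ht : 0 < t) : ∀ᵐ x, atom a t x ≤ (‖x - a‖ ^ (4 : ℝ))⁻¹ := by
  set A : ℝ := t ^ (1 / 3 : ℝ) with hA
  have hA0 : 0 < A := Real.rpow_pos_of_pos ht _
  have hA3 : A ^ 3 = t := by
    rw [hA, ← Real.rpow_natCast, ← Real.rpow_mul ht.le]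
    norm_num
  obtain ⟨hLd, hG⟩ := G_somm hA0 a
  have h := sol_spec (fun _ : Fin 1 => a) (z := fun _ => t) (fun _ => ht.le)
  have hne : ∀ᵐ x : E3, x ≠ a := by
    rw [ae_iff]
    simp
  have hle : ∀ᵐ x, atom a t x ≤ A ^ 3 / (‖x - a‖ * (1 + A * ‖x - a‖) ^ 3) := by
    refine le_super (z := fun _ : Fin 1 => t) (fun _ => ht.le) h
      (s := fun y => 3 / Real.pi * A ^ 5 / (‖y - a‖ * (1 + A * ‖y - a‖) ^ 5)) ?_ ?_ hLd ?_ ?_ ?_
    · fun_prop
    · intro x
      positivity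
    · exact ae_of_all _ fun x => by positivity
    · filter_upwards [hne] with x hx
      have hr : 0 < ‖x - a‖ := norm_pos_iff.2 (sub_ne_zero.2 hx)
      set r := ‖x - a‖ with hrdef
      have hu : 0 < 1 + A * r := by positivity
      set χ := A ^ 3 / (r * (1 + A * r) ^ 3) with hχ
      have hχ0 : 0 < χ := by positivity
      have e1 : χ ^ (3 / 2 : ℝ) = Real.sqrt (χ ^ 3) := by
        rw [Real.sqrt_eq_rpow, ← Real.rpow_natCast, ← Real.rpow_mul hχ0.le]
        norm_num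
      rw [e1]
      apply Real.le_sqrt_of_sq_le
      have hpi : 9 ≤ Real.pi ^ 2 := by nlinarith [Real.pi_gt_three]
      have hpi0 : 0 < Real.pi := Real.pi_pos
      have e2 : (3 / Real.pi * A ^ 5 / (r * (1 + A * r) ^ 5)) ^ 2 =
          9 / Real.pi ^ 2 * (A ^ 9 / (r ^ 3 * (1 + A * r) ^ 9)) * (A * r / (1 + A * r)) := by
        field_simp
        norm_num
      have e3 : χ ^ 3 = A ^ 9 / (r ^ 3 * (1 + A * r) ^ 9) := by
        rw [hχ]
        field_simp
      rw [e2, e3]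
      have h1 : 9 / Real.pi ^ 2 ≤ 1 := by
        rw [div_le_one (by positivity)]
        exact hpi
      have h2 : A * r / (1 + A * r) ≤ 1 := by
        rw [div_le_one hu]
        linarith
      have h3 : 0 ≤ A ^ 9 / (r ^ 3 * (1 + A * r) ^ 9) := by positivity
      have h4 : 0 ≤ A * r / (1 + A * r) := by positivity
      calc 9 / Real.pi ^ 2 * (A ^ 9 / (r ^ 3 * (1 + A * r) ^ 9)) * (A * r / (1 + A * r))
          ≤ 1 * (A ^ 9 / (r ^ 3 * (1 + A * r) ^ 9)) * 1 := by gcongr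
        _ = _ := by ring
    · filter_upwards [hne] with x hx
      rw [hG x hx, V_atom, hA3]
      ring
  filter_upwards [hle, hne] with x hx hxa
  refine hx.trans ?_
  have hr : 0 < ‖x - a‖ := norm_pos_iff.2 (sub_ne_zero.2 hxa)
  have e1 : ‖x - a‖ ^ (4 : ℝ) = ‖x - a‖ ^ 4 := by
    rw [← Real.rpow_natCast]
    norm_num
  rw [e1, div_le_iff₀ (by positivity), inv_mul_eq_div, le_div_iff₀ (by positivity)]
  have h1 : (A * ‖x - a‖) ^ 3 ≤ (1 + A * ‖x - a‖) ^ 3 :=
    pow_le_pow_left₀ (by positivity) (by linarith) 3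
  calc A ^ 3 * ‖x - a‖ ^ 4 = ‖x - a‖ * (A * ‖x - a‖) ^ 3 := by ring
    _ ≤ ‖x - a‖ * (1 + A * ‖x - a‖) ^ 3 := mul_le_mul_of_nonneg_left h1 hr.le

end Pool.Agent.H23.TF
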