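import Pool.Agent.H23.TF.N4_Yuk

/-! Module Y1: calculus of the operators `J` and `GG` on `[0,∞]`-valued functions.
(`J κ f = lconvolution`; associativity `MeasureTheory.lconvolution_assoc` in Mathlib/Analysis/LConvolution.lean, or Tonelli directly.) -/

open MeasureTheory Set Filter Topology
open scoped ENNReal NNReal

namespace Pool.Agent.H23.TF

theorem measurable_gg : Measurable gg := by
  unfold gg
  exact measurable_enorm.inv

theorem measurable_Yk (κ : ℝ) : Measurable (Yk κ) := by
  unfold Yk
  refine Measurable.mul ?_ measurable_enorm.inv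
  exact ((measurable_norm.const_mul κ).neg.exp).ennreal_ofReal

theorem measurable_jk (κ : ℝ) : Measurable (jk κ) := by
  unfold jk
  exact (measurable_Yk κ).const_mul _

variable {κ : ℝ} {f g : E3 → ℝ≥0∞}

theorem measurable_conv_aux {h : E3 → ℝ≥0∞} (hh : Measurable h) (hf : Measurable f) :
    Measurable (fun p : E3 × E3 => h (p.1 - p.2) * f p.2) :=
  (hh.comp (measurable_fst.sub measurable_snd)).mul (hf.comp measurable_snd)

theorem measurable_J (κ : ℝ) (hf : Measurable f) : Measurable (J κ f) :=
  (measurable_conv_aux (measurable_jk κ) hf).lintegral_prod_right'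

theorem measurable_GG (hf : Measurable f) : Measurable (GG f) :=
  (measurable_conv_aux measurable_gg hf).lintegral_prod_right'

theorem J_mono (h : f ≤ᵐ[volume] g) (x : E3) : J κ f x ≤ J κ g x := by
  unfold J
  apply lintegral_mono_ae
  filter_upwards [h] with y hy
  exact mul_le_mul_right hy _

theorem J_congr (h : f =ᵐ[volume] g) : J κ f = J κ g := by
  funext x
  unfold J
  apply lintegral_congr_ae
  filter_upwards [h] with y hy
  rw [hy]

theorem GG_mono (h : f ≤ᵐ[volume] g) (x : E3) : GG f x ≤ GG g x := by
  unfold GG
  apply lintegral_mono_ae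
  filter_upwards [h] with y hy
  exact mul_le_mul_right hy _

theorem GG_congr (h : f =ᵐ[volume] g) : GG f = GG g := by
  funext x
  unfold GG
  apply lintegral_congr_ae
  filter_upwards [h] with y hy
  rw [hy]

theorem measurable_slice {h : E3 → ℝ≥0∞} (hh : Measurable h) (hf : Measurable f) (x : E3) :
    Measurable (fun y => h (x - y) * f y) :=
  (hh.comp (measurable_const.sub measurable_id)).mul hf

theorem J_add (hf : Measurable f) (x : E3) : J κ (fun y => f y + g y) x = J κ f x + J κ g x := by
  unfold J
  rw [← lintegral_add_left (measurable_slice (measurable_jk κ) hf x)]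
  apply lintegral_congr
  intro y
  rw [mul_add]

theorem GG_add (hf : Measurable f) (x : E3) : GG (fun y => f y + g y) x = GG f x + GG g x := by
  unfold GG
  rw [← lintegral_add_left (measurable_slice measurable_gg hf x)]
  apply lintegral_congr
  intro y
  rw [mul_add]

theorem J_const_mul (c : ℝ≥0∞) (hf : Measurable f) (x : E3) :
    J κ (fun y => c * f y) x = c * J κ f x := by
  unfold J
  rw [← lintegral_const_mul _ (measurable_slice (measurable_jk κ) hf x)]
  apply lintegral_congr
  intro y
  rw [mul_left_comm]

theorem GG_const_mul (c : ℝ≥0∞) (hf : Measurable f) (x : E3) :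
    GG (fun y => c * f y) x = c * GG f x := by
  unfold GG
  rw [← lintegral_const_mul _ (measurable_slice measurable_gg hf x)]
  apply lintegral_congr
  intro y
  rw [mul_left_comm]

/-- translation -/
theorem J_sub (h : E3 → ℝ≥0∞) (a x : E3) : J κ (fun y => h (y - a)) x = J κ h (x - a) := by
  unfold J
  rw [← lintegral_sub_right_eq_self (fun y => jk κ (x - a - y) * h y) a]
  apply lintegral_congr
  intro y
  rw [sub_sub_sub_cancel_right]

/-- translation of the kernel -/
theorem J_gg_sub (a x : E3) : J κ (fun y => gg (y - a)) x = J κ gg (x - a) := J_sub gg a x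

theorem J_iterate_sub (n : ℕ) (a x : E3) :
    ((J κ)^[n] (fun y => gg (y - a))) x = ((J κ)^[n] gg) (x - a) := by
  induction n generalizing x with
  | zero => rfl
  | succ n ih =>
    rw [Function.iterate_succ_apply', Function.iterate_succ_apply',
      show (J κ)^[n] (fun y => gg (y - a)) = fun y => ((J κ)^[n] gg) (y - a) from funext ih, J_sub]

theorem ci_mul_jk (hκ : 0 < κ) (x : E3) : ci κ * jk κ x = Yk κ x := by
  unfold ci jk
  rw [← mul_assoc, ← ENNReal.ofReal_mul (by positivity)]
  have : 4 * Real.pi / κ ^ 2 * (κ ^ 2 / (4 * Real.pi)) = 1 := by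
    have h1 := Real.pi_pos
    field_simp
  rw [this, ENNReal.ofReal_one, one_mul]

/-- `G f = (4π/κ²) J f + J (G f)` (from `gg_eq` and Tonelli) -/
theorem GG_res (hκ : 0 < κ) (hf : Measurable f) (x : E3) :
    GG f x = ci κ * J κ f x + J κ (GG f) x := by
  have h1 : GG f x = ∫⁻ y, (ci κ * (jk κ (x - y) * f y) + J κ gg (x - y) * f y) := by
    unfold GG
    apply lintegral_congr
    intro y
    rw [gg_eq hκ, ← ci_mul_jk hκ, add_mul, mul_assoc]
  rw [h1, lintegral_add_left ((measurable_slice (measurable_jk κ) hf x).const_mul _),
    lintegral_const_mul _ (measurable_slice (measurable_jk κ) hf x)]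
  congr 1
  have h2 : ∀ y, J κ gg (x - y) * f y = ∫⁻ u, jk κ (x - u) * (gg (u - y) * f y) := by
    intro y
    rw [← J_gg_sub]
    unfold J
    rw [← lintegral_mul_const _ (measurable_slice (f := fun u => gg (u - y)) (measurable_jk κ)
      (measurable_gg.comp (measurable_id.sub measurable_const)) x)]
    apply lintegral_congr
    intro u
    rw [mul_assoc]
  rw [lintegral_congr h2, lintegral_lintegral_swap]
  · unfold J
    apply lintegral_congr
    intro u
    unfold GG
    rw [lintegral_const_mul _ (measurable_slice measurable_gg hf u)]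
  · apply Measurable.aemeasurable
    have m1 : Measurable (fun p : E3 × E3 => jk κ (x - p.2)) :=
      (measurable_jk κ).comp (measurable_const.sub measurable_snd)
    have m2 : Measurable (fun p : E3 × E3 => gg (p.2 - p.1)) :=
      measurable_gg.comp (measurable_snd.sub measurable_fst)
    have m3 : Measurable (fun p : E3 × E3 => f p.1) := hf.comp measurable_fst
    exact m1.mul (m2.mul m3)

theorem J_gg_le_gg (hκ : 0 < κ) (x : E3) : J κ gg x ≤ gg x := by
  conv_rhs => rw [gg_eq hκ x]
  exact le_add_self

end Pool.Agent.H23.TF
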