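import Pool.Agent.H23.TF.Y1_Res

/-! Module Y2: `J^n (1/|.|) → 0` off `0`, and `G f = (4π/κ²) ∑_{m≥1} J^m f`. -/

open MeasureTheory Set Filter Topology
open scoped ENNReal NNReal

namespace Pool.Agent.H23.TF

theorem J_iter_succ (κ : ℝ) (n : ℕ) (f : E3 → ℝ≥0∞) : (J κ)^[n + 1] f = J κ ((J κ)^[n] f) :=
  Function.iterate_succ_apply' _ _ _

theorem measurable_J_iter (κ : ℝ) (n : ℕ) {f : E3 → ℝ≥0∞} (hf : Measurable f) :
    Measurable ((J κ)^[n] f) := by
  induction n with
  | zero => simpa using hf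
  | succ n ih => rw [J_iter_succ]; exact measurable_J κ ih

theorem J_gg_anti {κ : ℝ} (hκ : 0 < κ) : Antitone (fun n => (J κ)^[n] gg) := by
  refine antitone_nat_of_succ_le fun n => ?_
  induction n with
  | zero => intro x; simpa using J_gg_le_gg hκ x
  | succ n ih =>
    intro x
    simp only [J_iter_succ κ (n + 1), J_iter_succ κ n]
    refine J_mono (Filter.Eventually.of_forall fun y => ?_) x
    have := ih y
    rwa [J_iter_succ] at this

theorem lintegral_jk_sub {κ : ℝ} (hκ : 0 < κ) (x : E3) : ∫⁻ y, jk κ (x - y) = 1 := by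
  rw [lintegral_sub_left_eq_self (fun y => jk κ y) x, lintegral_jk hκ]

theorem jk_ne_top (κ : ℝ) {x : E3} (hx : x ≠ 0) : jk κ x ≠ ∞ := by
  unfold jk Yk
  have : (‖x‖ₑ)⁻¹ ≠ ∞ := by
    rw [Ne, ENNReal.inv_eq_top]
    simpa using hx
  exact ENNReal.mul_ne_top ENNReal.ofReal_ne_top (ENNReal.mul_ne_top ENNReal.ofReal_ne_top this)

theorem jk_pos {κ : ℝ} (hκ : 0 < κ) (x : E3) : jk κ x ≠ 0 := by
  unfold jk Yk
  have h1 : ENNReal.ofReal (κ ^ 2 / (4 * Real.pi)) ≠ 0 := by
    rw [Ne, ENNReal.ofReal_eq_zero, not_le]; positivity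
  have h2 : ENNReal.ofReal (Real.exp (-(κ * ‖x‖))) ≠ 0 := by
    rw [Ne, ENNReal.ofReal_eq_zero, not_le]; exact Real.exp_pos _
  have h3 : (‖x‖ₑ)⁻¹ ≠ 0 := by
    rw [Ne, ENNReal.inv_eq_zero]; simp
  exact mul_ne_zero h1 (mul_ne_zero h2 h3)

/-- the limit of `J^n g` is (sub)invariant -/
theorem lim_le_J {κ : ℝ} (hκ : 0 < κ) (x : E3) :
    (⨅ n, ((J κ)^[n] gg) x) ≤ J κ (fun y => ⨅ n, ((J κ)^[n] gg) y) x := by
  have h1 : (⨅ n, ((J κ)^[n] gg) x) ≤ ⨅ n, ∫⁻ y, jk κ (x - y) * ((J κ)^[n + 1] gg) y := by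
    refine le_iInf fun n => ?_
    refine (iInf_le _ (n + 2)).trans (le_of_eq ?_)
    rw [J_iter_succ κ (n + 1)]
    rfl
  refine h1.trans ?_
  rw [← lintegral_iInf]
  · unfold J
    refine le_of_eq (lintegral_congr_ae ?_)
    have hx : ∀ᵐ y : E3, y ≠ x := by
      rw [ae_iff]; simp
    filter_upwards [hx] with y hy
    have hne : jk κ (x - y) ≠ ∞ := jk_ne_top κ (sub_ne_zero.2 (Ne.symm hy))
    rw [← ENNReal.mul_iInf_of_ne (jk_pos hκ _) hne]
    congr 1
    apply le_antisymm
    · refine le_iInf fun n => ?_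
      refine (iInf_le _ n).trans ?_
      exact J_gg_anti hκ (Nat.le_succ n) y
    · exact le_iInf fun n => iInf_le _ (n + 1)
  · intro n
    exact ((measurable_jk κ).comp (measurable_const.sub measurable_id)).mul
      (measurable_J_iter κ _ measurable_gg)
  · intro m n hmn y
    exact mul_le_mul_right (J_gg_anti hκ (Nat.add_le_add_right hmn 1) y) _
  · have : ∫⁻ y, jk κ (x - y) * ((J κ)^[0 + 1] gg) y ≤ ENNReal.ofReal κ := by
      calc ∫⁻ y, jk κ (x - y) * ((J κ)^[0 + 1] gg) y
          ≤ ∫⁻ y, jk κ (x - y) * ENNReal.ofReal κ := by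
            refine lintegral_mono fun y => mul_le_mul_right ?_ _
            simpa using J_gg_le hκ y
        _ = ENNReal.ofReal κ := by
            have hm : Measurable fun y : E3 => jk κ (x - y) :=
              (measurable_jk κ).comp (measurable_const.sub measurable_id)
            rw [lintegral_mul_const _ hm, lintegral_jk_sub hκ, one_mul]
    exact (this.trans_lt ENNReal.ofReal_lt_top).ne

theorem tendsto_J_gg {κ : ℝ} (hκ : 0 < κ) {x : E3} (hx : x ≠ 0) :
    Tendsto (fun n => ((J κ)^[n] gg) x) atTop (𝓝 0) := by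
  set L : E3 → ℝ≥0∞ := fun y => ⨅ n, ((J κ)^[n] gg) y with hL
  have hLx : Tendsto (fun n => ((J κ)^[n] gg) x) atTop (𝓝 (L x)) :=
    tendsto_atTop_iInf fun m n hmn => J_gg_anti hκ hmn x
  suffices h : (⨆ y, L y) = 0 by
    have : L x = 0 := le_antisymm (h ▸ le_iSup L x) bot_le
    rwa [this] at hLx
  by_contra hne
  set s := ⨆ y, L y with hs
  have hsκ : s ≤ ENNReal.ofReal κ := by
    refine iSup_le fun y => (iInf_le _ 1).trans ?_
    simpa using J_gg_le hκ y
  have hsfin : s ≠ ∞ := (hsκ.trans_lt ENNReal.ofReal_lt_top).ne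
  have hspos : 0 < s.toReal := ENNReal.toReal_pos hne hsfin
  set r := 2 / s.toReal with hr
  have hrpos : 0 < r := by positivity
  -- L ≤ s/2 outside of the ball
  have hout : ∀ y : E3, y ∉ Metric.ball (0 : E3) r → L y ≤ s / 2 := by
    intro y hy
    have hy' : r ≤ ‖y‖ := by simpa using hy
    refine (iInf_le _ 0).trans ?_
    simp only [Function.iterate_zero, id_eq, gg]
    have h1 : (‖y‖ₑ)⁻¹ ≤ (ENNReal.ofReal r)⁻¹ := by
      rw [ENNReal.inv_le_inv, ← ofReal_norm]
      exact ENNReal.ofReal_le_ofReal hy'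
    refine h1.trans (le_of_eq ?_)
    rw [hr, ENNReal.ofReal_div_of_pos hspos, ENNReal.ofReal_toReal hsfin,
      ENNReal.inv_div (Or.inl hsfin) (Or.inl hne)]
    norm_num
  have hL2 : ∀ y, L y ≤ s / 2 + (Metric.ball (0 : E3) r).indicator (fun _ => s / 2) y := by
    intro y
    by_cases hy : y ∈ Metric.ball (0 : E3) r
    · rw [indicator_of_mem hy, ENNReal.add_halves]
      exact le_iSup L y
    · rw [indicator_of_notMem hy, add_zero]
      exact hout y hy
  set m0 := ∫⁻ u in Metric.ball (0 : E3) (2 * r), jk κ u with hm0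
  have hm1 : m0 < 1 := by
    have h1 : m0 + ∫⁻ u in (Metric.ball (0 : E3) (2 * r))ᶜ, jk κ u = 1 := by
      rw [hm0, lintegral_add_compl _ measurableSet_ball, lintegral_jk hκ]
    have h2 : ∫⁻ u in (Metric.ball (0 : E3) (2 * r))ᶜ, jk κ u ≠ 0 := by
      intro h0
      rw [lintegral_eq_zero_iff (measurable_jk κ)] at h0
      have h3 : ∀ᵐ u : E3 ∂(volume.restrict (Metric.ball (0 : E3) (2 * r))ᶜ), False := by
        filter_upwards [h0] with u hu
        exact jk_pos hκ u hu
      rw [Filter.eventually_false_iff_eq_bot, ae_eq_bot, Measure.restrict_eq_zero] at h3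
      have h4 : volume (univ : Set E3) < ∞ := by
        rw [← union_compl_self (Metric.ball (0 : E3) (2 * r))]
        refine (measure_union_le _ _).trans_lt ?_
        rw [h3, add_zero]
        exact measure_ball_lt_top
      exact (measure_univ_of_isAddLeftInvariant (μ := (volume : Measure E3)) ▸ h4).ne rfl
    rw [← h1]
    refine ENNReal.lt_add_right ?_ h2
    intro h3
    rw [h3, top_add] at h1
    exact ENNReal.top_ne_one h1
  have hle : ∀ y, L y ≤ s / 2 + s / 2 * m0 := by
    intro y
    by_cases hy : y ∈ Metric.ball (0 : E3) r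
    · refine (lim_le_J hκ y).trans ?_
      calc J κ L y ≤ ∫⁻ u, jk κ (y - u) * (s / 2 + (Metric.ball (0 : E3) r).indicator (fun _ => s / 2) u) :=
            lintegral_mono fun u => mul_le_mul_right (hL2 u) _
        _ = s / 2 + s / 2 * ∫⁻ u in Metric.ball (0 : E3) r, jk κ (y - u) := by
            have hm : Measurable fun u : E3 => jk κ (y - u) :=
              (measurable_jk κ).comp (measurable_const.sub measurable_id)
            simp_rw [mul_add]
            rw [lintegral_add_left (hm.mul_const _), lintegral_mul_const _ hm, lintegral_jk_sub hκ,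
              one_mul]
            congr 1
            rw [← lintegral_indicator measurableSet_ball, ← lintegral_const_mul _ (hm.indicator measurableSet_ball)]
            refine lintegral_congr fun u => ?_
            by_cases hu : u ∈ Metric.ball (0 : E3) r
            · rw [indicator_of_mem hu, indicator_of_mem hu, mul_comm]
            · rw [indicator_of_notMem hu, indicator_of_notMem hu, mul_zero, mul_zero]
        _ ≤ s / 2 + s / 2 * m0 := by
            refine add_le_add le_rfl (mul_le_mul_right ?_ _)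
            rw [hm0, ← lintegral_indicator measurableSet_ball, ← lintegral_indicator measurableSet_ball,
              ← lintegral_sub_left_eq_self
                ((Metric.ball (0 : E3) (2 * r)).indicator fun u => jk κ u) y]
            refine lintegral_mono fun u => ?_
            by_cases hu : u ∈ Metric.ball (0 : E3) r
            · have : y - u ∈ Metric.ball (0 : E3) (2 * r) := by
                rw [mem_ball_zero_iff] at *
                calc ‖y - u‖ ≤ ‖y‖ + ‖u‖ := norm_sub_le _ _
                  _ < 2 * r := by linarith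
              simp only [indicator_of_mem hu, indicator_of_mem this, le_refl]
            · rw [indicator_of_notMem hu]; exact bot_le
    · exact (hout y hy).trans le_self_add
  have hfinal : s ≤ s / 2 + s / 2 * m0 := iSup_le hle
  have h2fin : s / 2 ≠ ∞ := ENNReal.div_ne_top hsfin two_ne_zero
  have h2ne : s / 2 ≠ 0 := by
    rw [Ne, ENNReal.div_eq_zero_iff]; push Not; exact ⟨hne, ENNReal.ofNat_ne_top⟩
  have : s / 2 + s / 2 * m0 < s := by
    conv_rhs => rw [← ENNReal.add_halves s]
    refine ENNReal.add_lt_add_left h2fin ?_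
    conv_rhs => rw [← mul_one (s / 2)]
    exact ENNReal.mul_lt_mul_right h2ne h2fin hm1
  exact absurd hfinal (not_le.2 this)

/-! ### the Neumann series -/

theorem J_eq_lconv (κ : ℝ) (f : E3 → ℝ≥0∞) : J κ f = lconvolution f (jk κ) volume := by
  ext x
  simp only [J, lconvolution_def]
  refine lintegral_congr fun y => ?_
  rw [mul_comm, neg_add_eq_sub]

/-- convolution -/
noncomputable def cv (h f : E3 → ℝ≥0∞) : E3 → ℝ≥0∞ := fun x => ∫⁻ y, h (x - y) * f y

theorem cv_eq_lconv (h f : E3 → ℝ≥0∞) : cv h f = lconvolution f h volume := by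
  ext x
  simp only [cv, lconvolution_def]
  refine lintegral_congr fun y => ?_
  rw [mul_comm, neg_add_eq_sub]

theorem cv_J (κ : ℝ) {h f : E3 → ℝ≥0∞} (hh : Measurable h) (hf : Measurable f) :
    cv (J κ h) f = J κ (cv h f) := by
  rw [J_eq_lconv, J_eq_lconv, cv_eq_lconv, cv_eq_lconv]
  exact lconvolution_assoc hf hh (measurable_jk κ)

theorem cv_iter {κ : ℝ} (hκ : 0 < κ) {f : E3 → ℝ≥0∞} (hf : Measurable f) (m : ℕ) :
    cv ((J κ)^[m] (Yk κ)) f = fun x => ci κ * ((J κ)^[m + 1] f) x := by
  induction m with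
  | zero =>
    ext x
    simp only [Function.iterate_zero, id_eq, zero_add, Function.iterate_one, cv, J]
    rw [← lintegral_const_mul]
    · refine lintegral_congr fun y => ?_
      have : ci κ * ENNReal.ofReal (κ ^ 2 / (4 * Real.pi)) = 1 := by
        unfold ci
        rw [← ENNReal.ofReal_mul (by positivity)]
        have : 4 * Real.pi / κ ^ 2 * (κ ^ 2 / (4 * Real.pi)) = 1 := by
          have := Real.pi_pos; field_simp
        rw [this, ENNReal.ofReal_one]
      unfold jk
      rw [← mul_assoc, ← mul_assoc, this, one_mul]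
    · exact ((measurable_jk κ).comp (measurable_const.sub measurable_id)).mul hf
  | succ m ih =>
    rw [J_iter_succ, cv_J κ (measurable_J_iter κ m (measurable_Yk κ)) hf, ih]
    ext x
    rw [J_const_mul _ (measurable_J_iter κ _ hf), J_iter_succ κ (m + 1)]

theorem gg_series {κ : ℝ} (hκ : 0 < κ) (n : ℕ) :
    ∀ x, gg x = (∑ m ∈ Finset.range n, ((J κ)^[m] (Yk κ)) x) + ((J κ)^[n] gg) x := by
  have key : ∀ n x, ((J κ)^[n] gg) x = ((J κ)^[n] (Yk κ)) x + ((J κ)^[n + 1] gg) x := by
    intro n
    induction n with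
    | zero => intro x; simpa using gg_eq hκ x
    | succ n ih =>
      intro x
      rw [J_iter_succ κ n gg, J_iter_succ κ n (Yk κ), J_iter_succ κ (n + 1) gg,
        ← J_add (measurable_J_iter κ n (measurable_Yk κ))]
      congr 1
      ext y
      exact ih y
  induction n with
  | zero => intro x; simp
  | succ n ih =>
    intro x
    rw [Finset.sum_range_succ, add_assoc, ← key n x]
    exact ih x

theorem gg_tsum {κ : ℝ} (hκ : 0 < κ) {x : E3} (hx : x ≠ 0) :
    gg x = ∑' m, ((J κ)^[m] (Yk κ)) x := by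
  have h1 : Tendsto (fun n => ∑ m ∈ Finset.range n, ((J κ)^[m] (Yk κ)) x) atTop
      (𝓝 (∑' m, ((J κ)^[m] (Yk κ)) x)) := ENNReal.tendsto_nat_tsum _
  have h2 := h1.add (tendsto_J_gg hκ hx)
  rw [add_zero] at h2
  refine tendsto_nhds_unique ?_ h2
  refine tendsto_const_nhds.congr fun n => gg_series hκ n x

theorem GG_sum {κ : ℝ} (hκ : 0 < κ) {f : E3 → ℝ≥0∞} (hf : Measurable f) (x : E3) :
    GG f x = ci κ * ∑' m : ℕ, ((J κ)^[m + 1] f) x := by
  have h1 : GG f x = ∫⁻ y, ∑' m, ((J κ)^[m] (Yk κ)) (x - y) * f y := by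
    unfold GG
    refine lintegral_congr_ae ?_
    have hx : ∀ᵐ y : E3, y ≠ x := by
      rw [ae_iff]; simp
    filter_upwards [hx] with y hy
    rw [gg_tsum hκ (sub_ne_zero.2 (Ne.symm hy)), ENNReal.tsum_mul_right]
  rw [h1, lintegral_tsum]
  · rw [← ENNReal.tsum_mul_left]
    refine tsum_congr fun m => ?_
    exact congrFun (cv_iter hκ hf m) x
  · intro m
    exact (((measurable_J_iter κ m (measurable_Yk κ)).comp
      (measurable_const.sub measurable_id)).mul hf).aemeasurable

end Pool.Agent.H23.TF
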